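import Pool.Agent.ETCD2.T1

/-!
helper62's THEOREM AN-M (note 2587): thin symbols at an element of minimal rank.
Part 1: the basic facts, steps (0)-(10) (helper24).
-/

set_option autoImplicit false
set_option linter.unusedSectionVars false
set_option linter.unusedVariables false

namespace Pool.Agent.ETCD2.AN

open Pool.Agent.ETCD2.TT (two eo oe aax xaa addl Sl cnt cnt_eq)

variable {V B : Type} [AddCommGroup V] [Module (ZMod 2) V] [AddCommGroup B] [Module (ZMod 2) B]

/-- `V_v` -/
def Kx (q : V →ₗ[ZMod 2] V →ₗ[ZMod 2] B) (v : V) : Submodule (ZMod 2) V := LinearMap.ker (q v)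

variable {q : V →ₗ[ZMod 2] V →ₗ[ZMod 2] B} {c : B}

theorem mem_Kx {v w : V} : w ∈ Kx q v ↔ q v w = 0 := LinearMap.mem_ker

/-- `c`-linkage -/
structure CL (q : V →ₗ[ZMod 2] V →ₗ[ZMod 2] B) (c : B) : Prop where
  alt : ∀ v, q v v = 0
  c0 : c ≠ 0
  link : ∀ s t, Sl q c s → Sl q c t → ∃ r, q s r = c ∧ q t r = c

theorem CL.symm (L : CL q c) (a b : V) : q a b = q b a := by
  have h := L.alt (a + b)
  rw [addl, map_add, map_add, L.alt a, L.alt b, zero_add, add_zero] at h
  exact eo h

theorem CL.sl (L : CL q c) {s t : V} (h : q s t = c) : Sl q c s := ⟨t, h⟩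

theorem CL.sl' (L : CL q c) {s t : V} (h : q s t = c) : Sl q c t := ⟨s, by rw [L.symm]; exact h⟩

/-- symmetry of the counts -/
theorem CL.cnt_swap [Finite V] (L : CL q c) {s t : V} (hs : Sl q c s) (ht : Sl q c t) :
    cnt q s t 0 c = cnt q s t c 0 := by
  by_cases h : Sl q c (s + t)
  · obtain ⟨r, h1, h2⟩ := L.link t (s + t) ht h
    obtain ⟨r', h1', h2'⟩ := L.link s (s + t) hs h
    rw [addl, h1] at h2
    rw [addl, h1'] at h2'
    rw [cnt_eq (show q s r = 0 from add_eq_right.1 h2) h1,
      cnt_eq h1' (show q t r' = 0 from add_eq_left.1 h2')]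
  · have e1 : IsEmpty {r : V // q s r = 0 ∧ q t r = c} :=
      ⟨fun r => h ⟨r.1, by rw [addl, r.2.1, r.2.2, zero_add]⟩⟩
    have e2 : IsEmpty {r : V // q s r = c ∧ q t r = 0} :=
      ⟨fun r => h ⟨r.1, by rw [addl, r.2.1, r.2.2, add_zero]⟩⟩
    unfold cnt
    rw [Nat.card_of_isEmpty, Nat.card_of_isEmpty]

/-- thin is global -/
theorem CL.thin1 [Finite V] (L : CL q c) {x : V} (hx : Sl q c x)
    (thin : ∀ v, Sl q c v → q x v = 0 → v = x) {t s : V} (ht : Sl q c t) (hs : Sl q c s)
    (hts : q t s = 0) : s = t := by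
  classical
  have := Fintype.ofFinite V
  have key1 : ∑ s : V, (if q t s = 0 then cnt q s x c c else 0) =
      ∑ r : V, (if q x r = c then cnt q t r 0 c else 0) := by
    have e1 : ∀ s : V, (if q t s = 0 then cnt q s x c c else 0) =
        ∑ r : V, (if q t s = 0 ∧ q s r = c ∧ q x r = c then 1 else 0) := by
      intro s
      by_cases h : q t s = 0
      · simp only [h, if_true, true_and]
        rw [cnt, Nat.card_eq_fintype_card, Fintype.card_subtype, Finset.card_filter]
      · simp only [h, if_false, false_and, Finset.sum_const_zero]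
    have e2 : ∀ r : V, (if q x r = c then cnt q t r 0 c else 0) =
        ∑ s : V, (if q t s = 0 ∧ q s r = c ∧ q x r = c then 1 else 0) := by
      intro r
      by_cases h : q x r = c
      · simp only [h, if_true, and_true]
        rw [cnt, Nat.card_eq_fintype_card, Fintype.card_subtype, Finset.card_filter]
        refine Finset.sum_congr rfl fun s _ => ?_
        rw [L.symm r s]
      · simp only [h, if_false, and_false, Finset.sum_const_zero]
    simp only [e1, e2]
    exact Finset.sum_comm
  have key2 : ∑ r : V, (if q x r = c then cnt q t r c 0 else 0) =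
      ∑ s : V, (if q t s = c then cnt q s x 0 c else 0) := by
    have e1 : ∀ s : V, (if q t s = c then cnt q s x 0 c else 0) =
        ∑ r : V, (if q t s = c ∧ q s r = 0 ∧ q x r = c then 1 else 0) := by
      intro s
      by_cases h : q t s = c
      · simp only [h, if_true, true_and]
        rw [cnt, Nat.card_eq_fintype_card, Fintype.card_subtype, Finset.card_filter]
      · simp only [h, if_false, false_and, Finset.sum_const_zero]
    have e2 : ∀ r : V, (if q x r = c then cnt q t r c 0 else 0) =
        ∑ s : V, (if q t s = c ∧ q s r = 0 ∧ q x r = c then 1 else 0) := by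
      intro r
      by_cases h : q x r = c
      · simp only [h, if_true, and_true]
        rw [cnt, Nat.card_eq_fintype_card, Fintype.card_subtype, Finset.card_filter]
        refine Finset.sum_congr rfl fun s _ => ?_
        rw [L.symm r s]
      · simp only [h, if_false, and_false, Finset.sum_const_zero]
    simp only [e1, e2]
    exact Finset.sum_comm
  have key3 : ∑ r : V, (if q x r = c then cnt q t r 0 c else 0) =
      ∑ r : V, (if q x r = c then cnt q t r c 0 else 0) := by
    refine Finset.sum_congr rfl fun r _ => ?_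
    by_cases h : q x r = c
    · simp only [h, if_true]
      exact L.cnt_swap ht (L.sl' h)
    · simp only [h, if_false]
  have key4 : ∑ s : V, (if q t s = c then cnt q s x 0 c else 0) =
      ∑ s : V, (if q t s = c then cnt q s x c 0 else 0) := by
    refine Finset.sum_congr rfl fun s _ => ?_
    by_cases h : q t s = c
    · simp only [h, if_true]
      exact L.cnt_swap (L.sl' h) hx
    · simp only [h, if_false]
  have key5 : ∑ s : V, (if q t s = c then cnt q s x c 0 else 0) = cnt q t x c c := by
    rw [cnt, Nat.card_eq_fintype_card, Fintype.card_subtype, Finset.card_filter]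
    refine Finset.sum_congr rfl fun s _ => ?_
    by_cases h : q t s = c
    · simp only [h, if_true, true_and]
      by_cases h' : q x s = c
      · simp only [h', if_true]
        rw [cnt, Nat.card_eq_one_iff_unique]
        refine ⟨⟨fun a b => ?_⟩, ⟨⟨x, by rw [L.symm]; exact h', L.alt x⟩⟩⟩
        have ha := thin a.1 (L.sl' a.2.1) a.2.2
        have hb := thin b.1 (L.sl' b.2.1) b.2.2
        exact Subtype.ext (ha.trans hb.symm)
      · simp only [h', if_false]
        have : IsEmpty {r : V // q s r = c ∧ q x r = 0} := by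
          refine ⟨fun a => h' ?_⟩
          have ha := thin a.1 (L.sl' a.2.1) a.2.2
          rw [L.symm, ← ha]; exact a.2.1
        rw [cnt, Nat.card_of_isEmpty]
    · simp only [h, if_false, false_and]
  have main : ∑ s : V, (if q t s = 0 then cnt q s x c c else 0) = cnt q t x c c :=
    key1.trans (key3.trans (key2.trans (key4.trans key5)))
  by_contra hne
  have pos : 0 < cnt q s x c c := by
    obtain ⟨r, h1, h2⟩ := L.link s x hs hx
    have : Nonempty {r : V // q s r = c ∧ q x r = c} := ⟨⟨r, h1, h2⟩⟩
    exact Nat.card_pos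
  have h1 : cnt q s x c c + cnt q t x c c ≤
      ∑ s : V, (if q t s = 0 then cnt q s x c c else 0) := by
    have h2 : ∑ v ∈ ({s, t} : Finset V), (if q t v = 0 then cnt q v x c c else 0) ≤
        ∑ v : V, (if q t v = 0 then cnt q v x c c else 0) :=
      Finset.sum_le_sum_of_subset (Finset.subset_univ _)
    rw [Finset.sum_pair hne, if_pos hts, if_pos (L.alt t)] at h2
    exact h2
  omega

/-- a thin symbol -/
structure Th (q : V →ₗ[ZMod 2] V →ₗ[ZMod 2] B) (c : B) : Prop extends CL q c where
  thin : ∀ t s, Sl q c t → Sl q c s → q t s = 0 → s = t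

namespace Th

/-- slots `s, t, s + t` of `c` give `q s t = c` -/
theorem adj (T : Th q c) {s t : V} (hs : Sl q c s) (ht : Sl q c t) (hst : Sl q c (s + t)) :
    q s t = c := by
  obtain ⟨r, h1, h2⟩ := T.link t (s + t) ht hst
  rw [addl, h1] at h2
  have h3 : q s r = 0 := add_eq_right.1 h2
  have h4 := T.thin s r hs (T.sl' h1) h3
  subst h4
  rw [T.symm]; exact h1

/-- `q s t = c` implies `V_s ∩ V_t = 0` -/
theorem disj (T : Th q c) {s t v : V} (h : q s t = c) (h1 : q s v = 0) (h2 : q t v = 0) :
    v = 0 := by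
  have h3 : Sl q c (s + v) := T.sl' (s := t) (by rw [map_add, h2, add_zero, T.symm, h])
  have h4 := T.thin s (s + v) (T.sl h) h3 (by rw [map_add, T.alt, h1, add_zero])
  exact add_eq_left.1 h4

/-- (3): `z ∈ S ∩ X_d`, `z' ∈ S ∩ X_{c+d}` are adjacent -/
theorem zz (T : Th q c) {x z z' : V} (hz : Sl q c z) (hz' : Sl q c z') (h : q x (z + z') = c) :
    q z z' = c := T.adj hz hz' (T.sl' h)

/-- (3): the directions -/
theorem dir (T : Th q c) {x z z' m : V} (hz : Sl q c z) (hz' : Sl q c z')
    (h : q x (z + z') = c) (hm : q x m = 0) : Sl q c (z + m) ↔ q z' m = 0 := by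
  have h1 := T.zz hz hz' h
  constructor
  · intro h2
    have h3 : q (z + m) z' = c := by
      apply T.zz h2 hz' (x := x)
      have : z + m + z' = z + z' + m := by abel
      rw [this, map_add, h, hm, add_zero]
    rw [addl, h1, T.symm m z'] at h3
    exact add_eq_left.1 h3
  · intro h2
    refine T.sl (t := z') ?_
    rw [addl, h1, T.symm m z', h2, add_zero]

/-- (4): the two directions commute -/
theorem four (T : Th q c) {x z z' m m' : V} (hz : Sl q c z) (hz' : Sl q c z')
    (h : q x (z + z') = c) (hm : q x m = 0) (hm' : q x m' = 0) (h1 : q z' m = 0)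
    (h2 : q z m' = 0) : q m m' = 0 := by
  have a1 : Sl q c (z + m) := (T.dir hz hz' h hm).2 h1
  have a2 : Sl q c (z' + m') := (T.dir hz' hz (by rw [add_comm]; exact h) hm').2 h2
  have a3 := T.zz a1 a2 (x := x) (by
    have : z + m + (z' + m') = z + z' + (m + m') := by abel
    rw [this, map_add, h, map_add, hm, hm', add_zero, add_zero])
  rw [addl, map_add, map_add, T.zz hz hz' h, h2, T.symm m z', h1, zero_add, add_zero] at a3
  exact add_eq_left.1 a3

/-- (5) (first half): `c ∉ J_t` -/
theorem five0 (T : Th q c) {x t v : V} (hx : Sl q c x) (ht : Sl q c t) (hxt : q x t ≠ c)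
    (hv : q t v = 0) : q x v ≠ c := by
  intro h
  exact hxt (T.adj hx ht (T.sl (t := v) (by rw [addl, h, hv, add_zero])))

end Th

/-- powers of two -/
theorem pow2 {W : Type} [AddCommGroup W] [Module (ZMod 2) W] [Finite W] :
    ∃ n : ℕ, Nat.card W = 2 ^ n := by
  have := Module.natCard_eq_pow_finrank (K := ZMod 2) (V := W)
  rw [Nat.card_zmod] at this
  exact ⟨_, this⟩

theorem half_of_lt {a b : ℕ} (ha : ∃ n : ℕ, a = 2 ^ n) (hb : ∃ n : ℕ, b = 2 ^ n) (h : a < b) :
    2 * a ≤ b := by
  obtain ⟨m, rfl⟩ := ha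
  obtain ⟨n, rfl⟩ := hb
  have h1 : m < n := (Nat.pow_lt_pow_iff_right (by norm_num)).1 h
  calc 2 * 2 ^ m = 2 ^ (m + 1) := by ring
    _ ≤ 2 ^ n := Nat.pow_le_pow_right (by norm_num) h1

end Pool.Agent.ETCD2.AN
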