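import Pool.Agent.ETCD2.AN1

/-!
helper62's THEOREM AN-M (note 2587): steps (6)-(10) (helper24).
-/

set_option autoImplicit false
set_option linter.unusedSectionVars false
set_option linter.unusedVariables false

namespace Pool.Agent.ETCD2.AN

open Pool.Agent.ETCD2.TT (two eo oe aax xaa addl Sl cnt cnt_eq)

variable {V B : Type} [AddCommGroup V] [Module (ZMod 2) V] [AddCommGroup B] [Module (ZMod 2) B]
variable {q : V →ₗ[ZMod 2] V →ₗ[ZMod 2] B} {c : B} {M : ℕ}

/-- a thin symbol, all centralizers have at most `M` elements -/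
structure MX (q : V →ₗ[ZMod 2] V →ₗ[ZMod 2] B) (c : B) (M : ℕ) : Prop where
  th : Th q c
  mx : ∀ v, v ≠ 0 → Nat.card (Kx q v) ≤ M

/-- `x, t ∈ S`, `|V_x| = M`, `q x t` not in `<c>` -/
structure P (q : V →ₗ[ZMod 2] V →ₗ[ZMod 2] B) (c : B) (M : ℕ) (x t : V) : Prop where
  sx : Sl q c x
  cx : Nat.card (Kx q x) = M
  st : Sl q c t
  n0 : q x t ≠ 0
  nc : q x t ≠ c

/-- `V_x ∩ V_t` -/
def D (q : V →ₗ[ZMod 2] V →ₗ[ZMod 2] B) (x t : V) : Submodule (ZMod 2) V := Kx q x ⊓ Kx q t

theorem mem_D {x t m : V} : m ∈ D q x t ↔ q x m = 0 ∧ q t m = 0 := Iff.rfl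

theorem D_comm (x t : V) : D q x t = D q t x := inf_comm _ _

variable [Finite V]

theorem pow_mul {a b : ℕ} (ha : ∃ n : ℕ, a = 2 ^ n) (hb : ∃ n : ℕ, b = 2 ^ n) :
    ∃ n : ℕ, a * b = 2 ^ n := by
  obtain ⟨m, rfl⟩ := ha
  obtain ⟨n, rfl⟩ := hb
  exact ⟨m + n, by rw [pow_add]⟩

/-- (6) -/
theorem MX.six (X : MX q c M) {x t : V} (p : P q c M x t) : 4 * Nat.card (D q x t) ≤ M := by
  have T := X.th
  obtain ⟨y, hy1, hy2⟩ := T.link x t p.sx p.st
  have hne : x + t ≠ 0 := by
    intro h
    have h1 : x = t := eo h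
    exact p.n0 (by rw [← h1, T.alt])
  refine le_trans ?_ (X.mx (x + t) hne)
  let f : (D q x t) × (ZMod 2 × ZMod 2) → Kx q (x + t) := fun w =>
    ⟨w.1 + (w.2.1 • y + w.2.2 • (x + t)), mem_Kx.2 (by
      have h1 : q (x + t) (w.1 : V) = 0 := by rw [addl, w.1.2.1, w.1.2.2, add_zero]
      rw [map_add (q (x + t)), map_add (q (x + t)), map_smul, map_smul, h1, T.alt, addl, hy1,
        hy2, two, smul_zero, smul_zero, add_zero, add_zero])⟩
  have inj : Function.Injective f := by
    rintro ⟨m, i, j⟩ ⟨m', i', j'⟩ h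
    have h1 : (m : V) + (i • y + j • (x + t)) = m' + (i' • y + j' • (x + t)) :=
      congrArg Subtype.val h
    have h2 := congrArg (q x) h1
    have hm : q x m = 0 := m.2.1
    have hm' : q x m' = 0 := m'.2.1
    have e1 : q x (x + t) = q x t := by rw [map_add, T.alt, zero_add]
    simp only [map_add (q x) (m : V), map_add (q x) (m' : V), map_add (q x) (i • y),
      map_add (q x) (i' • y), map_smul, hm, hm', zero_add, hy1, e1] at h2
    have z2 : ∀ a : ZMod 2, a = 0 ∨ a = 1 := by decide
    have e2 : (i - i') • c + (j - j') • q x t = 0 := by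
      rw [sub_smul, sub_smul]
      have : i • c - i' • c + (j • q x t - j' • q x t) =
        (i • c + j • q x t) - (i' • c + j' • q x t) := by abel
      rw [this, h2, sub_self]
    have e3 : i = i' ∧ j = j' := by
      rcases z2 (i - i') with h3 | h3 <;> rcases z2 (j - j') with h4 | h4 <;>
        rw [h3, h4] at e2 <;> simp only [zero_smul, one_smul, zero_add, add_zero] at e2
      · exact ⟨sub_eq_zero.1 h3, sub_eq_zero.1 h4⟩
      · exact absurd e2 p.n0
      · exact absurd e2 T.c0
      · exact absurd (eo e2).symm p.nc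
    obtain ⟨rfl, rfl⟩ := e3
    have e4 : m = m' := Subtype.ext (add_right_cancel h1)
    rw [e4]
  have := Nat.card_le_card_of_injective f inj
  rw [Nat.card_prod, Nat.card_prod, Nat.card_zmod] at this
  omega

/-- (9) -/
theorem MX.nine (X : MX q c M) {x t z : V} (p : P q c M x t) (hz : Sl q c z)
    (hxz : q x z = c + q x t) : 2 * (Nat.card (D q x t) * Nat.card (D q x z)) ≤ M := by
  have T := X.th
  have htz : q x (t + z) = c := by
    rw [map_add, hxz]
    have : q x t + (c + q x t) = c + (q x t + q x t) := by abel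
    rw [this, two, add_zero]
  have tz : q t z = c := T.zz p.st hz htz
  let f : (D q x t) × (D q x z) → Kx q x := fun w =>
    ⟨w.1 + w.2, mem_Kx.2 (by rw [map_add, w.1.2.1, w.2.2.1, add_zero])⟩
  have inj : Function.Injective f := by
    rintro ⟨a, b⟩ ⟨a', b'⟩ h
    have h1 : (a : V) + b = a' + b' := congrArg Subtype.val h
    have h2 : (a : V) + a' = b + b' := by
      have : (a : V) + a' = (a + b) + (a' + b) := by
        have : (a : V) + b + (a' + b) = a + a' + (b + b) := by abel
        rw [this, two, add_zero]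
      rw [this, h1]
      have : (a' : V) + b' + (a' + b) = b + b' + (a' + a') := by abel
      rw [this, two, add_zero]
    have h3 : (a : V) + a' = 0 := by
      refine T.disj tz ?_ ?_
      · rw [map_add, a.2.2, a'.2.2, add_zero]
      · rw [h2, map_add, b.2.2, b'.2.2, add_zero]
    have e1 : a = a' := Subtype.ext (eo h3)
    rw [h3] at h2
    have e2 : b = b' := Subtype.ext (eo h2.symm)
    rw [e1, e2]
  have hle := Nat.card_le_card_of_injective f inj
  rw [Nat.card_prod, p.cx] at hle
  refine half_of_lt (pow_mul pow2 pow2) (by rw [← p.cx]; exact pow2) (lt_of_le_of_ne hle ?_)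
  intro heq
  have bij := inj.bijective_of_nat_card_le (by rw [Nat.card_prod, heq, p.cx])
  obtain ⟨⟨a, b⟩, hab⟩ := bij.2 ⟨x, mem_Kx.2 (T.alt x)⟩
  have hx : (a : V) + b = x := congrArg Subtype.val hab
  by_cases a0 : (a : V) = 0
  · rw [a0, zero_add] at hx
    have h1 : q z x = 0 := by rw [← hx]; exact b.2.2
    rw [T.symm, hxz] at h1
    exact p.nc (eo h1).symm
  · -- `V_a` contains `V_x` and `t`
    have h1 : Kx q x ≤ Kx q (a : V) := by
      intro k hk
      obtain ⟨⟨a', b'⟩, hk'⟩ := bij.2 ⟨k, hk⟩
      have hk'' : (a' : V) + b' = k := congrArg Subtype.val hk'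
      have e1 : ∀ (u w : V), u ∈ D q x t → w ∈ D q x z → q u w = 0 := by
        intro u w hu hw
        exact T.symm u w ▸ T.four p.st hz htz hw.1 hu.1 hw.2 hu.2
      have e2 : q (a : V) a' = 0 := by
        have h3 : q x (a' : V) = 0 := a'.2.1
        have h4 : q x (a' : V) = q (a : V) a' + q (b : V) a' := by
          rw [← addl]; exact congrArg (fun w => q w (a' : V)) hx.symm
        rw [h4, T.symm (b : V) a', e1 a' b a'.2 b.2, add_zero] at h3
        exact h3
      rw [mem_Kx, ← hk'', map_add, e2, e1 a b' a.2 b'.2, add_zero]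
    have h2 : t ∈ Kx q (a : V) := by rw [mem_Kx, T.symm]; exact a.2.2
    have h3 : t ∉ Kx q x := fun h => p.n0 (mem_Kx.1 h)
    have h4 : Nat.card (Kx q x) < Nat.card (Kx q (a : V)) := by
      apply Set.ncard_lt_ncard (s := (Kx q x : Set V)) (t := (Kx q (a : V) : Set V))
      exact ⟨h1, fun h => h3 (h h2)⟩
    have h5 := X.mx (a : V) a0
    rw [p.cx] at h4
    omega

/-- adjacent to `t`, not in `X_{c+d}`: `V_x ∩ V_z = 0` -/
theorem MX.subA (X : MX q c M) {x t z m : V} (p : P q c M x t)
    (hmax : ∀ t', P q c M x t' → Nat.card (D q x t') ≤ Nat.card (D q x t)) (htz : q t z = c)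
    (hxz : q x z ≠ c + q x t) (h1 : q x m = 0) (h2 : q z m = 0) : m = 0 := by
  have T := X.th
  have zS : Sl q c z := T.sl' htz
  by_cases hc : q x z = c
  · exact T.disj hc h1 h2
  have hx0 : q x z ≠ 0 := by
    intro h
    have h3 := T.thin x z p.sx zS h
    rw [h3, T.symm] at htz
    exact p.nc htz
  obtain ⟨y0, hy1, hy2⟩ := T.link x t p.sx p.st
  have hd : q x z ≠ q x t := by
    intro h
    refine T.five0 p.sx p.st p.nc (v := z + y0 + t) ?_ ?_
    · rw [map_add, map_add, htz, hy2, T.alt, two, add_zero]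
    · rw [map_add, map_add, h, hy1]
      have : q x t + c + q x t = c + (q x t + q x t) := by abel
      rw [this, two, add_zero]
  -- `z0 = y0 + t`
  have z0S : Sl q c (y0 + t) := T.sl' (s := t) (by rw [map_add, hy2, T.alt, add_zero])
  have hxz0 : q x (y0 + t) = c + q x t := by rw [map_add, hy1]
  have tz0 : q x (t + (y0 + t)) = c := by
    have : t + (y0 + t) = y0 + (t + t) := by abel
    rw [this, two, add_zero, hy1]
  have i1 : q (y0 + t) m = 0 := by
    refine (T.dir p.st z0S tz0 h1).1 (T.sl' (s := z) ?_)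
    rw [map_add, h2, T.symm, htz, add_zero]
  -- `r0 = z + t`, `z3 = r0 + y1`
  have r0S : Sl q c (z + t) := T.sl' (s := t) (by rw [map_add, htz, T.alt, add_zero])
  obtain ⟨y1, g1, g2⟩ := T.link x (z + t) p.sx r0S
  have z3S : Sl q c (z + t + y1) := T.sl' (s := z + t) (by rw [map_add, T.alt, g2, zero_add])
  have hxz3 : q x (z + t + y1) = q x z + q x t + c := by rw [map_add, map_add, g1]
  have p3 : P q c M x (z + t + y1) := by
    refine ⟨p.sx, p.cx, z3S, ?_, ?_⟩
    · rw [hxz3]
      intro h
      apply hxz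
      have : q x z = (q x z + q x t + c) + (c + q x t) := by
        have : q x z + q x t + c + (c + q x t) = q x z + (q x t + q x t) + (c + c) := by abel
        rw [this, two, two, add_zero, add_zero]
      rw [this, h, zero_add]
    · rw [hxz3]
      intro h
      apply hd
      exact eo (add_eq_right.1 h)
  have e3 : q x (z + t + (z + t + y1)) = c := by rw [xaa, g1]
  have hle : D q x t ≤ D q x (z + t + y1) := by
    intro m' hm'
    refine ⟨hm'.1, mem_Kx.2 ((T.dir r0S z3S e3 (mem_Kx.1 hm'.1)).1 (T.sl' (s := t) ?_))⟩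
    rw [map_add, map_add, htz, T.alt, mem_Kx.1 hm'.2, add_zero, add_zero]
  have heq : D q x t = D q x (z + t + y1) := by
    refine SetLike.coe_injective (Set.eq_of_subset_of_ncard_le hle ?_ (Set.toFinite _))
    exact hmax _ p3
  have i2 : q t m = 0 := by
    have h3 : m ∈ D q x (z + t + y1) := by
      refine ⟨mem_Kx.2 h1, mem_Kx.2 ((T.dir r0S z3S e3 h1).1 (T.sl' (s := z) ?_))⟩
      rw [map_add, map_add, T.alt, h2, T.symm z t, htz, zero_add, add_zero]
    rw [← heq] at h3
    exact h3.2
  exact T.disj (s := t) (t := y0 + t) (by rw [map_add, hy2, T.alt, add_zero]) i2 i1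

/-- adjacent to `t`, in `X_{c+d}`: `V_x ∩ V_z` is independent of `z` -/
theorem MX.subB (X : MX q c M) {x t z z' : V} (p : P q c M x t) (hz : Sl q c z)
    (hz' : Sl q c z') (h : q x (t + z) = c) (h' : q x (t + z') = c) : D q x z = D q x z' := by
  have T := X.th
  ext m
  rw [mem_D, mem_D]
  refine and_congr_right fun hm => ?_
  rw [← T.dir p.st hz h hm, ← T.dir p.st hz' h' hm]

/-- cardinality of a coset of `V_s ∩ V_t` -/
theorem cnt_D {s t r : V} {a b : B} (h1 : q s r = a) (h2 : q t r = b) :
    cnt q s t a b = Nat.card (D q s t) := by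
  rw [cnt_eq h1 h2]
  rfl

/-- **(10)** -/
theorem MX.ten (X : MX q c M) {x t : V} (p : P q c M x t)
    (hmax : ∀ t', P q c M x t' → Nat.card (D q x t') ≤ Nat.card (D q x t)) :
    Nat.card (Kx q t) = M := by
  classical
  have := Fintype.ofFinite V
  have T := X.th
  obtain ⟨y0, hy1, hy2⟩ := T.link x t p.sx p.st
  have z0S : Sl q c (y0 + t) := T.sl' (s := t) (by rw [map_add, hy2, T.alt, add_zero])
  have hxz0 : q x (y0 + t) = c + q x t := by rw [map_add, hy1]
  have tz0 : q x (t + (y0 + t)) = c := by
    have : t + (y0 + t) = y0 + (t + t) := by abel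
    rw [this, two, add_zero, hy1]
  have t0 : t ≠ 0 := by
    rintro rfl
    exact p.n0 (map_zero _)
  set k := Nat.card (D q x (y0 + t)) with hk
  have kpos : 0 < k := Nat.card_pos
  -- lower bound
  have low : M ≤ ∑ z : V, (if q t z = c then cnt q x z c c else 0) := by
    have e1 : M = ∑ y : V, (if q x y = c then 1 else 0) := by
      rw [← p.cx, ← Finset.card_filter, ← Fintype.card_subtype, ← Nat.card_eq_fintype_card]
      refine Nat.card_congr
        { toFun := fun r => ⟨r.1 + y0, by rw [map_add, mem_Kx.1 r.2, hy1, zero_add]⟩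
          invFun := fun r => ⟨r.1 + y0, mem_Kx.2 (by rw [map_add, r.2, hy1, two])⟩
          left_inv := fun r => Subtype.ext (aax _ _)
          right_inv := fun r => Subtype.ext (aax _ _) }
    have e2 : ∀ z : V, (if q t z = c then cnt q x z c c else 0) =
        ∑ y : V, (if q x y = c ∧ q t z = c ∧ q z y = c then 1 else 0) := by
      intro z
      by_cases h : q t z = c
      · simp only [h, if_true, true_and]
        rw [cnt, Nat.card_eq_fintype_card, Fintype.card_subtype, Finset.card_filter]
      · simp only [h, if_false, false_and, and_false, Finset.sum_const_zero]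
    rw [e1]
    simp only [e2]
    rw [Finset.sum_comm]
    refine Finset.sum_le_sum fun y _ => ?_
    by_cases h : q x y = c
    · obtain ⟨r, g1, g2⟩ := T.link y t (T.sl' h) p.st
      rw [if_pos h]
      refine le_trans ?_ (Finset.single_le_sum (f := fun z =>
        if q x y = c ∧ q t z = c ∧ q z y = c then 1 else 0) (fun _ _ => Nat.zero_le _)
        (Finset.mem_univ r))
      rw [if_pos ⟨h, g2, by rw [T.symm]; exact g1⟩]
    · rw [if_neg h]
      exact Nat.zero_le _
  -- upper bound
  have up : ∑ z : V, (if q t z = c then cnt q x z c c else 0) ≤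
      ∑ z : V, ((if q t z = c then 1 else 0) +
        (if q t z = c ∧ q x z = c + q x t then (k - 1) else 0)) := by
    refine Finset.sum_le_sum fun z _ => ?_
    by_cases h : q t z = c
    · have zS : Sl q c z := T.sl' h
      obtain ⟨r, g1, g2⟩ := T.link x z p.sx zS
      rw [if_pos h, if_pos h, cnt_D g1 g2]
      by_cases h' : q x z = c + q x t
      · rw [if_pos ⟨h, h'⟩]
        have e : D q x z = D q x (y0 + t) := X.subB p zS z0S (by
          rw [map_add, h']
          have : q x t + (c + q x t) = c + (q x t + q x t) := by abel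
          rw [this, two, add_zero]) tz0
        rw [e]
        omega
      · rw [if_neg (fun h3 => h' h3.2), add_zero]
        have : Subsingleton (D q x z) := ⟨fun a b => by
          apply Subtype.ext
          have ha := X.subA p hmax h h' a.2.1 a.2.2
          have hb := X.subA p hmax h h' b.2.1 b.2.2
          rw [ha, hb]⟩
        exact Finite.card_le_one_iff_subsingleton.2 this
    · rw [if_neg h, if_neg h, if_neg (fun h3 => h h3.1)]
  have e1 : ∑ z : V, (if q t z = c then 1 else 0) = Nat.card (Kx q t) := by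
    rw [← Finset.card_filter, ← Fintype.card_subtype, ← Nat.card_eq_fintype_card]
    exact (Nat.card_congr
      { toFun := fun r => ⟨r.1 + y0, by rw [map_add, mem_Kx.1 r.2, hy2, zero_add]⟩
        invFun := fun r => ⟨r.1 + y0, mem_Kx.2 (by rw [map_add, r.2, hy2, two])⟩
        left_inv := fun r => Subtype.ext (aax _ _)
        right_inv := fun r => Subtype.ext (aax _ _) }).symm
  have e2 : ∑ z : V, (if q t z = c ∧ q x z = c + q x t then (k - 1) else 0) =
      Nat.card (D q x t) * (k - 1) := by
    have h1 : ∑ z : V, (if q t z = c ∧ q x z = c + q x t then (k - 1) else 0) =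
        cnt q t x c (c + q x t) * (k - 1) := by
      rw [cnt, Nat.card_eq_fintype_card, Fintype.card_subtype, ← Finset.sum_filter,
        Finset.sum_const, smul_eq_mul]
    rw [h1, cnt_D (r := y0 + t) (by rw [map_add, hy2, T.alt, add_zero]) hxz0, D_comm]
  rw [Finset.sum_add_distrib, e1, e2] at up
  have h9 := X.nine p z0S hxz0
  rw [← hk] at h9
  have hle := X.mx t t0
  rcases lt_or_eq_of_le hle with hlt | heq
  · exfalso
    have h3 := half_of_lt pow2 (by rw [← p.cx]; exact pow2) hlt
    have dpos : 0 < Nat.card (D q x t) := Nat.card_pos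
    have h4 : Nat.card (D q x t) * (k - 1) + Nat.card (D q x t) = Nat.card (D q x t) * k := by
      obtain ⟨k', hk'⟩ := Nat.exists_eq_succ_of_ne_zero kpos.ne'
      rw [hk']
      simp only [Nat.succ_eq_add_one, Nat.add_sub_cancel]
      ring
    omega
  · exact heq

end Pool.Agent.ETCD2.AN
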