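import Mathlib

/-!
helper62's THEOREM AN-M (note 2587): the linear space argument (13), abstract form (helper24).
-/

set_option autoImplicit false
set_option linter.unusedSectionVars false
set_option linter.unusedVariables false

namespace Pool.Agent.ETCD2.AN

section sums
variable {V : Type} [AddCommGroup V] [Module (ZMod 2) V]

theorem add_self' (v : V) : v + v = 0 := ZModModule.add_self v

/-- the sum over a finite set which is invariant under two different nonzero translations -/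
theorem sum0 (A : Finset V) {a b : V} (a0 : a ≠ 0) (b0 : b ≠ 0) (ab : a ≠ b)
    (ha : ∀ z ∈ A, z + a ∈ A) (hb : ∀ z ∈ A, z + b ∈ A) : ∑ z ∈ A, z = 0 := by
  rw [← Module.forall_dual_apply_eq_zero_iff (ZMod 2)]
  intro φ
  rw [map_sum]
  have key : ∀ k : V, k ≠ 0 → φ k = 0 → (∀ z ∈ A, z + k ∈ A) → ∑ z ∈ A, φ z = 0 := by
    intro k k0 hk hA
    refine Finset.sum_involution (fun z _ => z + k) ?_ ?_ ?_ ?_
    · intro z _
      rw [map_add, hk, add_zero]
      exact CharTwo.add_self_eq_zero _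
    · intro z _ _ h
      exact k0 (add_eq_left.1 h)
    · intro z hz
      exact hA z hz
    · intro z _
      show z + k + k = z
      rw [add_assoc, add_self', add_zero]
  have z2 : ∀ a : ZMod 2, a = 0 ∨ a = 1 := by decide
  rcases z2 (φ a) with h | h
  · exact key a a0 h ha
  · rcases z2 (φ b) with h' | h'
    · exact key b b0 h' hb
    · refine key (a + b) (fun h3 => ab ?_) ?_ ?_
      · have : a + b + b = 0 + b := by rw [h3]
        rwa [add_assoc, add_self', add_zero, zero_add] at this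
      · rw [map_add, h, h']; decide
      · intro z hz
        rw [← add_assoc]
        exact hb _ (ha z hz)

/-- a finite `F₂`-space with at least four elements -/
theorem exists_two {W : Submodule (ZMod 2) V} [Finite V] (h : 4 ≤ Nat.card W) :
    ∃ a ∈ W, ∃ b ∈ W, a ≠ 0 ∧ b ≠ 0 ∧ a ≠ b := by
  classical
  have := Fintype.ofFinite W
  rw [Nat.card_eq_fintype_card] at h
  obtain ⟨a, ha⟩ : ∃ a : W, a ≠ 0 := by
    by_contra hcon
    push Not at hcon
    have : Fintype.card W ≤ 1 := Fintype.card_le_one_iff.2 fun a b => by rw [hcon a, hcon b]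
    omega
  obtain ⟨b, hb⟩ : ∃ b : W, b ∉ ({0, a} : Finset W) := by
    by_contra hcon
    push Not at hcon
    have : (Finset.univ : Finset W) ⊆ {0, a} := fun b _ => hcon b
    have := Finset.card_le_card this
    rw [Finset.card_univ] at this
    have h2 : ({0, a} : Finset W).card ≤ 2 := Finset.card_le_two
    omega
  simp only [Finset.mem_insert, Finset.mem_singleton, not_or] at hb
  refine ⟨a, a.2, b, b.2, fun h => ha (Subtype.ext h), fun h => hb.1 (Subtype.ext h),
    fun h => hb.2 (Subtype.ext h.symm)⟩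

end sums

/-- `2 a ≤ b` for different powers of two -/
theorem pw_lt {a b : ℕ} (ha : ∃ n : ℕ, a = 2 ^ n) (hb : ∃ n : ℕ, b = 2 ^ n) (h : a < b) :
    2 * a ≤ b := by
  obtain ⟨m, rfl⟩ := ha
  obtain ⟨n, rfl⟩ := hb
  have h1 : m < n := (Nat.pow_lt_pow_iff_right (by norm_num)).1 h
  calc 2 * 2 ^ m = 2 ^ (m + 1) := by ring
    _ ≤ 2 ^ n := Nat.pow_le_pow_right (by norm_num) h1

section space
variable {V ι : Type} [AddCommGroup V] [Module (ZMod 2) V] [DecidableEq V] [DecidableEq ι]

/-- the data: points `F`, lines `Λ`, `pts l ⊆ F` -/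
structure LSp (F : Finset V) (Λ : Finset ι) (pts : ι → Finset V) (κ : ℕ) : Prop where
  sub : ∀ l ∈ Λ, pts l ⊆ F
  pow : ∀ l ∈ Λ, ∃ n : ℕ, (pts l).card = 2 ^ n
  sum : ∀ l ∈ Λ, 4 ≤ (pts l).card → ∑ z ∈ pts l, z = 0
  one : ∀ s ∈ F, (Λ.filter fun l => s ∈ pts l).card = κ
  two : ∀ s ∈ F, ∀ s' ∈ F, s ≠ s' → (Λ.filter fun l => s ∈ pts l ∧ s' ∈ pts l).card = 1
  kpow : ∃ n : ℕ, κ = 2 ^ n
  k4 : 4 ≤ κ
  f2 : 2 ≤ F.card
  b : Λ.card + 1 ≤ F.card + κ

namespace LSp

variable {F : Finset V} {Λ : Finset ι} {pts : ι → Finset V} {κ : ℕ}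

/-- sums over incidences -/
theorem inc (L : LSp F Λ pts κ) {M : Type} [AddCommMonoid M] (P : ι → Prop) [DecidablePred P]
    (f : ι → V → M) :
    ∑ l ∈ Λ.filter P, ∑ s ∈ pts l, f l s =
      ∑ s ∈ F, ∑ l ∈ Λ.filter (fun l => P l ∧ s ∈ pts l), f l s := by
  have e1 : ∀ l ∈ Λ.filter P, ∑ s ∈ pts l, f l s = ∑ s ∈ F, if s ∈ pts l then f l s else 0 := by
    intro l hl
    rw [← Finset.sum_filter]
    refine Finset.sum_congr ?_ fun _ _ => rfl
    ext s
    simp only [Finset.mem_filter]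
    exact ⟨fun h => ⟨L.sub l (Finset.mem_filter.1 hl).1 h, h⟩, fun h => h.2⟩
  rw [Finset.sum_congr rfl e1, Finset.sum_comm]
  refine Finset.sum_congr rfl fun s _ => ?_
  rw [← Finset.sum_filter, Finset.filter_filter]

/-- the sum of the sizes of the lines through a point -/
theorem through (L : LSp F Λ pts κ) {s : V} (hs : s ∈ F) :
    ∑ l ∈ Λ.filter (fun l => s ∈ pts l), (pts l).card = κ + (F.card - 1) := by
  have h1 := L.inc (fun l => s ∈ pts l) (fun _ _ => 1)
  simp only [Finset.sum_const, smul_eq_mul, mul_one] at h1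
  rw [h1, ← Finset.add_sum_erase F _ hs]
  congr 1
  · rw [← L.one s hs]
    congr 1
    ext l
    simp only [Finset.mem_filter, and_self]
  · rw [Finset.sum_congr rfl (g := fun _ => 1), Finset.sum_const, smul_eq_mul, mul_one,
      Finset.card_erase_of_mem hs]
    intro s' hs'
    rw [Finset.mem_erase] at hs'
    exact L.two s hs s' hs'.2 hs'.1.symm

/-- all incidences -/
theorem total (L : LSp F Λ pts κ) : ∑ l ∈ Λ, (pts l).card = κ * F.card := by
  have h1 := L.inc (fun _ => True) (fun _ _ => 1)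
  simp only [Finset.sum_const, smul_eq_mul, mul_one, Finset.filter_true, true_and] at h1
  rw [h1, Finset.sum_congr rfl (g := fun _ => κ), Finset.sum_const, smul_eq_mul, mul_comm]
  exact fun s hs => L.one s hs

/-- sum of squares -/
theorem squares (L : LSp F Λ pts κ) :
    ∑ l ∈ Λ, (pts l).card * (pts l).card = F.card * (κ + (F.card - 1)) := by
  have h1 := L.inc (fun _ => True) (fun l _ => (pts l).card)
  simp only [Finset.sum_const, smul_eq_mul, Finset.filter_true, true_and] at h1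
  rw [h1, Finset.sum_congr rfl (g := fun _ => κ + (F.card - 1)), Finset.sum_const, smul_eq_mul]
  exact fun s hs => L.through hs

/-- `f ≥ (κ - 1)²` -/
theorem big (L : LSp F Λ pts κ) : (κ - 1) * (κ - 1) ≤ F.card := by
  have h1 : ((∑ l ∈ Λ, (pts l).card : ℕ) : ℤ) ^ 2 ≤
      (Λ.card : ℤ) * ((∑ l ∈ Λ, (pts l).card * (pts l).card : ℕ) : ℤ) := by
    push_cast
    have := sq_sum_le_card_mul_sum_sq (s := Λ) (f := fun l => ((pts l).card : ℤ))
    simpa [sq] using this
  rw [L.total, L.squares] at h1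
  have hf := L.f2
  have hk := L.k4
  have hb := L.b
  obtain ⟨f, hf'⟩ : ∃ f, F.card = f + 1 := ⟨F.card - 1, by omega⟩
  obtain ⟨k, hk'⟩ : ∃ k, κ = k + 1 := ⟨κ - 1, by omega⟩
  rw [hf', hk'] at h1 hb ⊢
  simp only [Nat.add_sub_cancel] at h1 ⊢
  push_cast at h1
  have hb' : (Λ.card : ℤ) ≤ f + 1 + k := by
    have : Λ.card ≤ f + 1 + k := by omega
    exact_mod_cast this
  have f1 : (1 : ℤ) ≤ f := by
    have : 1 ≤ f := by omega
    exact_mod_cast this
  have k1 : (0 : ℤ) ≤ k := Int.natCast_nonneg k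
  have h2 : (((k : ℤ) + 1) * (f + 1)) ^ 2 ≤ (f + 1 + k) * ((f + 1) * (k + 1 + f)) := by
    refine h1.trans ?_
    have : (0 : ℤ) ≤ (f + 1) * (k + 1 + f) := by positivity
    exact mul_le_mul_of_nonneg_right hb' this
  have h3 : ((k : ℤ) + 1) ^ 2 * (f + 1) ≤ (f + 1 + k) ^ 2 := by
    have f3 : (0 : ℤ) < f + 1 := by linarith
    nlinarith [h2, f3]
  have h4 : (f : ℤ) * (k * k) ≤ f * (f + 1) := by nlinarith [h3]
  have h5 : (k : ℤ) * k ≤ f + 1 := le_of_mul_le_mul_left h4 (by linarith)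
  exact_mod_cast h5

/-- no line contains all points -/
theorem ne_all (L : LSp F Λ pts κ) {l : ι} (hl : l ∈ Λ) : pts l ≠ F := by
  intro h
  have h1 : ∀ m ∈ Λ, m ≠ l → (pts m).card ≤ 1 := by
    intro m hm hne
    by_contra hcon
    push Not at hcon
    obtain ⟨s, hs, s', hs', hss⟩ := Finset.one_lt_card.1 hcon
    have h2 := L.two s (L.sub m hm hs) s' (L.sub m hm hs') hss
    rw [Finset.card_eq_one] at h2
    obtain ⟨a, ha⟩ := h2
    have h3 : m ∈ Λ.filter fun l => s ∈ pts l ∧ s' ∈ pts l :=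
      Finset.mem_filter.2 ⟨hm, hs, hs'⟩
    have h4 : l ∈ Λ.filter fun l => s ∈ pts l ∧ s' ∈ pts l :=
      Finset.mem_filter.2 ⟨hl, by rw [h]; exact L.sub m hm hs, by rw [h]; exact L.sub m hm hs'⟩
    rw [ha, Finset.mem_singleton] at h3 h4
    exact hne (h3.trans h4.symm)
  have h2 : ∑ m ∈ Λ, (pts m).card ≤ F.card + (Λ.card - 1) := by
    rw [← Finset.add_sum_erase Λ _ hl, h]
    refine Nat.add_le_add_left ?_ _
    rw [← Finset.card_erase_of_mem hl, Finset.card_eq_sum_ones]
    refine Finset.sum_le_sum fun m hm => ?_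
    rw [Finset.mem_erase] at hm
    exact h1 m hm.2 hm.1
  rw [L.total] at h2
  have hf := L.f2
  have hk := L.k4
  have hb := L.b
  have h3 : κ * F.card ≤ 2 * F.card + κ - 2 := by omega
  obtain ⟨f, hf'⟩ : ∃ f, F.card = f + 2 := ⟨F.card - 2, by omega⟩
  obtain ⟨k, hk'⟩ : ∃ k, κ = k + 4 := ⟨κ - 4, by omega⟩
  rw [hf', hk'] at h3
  have h4 : (k + 4) * (f + 2) ≤ 2 * (f + 2) + (k + 4) - 2 := h3
  have h5 : (k + 4) * (f + 2) = k * f + 2 * k + 4 * f + 8 := by ring
  have h6 : 0 ≤ k * f := Nat.zero_le _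
  omega

/-- `k_l ≤ κ` -/
theorem le (L : LSp F Λ pts κ) {l : ι} (hl : l ∈ Λ) : (pts l).card ≤ κ := by
  obtain ⟨p, hp, hpl⟩ : ∃ p ∈ F, p ∉ pts l := by
    by_contra hcon
    push Not at hcon
    exact L.ne_all hl (Finset.Subset.antisymm (L.sub l hl) hcon)
  rw [← L.one p hp]
  refine Finset.card_le_card_of_forall_subsingleton (fun s m => s ∈ pts m) ?_ ?_
  · intro s hs
    have h2 := L.two s (L.sub l hl hs) p hp (fun h => hpl (h ▸ hs))
    rw [Finset.card_eq_one] at h2
    obtain ⟨a, ha⟩ := h2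
    have h3 : a ∈ Λ.filter fun l => s ∈ pts l ∧ p ∈ pts l := by
      rw [ha]; exact Finset.mem_singleton_self a
    rw [Finset.mem_filter] at h3
    exact ⟨a, Finset.mem_filter.2 ⟨h3.1, h3.2.2⟩, h3.2.1⟩
  · intro m hm s hs s' hs'
    rw [Finset.mem_filter] at hm
    by_contra hne
    have hs1 : s ∈ pts l := hs.1
    have hs2 : s' ∈ pts l := hs'.1
    have h2 := L.two s (L.sub l hl hs1) s' (L.sub l hl hs2) hne
    rw [Finset.card_eq_one] at h2
    obtain ⟨a, ha⟩ := h2
    have h3 : m ∈ Λ.filter fun l => s ∈ pts l ∧ s' ∈ pts l :=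
      Finset.mem_filter.2 ⟨hm.1, hs.2, hs'.2⟩
    have h4 : l ∈ Λ.filter fun l => s ∈ pts l ∧ s' ∈ pts l :=
      Finset.mem_filter.2 ⟨hl, hs1, hs2⟩
    rw [ha, Finset.mem_singleton] at h3 h4
    exact hpl (by rw [h4, ← h3]; exact hm.2)

/-- **(13)** -/
theorem false_ (L : LSp F Λ pts κ) : False := by
  classical
  have k4 := L.k4
  have f2 := L.f2
  have hbig := L.big
  obtain ⟨s0, hs0, s1, hs1, hs01⟩ := Finset.one_lt_card.1 (show 1 < F.card by omega)
  -- the defect
  have hE0 : ∀ s ∈ F, ∑ l ∈ Λ.filter (fun l => s ∈ pts l), (κ - (pts l).card) +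
      (κ + (F.card - 1)) = κ * κ := by
    intro s hs
    rw [← L.through hs, ← Finset.sum_add_distrib,
      Finset.sum_congr rfl (g := fun _ => κ), Finset.sum_const, smul_eq_mul, L.one s hs]
    intro l hl
    have := L.le (Finset.mem_filter.1 hl).1
    omega
  obtain ⟨E, hE⟩ : ∃ E, E = ∑ l ∈ Λ.filter (fun l => s0 ∈ pts l), (κ - (pts l).card) := ⟨_, rfl⟩
  have hE1 := hE0 s0 hs0
  rw [← hE] at hE1
  have hEs : ∀ s ∈ F, ∑ l ∈ Λ.filter (fun l => s ∈ pts l), (κ - (pts l).card) = E := by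
    intro s hs
    have := hE0 s hs
    omega
  obtain ⟨k, hk⟩ : ∃ k, κ = k + 1 := ⟨κ - 1, by omega⟩
  have hEk : E + F.card = k * k + k + 1 := by
    have h1 : (k + 1) * (k + 1) = k * k + 2 * k + 1 := by ring
    rw [hk, h1] at hE1
    omega
  have hEle : E ≤ κ := by
    rw [hk, Nat.add_sub_cancel] at hbig
    omega
  have h1le : ∀ l ∈ Λ, 1 ≤ (pts l).card := by
    intro l hl
    obtain ⟨n, hn⟩ := L.pow l hl
    rw [hn]
    exact Nat.one_le_two_pow
  have hhalf : ∀ l ∈ Λ, (pts l).card < κ → 2 * (pts l).card ≤ κ := fun l hl h =>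
    pw_lt (L.pow l hl) L.kpow h
  have hsm : ∀ s ∈ F, ∑ l ∈ Λ.filter (fun l => s ∈ pts l ∧ (pts l).card < κ),
      (κ - (pts l).card) = E := by
    intro s hs
    rw [← hEs s hs, ← Finset.filter_filter]
    refine Finset.sum_filter_of_ne fun l _ h => ?_
    omega
  have hcase : ∀ s ∈ F, ((Λ.filter fun l => s ∈ pts l ∧ (pts l).card < κ).card = 0 ∧ E = 0) ∨
      ((Λ.filter fun l => s ∈ pts l ∧ (pts l).card < κ).card = 1 ∧
        ∃ m, 1 ≤ m ∧ 2 * m ≤ κ ∧ E + m = κ) ∨
      ((Λ.filter fun l => s ∈ pts l ∧ (pts l).card < κ).card = 2 ∧ E = κ) := by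
    intro s hs
    have h1 := hsm s hs
    have h2 : (Λ.filter fun l => s ∈ pts l ∧ (pts l).card < κ).card * κ ≤ 2 * E := by
      rw [← h1, Finset.mul_sum, ← smul_eq_mul, ← Finset.sum_const]
      refine Finset.sum_le_sum fun l hl => ?_
      rw [Finset.mem_filter] at hl
      have := hhalf l hl.1 hl.2.2
      omega
    have h3 : (Λ.filter fun l => s ∈ pts l ∧ (pts l).card < κ).card ≤ 2 := by
      by_contra hcon
      push Not at hcon
      have h4 : 3 * κ ≤ (Λ.filter fun l => s ∈ pts l ∧ (pts l).card < κ).card * κ :=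
        Nat.mul_le_mul_right _ hcon
      omega
    interval_cases h4 : (Λ.filter fun l => s ∈ pts l ∧ (pts l).card < κ).card
    · left
      rw [Finset.card_eq_zero] at h4
      rw [h4, Finset.sum_empty] at h1
      exact ⟨rfl, h1.symm⟩
    · right; left
      obtain ⟨l, hl⟩ := Finset.card_eq_one.1 h4
      rw [hl, Finset.sum_singleton] at h1
      have h5 : l ∈ Λ.filter fun l => s ∈ pts l ∧ (pts l).card < κ := by
        rw [hl]; exact Finset.mem_singleton_self l
      rw [Finset.mem_filter] at h5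
      exact ⟨rfl, (pts l).card, h1le l h5.1, hhalf l h5.1 h5.2.2, by omega⟩
    · right; right
      exact ⟨rfl, by omega⟩
  -- the big lines
  have hB : κ * (Λ.filter fun l => (pts l).card = κ).card +
      ∑ s ∈ F, (Λ.filter fun l => s ∈ pts l ∧ (pts l).card < κ).card = κ * F.card := by
    have h1 := L.inc (fun l => (pts l).card = κ) (fun _ _ => 1)
    simp only [Finset.sum_const, smul_eq_mul, mul_one] at h1
    have h2 : ∑ l ∈ Λ.filter (fun l => (pts l).card = κ), (pts l).card =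
        κ * (Λ.filter fun l => (pts l).card = κ).card := by
      rw [Finset.sum_congr rfl (g := fun _ => κ), Finset.sum_const, smul_eq_mul, mul_comm]
      exact fun l hl => (Finset.mem_filter.1 hl).2
    rw [← h2, h1, ← Finset.sum_add_distrib, Finset.sum_congr rfl (g := fun _ => κ),
      Finset.sum_const, smul_eq_mul, mul_comm]
    intro s hs
    rw [← L.one s hs, ← Finset.card_union_of_disjoint]
    · congr 1
      ext l
      simp only [Finset.mem_union, Finset.mem_filter]
      constructor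
      · rintro (h | h)
        · exact ⟨h.1, h.2.2⟩
        · exact ⟨h.1, h.2.1⟩
      · intro h
        rcases lt_or_eq_of_le (L.le h.1) with h3 | h3
        · exact Or.inr ⟨h.1, h.2, by simpa [L.one s hs] using h3⟩
        · exact Or.inl ⟨h.1, by simpa [L.one s hs] using h3, h.2⟩
    · rw [Finset.disjoint_left]
      intro l h3 h4
      rw [Finset.mem_filter] at h3 h4
      have := h3.2.1
      have := h4.2.2
      omega
  rcases hcase s0 hs0 with ⟨_, h0⟩ | ⟨_, m, m1, m2, hm⟩ | ⟨_, h2⟩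
  · -- `E = 0`: all lines have `κ ≥ 4` points
    have hall : ∀ s ∈ F, ∑ z ∈ F, z = s := by
      intro s hs
      have h1 := L.inc (fun l => s ∈ pts l) (fun _ z => z)
      have h2 : ∑ l ∈ Λ.filter (fun l => s ∈ pts l), ∑ z ∈ pts l, z = 0 := by
        refine Finset.sum_eq_zero fun l hl => ?_
        rw [Finset.mem_filter] at hl
        refine L.sum l hl.1 ?_
        by_contra hcon
        have h3 : l ∈ Λ.filter fun l => s ∈ pts l ∧ (pts l).card < κ :=
          Finset.mem_filter.2 ⟨hl.1, hl.2, by omega⟩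
        have h4 : κ - (pts l).card ≤ E := by
          rw [← hsm s hs]
          exact Finset.single_le_sum (f := fun l => κ - (pts l).card)
            (fun _ _ => Nat.zero_le _) h3
        omega
      rw [h2, ← Finset.add_sum_erase F _ hs] at h1
      have h3 : ∑ l ∈ Λ.filter (fun l => s ∈ pts l ∧ s ∈ pts l), s = 0 := by
        rw [Finset.sum_const]
        have h4 : (Λ.filter fun l => s ∈ pts l ∧ s ∈ pts l).card = κ := by
          rw [← L.one s hs]
          congr 1
          ext l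
          simp only [Finset.mem_filter, and_self]
        rw [h4]
        obtain ⟨n, hn⟩ := L.kpow
        have h5 : n ≠ 0 := by
          rintro rfl
          rw [pow_zero] at hn
          omega
        obtain ⟨n', rfl⟩ := Nat.exists_eq_succ_of_ne_zero h5
        rw [hn, pow_succ, mul_nsmul, two_nsmul]
        exact add_self' _
      have h4 : ∑ z ∈ F.erase s, ∑ l ∈ Λ.filter (fun l => s ∈ pts l ∧ z ∈ pts l), z =
          ∑ z ∈ F.erase s, z := by
        refine Finset.sum_congr rfl fun z hz => ?_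
        rw [Finset.mem_erase] at hz
        rw [Finset.sum_const, L.two s hs z hz.2 hz.1.symm, one_nsmul]
      rw [h3, h4, zero_add] at h1
      rw [← Finset.add_sum_erase F _ hs, ← h1, add_zero]
    exact hs01 ((hall s0 hs0).symm.trans (hall s1 hs1))
  · have h1 : ∑ s ∈ F, (Λ.filter fun l => s ∈ pts l ∧ (pts l).card < κ).card = F.card := by
      rw [Finset.card_eq_sum_ones]
      refine Finset.sum_congr rfl fun s hs => ?_
      rcases hcase s hs with ⟨_, h3⟩ | ⟨h3, _⟩ | ⟨_, h3⟩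
      · omega
      · exact h3
      · omega
    rw [h1] at hB
    have h2 : κ ∣ F.card := (Nat.dvd_add_right ⟨_, rfl⟩).1 ⟨_, hB⟩
    -- `f = (κ - 1)² + m`
    have h3 : F.card = k * k + m := by omega
    have h4 : κ ∣ m + 1 := by
      have h6 : F.card + (κ * 2) = (m + 1) + κ * κ := by
        rw [h3, hk]; ring
      have h7 : κ ∣ F.card + κ * 2 := Nat.dvd_add h2 ⟨2, rfl⟩
      rw [h6] at h7
      exact (Nat.dvd_add_left ⟨κ, rfl⟩).1 h7
    have h5 := Nat.le_of_dvd (by omega) h4
    omega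
  · have h1 : ∑ s ∈ F, (Λ.filter fun l => s ∈ pts l ∧ (pts l).card < κ).card = F.card * 2 := by
      rw [← smul_eq_mul, ← Finset.sum_const]
      refine Finset.sum_congr rfl fun s hs => ?_
      rcases hcase s hs with ⟨_, h3⟩ | ⟨_, m, h3, h4, h5⟩ | ⟨h3, _⟩
      · omega
      · omega
      · exact h3
    rw [h1] at hB
    have h3 : κ ∣ F.card * 2 := (Nat.dvd_add_right ⟨_, rfl⟩).1 ⟨_, hB⟩
    have h4 : F.card = k * k := by omega
    have h5 : F.card * 2 + κ * 4 = 2 + κ * (2 * κ) := by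
      rw [h4, hk]; ring
    have h6 : κ ∣ F.card * 2 + κ * 4 := Nat.dvd_add h3 ⟨4, rfl⟩
    rw [h5] at h6
    have h7 := (Nat.dvd_add_left ⟨2 * κ, rfl⟩).1 h6
    have h8 := Nat.le_of_dvd (by norm_num) h7
    omega

end LSp

end space

end Pool.Agent.ETCD2.AN
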