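import Pool.Agent.ETCP.Basic

/-!
Notes 2502, 2539 (helper32), piece [C1] (lemmas L0 - L8): the law D2+ at an element `x` of minimal
rank and Theorem LDc; the subgroups `A u` of `K = V_x` (helper81).

`D : QData V Q` with `e = 0` is a linked structure (set valued), `K = V_x`.  For `u` not in `K` the
set `A u = {l in K : some w in u + K commutes with l}` is a direct factor of `K`.
-/

set_option autoImplicit false
set_option linter.unusedSectionVars false
set_option linter.unusedSimpArgs false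
set_option linter.unnecessarySeqFocus false

namespace Pool.Agent.ETCD2

open Pool.Agent.Helper58.PLine (QData)
open Pool.Agent.ETCP

variable {V Q : Type} [AddCommGroup V] [Module (ZMod 2) V]

/-- the frame of sections 3 (end) and 4 of note 2502: `x` has minimal rank, (D2+), and Theorem LDc
for all `u` outside `K = V_x` -/
structure LDx (D : QData V Q) (x : V) (A : V → Submodule (ZMod 2) V) : Prop where
  he : D.e = 0
  x0 : x ≠ 0
  mr : ∀ v, v ≠ 0 → Nat.card (D.ann v) ≤ Nat.card (D.ann x)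
  /-- (D2+) for all `z` in the radical of `K` (`z = x` included) -/
  d2 : ∀ z, z ≠ 0 → C D x z → (∀ k, C D x k → C D z k) → ∀ k, C D x k →
    (∀ v, C D k v → C D x v) ∨ ∀ v, C D (k + z) v → C D x v
  /-- LDc (1) -/
  mem : ∀ u, ¬ C D x u → ∀ l, l ∈ A u ↔ C D x l ∧ ∃ w, D.q x w = D.q x u ∧ C D l w
  /-- LDc (2) -/
  kill : ∀ u, ¬ C D x u → ∃ w, D.q x w = D.q x u ∧ ∀ a ∈ A u, C D w a
  /-- LDc (3) -/
  dec : ∀ u, ¬ C D x u → ∀ k, C D x k → ∃ a ∈ A u, ∀ a' ∈ A u, C D (k + a) a'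
  /-- from LDc (4) -/
  ind : ∀ u, ¬ C D x u → ∀ m m', C D x m → C D x m' → (∀ a ∈ A u, C D m a) →
    ∀ n ∈ A u, ∀ n' ∈ A u, D.q m m' = D.q n n' → C D n n'

section basics
variable {D : QData V Q}

theorem qadd {x a b : V} (h : C D x b) : D.q x (a + b) = D.q x a :=
  q_eq (h.of_eq rfl (eo (by abel_nf <;> simp only [ch2, ch3, ch4, ch5, ch6, add_zero, zero_add])))

theorem qaddl {x a b : V} (h : C D x a) : D.q x (a + b) = D.q x b := by
  rw [add_comm]; exact qadd h

theorem qadd' {x a b : V} (h : C D b x) : D.q (a + b) x = D.q a x := by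
  rw [D.symm, D.symm a]; exact qadd h.symm

theorem qaddl' {x a b : V} (h : C D a x) : D.q (a + b) x = D.q b x := by
  rw [add_comm]; exact qadd' h

/-- both arguments are sums of commuting parts -/
theorem split_q {a a' b b' : V} (h1 : C D a b') (h2 : C D a' b) :
    C D (a + a') (b + b') ↔ D.q a b = D.q a' b' := by
  have e1 : D.q a (b + b') = D.q a b := qadd h1
  have e2 : D.q a' (b + b') = D.q a' b' := qaddl h2
  rw [← q_eq'_iff, e1, e2]

theorem zadd (a : V) : a + a = 0 := ZModModule.add_self a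

theorem C.congr {a b a' b' : V} (h : D.q a b = D.q a' b') : C D a b ↔ C D a' b' := by
  unfold C; rw [h]

/-- cancel a commuting summand -/
theorem C.canc {a b b' : V} (h : C D a (b + b')) (h' : C D a b') : C D a b :=
  (h.add h').of_eq rfl (eo (by abel_nf <;> simp only [ch2, ch3, ch4, ch5, ch6, add_zero, zero_add]))

theorem C.canc' {a a' b : V} (h : C D (a + a') b) (h' : C D a' b) : C D a b :=
  (C.canc h.symm h'.symm).symm

/-- strict inclusion of subgroups -/
theorem card_lt [Finite V] {U U' : Submodule (ZMod 2) V} (h : U ≤ U') {w : V} (hw : w ∈ U')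
    (hw' : w ∉ U) : Nat.card U < Nat.card U' := by
  have h1 : (U : Set V) ⊂ (U' : Set V) := ⟨h, fun h2 => hw' (h2 hw)⟩
  have h2 := Set.ncard_lt_ncard h1 (Set.toFinite _)
  rw [← Nat.card_coe_set_eq, ← Nat.card_coe_set_eq] at h2
  exact h2

theorem card_le [Finite V] {U U' : Submodule (ZMod 2) V} (h : U ≤ U') :
    Nat.card U ≤ Nat.card U' := by
  have h2 := Set.ncard_le_ncard (s := (U : Set V)) (t := (U' : Set V)) h (Set.toFinite _)
  rw [← Nat.card_coe_set_eq, ← Nat.card_coe_set_eq] at h2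
  exact h2

end basics

namespace LDx

variable {D : QData V Q} {x : V} {A : V → Submodule (ZMod 2) V}
variable (X : LDx D x A)
include X

theorem self (v : V) : C D v v := C.self X.he v

theorem Ax {u : V} (hu : ¬ C D x u) {a : V} (ha : a ∈ A u) : C D x a := ((X.mem u hu a).1 ha).1

/-- an element of `A u` does not have its annihilator in `K` -/
theorem out {u : V} (hu : ¬ C D x u) {a : V} (ha : a ∈ A u) : ¬ ∀ v, C D a v → C D x v := by
  intro h
  obtain ⟨-, w, h1, h2⟩ := (X.mem u hu a).1 ha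
  exact hu ((C.congr h1).1 (h w h2))

theorem d2x {k : V} (hk : C D x k) :
    (∀ v, C D k v → C D x v) ∨ ∀ v, C D (k + x) v → C D x v :=
  X.d2 x X.x0 (X.self x) (fun k hk => hk) k hk

/-- for `l in A u` the annihilator of `l + x` is in `K` -/
theorem inK {u : V} (hu : ¬ C D x u) {l : V} (hl : l ∈ A u) {v : V} (hv : C D (l + x) v) :
    C D x v := by
  rcases X.d2x (X.Ax hu hl) with h | h
  · exact absurd h (X.out hu hl)
  · exact h v hv

theorem mem_of {u v k : V} (hu : ¬ C D x u) (hv : D.q x v = D.q x u) (hk : C D x k)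
    (h : C D k v) : k ∈ A u :=
  (X.mem u hu k).2 ⟨hk, v, hv, h⟩

/-- `A u` depends only on the class of `u` -/
theorem A_congr {u u' : V} (hu : ¬ C D x u) (h : D.q x u' = D.q x u) : A u' = A u := by
  have hu' : ¬ C D x u' := fun h1 => hu ((C.congr h).1 h1)
  ext l
  rw [X.mem u hu, X.mem u' hu', h]

/-- (N) -/
theorem A_add {u v : V} (hu : ¬ C D x u) (hv : ¬ C D x v) (huv : ¬ C D x (u + v)) {l : V}
    (h1 : l ∈ A u) (h2 : l ∈ A v) : l ∈ A (u + v) := by
  obtain ⟨hl, w, hw, hlw⟩ := (X.mem u hu l).1 h1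
  obtain ⟨-, w', hw', hlw'⟩ := (X.mem v hv l).1 h2
  refine X.mem_of huv (v := w + w') ?_ hl (hlw.add hlw')
  have e1 := q_eq_iff.1 hw
  have e2 := q_eq_iff.1 hw'
  refine q_eq_iff.2 ((e1.add e2).of_eq rfl ?_)
  abel

/-- an element of `K` commuting with `K` and with an element outside `K` is `0` -/
theorem zero_of [Finite V] {l v : V} (hk : ∀ k, C D x k → C D l k) (hv : C D l v)
    (hv' : ¬ C D x v) : l = 0 := by
  by_contra h
  have h1 : D.ann x ≤ D.ann l := fun k hk' => hk k hk'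
  have h2 := card_lt h1 (w := v) hv hv'
  exact absurd (X.mr l h) (not_le.2 h2)

/-- L0: the radical of `A u` is `0` -/
theorem rad [Finite V] {u : V} (hu : ¬ C D x u) {l : V} (hl : l ∈ A u)
    (h : ∀ a ∈ A u, C D l a) : l = 0 := by
  obtain ⟨w, hw, hwa⟩ := X.kill u hu
  refine X.zero_of (v := w) ?_ (hwa l hl).symm (fun h2 => hu ((C.congr hw).1 h2))
  intro k hk
  obtain ⟨a, ha, hka⟩ := X.dec u hu k hk
  exact C.canc (hka l hl).symm (h a ha)

/-- independence of the two factors `A u` and `K_(A u)` -/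
theorem star {u : V} (hu : ¬ C D x u) {k1 k2 v1 v2 : V} (hk1 : k1 ∈ A u)
    (hk2 : ∀ a ∈ A u, C D k2 a) (hkx : C D x k2) (hv1 : v1 ∈ A u) (hv2 : ∀ a ∈ A u, C D v2 a)
    (hvx : C D x v2) (h : C D (k1 + k2) (v1 + v2)) : C D k1 v1 ∧ C D k2 v2 := by
  have h1 : D.q k1 v1 = D.q k2 v2 := (split_q (hv2 k1 hk1).symm (hk2 v1 hv1)).1 h
  have h2 : C D k1 v1 := X.ind u hu k2 v2 hkx hvx hk2 k1 hk1 v1 hv1 h1.symm
  exact ⟨h2, (C.congr h1).1 h2⟩

/-- L1: if `k = k1 + k2` commutes with `v in K` so do `k1` and `k2` -/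
theorem star' {u : V} (hu : ¬ C D x u) {k1 k2 v : V} (hk1 : k1 ∈ A u)
    (hk2 : ∀ a ∈ A u, C D k2 a) (hkx : C D x k2) (hv : C D x v) (h : C D (k1 + k2) v) :
    C D k1 v ∧ C D k2 v := by
  obtain ⟨a, ha, hva⟩ := X.dec u hu v hv
  have e : v = a + (v + a) := eo (by abel_nf <;> simp only [ch2, ch3, ch4, ch5, ch6, add_zero, zero_add])
  have h1 : C D k1 (v + a) := (hva k1 hk1).symm
  have h2 : C D k2 a := hk2 a ha
  have h3 := X.star hu hk1 hk2 hkx ha hva (hv.add (X.Ax hu ha)) (h.of_eq rfl e)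
  constructor
  · exact (h3.1.add h1).of_eq rfl e.symm
  · exact (h2.add h3.2).of_eq rfl e.symm

/-- L1: `k` commutes with `v`, `a` is the `A u`-component of `k` -/
theorem pr {u : V} (hu : ¬ C D x u) {k a v : V} (hk : C D x k) (ha : a ∈ A u)
    (hka : ∀ b ∈ A u, C D (k + a) b) (hv : C D x v) (h : C D k v) : C D a v ∧ C D (k + a) v := by
  refine X.star' hu ha hka (hk.add (X.Ax hu ha)) hv (h.of_eq ?_ rfl)
  exact eo (by abel_nf <;> simp only [ch2, ch3, ch4, ch5, ch6, add_zero, zero_add])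

/-- L3: the decomposition with respect to `v` preserves `A u` -/
theorem dec_mem [Finite V] {u v : V} (hu : ¬ C D x u) (hv : ¬ C D x v) {a a1 : V} (ha : a ∈ A u)
    (ha1 : a1 ∈ A v) (h : ∀ b ∈ A v, C D (a + a1) b) : a1 ∈ A u := by
  have hax := X.Ax hu ha
  have ha1x := X.Ax hv ha1
  -- `a1` commutes with the commutant of `A u` in `K`
  have h1 : ∀ k, C D x k → (∀ b ∈ A u, C D k b) → C D a1 k := by
    intro k hk hkb
    exact (X.pr hv hax ha1 h hk (hkb a ha).symm).1
  obtain ⟨al, hal, hal'⟩ := X.dec u hu a1 ha1x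
  -- the second component is in the radical of `K`
  have h3 : ∀ k, C D x k → C D (a1 + al) k := by
    intro k hk
    obtain ⟨b, hb, hkb⟩ := X.dec u hu k hk
    have h4 : C D (a1 + al) (k + b) :=
      (h1 (k + b) (hk.add (X.Ax hu hb)) hkb).add' ((hkb al hal).symm)
    exact C.canc h4 (hal' b hb)
  by_cases hz : a1 + al = 0
  · rw [eo hz]; exact hal
  · exfalso
    rcases X.d2 (a1 + al) hz (ha1x.add (X.Ax hu hal)) h3 al (X.Ax hu hal) with h5 | h5
    · exact X.out hu hal h5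
    · refine X.out hv ha1 ?_
      intro v hv
      refine h5 v (hv.of_eq ?_ rfl)
      exact eo (by abel_nf <;> simp only [ch2, ch3, ch4, ch5, ch6, add_zero, zero_add])

/-- L6 = (8a) -/
theorem a8 {u v : V} (hu : ¬ C D x u) (hv : ¬ C D x v) {w s l : V} (hw : D.q x w = D.q x u)
    (hs : D.q x s = D.q x v) (hws : C D w s) (hl : l ∈ A u) (hld : ∀ b ∈ A v, C D l b) :
    C D w l := by
  obtain ⟨hlx, w1, hw1, hlw⟩ := (X.mem u hu l).1 hl
  -- link `s + x` and `l + x` at `q (x, u)`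
  have e1 : D.q (s + x) w = D.q x u := by
    rw [qaddl' hws.symm]; exact hw
  have e2 : D.q (l + x) w1 = D.q x u := by
    rw [qaddl' hlw]; exact hw1
  obtain ⟨t, h1, h2⟩ := D.link _ _ _ _ (e1.trans e2.symm)
  rw [e1] at h1
  rw [e2] at h2
  have h3 : C D (l + x) (w1 + t) := q_eq_iff.1 (e2.trans h2)
  have h4 : C D x (w1 + t) := X.inK hu hl h3
  have h5 : D.q x t = D.q x u := by rw [← hw1]; exact (q_eq h4).symm
  have h6 : C D l t := by
    have : D.q (l + x) t = D.q x t := by rw [← h2, h5]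
    have h7 := q_eq'_iff.1 this
    exact h7.of_eq (eo (by abel_nf <;> simp only [ch2, ch3, ch4, ch5, ch6, add_zero, zero_add])) rfl
  have h7 : C D s t := by
    have : D.q (s + x) t = D.q x t := by rw [← h1, h5]
    have h7 := q_eq'_iff.1 this
    exact h7.of_eq (eo (by abel_nf <;> simp only [ch2, ch3, ch4, ch5, ch6, add_zero, zero_add])) rfl
  have h8 : C D x (w + t) := q_eq_iff.1 (hw.trans h5.symm)
  have h9 : w + t ∈ A v := X.mem_of hv hs h8 (hws.add' h7.symm)
  exact (C.canc (hld _ h9) h6).symm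

/-- L7 = (8e) -/
theorem e8 {u : V} (hu : ¬ C D x u) {y h a a0 : V} (hy : D.q x y = D.q x u)
    (hyA : ∀ b ∈ A u, C D y b) (ha : a ∈ A u) (ha0 : a0 ∈ A u) (he : D.q y h = D.q a a0) :
    C D a a0 := by
  have e1 : D.q (a + x) a0 = D.q a a0 := qadd' (X.Ax hu ha0)
  obtain ⟨k, h1, h2⟩ := D.link _ _ _ _ (e1.trans he.symm)
  rw [e1] at h1
  rw [he] at h2
  have h3 : C D (a + x) (a0 + k) := q_eq_iff.1 (e1.trans h1)
  have h4 : C D x (a0 + k) := X.inK hu ha h3
  have h5 : C D x k := by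
    exact ((X.Ax hu ha0).add h4).of_eq rfl (eo (by abel_nf <;> simp only [ch2, ch3, ch4, ch5, ch6, add_zero, zero_add]))
  have h6 : D.q a k = D.q a a0 := by rw [h1, qadd' h5]
  have h7 : C D (a + y) k := q_eq'_iff.1 (h6.trans h2)
  have h8 : D.q x (a + y) = D.q x u := by rw [qaddl (X.Ax hu ha)]; exact hy
  have h9 : k ∈ A u := X.mem_of hu h8 h5 h7.symm
  exact (C.congr h2).2 (hyA k h9)

/-- L8: if `A u <= A t` or `t in K` some translate `t + a0` with `a0 in A u` kills `A u` -/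
theorem l8 {u t : V} (hu : ¬ C D x u) (h : C D x t ∨ A u ≤ A t) :
    ∃ a0 ∈ A u, ∀ a ∈ A u, C D (t + a0) a := by
  by_cases ht : C D x t
  · exact X.dec u hu t ht
  · have hle : A u ≤ A t := h.resolve_left ht
    obtain ⟨w, hw, hwa⟩ := X.kill t ht
    have h1 : C D x (w + t) := q_eq_iff.1 hw
    obtain ⟨a0, ha0, h2⟩ := X.dec u hu (w + t) h1
    refine ⟨a0, ha0, fun a ha => ?_⟩
    refine ((h2 a ha).add' (hwa a (hle ha))).of_eq ?_ rfl
    exact eo (by abel_nf <;> simp only [ch2, ch3, ch4, ch5, ch6, add_zero, zero_add])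

end LDx

end Pool.Agent.ETCD2
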