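import Pool.Agent.ED2.LDc
import Pool.Agent.ETCD2.C1

/-!
Theorem LDc (`Pool.Agent.ED2.LDc`) gives the frame `LDx` of note 2539: piece [B] of the Lean proof
of note 2502 (helper17).
-/

set_option autoImplicit false
set_option linter.unusedSimpArgs false

namespace Pool.Agent.ETCD2

open Pool.Agent.Helper58.PLine (QData)
open Pool.Agent.ETCP
open Pool.Agent.ED2 (Ac LD)

variable {V Q : Type} [AddCommGroup V] [Module (ZMod 2) V]

section

variable {D : QData V Q} {x : V}

theorem mk_ld (he : D.e = 0)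
    (d2 : ∀ k, C D x k → (∀ v, C D k v → C D x v) ∨ ∀ v, C D (k + x) v → C D x v)
    {u : V} (hu : ¬ C D x u) : LD D x (D.q x u) where
  he := he
  cne := hu
  hw := ⟨u, rfl⟩
  d2 := by
    intro l hl _
    obtain ⟨hxl, w, hw, hlw⟩ := hl
    rcases d2 l hxl with h | h
    · exfalso
      apply hu
      have := h w hlw
      unfold C at this ⊢
      rw [← hw, this]
    · intro v hv
      exact h v (hv.of_eq (add_comm _ _) rfl)

/-- Theorem LDc in the form of note 2539: minimal rank and (D2+) give the frame -/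
theorem exists_LDx [Finite V] (he : D.e = 0) (x0 : x ≠ 0)
    (mr : ∀ v, v ≠ 0 → Nat.card (D.ann v) ≤ Nat.card (D.ann x))
    (d2 : ∀ z, z ≠ 0 → C D x z → (∀ k, C D x k → C D z k) → ∀ k, C D x k →
      (∀ v, C D k v → C D x v) ∨ ∀ v, C D (k + z) v → C D x v) :
    ∃ A : V → Submodule (ZMod 2) V, LDx D x A := by
  classical
  have dx : ∀ k, C D x k → (∀ v, C D k v → C D x v) ∨ ∀ v, C D (k + x) v → C D x v :=
    d2 x x0 (C.self he x) fun _ h => h
  refine ⟨fun u => if h : C D x u then ⊤ else (mk_ld he dx h).sub, ?_⟩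
  refine ⟨he, x0, mr, d2, ?_, ?_, ?_, ?_⟩
  · intro u hu l
    rw [dif_neg hu, LD.mem_sub]
    exact Iff.rfl
  · intro u hu
    rw [dif_neg hu]
    obtain ⟨w, h1, h2⟩ := (mk_ld he dx hu).exists_wc
    exact ⟨w, h1, fun a ha => (h2 a ((LD.mem_sub _).1 ha)).symm⟩
  · intro u hu k hk
    rw [dif_neg hu]
    obtain ⟨p, h1, h2⟩ := (mk_ld he dx hu).split hk
    exact ⟨p, (LD.mem_sub _).2 h1, fun a ha => (h2 a ((LD.mem_sub _).1 ha)).symm⟩
  · intro u hu m m' hm hm' hk n hn n' hn' h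
    rw [dif_neg hu] at hk hn hn'
    obtain ⟨k, h1, h2, h3⟩ := (mk_ld he dx hu).lkE hm hm' ((LD.mem_sub _).1 hn)
      ((LD.mem_sub _).1 hn') h (dx m hm)
    have h4 : C D m m' := C.canc h2 (hk k ((LD.mem_sub _).2 h1))
    unfold C at h4 ⊢
    rw [← h, h4]

end

end Pool.Agent.ETCD2
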