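import Pool.Agent.ETCD2.C1

/-!
Note 2539 (helper32), lemmas L4, L5: good subgroups of `A u` and generic elements (helper81).
-/

set_option autoImplicit false
set_option linter.unusedSectionVars false
set_option linter.unusedSimpArgs false
set_option linter.unnecessarySeqFocus false

namespace Pool.Agent.ETCD2

open Pool.Agent.Helper58.PLine (QData)
open Pool.Agent.ETCP

variable {V Q : Type} [AddCommGroup V] [Module (ZMod 2) V]

/-- the elements commuting with a subgroup -/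
def kk (D : QData V Q) (U : Submodule (ZMod 2) V) : Submodule (ZMod 2) V where
  carrier := {l | ∀ a ∈ U, C D l a}
  add_mem' := fun {a b} ha hb c hc => (ha c hc).add' (hb c hc)
  zero_mem' := fun a _ => C.zero' a
  smul_mem' := by
    intro c v hv
    rcases Pool.Agent.Helper58.PLine.zm c with rfl | rfl
    · rw [zero_smul]; exact fun a _ => C.zero' a
    · rw [one_smul]; exact hv

theorem mem_kk {D : QData V Q} {U : Submodule (ZMod 2) V} {l : V} :
    l ∈ kk D U ↔ ∀ a ∈ U, C D l a := Iff.rfl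

/-- good subgroups of `A u` -/
structure Good (D : QData V Q) (x : V) (A : V → Submodule (ZMod 2) V) (u : V)
    (B : Submodule (ZMod 2) V) : Prop where
  le : B ≤ A u
  cl : ∀ v, ¬ C D x v → ∀ b ∈ B, ∀ b1 ∈ A v, b + b1 ∈ kk D (A v) → b1 ∈ B
  rad : ∀ b ∈ B, (∀ b' ∈ B, C D b b') → b = 0

theorem add3 {a b : V} : a + b + b = a :=
  eo (by abel_nf <;> simp only [ch2, ch3, ch4, ch5, ch6, add_zero, zero_add])

namespace LDx

variable {D : QData V Q} {x : V} {A : V → Submodule (ZMod 2) V}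
variable (X : LDx D x A)
include X

/-- components of `b` -/
theorem comp {v b : V} (hv : ¬ C D x v) (hb : C D x b) : ∃ b1 ∈ A v, b + b1 ∈ kk D (A v) :=
  X.dec v hv b hb

/-- L4 for `A u` -/
theorem good_A [Finite V] {u : V} (hu : ¬ C D x u) : Good D x A u (A u) where
  le := le_rfl
  cl := fun _ hv _ hb _ hb1 h => X.dec_mem hu hv hb hb1 h
  rad := fun _ hb h => X.rad hu hb h

/-- an element of `A v` commuting with `A v` is `0` -/
theorem inter [Finite V] {v l : V} (hv : ¬ C D x v) (h : l ∈ A v) (h' : l ∈ kk D (A v)) :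
    l = 0 := X.rad hv h h'

/-- L4 for `C (u, v)` -/
theorem good_C [Finite V] {u v : V} (hu : ¬ C D x u) (hv : ¬ C D x v) :
    Good D x A u (A u ⊓ kk D (A v)) where
  le := inf_le_left
  cl := by
    rintro v' hv' b ⟨hb, hb2⟩ b1 hb1 h
    refine ⟨X.dec_mem hu hv' hb hb1 h, ?_⟩
    intro a ha
    exact (X.pr hv' (X.Ax hu hb) hb1 h (X.Ax hv ha) (hb2 a ha)).1
  rad := by
    rintro b ⟨hb, hb2⟩ h
    refine X.rad hu hb (fun a ha => ?_)
    obtain ⟨a1, ha1, ha1'⟩ := X.comp hv (X.Ax hu ha)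
    have h1 : a1 ∈ A u := X.dec_mem hu hv ha ha1 ha1'
    have h2 : C D b (a + a1) := h _ ⟨(A u).add_mem ha h1, ha1'⟩
    exact C.canc h2 (hb2 a1 ha1)

/-- `C (u, v) = 0` iff `A u <= A v` -/
theorem C_zero [Finite V] {u v : V} (hu : ¬ C D x u) (hv : ¬ C D x v)
    (h : ∀ l ∈ A u ⊓ kk D (A v), l = 0) : A u ≤ A v := by
  intro a ha
  obtain ⟨a1, ha1, ha1'⟩ := X.comp hv (X.Ax hu ha)
  have h1 : a1 ∈ A u := X.dec_mem hu hv ha ha1 ha1'
  have h2 := h (a + a1) ⟨(A u).add_mem ha h1, ha1'⟩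
  rw [eo h2]; exact ha1

/-- a good subgroup which meets `K_(A v)` trivially is contained in `A v` -/
theorem good_le [Finite V] {u v : V} (hu : ¬ C D x u) (hv : ¬ C D x v)
    {B : Submodule (ZMod 2) V} (hB : Good D x A u B)
    (h : ∀ l ∈ B, l ∈ kk D (A v) → l = 0) : B ≤ A v := by
  intro a ha
  obtain ⟨a1, ha1, ha1'⟩ := X.comp hv (X.Ax hu (hB.le ha))
  have h1 : a1 ∈ B := hB.cl v hv a ha a1 ha1 ha1'
  have h2 := h (a + a1) (B.add_mem ha h1) ha1'
  rw [eo h2]; exact ha1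

/-- L5: generic elements of a good subgroup -/
theorem generic [Finite V] {u : V} (hu : ¬ C D x u) {B : Submodule (ZMod 2) V}
    (hB : Good D x A u B) :
    ∃ m ∈ B, ∀ v, ¬ C D x v → (∀ n ∈ B, n ∈ kk D (A v) → C D m n) →
      ∀ n ∈ B, n ∈ kk D (A v) → n = 0 := by
  classical
  obtain ⟨m, hm, hmin⟩ := Set.Finite.exists_minimalFor
    (fun m : V => Nat.card ((D.ann x ⊓ D.ann m : Submodule (ZMod 2) V)))
    (B : Set V) (Set.toFinite _) ⟨0, B.zero_mem⟩
  refine ⟨m, hm, ?_⟩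
  intro v hv h n hn hnk
  by_contra hn0
  obtain ⟨m1, hm1, hm2⟩ := X.comp hv (X.Ax hu (hB.le hm))
  have hm1B : m1 ∈ B := hB.cl v hv m hm m1 hm1 hm2
  -- the second component of `m` is zero
  have h1 : m + m1 = 0 := by
    refine hB.rad _ (B.add_mem hm hm1B) (fun b hb => ?_)
    obtain ⟨b1, hb1, hb2⟩ := X.comp hv (X.Ax hu (hB.le hb))
    have hb1B : b1 ∈ B := hB.cl v hv b hb b1 hb1 hb2
    have h2 : C D (m + m1) (b + b1) :=
      (h (b + b1) (B.add_mem hb hb1B) hb2).add' (hb2 m1 hm1).symm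
    exact C.canc h2 (hm2 b1 hb1)
  have hmv : m ∈ A v := by rw [eo h1]; exact hm1
  -- some element of `B` in `K_(A v)` does not commute with `n`
  have h2 : ∃ b ∈ B, b ∈ kk D (A v) ∧ ¬ C D n b := by
    by_contra h3
    push Not at h3
    refine hn0 (hB.rad n hn (fun b hb => ?_))
    obtain ⟨b1, hb1, hb2⟩ := X.comp hv (X.Ax hu (hB.le hb))
    have hb1B : b1 ∈ B := hB.cl v hv b hb b1 hb1 hb2
    exact C.canc (h3 (b + b1) (B.add_mem hb hb1B) hb2) (hnk b1 hb1)
  obtain ⟨b, hb, hbk, hnb⟩ := h2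
  have hnx : C D x n := X.Ax hu (hB.le hn)
  have h3 : (D.ann x ⊓ D.ann (m + n) : Submodule (ZMod 2) V) ≤ D.ann x ⊓ D.ann m := by
    rintro k ⟨hk, hk2⟩
    exact ⟨hk, (X.star' hv hmv hnk hnx hk hk2).1⟩
  have h4 := card_lt h3 (w := b) ⟨X.Ax hu (hB.le hb), h b hb hbk⟩ (by
    rintro ⟨-, h5⟩
    exact hnb (X.star' hv hmv hnk hnx (X.Ax hu (hB.le hb)) h5).2)
  have h5 := hmin (B.add_mem hm hn) h4.le
  exact absurd h5 (not_le.2 h4)

end LDx

end Pool.Agent.ETCD2
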