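import Pool.Agent.ETCD2.C1

/-!
Note 2502 (helper32), section 0: the set `Delta u` is a subgroup (helper81).
-/

set_option autoImplicit false
set_option linter.unusedSectionVars false
set_option linter.unusedSimpArgs false
set_option linter.unnecessarySeqFocus false

namespace Pool.Agent.ETCD2

open Pool.Agent.Helper58.PLine (QData)
open Pool.Agent.ETCP

variable {V Q : Type} [AddCommGroup V] [Module (ZMod 2) V] {D : QData V Q}

variable (D) in
/-- some elements of the classes of `u` and `v` commute -/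
def Dl (x u v : V) : Prop := ∃ w s, D.q x w = D.q x u ∧ D.q x s = D.q x v ∧ C D w s

theorem Dl.of_K {x u v : V} (hv : C D x v) : Dl D x u v :=
  ⟨u, 0, rfl, by rw [D.q_zero]; exact Eq.symm hv, C.zero u⟩

theorem Dl.refl (he : D.e = 0) (x u : V) : Dl D x u u := ⟨u, u, rfl, rfl, C.self he u⟩

theorem Dl.congr {x u v v' : V} (h : Dl D x u v) (e : D.q x v = D.q x v') : Dl D x u v' := by
  obtain ⟨w, s, h1, h2, h3⟩ := h
  exact ⟨w, s, h1, h2.trans e, h3⟩

theorem Dl.add (he : D.e = 0) {x u v v' : V} (h : Dl D x u v) (h' : Dl D x u v') :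
    Dl D x u (v + v') := by
  obtain ⟨w, s, hw, hs, hws⟩ := h
  obtain ⟨w', s', hw', hs', hws'⟩ := h'
  have e1 : D.q (s + x) w = D.q x u := by rw [qaddl' hws.symm]; exact hw
  have e2 : D.q (s' + x) w' = D.q x u := by rw [qaddl' hws'.symm]; exact hw'
  obtain ⟨t, h1, h2⟩ := D.link _ _ _ _ (e1.trans e2.symm)
  rw [e1] at h1
  rw [e2] at h2
  have h3 : C D (s + s') t := by
    have := q_eq'_iff.1 (h1.symm.trans h2)
    exact this.of_eq (eo (by abel_nf <;> simp only [ch2, ch3, ch4, ch5, ch6, add_zero, zero_add])) rfl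
  have e3 : D.q t (s + x) = D.q x u := by rw [D.symm]; exact h1.symm
  obtain ⟨w0, h4, h5⟩ := D.link _ _ _ _ e3
  rw [e3] at h4
  have e4 : D.q (w0 + (s + s')) t = D.q x u := by
    rw [qadd' h3, D.symm]; exact h4.symm
  obtain ⟨w1, h6, h7⟩ := D.link _ _ _ _ e4
  rw [e4] at h6
  have h8 : C D (w0 + (s + s') + x) w1 := q_eq'_iff.1 (h6.symm.trans h7)
  have h9 : C D x (w0 + w1) := q_eq_iff.1 (h5.symm.trans h7)
  refine ⟨w1, w0 + (s + s') + x + w1, h7.symm, ?_, ?_⟩
  · refine q_eq_iff.2 ?_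
    have h10 := (((q_eq_iff.1 hs).add (q_eq_iff.1 hs')).add h9).add (C.self he x)
    refine h10.of_eq rfl ?_
    abel
  · exact h8.symm.add (C.self he w1)

end Pool.Agent.ETCD2
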