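import Pool.Agent.ETCD2.C1b
import Pool.Agent.ETCD2.Delta
import Pool.Agent.ED2.Sec3

/-!
Note 2539 (helper32), section 3 = part 4.2 of note 2502, on the frame `LDx` (helper16).
-/

set_option autoImplicit false
set_option linter.unusedSectionVars false
set_option linter.unusedSimpArgs false
set_option linter.unnecessarySeqFocus false

namespace Pool.Agent.ETCD2

open Pool.Agent.Helper58.PLine (QData)
open Pool.Agent.ETCP
open Pool.Agent.ED2 (Ac Cuv Del Sec3)

variable {V Q : Type} [AddCommGroup V] [Module (ZMod 2) V]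

namespace LDx

variable {D : QData V Q} {x : V} {A : V → Submodule (ZMod 2) V}
variable (X : LDx D x A)
include X

theorem ac_iff {v : V} (hv : ¬ C D x v) {l : V} : Ac D x (D.q x v) l ↔ l ∈ A v :=
  (X.mem v hv l).symm

theorem cuv_iff {u v : V} (hu : ¬ C D x u) (hv : ¬ C D x v) {l : V} :
    Cuv D x u v l ↔ l ∈ A u ⊓ kk D (A v) := by
  constructor
  · rintro ⟨h1, h2⟩
    exact ⟨(X.ac_iff hu).1 h1, fun a ha => h2 a ((X.ac_iff hv).2 ha)⟩
  · rintro ⟨h1, h2⟩
    exact ⟨(X.ac_iff hu).2 h1, fun a ha => h2 a ((X.ac_iff hv).1 ha)⟩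

/-- the hypotheses of section 3 -/
theorem sec3 [Finite V] {u : V} (hu : ¬ C D x u)
    (viii : ∀ v, ¬ C D x v → Dl D x u v → A u ≤ A v → D.q x v = D.q x u) : Sec3 D x u where
  he := X.he
  hu := hu
  d2 := fun _ hk => X.d2x hk
  L0 := fun v hv l hl h => X.inter hv ((X.ac_iff hv).1 hl)
    (fun a ha => h a ((X.ac_iff hv).2 ha))
  L3 := by
    intro v hv l hl
    have hl' := (X.ac_iff hu).1 hl
    obtain ⟨l1, h1, h2⟩ := X.comp hv (X.Ax hu hl')
    have h3 := X.dec_mem hu hv hl' h1 h2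
    refine ⟨l1, l + l1, eo (by abel_nf <;> simp only [ch2, ch3, ch4, ch5, ch6, add_zero, zero_add]),
      (X.ac_iff hu).2 h3, (X.ac_iff hv).2 h1, (X.cuv_iff hu hv).2 ⟨(A u).add_mem hl' h3, h2⟩⟩
  L4 := by
    intro v v' hv hv' b hb
    have hb' := (X.cuv_iff hu hv).1 hb
    obtain ⟨b1, h1, h2⟩ := X.comp hv' (X.Ax hu hb'.1)
    have h3 := (X.good_C hu hv).cl v' hv' b hb' b1 h1 h2
    refine ⟨b1, b + b1, eo (by abel_nf <;> simp only [ch2, ch3, ch4, ch5, ch6, add_zero, zero_add]),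
      (X.cuv_iff hu hv).2 h3, (X.ac_iff hv').2 h1,
      (X.cuv_iff hu hv).2 ((A u ⊓ kk D (A v)).add_mem hb' h3),
      fun a ha => h2 a ((X.ac_iff hv').1 ha)⟩
  L5 := by
    intro v hv
    obtain ⟨m, hm, hg⟩ := X.generic hu (X.good_C hu hv)
    refine ⟨m, (X.cuv_iff hu hv).2 hm, ?_⟩
    intro t ht h b hb hbt
    refine hg t ht (fun n hn hnt => h n ((X.cuv_iff hu hv).2 hn)
      (fun a ha => hnt a ((X.ac_iff ht).1 ha))) b ((X.cuv_iff hu hv).1 hb)
      (fun a ha => hbt a ((X.ac_iff ht).2 ha))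
  L6 := by
    intro v hv w s hw hs hws l hl
    have hl' := (X.cuv_iff hu hv).1 hl
    exact X.a8 hu hv hw hs hws hl'.1 hl'.2
  Dadd := fun _ _ h h' => Dl.add X.he h h'
  viii := by
    intro v hv h
    by_cases hxv : C D x v
    · exact Or.inl hxv
    · refine Or.inr (q_eq_iff.1 (viii v hxv hv (fun l hl => ?_)).symm)
      exact (X.ac_iff hxv).1 (h l ((X.ac_iff hu).2 hl))

/-- (4.2): `(4.1)` at `u` implies that `Delta u = K u (u + K)` -/
theorem c3 [Finite V] {u : V} (hu : ¬ C D x u)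
    (viii : ∀ v, ¬ C D x v → Dl D x u v → A u ≤ A v → D.q x v = D.q x u) {v : V}
    (hv : Dl D x u v) : C D x v ∨ D.q x v = D.q x u := by
  rcases (X.sec3 hu viii).main v hv with h | h
  · exact Or.inl h
  · exact Or.inr (q_eq h).symm

end LDx

end Pool.Agent.ETCD2
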