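import Pool.Agent.ETCD2.Main

/-!
The converse of note 2502: a structure of elementary type with `-1 = 1` satisfies (D2) at its
elements of minimal rank, and the resulting equivalence (helper24).
-/

set_option autoImplicit false
set_option linter.unusedSectionVars false

namespace Pool.Agent.ETCD2

open QS

/-- if some `g ≠ 1` kills everything so does every element of minimal rank -/
theorem rad_of_min (S : QStruct) [Finite S.G] {g x : S.G} (hg : g ≠ 1)
    (h : ∀ b, S.q g b = S.zero) (hx : MinRk S x) (w : S.G) : S.q x w = S.zero := by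
  by_contra hw
  have h1 : Nat.card {w : S.G // S.q x w = S.zero} < Nat.card S.G := Finite.card_subtype_lt hw
  have h2 := hx.2 g hg
  have h3 : Nat.card {w : S.G // S.q g w = S.zero} = Nat.card S.G :=
    Nat.card_congr (Equiv.subtypeUnivEquiv h)
  omega

theorem d2_of_zero {S : QStruct} {x : S.G} (h : ∀ w, S.q x w = S.zero) : D2Q S x :=
  fun _ a _ _ _ _ => Or.inl (h a)

/-! ### Products -/

theorem prod_zero {S T : QStruct} (x w : S.G × T.G) :
    (QS.prod S T).q x w = (QS.prod S T).zero ↔ S.q x.1 w.1 = S.zero ∧ T.q x.2 w.2 = T.zero := by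
  show (S.q x.1 w.1, T.q x.2 w.2) = (S.zero, T.zero) ↔ _
  rw [Prod.mk.injEq]

theorem card_prod (S T : QStruct) (x : S.G × T.G) :
    Nat.card {w : (QS.prod S T).G // (QS.prod S T).q x w = (QS.prod S T).zero} =
      Nat.card {w : S.G // S.q x.1 w = S.zero} * Nat.card {w : T.G // T.q x.2 w = T.zero} := by
  rw [← Nat.card_prod]
  refine Nat.card_congr (Equiv.trans (Equiv.subtypeEquivRight fun w => prod_zero x w) ?_)
  exact Equiv.subtypeProdEquivProd (p := fun w : S.G => S.q x.1 w = S.zero)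
    (q := fun w : T.G => T.q x.2 w = T.zero)

theorem q_one' (S : QStruct) (a : S.G) : S.q 1 a = S.zero := by rw [S.qs2, S.q_one]

theorem d2_prod (S T : QStruct) [Finite S.G] [Finite T.G]
    (hS : ∀ x, MinRk S x → D2Q S x) (hT : ∀ x, MinRk T x → D2Q T x) :
    ∀ x, MinRk (QS.prod S T) x → D2Q (QS.prod S T) x := by
  rintro ⟨x1, x2⟩ hx
  have hfin : Finite (QS.prod S T).G := inferInstanceAs (Finite (S.G × T.G))
  by_cases hd : ∃ g : (QS.prod S T).G, g ≠ 1 ∧ ∀ b, (QS.prod S T).q g b = (QS.prod S T).zero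
  · obtain ⟨g, hg, h⟩ := hd
    exact d2_of_zero (rad_of_min _ hg h hx)
  push Not at hd
  have c1 : ∀ x : S.G, x = 1 → Nat.card {w : S.G // S.q x w = S.zero} = Nat.card S.G := by
    rintro x rfl
    exact Nat.card_congr (Equiv.subtypeUnivEquiv (q_one' S))
  have c2 : ∀ x : T.G, x = 1 → Nat.card {w : T.G // T.q x w = T.zero} = Nat.card T.G := by
    rintro x rfl
    exact Nat.card_congr (Equiv.subtypeUnivEquiv (q_one' T))
  have p1 : 0 < Nat.card {w : S.G // S.q x1 w = S.zero} :=
    Nat.card_pos_iff.2 ⟨⟨⟨1, S.q_one x1⟩⟩, inferInstance⟩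
  have p2 : 0 < Nat.card {w : T.G // T.q x2 w = T.zero} :=
    Nat.card_pos_iff.2 ⟨⟨⟨1, T.q_one x2⟩⟩, inferInstance⟩
  -- one of the components is `1`
  have hc : x1 = 1 ∨ x2 = 1 := by
    by_contra hcon
    push Not at hcon
    obtain ⟨h1, h2⟩ := hcon
    obtain ⟨⟨b1, b2⟩, hb⟩ := hd (1, x2) (fun h => h2 (congrArg Prod.snd h))
    have hb2 : T.q x2 b2 ≠ T.zero := by
      intro h
      exact hb ((prod_zero _ _).2 ⟨q_one' S b1, h⟩)
    have h3 := hx.2 (x1, 1) (fun h => h1 (congrArg Prod.fst h))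
    rw [card_prod, card_prod] at h3
    have h4 : Nat.card {w : T.G // T.q x2 w = T.zero} < Nat.card T.G :=
      Finite.card_subtype_lt hb2
    have h3' : Nat.card {w : S.G // S.q x1 w = S.zero} * Nat.card T.G ≤
        Nat.card {w : S.G // S.q x1 w = S.zero} * Nat.card {w : T.G // T.q x2 w = T.zero} := by
      rw [← c2 1 rfl]
      exact h3
    have h5 := Nat.le_of_mul_le_mul_left h3' p1
    omega
  rcases hc with rfl | rfl
  · -- `x = (1, x2)`
    have h2 : x2 ≠ 1 := fun h => hx.1 (by rw [h]; rfl)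
    have hm : MinRk T x2 := by
      refine ⟨h2, fun v hv => ?_⟩
      have h3 := hx.2 (1, v) (fun h => hv (congrArg Prod.snd h))
      rw [card_prod, card_prod] at h3
      exact Nat.le_of_mul_le_mul_left h3 p1
    rintro ⟨k1, k2⟩ ⟨a1, a2⟩ ⟨b1, b2⟩ e1 e2 e3
    have f1 := ((prod_zero _ _).1 e1).2
    have f2 := ((prod_zero _ _).1 e2).2
    have f3 := ((prod_zero _ _).1 e3).2
    rcases hT x2 hm k2 a2 b2 f1 f2 f3 with h | h | h
    · exact Or.inl ((prod_zero _ _).2 ⟨q_one' S a1, h⟩)
    · exact Or.inr (Or.inl ((prod_zero _ _).2 ⟨q_one' S b1, h⟩))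
    · right; right
      exact Prod.ext ((q_one' S a1).trans (q_one' S b1).symm) h
  · -- `x = (x1, 1)`
    have h1 : x1 ≠ 1 := fun h => hx.1 (by rw [h]; rfl)
    have hm : MinRk S x1 := by
      refine ⟨h1, fun v hv => ?_⟩
      have h3 := hx.2 (v, 1) (fun h => hv (congrArg Prod.fst h))
      rw [card_prod, card_prod] at h3
      exact Nat.le_of_mul_le_mul_right h3 p2
    rintro ⟨k1, k2⟩ ⟨a1, a2⟩ ⟨b1, b2⟩ e1 e2 e3
    have f1 := ((prod_zero _ _).1 e1).1
    have f2 := ((prod_zero _ _).1 e2).1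
    have f3 := ((prod_zero _ _).1 e3).1
    rcases hS x1 hm k1 a1 b1 f1 f2 f3 with h | h | h
    · exact Or.inl ((prod_zero _ _).2 ⟨h, q_one' T a2⟩)
    · exact Or.inr (Or.inl ((prod_zero _ _).2 ⟨h, q_one' T b2⟩))
    · right; right
      exact Prod.ext h ((q_one' T a2).trans (q_one' T b2).symm)

/-! ### Extensions -/

theorem ext_zero {S : QStruct} (u v : S.G × Multiplicative (ZMod 2)) :
    (QS.ext S).q u v = (QS.ext S).zero ↔ extMap S u v = (S.zero, 1) :=
  Subtype.ext_iff

theorem ext_zero11 {S : QStruct} (a b : S.G) :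
    (QS.ext S).q (a, 1) (b, 1) = (QS.ext S).zero ↔ S.q a b = S.zero := by
  rw [ext_zero, extMap_one_one, Prod.mk.injEq]
  exact and_iff_left rfl

theorem ext_zero1x {S : QStruct} (a b : S.G) :
    (QS.ext S).q (a, 1) (b, Multiplicative.ofAdd 1) = (QS.ext S).zero → a = 1 := by
  rw [ext_zero, extMap_one_x, Prod.mk.injEq]
  exact fun h => h.2

/-- the elements commuting with `(v, 1)`, `v ≠ 1` -/
theorem card_ext (S : QStruct) {v : S.G} (hv : v ≠ 1) :
    Nat.card {w : (QS.ext S).G // (QS.ext S).q (v, 1) w = (QS.ext S).zero} =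
      Nat.card {w : S.G // S.q v w = S.zero} := by
  refine Nat.card_congr
    { toFun := fun w => ⟨w.1.1, ?_⟩
      invFun := fun w => ⟨(w.1, 1), (ext_zero11 _ _).2 w.2⟩
      left_inv := ?_
      right_inv := fun w => rfl }
  · obtain ⟨⟨b, β⟩, hw⟩ := w
    rcases two_cases β with rfl | rfl
    · exact (ext_zero11 _ _).1 hw
    · exact absurd (ext_zero1x _ _ hw) hv
  · rintro ⟨⟨b, β⟩, hw⟩
    rcases two_cases β with rfl | rfl
    · rfl
    · exact absurd (ext_zero1x _ _ hw) hv

theorem d2_ext (S : QStruct) (hneg : S.neg = 1) (hS : ∀ x, MinRk S x → D2Q S x) :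
    ∀ x, MinRk (QS.ext S) x → D2Q (QS.ext S) x := by
  rintro ⟨a, α⟩ hx
  rcases two_cases α with rfl | rfl
  · -- `x = (a, 1)`
    have ha : a ≠ 1 := fun h => hx.1 (by rw [h]; rfl)
    have hm : MinRk S a := by
      refine ⟨ha, fun v hv => ?_⟩
      have h3 := hx.2 (v, 1) (fun h => hv (congrArg Prod.fst h))
      rwa [card_ext S hv, card_ext S ha] at h3
    rintro ⟨k1, κ⟩ ⟨a1, α1⟩ ⟨b1, β1⟩ e1 e2 e3
    rcases two_cases κ with rfl | rfl
    · have f1 := (ext_zero11 _ _).1 e1
      have e3' : (QS.ext S).q (k1 * a, 1) (b1, β1) = (QS.ext S).zero := e3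
      by_cases hk1 : k1 = 1
      · right; left
        rw [hk1, one_mul] at e3'
        exact e3'
      by_cases hka : k1 = a
      · left
        rw [hka] at e2
        exact e2
      have hka' : k1 * a ≠ 1 := fun h => hka ((eq_iff_mul S _ _).2 h)
      rcases two_cases α1 with rfl | rfl
      swap
      · exact absurd (ext_zero1x _ _ e2) hk1
      rcases two_cases β1 with rfl | rfl
      swap
      · exact absurd (ext_zero1x _ _ e3') hka'
      have f2 := (ext_zero11 _ _).1 e2
      have f3 := (ext_zero11 _ _).1 e3'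
      rcases hS a hm k1 a1 b1 f1 f2 f3 with h | h | h
      · exact Or.inl ((ext_zero11 _ _).2 h)
      · exact Or.inr (Or.inl ((ext_zero11 _ _).2 h))
      · right; right
        apply Subtype.ext
        show extMap S (a, 1) (a1, 1) = extMap S (a, 1) (b1, 1)
        rw [extMap_one_one, extMap_one_one, h]
    · exact absurd (ext_zero1x _ _ e1) ha
  · -- `x = (a, t)`
    intro k a' b e1 e2 e3
    have hk : k = 1 ∨ k = (a, Multiplicative.ofAdd 1) := by
      obtain ⟨b, β⟩ := k
      rw [ext_zero] at e1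
      rcases two_cases β with rfl | rfl
      · rw [extMap_x_one, Prod.mk.injEq] at e1
        left
        rw [e1.2]; rfl
      · rw [extMap_x_x, Prod.mk.injEq, hneg, one_mul] at e1
        right
        rw [(eq_iff_mul S a b).2 e1.2]
    rcases hk with rfl | rfl
    · right; left
      rwa [one_mul] at e3
    · exact Or.inl e2

/-! ### Isomorphism -/

theorem d2_iso {S T : QStruct} (h : Iso S T) (hS : ∀ x, MinRk S x → D2Q S x) :
    ∀ x, MinRk T x → D2Q T x := by
  obtain ⟨φ, -, hφ⟩ := h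
  have hz : ∀ a b, S.q a b = S.zero ↔ T.q (φ a) (φ b) = T.zero := by
    intro a b
    rw [← S.q_one 1, ← T.q_one 1, hφ, map_one]
  have hc : ∀ v, Nat.card {w : S.G // S.q v w = S.zero} =
      Nat.card {w : T.G // T.q (φ v) w = T.zero} := fun v =>
    Nat.card_congr (φ.toEquiv.subtypeEquiv fun w => hz v w)
  intro x hx
  obtain ⟨x, rfl⟩ := φ.surjective x
  have hm : MinRk S x := by
    refine ⟨fun h => hx.1 (by rw [h, map_one]), fun v hv => ?_⟩
    have := hx.2 (φ v) (fun h => hv (φ.injective (by rw [h, map_one])))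
    rwa [← hc, ← hc] at this
  intro k a b e1 e2 e3
  obtain ⟨k, rfl⟩ := φ.surjective k
  obtain ⟨a, rfl⟩ := φ.surjective a
  obtain ⟨b, rfl⟩ := φ.surjective b
  rw [← map_mul] at e3
  rw [← hz] at e1 e2 e3
  rw [← hz, ← hz, ← hφ]
  exact hS x hm k a b e1 e2 e3

/-- **(D2) holds in all structures of elementary type with `-1 = 1`** -/
theorem d2_of_elem {S : QStruct} (h : ElemType S) : Finite S.G → S.neg = 1 →
    ∀ x, MinRk S x → D2Q S x := by
  induction h with
  | L0 S h =>
    intro _ _ x hx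
    rw [Nat.card_eq_one_iff_unique] at h
    exact absurd (h.1.elim x 1) hx.1
  | L10 S h h1 h2 => exact fun _ _ x _ => d2_of_zero (h2 x)
  | L11 S h h1 h2 => exact fun _ hn => absurd hn h1
  | L1 S h h1 h2 => exact fun _ hn => absurd hn h1
  | loc S hf h h1 h2 =>
    intro _ _ x _ k a b _ _ _
    by_contra hcon
    push Not at hcon
    obtain ⟨g1, g2, g3⟩ := hcon
    have : Finite S.Q := Nat.finite_of_card_ne_zero (by omega)
    have h3 : ({S.zero, S.q x a, S.q x b} : Set S.Q).ncard = 3 :=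
      Set.ncard_eq_three.2 ⟨_, _, _, g1.symm, g2.symm, g3, rfl⟩
    have h4 : ({S.zero, S.q x a, S.q x b} : Set S.Q).ncard ≤ Nat.card S.Q := Set.ncard_le_card _
    omega
  | prod S T h1 h2 ih1 ih2 =>
    intro hf hn
    have hf' : Finite (S.G × T.G) := hf
    have : Finite S.G := Finite.of_surjective (Prod.fst : S.G × T.G → S.G) Prod.fst_surjective
    have : Finite T.G := Finite.of_surjective (Prod.snd : S.G × T.G → T.G) Prod.snd_surjective
    exact d2_prod S T (ih1 inferInstance (congrArg Prod.fst hn))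
      (ih2 inferInstance (congrArg Prod.snd hn))
  | ext S h ih =>
    intro hf hn
    have hf' : Finite (S.G × Multiplicative (ZMod 2)) := hf
    have : Finite S.G := Finite.of_surjective (Prod.fst : S.G × Multiplicative (ZMod 2) → S.G)
      Prod.fst_surjective
    have hn' : S.neg = 1 := congrArg Prod.fst hn
    exact d2_ext S hn' (ih inferInstance hn')
  | iso S T h1 h2 ih =>
    intro hf hn
    obtain ⟨φ, h3, h4⟩ := h1
    have : Finite S.G := Finite.of_equiv _ φ.symm.toEquiv
    refine d2_iso ⟨φ, h3, h4⟩ (ih this ?_)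
    exact φ.injective (by rw [h3, hn, map_one])

/-- **The elementary type conjecture for `-1 = 1` is equivalent to (D2).** -/
theorem etc_iff : (∀ S : QStruct, Finite S.G → S.neg = 1 → ElemType S) ↔
    ∀ S : QStruct, Finite S.G → S.neg = 1 → ∀ x, MinRk S x → D2Q S x :=
  ⟨fun h S hf hn => d2_of_elem (h S hf hn) hf hn,
    fun h => all_of_D2 fun S hf hn _ _ => h S hf hn⟩

end Pool.Agent.ETCD2
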