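import Pool.Agent.ETCD2.Conv

/-!
Structures of elementary type with `-1 = 1`: at an element `x` of minimal rank at most one nonzero
quaternion lies in both `q (x, G)` and `q (V_x, V_x)` (helper24).
-/

set_option autoImplicit false
set_option linter.unusedSectionVars false

namespace Pool.Agent.ETCD2

open QS

/-- at most one nonzero quaternion `q (x, v)` is of the form `q (k, k')` with `k, k' ∈ V_x` -/
def WQ (S : QStruct) (x : S.G) : Prop := ∀ k k' l l' v w : S.G, S.q x k = S.zero →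
  S.q x k' = S.zero → S.q x l = S.zero → S.q x l' = S.zero → S.q k k' = S.q x v →
  S.q l l' = S.q x w → S.q x v = S.zero ∨ S.q x w = S.zero ∨ S.q x v = S.q x w

theorem w_of_zero {S : QStruct} {x : S.G} (h : ∀ w, S.q x w = S.zero) : WQ S x :=
  fun _ _ _ _ v _ _ _ _ _ _ _ => Or.inl (h v)

theorem w_prod (S T : QStruct) [Finite S.G] [Finite T.G]
    (hS : ∀ x, MinRk S x → WQ S x) (hT : ∀ x, MinRk T x → WQ T x) :
    ∀ x, MinRk (QS.prod S T) x → WQ (QS.prod S T) x := by
  rintro ⟨x1, x2⟩ hx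
  have hfin : Finite (QS.prod S T).G := inferInstanceAs (Finite (S.G × T.G))
  by_cases hd : ∃ g : (QS.prod S T).G, g ≠ 1 ∧ ∀ b, (QS.prod S T).q g b = (QS.prod S T).zero
  · obtain ⟨g, hg, h⟩ := hd
    exact w_of_zero (rad_of_min _ hg h hx)
  push Not at hd
  have c1 : ∀ x : S.G, x = 1 → Nat.card {w : S.G // S.q x w = S.zero} = Nat.card S.G := by
    rintro x rfl
    exact Nat.card_congr (Equiv.subtypeUnivEquiv (q_one' S))
  have c2 : ∀ x : T.G, x = 1 → Nat.card {w : T.G // T.q x w = T.zero} = Nat.card T.G := by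
    rintro x rfl
    exact Nat.card_congr (Equiv.subtypeUnivEquiv (q_one' T))
  have p1 : 0 < Nat.card {w : S.G // S.q x1 w = S.zero} :=
    Nat.card_pos_iff.2 ⟨⟨⟨1, S.q_one x1⟩⟩, inferInstance⟩
  have p2 : 0 < Nat.card {w : T.G // T.q x2 w = T.zero} :=
    Nat.card_pos_iff.2 ⟨⟨⟨1, T.q_one x2⟩⟩, inferInstance⟩
  -- one of the components is `1`
  have hc : x1 = 1 ∨ x2 = 1 := by
    by_contra hcon
    push Not at hcon
    obtain ⟨h1, h2⟩ := hcon
    obtain ⟨⟨b1, b2⟩, hb⟩ := hd (1, x2) (fun h => h2 (congrArg Prod.snd h))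
    have hb2 : T.q x2 b2 ≠ T.zero := by
      intro h
      exact hb ((prod_zero _ _).2 ⟨q_one' S b1, h⟩)
    have h3 := hx.2 (x1, 1) (fun h => h1 (congrArg Prod.fst h))
    rw [card_prod, card_prod] at h3
    have h4 : Nat.card {w : T.G // T.q x2 w = T.zero} < Nat.card T.G :=
      Finite.card_subtype_lt hb2
    have h3' : Nat.card {w : S.G // S.q x1 w = S.zero} * Nat.card T.G ≤
        Nat.card {w : S.G // S.q x1 w = S.zero} * Nat.card {w : T.G // T.q x2 w = T.zero} := by
      rw [← c2 1 rfl]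
      exact h3
    have h5 := Nat.le_of_mul_le_mul_left h3' p1
    omega
  rcases hc with rfl | rfl
  · -- `x = (1, x2)`
    have h2 : x2 ≠ 1 := fun h => hx.1 (by rw [h]; rfl)
    have hm : MinRk T x2 := by
      refine ⟨h2, fun v hv => ?_⟩
      have h3 := hx.2 (1, v) (fun h => hv (congrArg Prod.snd h))
      rw [card_prod, card_prod] at h3
      exact Nat.le_of_mul_le_mul_left h3 p1
    rintro ⟨k1, k2⟩ ⟨k1', k2'⟩ ⟨l1, l2⟩ ⟨l1', l2'⟩ ⟨v1, v2⟩ ⟨w1, w2⟩ e1 e2 e3 e4 e5 e6
    have f1 := ((prod_zero _ _).1 e1).2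
    have f2 := ((prod_zero _ _).1 e2).2
    have f3 := ((prod_zero _ _).1 e3).2
    have f4 := ((prod_zero _ _).1 e4).2
    have f5 : T.q k2 k2' = T.q x2 v2 := congrArg Prod.snd e5
    have f6 : T.q l2 l2' = T.q x2 w2 := congrArg Prod.snd e6
    rcases hT x2 hm k2 k2' l2 l2' v2 w2 f1 f2 f3 f4 f5 f6 with h | h | h
    · exact Or.inl ((prod_zero _ _).2 ⟨q_one' S v1, h⟩)
    · exact Or.inr (Or.inl ((prod_zero _ _).2 ⟨q_one' S w1, h⟩))
    · right; right
      exact Prod.ext ((q_one' S v1).trans (q_one' S w1).symm) h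
  · -- `x = (x1, 1)`
    have h1 : x1 ≠ 1 := fun h => hx.1 (by rw [h]; rfl)
    have hm : MinRk S x1 := by
      refine ⟨h1, fun v hv => ?_⟩
      have h3 := hx.2 (v, 1) (fun h => hv (congrArg Prod.fst h))
      rw [card_prod, card_prod] at h3
      exact Nat.le_of_mul_le_mul_right h3 p2
    rintro ⟨k1, k2⟩ ⟨k1', k2'⟩ ⟨l1, l2⟩ ⟨l1', l2'⟩ ⟨v1, v2⟩ ⟨w1, w2⟩ e1 e2 e3 e4 e5 e6
    have f1 := ((prod_zero _ _).1 e1).1
    have f2 := ((prod_zero _ _).1 e2).1
    have f3 := ((prod_zero _ _).1 e3).1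
    have f4 := ((prod_zero _ _).1 e4).1
    have f5 : S.q k1 k1' = S.q x1 v1 := congrArg Prod.fst e5
    have f6 : S.q l1 l1' = S.q x1 w1 := congrArg Prod.fst e6
    rcases hS x1 hm k1 k1' l1 l1' v1 w1 f1 f2 f3 f4 f5 f6 with h | h | h
    · exact Or.inl ((prod_zero _ _).2 ⟨h, q_one' T v2⟩)
    · exact Or.inr (Or.inl ((prod_zero _ _).2 ⟨h, q_one' T w2⟩))
    · right; right
      exact Prod.ext h ((q_one' T v2).trans (q_one' T w2).symm)

theorem w_ext (S : QStruct) (hneg : S.neg = 1) (hS : ∀ x, MinRk S x → WQ S x) :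
    ∀ x, MinRk (QS.ext S) x → WQ (QS.ext S) x := by
  rintro ⟨a, α⟩ hx
  rcases two_cases α with rfl | rfl
  · -- `x = (a, 1)`
    have ha : a ≠ 1 := fun h => hx.1 (by rw [h]; rfl)
    have hm : MinRk S a := by
      refine ⟨ha, fun v hv => ?_⟩
      have h3 := hx.2 (v, 1) (fun h => hv (congrArg Prod.fst h))
      rwa [card_ext S hv, card_ext S ha] at h3
    rintro ⟨k1, κ⟩ ⟨k1', κ'⟩ ⟨l1, lam⟩ ⟨l1', lam'⟩ ⟨v1, β⟩ ⟨w1, γ⟩ e1 e2 e3 e4 e5 e6
    rcases two_cases κ with rfl | rfl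
    swap
    · exact absurd (ext_zero1x _ _ e1) ha
    rcases two_cases κ' with rfl | rfl
    swap
    · exact absurd (ext_zero1x _ _ e2) ha
    rcases two_cases lam with rfl | rfl
    swap
    · exact absurd (ext_zero1x _ _ e3) ha
    rcases two_cases lam' with rfl | rfl
    swap
    · exact absurd (ext_zero1x _ _ e4) ha
    have f1 := (ext_zero11 _ _).1 e1
    have f2 := (ext_zero11 _ _).1 e2
    have f3 := (ext_zero11 _ _).1 e3
    have f4 := (ext_zero11 _ _).1 e4
    have g5 : extMap S (k1, 1) (k1', 1) = extMap S (a, 1) (v1, β) := congrArg Subtype.val e5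
    have g6 : extMap S (l1, 1) (l1', 1) = extMap S (a, 1) (w1, γ) := congrArg Subtype.val e6
    rcases two_cases β with rfl | rfl
    swap
    · rw [extMap_one_one, extMap_one_x, Prod.mk.injEq] at g5
      exact absurd g5.2.symm ha
    rcases two_cases γ with rfl | rfl
    swap
    · rw [extMap_one_one, extMap_one_x, Prod.mk.injEq] at g6
      exact absurd g6.2.symm ha
    rw [extMap_one_one, extMap_one_one, Prod.mk.injEq] at g5 g6
    rcases hS a hm k1 k1' l1 l1' v1 w1 f1 f2 f3 f4 g5.1 g6.1 with h | h | h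
    · exact Or.inl ((ext_zero11 _ _).2 h)
    · exact Or.inr (Or.inl ((ext_zero11 _ _).2 h))
    · right; right
      apply Subtype.ext
      show extMap S (a, 1) (v1, 1) = extMap S (a, 1) (w1, 1)
      rw [extMap_one_one, extMap_one_one, h]
  · -- `x = (a, t)`
    intro k k' l l' v w e1 e2 _ _ e5 _
    have hk : ∀ k : (QS.ext S).G, (QS.ext S).q (a, Multiplicative.ofAdd 1) k = (QS.ext S).zero →
        k = 1 ∨ k = (a, Multiplicative.ofAdd 1) := by
      rintro ⟨b, β⟩ e1
      rw [ext_zero] at e1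
      rcases two_cases β with rfl | rfl
      · rw [extMap_x_one, Prod.mk.injEq] at e1
        left
        rw [e1.2]; rfl
      · rw [extMap_x_x, Prod.mk.injEq, hneg, one_mul] at e1
        right
        rw [(eq_iff_mul S a b).2 e1.2]
    left
    rw [← e5]
    rcases hk k e1 with rfl | rfl
    · exact q_one' (QS.ext S) k'
    · exact e2

theorem w_iso {S T : QStruct} (h : Iso S T) (hS : ∀ x, MinRk S x → WQ S x) :
    ∀ x, MinRk T x → WQ T x := by
  obtain ⟨φ, -, hφ⟩ := h
  have hz : ∀ a b, S.q a b = S.zero ↔ T.q (φ a) (φ b) = T.zero := by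
    intro a b
    rw [← S.q_one 1, ← T.q_one 1, hφ, map_one]
  have hc : ∀ v, Nat.card {w : S.G // S.q v w = S.zero} =
      Nat.card {w : T.G // T.q (φ v) w = T.zero} := fun v =>
    Nat.card_congr (φ.toEquiv.subtypeEquiv fun w => hz v w)
  intro x hx
  obtain ⟨x, rfl⟩ := φ.surjective x
  have hm : MinRk S x := by
    refine ⟨fun h => hx.1 (by rw [h, map_one]), fun v hv => ?_⟩
    have := hx.2 (φ v) (fun h => hv (φ.injective (by rw [h, map_one])))
    rwa [← hc, ← hc] at this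
  intro k k' l l' v w e1 e2 e3 e4 e5 e6
  obtain ⟨k, rfl⟩ := φ.surjective k
  obtain ⟨k', rfl⟩ := φ.surjective k'
  obtain ⟨l, rfl⟩ := φ.surjective l
  obtain ⟨l', rfl⟩ := φ.surjective l'
  obtain ⟨v, rfl⟩ := φ.surjective v
  obtain ⟨w, rfl⟩ := φ.surjective w
  rw [← hz] at e1 e2 e3 e4
  rw [← hφ] at e5 e6
  rw [← hz, ← hz, ← hφ]
  exact hS x hm k k' l l' v w e1 e2 e3 e4 e5 e6

/-- **structures of elementary type with `-1 = 1`** -/
theorem w_of_elem {S : QStruct} (h : ElemType S) : Finite S.G → S.neg = 1 →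
    ∀ x, MinRk S x → WQ S x := by
  induction h with
  | L0 S h =>
    intro _ _ x hx
    rw [Nat.card_eq_one_iff_unique] at h
    exact absurd (h.1.elim x 1) hx.1
  | L10 S h h1 h2 => exact fun _ _ x _ => w_of_zero (h2 x)
  | L11 S h h1 h2 => exact fun _ hn => absurd hn h1
  | L1 S h h1 h2 => exact fun _ hn => absurd hn h1
  | loc S hf h h1 h2 =>
    intro _ _ x _ k k' l l' a b _ _ _ _ _ _
    by_contra hcon
    push Not at hcon
    obtain ⟨g1, g2, g3⟩ := hcon
    have : Finite S.Q := Nat.finite_of_card_ne_zero (by omega)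
    have h3 : ({S.zero, S.q x a, S.q x b} : Set S.Q).ncard = 3 :=
      Set.ncard_eq_three.2 ⟨_, _, _, g1.symm, g2.symm, g3, rfl⟩
    have h4 : ({S.zero, S.q x a, S.q x b} : Set S.Q).ncard ≤ Nat.card S.Q := Set.ncard_le_card _
    omega
  | prod S T h1 h2 ih1 ih2 =>
    intro hf hn
    have hf' : Finite (S.G × T.G) := hf
    have : Finite S.G := Finite.of_surjective (Prod.fst : S.G × T.G → S.G) Prod.fst_surjective
    have : Finite T.G := Finite.of_surjective (Prod.snd : S.G × T.G → T.G) Prod.snd_surjective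
    exact w_prod S T (ih1 inferInstance (congrArg Prod.fst hn))
      (ih2 inferInstance (congrArg Prod.snd hn))
  | ext S h ih =>
    intro hf hn
    have hf' : Finite (S.G × Multiplicative (ZMod 2)) := hf
    have : Finite S.G := Finite.of_surjective (Prod.fst : S.G × Multiplicative (ZMod 2) → S.G)
      Prod.fst_surjective
    have hn' : S.neg = 1 := congrArg Prod.fst hn
    exact w_ext S hn' (ih inferInstance hn')
  | iso S T h1 h2 ih =>
    intro hf hn
    obtain ⟨φ, h3, h4⟩ := h1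
    have : Finite S.G := Finite.of_equiv _ φ.symm.toEquiv
    refine w_iso ⟨φ, h3, h4⟩ (ih this ?_)
    exact φ.injective (by rw [h3, hn, map_one])

/-- (D2) at `x` and the quaternion `q (x, u)`: if `q (x, l) = 0`, `q (x, v) = q (x, u)`,
`q (l, v) = 0` and `q (l x, t) = 0`, then `q (x, t) = 0` -/
def D2One (S : QStruct) (x u : S.G) : Prop := ∀ l v t : S.G, S.q x l = S.zero →
  S.q x v = S.q x u → S.q l v = S.zero → S.q (l * x) t = S.zero → S.q x t = S.zero

/-- for some `x` of minimal rank, either `q (x, G)` has at most two elements or some nonzero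
`q (x, u)` satisfies the condition above -/
def HasD2c (S : QStruct) : Prop :=
  ∃ x, MinRk S x ∧ ((∀ u v, S.q x u = S.zero ∨ S.q x v = S.zero ∨ S.q x u = S.q x v) ∨
    ∃ u, S.q x u ≠ S.zero ∧ D2One S x u)

/-- from (D2) and the statement above -/
theorem d2c_of {S : QStruct} {x : S.G} (hd : D2Q S x) (hw : WQ S x) :
    (∀ u v, S.q x u = S.zero ∨ S.q x v = S.zero ∨ S.q x u = S.q x v) ∨
      ∃ u, S.q x u ≠ S.zero ∧ D2One S x u := by
  by_cases h : ∀ u v, S.q x u = S.zero ∨ S.q x v = S.zero ∨ S.q x u = S.q x v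
  · exact Or.inl h
  right
  push Not at h
  obtain ⟨u1, u2, h1, h2, h3⟩ := h
  -- one of the two is not in `q (V_x, V_x)`
  obtain ⟨u, hu0, hu⟩ : ∃ u, S.q x u ≠ S.zero ∧ ∀ k k', S.q x k = S.zero → S.q x k' = S.zero →
      S.q k k' ≠ S.q x u := by
    by_contra hcon
    push Not at hcon
    obtain ⟨k, k', e1, e2, e3⟩ := hcon u1 h1
    obtain ⟨l, l', e4, e5, e6⟩ := hcon u2 h2
    rcases hw k k' l l' u1 u2 e1 e2 e4 e5 e3 e6 with h | h | h
    · exact h1 h
    · exact h2 h
    · exact h3 h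
  refine ⟨u, hu0, fun l v t e1 e2 e3 e4 => ?_⟩
  rcases hd l v t e1 e3 e4 with h | h | h
  · exact absurd (e2.symm.trans h) hu0
  · exact h
  · exfalso
    have g1 : S.q x (v * t) = S.zero := (S.qs3 x v t).1 h
    have g2 : S.q l (v * t) = S.q l t := S.q_zero_mul e3
    have g3 : S.q t l = S.q t x := by
      rw [S.qs3, S.qs2]
      exact e4
    refine hu l (v * t) e1 g1 ?_
    rw [g2, S.qs2 l t, g3, S.qs2 t x, ← h, e2]

end Pool.Agent.ETCD2
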