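import Pool.Agent.ETCD2.C1
import Pool.Agent.ETC.QSat2

/-!
Notes 2502, 2541 (helper32), sections 1 - 2: the law D2 and (K4) imply (D2+) (helper24).
-/

set_option autoImplicit false
set_option linter.unusedSectionVars false
set_option linter.unusedSimpArgs false
set_option linter.unnecessarySeqFocus false

namespace Pool.Agent.ETCD2

open Pool.Agent.Helper58.PLine (QData)
open Pool.Agent.ETCP

variable {V Q : Type} [AddCommGroup V] [Module (ZMod 2) V] {D : QData V Q}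

variable (D) in
/-- (D2) at `x`: no `k ∈ V_x` with `a ∈ V_k`, `b ∈ V_{k+x}`, `0 ≠ q (x, a) ≠ q (x, b) ≠ 0` -/
def D2At (x : V) : Prop := ∀ k a b, C D x k → C D k a → C D (k + x) b → ¬ C D x a → ¬ C D x b →
  C D x (a + b)

variable (D) in
/-- (K4) at `x` -/
def K4At (x : V) : Prop := ∀ u, ¬ C D x u → ∃ w s, C D x (u + w) ∧ C D w s ∧ ¬ C D x s ∧
  ¬ C D x (s + u)

/-- [A1] (a) -/
theorem a1a {x n k u : V} (he : D.e = 0) (d2 : D2At D x) (hu : ¬ C D x u) (hn : C D x n)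
    (hq : D.q n k = D.q x u) {a : V} (ha : C D n a) : C D x a ∨ C D x (a + u) := by
  by_cases h : C D x a
  · exact Or.inl h
  right
  obtain ⟨v, h1, h2, h3⟩ := link hq.symm
  -- `h1 : C x (u + v)`, `h2 : C n (k + v)`, `h3 : C (x + n) v`
  have h4 : ¬ C D x v := fun h5 => hu (C.canc h1 h5)
  have h5 := d2 n a v hn ha (h3.of_eq (add_comm _ _) rfl) h h4
  refine (h5.add h1).of_eq rfl ?_
  exact eo (by abel_nf <;> simp only [ch2, ch3, ch4, ch5, ch6, add_zero, zero_add])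

/-- [A1] (b) -/
theorem a1b {x κ l u w s : V} (he : D.e = 0) (d2 : D2At D x) (hu : ¬ C D x u) (hκ : C D x κ)
    (hl : C D x l) (hq : D.q κ l = D.q x u) (h1 : C D x (u + w)) (h2 : C D w s)
    (h3 : ¬ C D x s) (h4 : ¬ C D x (s + u)) :
    ∃ τ, C D x (τ + u) ∧ C D s τ ∧ C D (x + κ) τ := by
  have e1 : D.q x w = D.q x u := (q_eq_iff.2 h1).symm
  have e2 : D.q (s + x) w = D.q x u := by rw [qaddl' h2.symm]; exact e1
  obtain ⟨τ, g1, g2⟩ := D.link _ _ _ _ (e2.trans hq.symm)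
  rw [e2] at g1
  rw [hq] at g2
  have g3 : C D κ (l + τ) := q_eq_iff.1 (hq.trans g2)
  rcases a1a he d2 hu hκ hq g3 with g4 | g4
  · exfalso
    have hτ : C D x τ := C.canc (g4.of_eq rfl (add_comm _ _)) hl
    have g5 : D.q s τ = D.q x w := by
      rw [e1, g1, qadd' hτ]
    have g6 : D.q s (τ + x) = D.q x (w + s) := ETC.add_common g5 (D.symm s x)
    have hws : ¬ C D x (w + s) := by
      intro g7
      apply h4
      refine (g7.add h1).of_eq rfl ?_
      exact eo (by abel_nf <;> simp only [ch2, ch3, ch4, ch5, ch6, add_zero, zero_add])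
    have hw : ¬ C D x w := fun g7 => hu (C.canc h1 g7)
    -- `a0 ∈ V_τ`
    have g7 : D.q (τ + x) s = D.q x (w + s) := by rw [D.symm, g6]
    obtain ⟨a0, k1, k2, k3⟩ := link g7
    have k4 : C D τ a0 := k3.of_eq
      (eo (by abel_nf <;> simp only [ch2, ch3, ch4, ch5, ch6, add_zero, zero_add])) rfl
    have k5 : ¬ C D x a0 := fun h => hws (C.canc k2 h)
    -- `b0 ∈ V_{τ+x}`
    have g8 : D.q τ s = D.q x w := by rw [D.symm, g5]
    obtain ⟨b0, l1, l2, l3⟩ := link g8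
    have l5 : ¬ C D x b0 := fun h => hw (C.canc l2 h)
    have l6 := d2 τ a0 b0 hτ k4 l3 k5 l5
    apply h3
    refine ((l6.add k2).add l2).of_eq rfl ?_
    exact eo (by abel_nf <;> simp only [ch2, ch3, ch4, ch5, ch6, add_zero, zero_add])
  · have g5 : C D x (τ + u) := by
      refine (g4.add hl).of_eq rfl ?_
      exact eo (by abel_nf <;> simp only [ch2, ch3, ch4, ch5, ch6, add_zero, zero_add])
    have g6 : D.q x τ = D.q x u := q_eq_iff.2 g5
    refine ⟨τ, g5, ?_, ?_⟩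
    · have : C D (s + x + x) τ := q_eq'_iff.1 (g1.symm.trans g6.symm)
      refine this.of_eq ?_ rfl
      exact eo (by abel_nf <;> simp only [ch2, ch3, ch4, ch5, ch6, add_zero, zero_add])
    · exact q_eq'_iff.1 (g6.trans g2)

/-- [A1]: `Q_x ∩ q (K, K) = 0` -/
theorem a1 {x : V} (he : D.e = 0) (d2 : D2At D x) (k4 : K4At D x) {k l u : V} (hk : C D x k)
    (hl : C D x l) (hq : D.q k l = D.q x u) : C D x u := by
  by_contra hu
  obtain ⟨w, s, h1, h2, h3, h4⟩ := k4 u hu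
  obtain ⟨τ, t1, t2, t3⟩ := a1b he d2 hu hk hl hq h1 h2 h3 h4
  have hxx : C D x x := C.self he x
  have hq' : D.q (k + x) l = D.q x u := by rw [qadd' hl]; exact hq
  obtain ⟨τ', t1', t2', t3'⟩ := a1b he d2 hu (hk.add hxx) hl hq' h1 h2 h3 h4
  have t4 : C D k τ' := t3'.of_eq
    (eo (by abel_nf <;> simp only [ch2, ch3, ch4, ch5, ch6, add_zero, zero_add])) rfl
  have hn : C D x (τ + τ') := by
    refine (t1.add t1').of_eq rfl ?_
    exact eo (by abel_nf <;> simp only [ch2, ch3, ch4, ch5, ch6, add_zero, zero_add])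
  have e1 : D.q k τ = D.q x τ := by
    refine q_eq'_iff.2 (t3.of_eq (add_comm _ _) rfl)
  have e2 : D.q x τ = D.q x u := q_eq_iff.2 t1
  have e3 : D.q (τ + τ') k = D.q x u := by
    rw [qadd' t4.symm, D.symm, e1, e2]
  rcases a1a he d2 hu hn e3 (t2.add t2').symm with h | h
  · exact h3 h
  · exact h4 h

/-- [A2]: (D2+) at `x` -/
theorem a2 {x : V} (he : D.e = 0) (d2 : D2At D x) (k4 : K4At D x) {k : V} (hk : C D x k) :
    (∀ v, C D k v → C D x v) ∨ ∀ v, C D (k + x) v → C D x v := by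
  by_contra hcon
  push Not at hcon
  obtain ⟨⟨a, ha, hxa⟩, b, hb, hxb⟩ := hcon
  have h1 := d2 k a b hk ha hb hxa hxb
  have e1 : D.q x a = D.q x b := q_eq_iff.2 h1
  have e2 : D.q (k + x) a = D.q x a := qaddl' ha
  have e3 : D.q k b = D.q x b := q_eq'_iff.2 hb
  obtain ⟨l, l1, l2⟩ := D.link _ _ _ _ (e2.trans (e1.trans e3.symm))
  rw [e2] at l1
  rw [e3] at l2
  have hl : C D x l := by
    have : C D (k + x + k) l := q_eq'_iff.1 (l1.symm.trans (e1.trans l2))
    refine this.of_eq ?_ rfl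
    exact eo (by abel_nf <;> simp only [ch2, ch3, ch4, ch5, ch6, add_zero, zero_add])
  exact hxb (a1 he d2 k4 hk hl l2.symm)

/-- (D2+) for all `z` in the radical of `K = V_x`, `x` of minimal rank -/
theorem d2plus [Finite V] {x : V} (he : D.e = 0)
    (mr : ∀ v, v ≠ 0 → Nat.card (D.ann v) ≤ Nat.card (D.ann x))
    (d2 : ∀ z, z ≠ 0 → (∀ v, v ≠ 0 → Nat.card (D.ann v) ≤ Nat.card (D.ann z)) → D2At D z)
    (k4 : ∀ z, z ≠ 0 → K4At D z) :
    ∀ z, z ≠ 0 → C D x z → (∀ k, C D x k → C D z k) → ∀ k, C D x k →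
    (∀ v, C D k v → C D x v) ∨ ∀ v, C D (k + z) v → C D x v := by
  intro z hz _ hK k hk
  have h1 : D.ann x ≤ D.ann z := fun k hk => hK k hk
  have h2 : ∀ v, C D z v → C D x v := by
    intro v hv
    by_contra hxv
    exact absurd (mr z hz) (not_le.2 (card_lt h1 (w := v) hv hxv))
  have mz : ∀ v, v ≠ 0 → Nat.card (D.ann v) ≤ Nat.card (D.ann z) :=
    fun v hv => (mr v hv).trans (card_le h1)
  rcases a2 he (d2 z hz mz) (k4 z hz) (hK k hk) with h | h
  · exact Or.inl fun v hv => h2 v (h v hv)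
  · exact Or.inr fun v hv => h2 v (h v hv)

end Pool.Agent.ETCD2
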