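import Pool.Agent.ETCD2.C1

/-!
Note 2539 (helper32), LEMMA D0 (helper24; after helper68's theorem D0 of note 2478).
-/

set_option autoImplicit false
set_option linter.unusedSectionVars false
set_option linter.unusedSimpArgs false
set_option linter.unnecessarySeqFocus false

namespace Pool.Agent.ETCD2

open Pool.Agent.Helper58.PLine (QData)
open Pool.Agent.ETCP

variable {V Q : Type} [AddCommGroup V] [Module (ZMod 2) V]

/-- hypotheses of LEMMA D0 (`H` is `H'`, `c` is the symbol) -/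
structure D0 (D : QData V Q) (x : V) (c : Q) (H : Submodule (ZMod 2) V) : Prop where
  he : D.e = 0
  hc : c ≠ D.z
  xH : x ∈ H
  /-- (i) -/
  h1 : ∀ s ∈ H, (∃ t, D.q s t = c) → ∃ w ∈ H, D.q x w = c ∧ D.q s w = c
  /-- (ii) -/
  h2 : ∀ v ∈ H, ¬ C D x v → ∀ w ∈ H, C D v w → C D x w → w = 0
  /-- (iii) -/
  h3 : ∀ s ∈ H, C D x s → (∃ t, D.q s t = c) → s = x
  /-- (v) -/
  h5 : ∀ h ∈ H, h ≠ 0 → Nat.card (D.ann h ⊓ H : Submodule (ZMod 2) V) ≤
    Nat.card (D.ann x ⊓ H : Submodule (ZMod 2) V)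
  /-- (vi) -/
  h6 : ∀ s ∈ H, (∃ t, D.q s t = c) → ∀ y ∈ H, D.q x y = c → ∃ w ∈ H, D.q s w = c ∧ D.q y w = c

namespace D0

variable {D : QData V Q} {x : V} {c : Q} {H : Submodule (ZMod 2) V} (X : D0 D x c H)
include X

theorem nC {a b : V} (h : D.q a b = c) : ¬ C D a b := fun h1 => X.hc (h.symm.trans h1)

theorem uniq {s w w' : V} (hs : s ∈ H) (hx : s ≠ x) (hw : w ∈ H) (hw' : w' ∈ H)
    (h1 : D.q x w = c) (h1' : D.q x w' = c) (h2 : D.q s w = c) (h2' : D.q s w' = c) :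
    w = w' := by
  have e1 : C D x (w + w') := q_eq_iff.1 (h1.trans h1'.symm)
  have e2 : C D s (w + w') := q_eq_iff.1 (h2.trans h2'.symm)
  by_cases h : C D x s
  · exact absurd (X.h3 s hs h ⟨w, h2⟩) hx
  · exact eo (X.h2 s hs h _ (H.add_mem hw hw') e2 e1)

theorem yy {y y' v : V} (hy : y ∈ H) (hy' : y' ∈ H) (h : D.q x y = c) (h' : D.q x y' = c)
    (hv : v ∈ H) (h1 : C D y v) (h1' : C D y' v) (hn : y ≠ y') : v = 0 := by
  by_contra h0
  apply hn
  have e1 : D.q (x + v) y = c := by rw [qadd' h1.symm]; exact h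
  have e2 : D.q (x + v) y' = c := by rw [qadd' h1'.symm]; exact h'
  refine X.uniq (s := x + v) (H.add_mem X.xH hv) ?_ hy hy' h h' e1 e2
  intro h2
  apply h0
  have h3 : x + (x + v) = x + x := by rw [h2]
  rwa [Pool.Agent.Helper58.PLine.add_add_self, zadd] at h3

theorem xy {y v : V} (hy : y ∈ H) (h : D.q x y = c) (hv : v ∈ H) (h1 : C D y v)
    (h2 : C D x v) : v = 0 := X.h2 y hy (X.nC h) v hv h1 h2

theorem two {y v v' : V} (hy : y ∈ H) (h : D.q x y = c) (hv : v ∈ H) (hv' : v' ∈ H)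
    (h1 : C D y v) (h1' : C D y v') (h2 : D.q x v = c) (h2' : D.q x v' = c) : v = v' :=
  eo (X.xy hy h (H.add_mem hv hv') (h1.add h1') (q_eq_iff.1 (h2.trans h2'.symm)))

/-- `s ∈ S_*` -/
def St (_ : D0 D x c H) (s : V) : Prop := s ∈ H ∧ (∃ t, D.q s t = c) ∧ s ≠ x ∧ D.q x s ≠ c

theorem ne_add {v : V} (h : v ≠ 0) : x + v ≠ x := by
  intro h2
  apply h
  have h3 : x + (x + v) = x + x := by rw [h2]
  rwa [Pool.Agent.Helper58.PLine.add_add_self, zadd] at h3

/-- an element of `V'_y - 0` -/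
theorem mem_St {y v : V} (h : D.q x y = c) (hv : v ∈ H) (h1 : C D y v)
    (h0 : v ≠ 0) : X.St (x + v) ∨ D.q x v = c := by
  by_cases h2 : D.q x v = c
  · exact Or.inr h2
  · refine Or.inl ⟨H.add_mem X.xH hv, ⟨y, ?_⟩, X.ne_add h0, ?_⟩
    · rw [qadd' h1.symm]; exact h
    · rwa [qaddl (C.self X.he x)]

/-- no element of `S_*` -/
theorem case_a (h : ∀ s, ¬ X.St s) {y v : V} (hy : y ∈ H) (hxy : D.q x y = c) (hv : v ∈ H)
    (h1 : C D y v) : v = 0 ∨ v = y := by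
  by_cases h0 : v = 0
  · exact Or.inl h0
  · right
    exact X.two hy hxy hv hy h1 (C.self X.he y) ((X.mem_St hxy hv h1 h0).resolve_left (h _)) hxy

/-- `F = 2` -/
theorem case_2 [Finite V] (h : ∀ g ∈ H, C D x g → g = 0 ∨ g = x) {y v : V} (hy : y ∈ H)
    (hxy : D.q x y = c) (hv : v ∈ H) (h1 : C D y v) : v = 0 ∨ v = y := by
  by_contra hcon
  push Not at hcon
  obtain ⟨h0, h0'⟩ := hcon
  have hy0 : y ≠ 0 := by
    rintro rfl
    exact X.nC hxy (C.zero x)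
  have h5 : (((D.ann y ⊓ H : Submodule (ZMod 2) V) : Set V)).ncard ≤
      (((D.ann x ⊓ H : Submodule (ZMod 2) V) : Set V)).ncard := by
    rw [← Nat.card_coe_set_eq, ← Nat.card_coe_set_eq]
    exact X.h5 y hy hy0
  have h6 : (((D.ann x ⊓ H : Submodule (ZMod 2) V) : Set V)).ncard ≤ 2 := by
    have h7 : (((D.ann x ⊓ H : Submodule (ZMod 2) V) : Set V)) ⊆ {0, x} := by
      rintro g ⟨hg, hg'⟩
      exact h g hg' hg
    exact (Set.ncard_le_ncard h7 (Set.toFinite _)).trans (Set.ncard_insert_le _ _ |>.trans (by simp))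
  have h8 : 3 ≤ (((D.ann y ⊓ H : Submodule (ZMod 2) V) : Set V)).ncard := by
    have h9 : ({0, y, v} : Set V) ⊆ (((D.ann y ⊓ H : Submodule (ZMod 2) V) : Set V)) := by
      rintro g hg
      simp only [Set.mem_insert_iff, Set.mem_singleton_iff] at hg
      rcases hg with rfl | rfl | rfl
      · exact Submodule.zero_mem _
      · exact ⟨C.self X.he g, hy⟩
      · exact ⟨h1, hv⟩
    have h10 : ({0, y, v} : Set V).ncard = 3 := by
      rw [Set.ncard_eq_three]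
      exact ⟨0, y, v, hy0.symm, Ne.symm h0, Ne.symm h0', rfl⟩
    rw [← h10]
    exact Set.ncard_le_ncard h9 (Set.toFinite _)
  omega

end D0

section sums
variable [Fintype V]

open Classical in
/-- the sum over a union of cosets of a group of order at least `4` is `0` -/
theorem coset_sum {T : Finset V} {g1 g2 : V} (h1 : g1 ≠ 0) (h2 : g2 ≠ 0) (h12 : g1 ≠ g2)
    (hg1 : ∀ v ∈ T, v + g1 ∈ T) (hg2 : ∀ v ∈ T, v + g2 ∈ T) : ∑ v ∈ T, v = 0 := by
  by_contra hne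
  obtain ⟨φ, hφ, -⟩ := Pool.Agent.Helper58.PLine.exists_functional (p := (⊥ : Submodule (ZMod 2) V))
    (x := ∑ v ∈ T, v) (by simpa using hne)
  -- an element `g` of the group with `φ g = 0`
  obtain ⟨g, hg0, hg, hgφ⟩ : ∃ g, g ≠ 0 ∧ (∀ v ∈ T, v + g ∈ T) ∧ φ g = 0 := by
    rcases Pool.Agent.Helper58.PLine.zm (φ g1) with e1 | e1
    · exact ⟨g1, h1, hg1, e1⟩
    rcases Pool.Agent.Helper58.PLine.zm (φ g2) with e2 | e2
    · exact ⟨g2, h2, hg2, e2⟩
    · refine ⟨g1 + g2, fun h => h12 (eo h), fun v hv => ?_, ?_⟩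
      · have := hg2 _ (hg1 v hv)
        rwa [add_assoc] at this
      · rw [map_add, e1, e2]; decide
  have h3 : φ (∑ v ∈ T, v) = 0 := by
    rw [map_sum]
    refine Finset.sum_involution (fun v _ => v + g) ?_ ?_ ?_ ?_
    · intro v _
      show φ v + φ (v + g) = 0
      rw [map_add, hgφ, add_zero, ZModModule.add_self]
    · intro v _ _ h
      apply hg0
      have : v + (v + g) = v + v := by rw [h]
      rwa [Pool.Agent.Helper58.PLine.add_add_self, ZModModule.add_self] at this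
    · intro v hv
      exact hg v hv
    · intro v _
      show v + g + g = v
      rw [add_assoc, ZModModule.add_self, add_zero]
  rw [hφ] at h3
  exact one_ne_zero h3

open Classical in
/-- `Σ_{s ∈ S} s = b` for every base point `b` -/
theorem base_sum {S : Finset V} {N : V → Finset V} (hS : ∀ s ∈ S, ∀ t ∈ N s, t ∈ S)
    (hsymm : ∀ s t, t ∈ N s → s ∈ S → s ∈ N t) {b g : V} (hb : b ∈ S) (hg0 : g ≠ 0)
    (hg : ∀ t ∈ N b, t + g ∈ N b)
    (hsum : ∀ t ∈ N b, ∑ s ∈ N t, s = 0)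
    (hex : ∀ s ∈ S, s ≠ b → ∃ t ∈ N b, t ∈ N s)
    (hun : ∀ s ∈ S, s ≠ b → ∀ t ∈ N b, ∀ t' ∈ N b, t ∈ N s → t' ∈ N s → t = t') :
    ∑ s ∈ S, s = b := by
  have e1 : ∑ s ∈ S, s = b + ∑ s ∈ S.erase b, s := (Finset.add_sum_erase S (fun s => s) hb).symm
  have e2 : ∑ s ∈ S.erase b, s = ∑ s ∈ S.erase b, ∑ t ∈ N b, if s ∈ N t then s else 0 := by
    apply Finset.sum_congr rfl
    intro s hs
    obtain ⟨hsb, hsS⟩ := Finset.mem_erase.1 hs
    obtain ⟨t, ht, hts⟩ := hex s hsS hsb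
    rw [Finset.sum_eq_single t]
    · rw [if_pos (hsymm s t hts hsS)]
    · intro t' ht' hne
      rw [if_neg]
      intro h
      exact hne (hun s hsS hsb t' ht' t ht (hsymm t' s h (hS b hb t' ht')) hts)
    · intro h; exact absurd ht h
  have e3 : ∀ t ∈ N b, (∑ s ∈ S.erase b, if s ∈ N t then s else 0) = b := by
    intro t ht
    have hbt : b ∈ N t := hsymm b t ht hb
    have e4 : (∑ s ∈ S.erase b, if s ∈ N t then s else 0) = ∑ s ∈ (N t).erase b, s := by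
      rw [← Finset.sum_filter]
      apply Finset.sum_congr _ (fun _ _ => rfl)
      ext s
      simp only [Finset.mem_filter, Finset.mem_erase]
      constructor
      · rintro ⟨⟨h1, -⟩, h3⟩
        exact ⟨h1, h3⟩
      · rintro ⟨h1, h3⟩
        exact ⟨⟨h1, hS t (hS b hb t ht) s h3⟩, h3⟩
    have e5 : b + ∑ s ∈ (N t).erase b, s = 0 := by
      rw [Finset.add_sum_erase (N t) (fun s => s) hbt]
      exact hsum t ht
    rw [e4]
    exact (eo e5).symm
  rw [e1, e2, Finset.sum_comm, Finset.sum_congr rfl e3]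
  have e6 : ∑ _t ∈ N b, b = 0 := by
    refine Finset.sum_involution (fun v _ => v + g) ?_ ?_ ?_ ?_
    · intro v _
      exact ZModModule.add_self b
    · intro v _ _ h
      apply hg0
      have : v + (v + g) = v + v := by rw [h]
      rwa [Pool.Agent.Helper58.PLine.add_add_self, ZModModule.add_self] at this
    · intro v hv
      exact hg v hv
    · intro v _
      show v + g + g = v
      rw [add_assoc, ZModModule.add_self, add_zero]
  rw [e6, add_zero]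

end sums

namespace D0

variable {D : QData V Q} {x : V} {c : Q} {H : Submodule (ZMod 2) V} (X : D0 D x c H)
include X

/-- for `s ∈ S_*`: `N'_s ∩ N'_y` has one element -/
theorem st_one [Finite V] {s y t t' : V} (hs : X.St s) (hy : y ∈ H) (hxy : D.q x y = c)
    (ht : t ∈ H) (ht' : t' ∈ H) (h1 : D.q s t = c) (h1' : D.q s t' = c) (h2 : D.q y t = c)
    (h2' : D.q y t' = c) : t = t' := by
  classical
  have := Fintype.ofFinite V
  obtain ⟨hsH, hsc, hsx, hxs⟩ := hs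
  let Ns : Finset V := Finset.univ.filter (fun t => t ∈ H ∧ D.q s t = c)
  let Nx : Finset V := Finset.univ.filter (fun t => t ∈ H ∧ D.q x t = c)
  have hNs : ∀ t, t ∈ Ns ↔ t ∈ H ∧ D.q s t = c := fun t => by simp [Ns]
  have hNx : ∀ t, t ∈ Nx ↔ t ∈ H ∧ D.q x t = c := fun t => by simp [Nx]
  have hex : ∀ t ∈ Ns, ∃ w, w ∈ H ∧ D.q x w = c ∧ D.q t w = c := by
    intro t ht
    obtain ⟨h3, h4⟩ := (hNs t).1 ht
    obtain ⟨w, hw, h5, h6⟩ := X.h1 t h3 ⟨s, by rw [D.symm]; exact h4⟩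
    exact ⟨w, hw, h5, h6⟩
  have htx : ∀ t ∈ Ns, t ≠ x := by
    intro t ht
    obtain ⟨h3, h4⟩ := (hNs t).1 ht
    rintro rfl
    exact hxs (by rw [D.symm]; exact h4)
  -- cardinalities
  have card1 : Ns.card = Nat.card (D.ann s ⊓ H : Submodule (ZMod 2) V) := by
    change _ = Nat.card ((D.ann s ⊓ H : Submodule (ZMod 2) V) : Set V)
    rw [Nat.card_coe_set_eq, Set.ncard_eq_toFinset_card']
    refine Finset.card_bij (fun v _ => v + t) ?_ ?_ ?_
    · intro v hv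
      obtain ⟨h3, h4⟩ := (hNs v).1 hv
      rw [Set.mem_toFinset]
      exact ⟨q_eq_iff.1 (h4.trans h1.symm), H.add_mem h3 ht⟩
    · intro v _ v' _ h
      exact add_right_cancel h
    · intro v hv
      rw [Set.mem_toFinset] at hv
      refine ⟨v + t, (hNs _).2 ⟨H.add_mem hv.2 ht, ?_⟩, by
        (first | rfl | exact eo (by abel_nf <;> simp only [ch2, ch3, ch4, ch5, ch6, add_zero, zero_add]))⟩
      rw [qaddl hv.1]; exact h1
  have card2 : Nx.card = Nat.card (D.ann x ⊓ H : Submodule (ZMod 2) V) := by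
    change _ = Nat.card ((D.ann x ⊓ H : Submodule (ZMod 2) V) : Set V)
    rw [Nat.card_coe_set_eq, Set.ncard_eq_toFinset_card']
    refine Finset.card_bij (fun v _ => v + y) ?_ ?_ ?_
    · intro v hv
      obtain ⟨h3, h4⟩ := (hNx v).1 hv
      rw [Set.mem_toFinset]
      exact ⟨q_eq_iff.1 (h4.trans hxy.symm), H.add_mem h3 hy⟩
    · intro v _ v' _ h
      exact add_right_cancel h
    · intro v hv
      rw [Set.mem_toFinset] at hv
      refine ⟨v + y, (hNx _).2 ⟨H.add_mem hv.2 hy, ?_⟩, by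
        (first | rfl | exact eo (by abel_nf <;> simp only [ch2, ch3, ch4, ch5, ch6, add_zero, zero_add]))⟩
      rw [qaddl hv.1]; exact hxy
  have hs0 : s ≠ 0 := by
    rintro rfl
    exact X.nC h1 (C.zero' t)
  have hcard : Ns.card ≤ Nx.card := by
    rw [card1, card2]
    exact X.h5 s hsH hs0
  refine Finset.inj_on_of_surj_on_of_card_le (s := Ns) (t := Nx)
    (fun t ht => Classical.choose (hex t ht)) ?_ ?_ hcard ((hNs t).2 ⟨ht, h1⟩)
    ((hNs t').2 ⟨ht', h1'⟩) ?_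
  · intro t ht
    have h := Classical.choose_spec (hex t ht)
    exact (hNx _).2 ⟨h.1, h.2.1⟩
  · intro w hw
    obtain ⟨h3, h4⟩ := (hNx w).1 hw
    obtain ⟨v, hv, h5, h6⟩ := X.h6 s hsH hsc w h3 h4
    have hvN : v ∈ Ns := (hNs v).2 ⟨hv, h5⟩
    refine ⟨v, hvN, ?_⟩
    have h := Classical.choose_spec (hex v hvN)
    exact X.uniq hv (htx v hvN) h.1 h3 h.2.1 h4 h.2.2 (by rw [D.symm]; exact h6)
  · have h := Classical.choose_spec (hex t ((hNs t).2 ⟨ht, h1⟩))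
    have h' := Classical.choose_spec (hex t' ((hNs t').2 ⟨ht', h1'⟩))
    have e1 := X.uniq ht (htx t ((hNs t).2 ⟨ht, h1⟩)) h.1 hy h.2.1 hxy h.2.2
      (by rw [D.symm]; exact h2)
    have e2 := X.uniq ht' (htx t' ((hNs t').2 ⟨ht', h1'⟩)) h'.1 hy h'.2.1 hxy h'.2.2
      (by rw [D.symm]; exact h2')
    rw [e1, e2]

theorem st_inter [Finite V] {s y v : V} (hs : X.St s) (hy : y ∈ H) (hxy : D.q x y = c)
    (hv : v ∈ H) (h1 : C D s v) (h2 : C D y v) : v = 0 := by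
  obtain ⟨t, ht, h3, h4⟩ := X.h6 s hs.1 hs.2.1 y hy hxy
  have h5 := X.st_one hs hy hxy ht (H.add_mem ht hv) h3 (by rw [qadd h1]; exact h3) h4
    (by rw [qadd h2]; exact h4)
  have h6 : t + t = t + (t + v) := by rw [← h5]
  rw [zadd, Pool.Agent.Helper58.PLine.add_add_self] at h6
  exact h6.symm

/-- `|V'_s| ≥ 3` for `s ∈ S_*`, `F ≥ 3` -/
theorem st_big [Finite V] {s y g : V} (hs : X.St s) (hy : y ∈ H) (hxy : D.q x y = c)
    (hg : g ∈ H) (hxg : C D x g) (hg0 : g ≠ 0) (hgx : g ≠ x) :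
    ∃ g1 ∈ H, ∃ g2 ∈ H, C D s g1 ∧ C D s g2 ∧ g1 ≠ 0 ∧ g2 ≠ 0 ∧ g1 ≠ g2 := by
  have key : ∀ y1 ∈ H, D.q x y1 = c → ∃ t ∈ H, D.q s t = c ∧ D.q y1 t = c ∧ t ≠ x := by
    intro y1 hy1 hxy1
    obtain ⟨t, ht, h3, h4⟩ := X.h6 s hs.1 hs.2.1 y1 hy1 hxy1
    refine ⟨t, ht, h3, h4, ?_⟩
    rintro rfl
    exact hs.2.2.2 (by rw [D.symm]; exact h3)
  have x0 : x ≠ 0 := by
    rintro rfl
    exact X.nC hxy (C.zero' y)
  have hy2 : D.q x (y + x) = c := by rw [qadd (C.self X.he x)]; exact hxy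
  have hy3 : D.q x (y + g) = c := by rw [qadd hxg]; exact hxy
  obtain ⟨t1, ht1, a1, b1, c1⟩ := key y hy hxy
  obtain ⟨t2, ht2, a2, b2, c2⟩ := key (y + x) (H.add_mem hy X.xH) hy2
  obtain ⟨t3, ht3, a3, b3, c3⟩ := key (y + g) (H.add_mem hy hg) hy3
  have n12 : t1 ≠ t2 := by
    rintro rfl
    have := X.uniq ht1 c1 hy (H.add_mem hy X.xH) hxy hy2 (by rw [D.symm]; exact b1)
      (by rw [D.symm]; exact b2)
    exact x0 (by
      have h : y + y = y + (y + x) := by rw [← this]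
      rw [zadd, Pool.Agent.Helper58.PLine.add_add_self] at h
      exact h.symm)
  have n13 : t1 ≠ t3 := by
    rintro rfl
    have := X.uniq ht1 c1 hy (H.add_mem hy hg) hxy hy3 (by rw [D.symm]; exact b1)
      (by rw [D.symm]; exact b3)
    exact hg0 (by
      have h : y + y = y + (y + g) := by rw [← this]
      rw [zadd, Pool.Agent.Helper58.PLine.add_add_self] at h
      exact h.symm)
  have n23 : t2 ≠ t3 := by
    rintro rfl
    have := X.uniq ht2 c2 (H.add_mem hy X.xH) (H.add_mem hy hg) hy2 hy3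
      (by rw [D.symm]; exact b2) (by rw [D.symm]; exact b3)
    exact hgx (add_left_cancel this).symm
  refine ⟨t1 + t2, H.add_mem ht1 ht2, t1 + t3, H.add_mem ht1 ht3, q_eq_iff.1 (a1.trans a2.symm),
    q_eq_iff.1 (a1.trans a3.symm), fun h => n12 (eo h), fun h => n13 (eo h), fun h => ?_⟩
  exact n23 (add_left_cancel h)

/-- Step 1 -/
theorem step1 [Finite V] {s y g : V} (hs : X.St s) (hy : y ∈ H) (hxy : D.q x y = c)
    (hg : g ∈ H) (hxg : C D x g) (hg0 : g ≠ 0) (hgx : g ≠ x) :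
    ∃ v ∈ H, C D y v ∧ v ≠ 0 ∧ v ≠ y := by
  by_contra hcon
  push Not at hcon
  have key : ∀ y1 ∈ H, D.q x y1 = c → (∀ v ∈ H, C D y1 v → v ≠ 0 → v = y1) →
      ∀ s, X.St s → D.q s (x + y1) = c := by
    intro y1 hy1 hxy1 hn s hs
    obtain ⟨t, ht, h3, h4⟩ := X.h6 s hs.1 hs.2.1 y1 hy1 hxy1
    have h5 : C D y1 (t + x) := q_eq_iff.1 (h4.trans (by rw [D.symm]; exact hxy1.symm))
    by_cases h0 : t + x = 0
    · exfalso
      rw [eo h0] at h3
      exact hs.2.2.2 (by rw [D.symm]; exact h3)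
    · have h6 := hn _ (H.add_mem ht X.xH) h5 h0
      have h7 : t = x + y1 := by rw [← h6]; (first | rfl | exact eo (by abel_nf <;> simp only [ch2, ch3, ch4, ch5, ch6, add_zero, zero_add]))
      rw [← h7]; exact h3
  have h1 := key y hy hxy hcon
  have hxy' : D.q x (x + y) = c := by rw [qaddl (C.self X.he x)]; exact hxy
  have h2 : ∀ y1 ∈ H, D.q x y1 = c → y1 ≠ x + y → y1 = y := by
    intro y1 hy1 hxy1 hne
    have h3 : ∀ v ∈ H, C D y1 v → v ≠ 0 → v = y1 := by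
      intro v hv h4 h0
      rcases X.mem_St hxy1 hv h4 h0 with h5 | h5
      · exact absurd (X.uniq h5.1 h5.2.2.1 hy1 (H.add_mem X.xH hy) hxy1 hxy'
          (by rw [qadd' h4.symm]; exact hxy1) (h1 _ h5)) hne
      · exact X.two hy1 hxy1 hv hy1 h4 (C.self X.he y1) h5 hxy1
    have h4 := key y1 hy1 hxy1 h3 s hs
    have hxy1' : D.q x (x + y1) = c := by rw [qaddl (C.self X.he x)]; exact hxy1
    have h5 := X.uniq hs.1 hs.2.2.1 (H.add_mem X.xH hy1) (H.add_mem X.xH hy) hxy1' hxy' h4 (h1 s hs)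
    exact add_left_cancel h5
  have h3 := h2 (y + g) (H.add_mem hy hg) (by rw [qadd hxg]; exact hxy) (fun h => hgx (by
    rw [add_comm] at h
    exact add_right_cancel h))
  apply hg0
  have h : y + y = y + (y + g) := by rw [h3]
  rw [zadd, Pool.Agent.Helper58.PLine.add_add_self] at h
  exact h.symm

/-- LEMMA D0 -/
theorem main [Finite V] {y v : V} (hy : y ∈ H) (hxy : D.q x y = c) (hv : v ∈ H)
    (h1 : C D y v) : v = 0 ∨ v = y := by
  classical
  by_cases hS : ∀ s, ¬ X.St s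
  · exact X.case_a hS hy hxy hv h1
  by_cases hF : ∀ g ∈ H, C D x g → g = 0 ∨ g = x
  · exact X.case_2 hF hy hxy hv h1
  exfalso
  push Not at hS hF
  obtain ⟨s0, hs0⟩ := hS
  obtain ⟨g, hg, hxg, hg0, hgx⟩ := hF
  have := Fintype.ofFinite V
  have x0 : x ≠ 0 := by
    rintro rfl
    exact X.nC hxy (C.zero' y)
  let S : Finset V := Finset.univ.filter (fun s => s ∈ H ∧ ∃ t, D.q s t = c)
  let N : V → Finset V := fun s => Finset.univ.filter (fun t => t ∈ H ∧ D.q s t = c)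
  have mS : ∀ s, s ∈ S ↔ s ∈ H ∧ ∃ t, D.q s t = c := fun s => by simp [S]
  have mN : ∀ s t, t ∈ N s ↔ t ∈ H ∧ D.q s t = c := fun s t => by simp [N]
  have hS' : ∀ s ∈ S, ∀ t ∈ N s, t ∈ S := by
    intro s _ t ht
    obtain ⟨h3, h4⟩ := (mN s t).1 ht
    exact (mS t).2 ⟨h3, s, by rw [D.symm]; exact h4⟩
  have hsymm : ∀ s t, t ∈ N s → s ∈ S → s ∈ N t := by
    intro s t ht hs
    obtain ⟨h3, h4⟩ := (mN s t).1 ht
    exact (mN t s).2 ⟨((mS s).1 hs).1, by rw [D.symm]; exact h4⟩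
  have hadd : ∀ s k, k ∈ H → C D s k → ∀ t ∈ N s, t + k ∈ N s := by
    intro s k hk hsk t ht
    obtain ⟨h3, h4⟩ := (mN s t).1 ht
    exact (mN s _).2 ⟨H.add_mem h3 hk, by rw [qadd hsk]; exact h4⟩
  have hsum : ∀ s ∈ S, ∑ t ∈ N s, t = 0 := by
    intro s hs
    obtain ⟨hsH, hsc⟩ := (mS s).1 hs
    by_cases hsx : s = x
    · rw [hsx]
      exact coset_sum x0 hg0 (Ne.symm hgx) (hadd x x X.xH (C.self X.he x)) (hadd x g hg hxg)
    by_cases hxs : D.q x s = c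
    · obtain ⟨v, hv, h3, h4, h5⟩ := X.step1 hs0 hsH hxs hg hxg hg0 hgx
      have s0 : s ≠ 0 := by
        rintro rfl
        exact X.nC hxs (C.zero x)
      exact coset_sum s0 h4 (Ne.symm h5) (hadd s s hsH (C.self X.he s)) (hadd s v hv h3)
    · obtain ⟨g1, hg1, g2, hg2, h3, h4, h5, h6, h7⟩ :=
        X.st_big (s := s) ⟨hsH, hsc, hsx, hxs⟩ hy hxy hg hxg hg0 hgx
      exact coset_sum h5 h6 h7 (hadd s g1 hg1 h3) (hadd s g2 hg2 h4)
  have hxS : x ∈ S := (mS x).2 ⟨X.xH, y, hxy⟩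
  have hyS : y ∈ S := (mS y).2 ⟨hy, x, by rw [D.symm]; exact hxy⟩
  have e1 : ∑ s ∈ S, s = x := by
    refine base_sum hS' hsymm hxS hg0 (hadd x g hg hxg) (fun t ht => hsum t (hS' x hxS t ht)) ?_ ?_
    · intro s hs _
      obtain ⟨hsH, hsc⟩ := (mS s).1 hs
      obtain ⟨w, hw, h3, h4⟩ := X.h1 s hsH hsc
      exact ⟨w, (mN _ _).2 ⟨hw, h3⟩, (mN _ _).2 ⟨hw, h4⟩⟩
    · intro s hs hsx t ht t' ht' h3 h3'
      exact X.uniq ((mS s).1 hs).1 hsx ((mN _ _).1 ht).1 ((mN _ _).1 ht').1 ((mN _ _).1 ht).2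
        ((mN _ _).1 ht').2 ((mN _ _).1 h3).2 ((mN _ _).1 h3').2
  have y0 : y ≠ 0 := by
    rintro rfl
    exact X.nC hxy (C.zero x)
  have e2 : ∑ s ∈ S, s = y := by
    refine base_sum hS' hsymm hyS y0 (hadd y y hy (C.self X.he y))
      (fun t ht => hsum t (hS' y hyS t ht)) ?_ ?_
    · intro s hs _
      obtain ⟨hsH, hsc⟩ := (mS s).1 hs
      obtain ⟨w, hw, h3, h4⟩ := X.h6 s hsH hsc y hy hxy
      exact ⟨w, (mN _ _).2 ⟨hw, h4⟩, (mN _ _).2 ⟨hw, h3⟩⟩
    · intro s hs hsy t ht t' ht' h3 h3'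
      obtain ⟨hsH, hsc⟩ := (mS s).1 hs
      have k1 : C D y (t + t') := q_eq_iff.1 (((mN _ _).1 ht).2.trans ((mN _ _).1 ht').2.symm)
      have k2 : C D s (t + t') := q_eq_iff.1 (((mN _ _).1 h3).2.trans ((mN _ _).1 h3').2.symm)
      have k3 : t + t' ∈ H := H.add_mem ((mN _ _).1 ht).1 ((mN _ _).1 ht').1
      apply eo
      by_cases hsx : s = x
      · rw [hsx] at k2
        exact X.xy hy hxy k3 k1 k2
      by_cases hxs : D.q x s = c
      · exact X.yy hy hsH hxy hxs k3 k1 k2 (Ne.symm hsy)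
      · exact X.st_inter (s := s) ⟨hsH, hsc, hsx, hxs⟩ hy hxy k3 k2 k1
  have e3 : x = y := e1.symm.trans e2
  rw [← e3] at hxy
  exact X.nC hxy (C.self X.he x)

end D0

end Pool.Agent.ETCD2
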