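import Pool.Agent.ETCD2.C1b
import Pool.Agent.ETCD2.Delta
import Pool.Agent.ETCD2.D0

/-!
Note 2539 (helper32), section 2 = section 4.1 of note 2502 (helper24): `u` with `|A u|` maximal,
`v in Delta u`, `A u <= A v` ==> `v in K` or `v in u + K`.
-/

set_option autoImplicit false
set_option linter.unusedSectionVars false
set_option linter.unusedSimpArgs false
set_option linter.unnecessarySeqFocus false

namespace Pool.Agent.ETCD2

open Pool.Agent.Helper58.PLine (QData)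
open Pool.Agent.ETCP

variable {V Q : Type} [AddCommGroup V] [Module (ZMod 2) V]

/-- `H'` -/
def HH (D : QData V Q) (he : D.e = 0) (x u : V) (A : Submodule (ZMod 2) V) :
    Submodule (ZMod 2) V where
  carrier := {h | h ∈ kk D A ∧ Dl D x u h}
  add_mem' := fun {a b} ha hb => ⟨(kk D A).add_mem ha.1 hb.1, ha.2.add he hb.2⟩
  zero_mem' := ⟨(kk D A).zero_mem, Dl.of_K (C.zero x)⟩
  smul_mem' := by
    intro c v hv
    rcases Pool.Agent.Helper58.PLine.zm c with rfl | rfl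
    · rw [zero_smul]; exact ⟨(kk D A).zero_mem, Dl.of_K (C.zero x)⟩
    · rw [one_smul]; exact hv

namespace LDx

variable {D : QData V Q} {x : V} {A : V → Submodule (ZMod 2) V}
variable (X : LDx D x A)
include X

/-- an element of `u + K` has a translate by `A u` which kills `A u` -/
theorem trans_kill {u w : V} (hu : ¬ C D x u) (hw : D.q x w = D.q x u) :
    ∃ a ∈ A u, ∀ b ∈ A u, C D (w + a) b := by
  obtain ⟨y, hy, hyA⟩ := X.kill u hu
  obtain ⟨a, ha, h⟩ := X.dec u hu (w + y) (q_eq_iff.1 (hw.trans hy.symm))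
  exact ⟨a, ha, fun b hb => ((h b hb).add' (hyA b hb)).of_eq (by (first | rfl | exact eo (by abel_nf <;> simp only [ch2, ch3, ch4, ch5, ch6, add_zero, zero_add]))) rfl⟩

theorem d0 [Finite V] {u : V} (hu : ¬ C D x u)
    (hmx : ∀ v, ¬ C D x v → Nat.card (A v) ≤ Nat.card (A u)) :
    D0 D x (D.q x u) (HH D X.he x u (A u)) where
  he := X.he
  hc := hu
  xH := ⟨fun a ha => X.Ax hu ha, Dl.of_K (X.self x)⟩
  h1 := by
    rintro s ⟨hs, -⟩ ⟨t, ht⟩
    obtain ⟨w, h1, h2⟩ := D.link _ _ _ _ ht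
    obtain ⟨a, ha, h3⟩ := X.trans_kill hu h2.symm
    have e1 : D.q x (w + a) = D.q x u := by rw [qadd (X.Ax hu ha), ← h2]
    refine ⟨w + a, ⟨h3, (Dl.refl X.he x u).congr e1.symm⟩, e1, ?_⟩
    rw [qadd (hs a ha), ← h1, ht]
  h2 := by
    rintro v ⟨hv, -⟩ hxv w ⟨hw, -⟩ hvw hxw
    have h1 : A u ≤ A v := fun a ha => X.mem_of hxv rfl (X.Ax hu ha) (hv a ha).symm
    have h2 : w ∈ A v := X.mem_of hxv rfl hxw hvw.symm
    have h3 : w ∈ A u := by
      by_contra h
      exact absurd (hmx v hxv) (not_le.2 (card_lt h1 h2 h))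
    exact X.rad hu h3 hw
  h3 := by
    rintro s ⟨hs, -⟩ hxs ⟨t, ht⟩
    obtain ⟨w, h1, h2⟩ := D.link _ _ _ _ ht
    have h3 : C D (s + x) w := q_eq'_iff.1 (by rw [← h1, ht, h2])
    have h4 : s + x ∈ A u := X.mem_of hu h2.symm (hxs.add (X.self x)) h3
    exact eo (X.rad hu h4 (fun a ha => (hs a ha).add' (X.Ax hu ha)))
  h5 := by
    rintro h ⟨hh, -⟩ h0
    set H := HH D X.he x u (A u) with hH
    -- `V'_h ⊕ A ⊂ V_h`
    have h1 : Nat.card ((D.ann h ⊓ H : Submodule (ZMod 2) V) × A u) ≤ Nat.card (D.ann h) := by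
      refine Nat.card_le_card_of_injective
        (fun p => (⟨(p.1 : V) + p.2, (D.ann h).add_mem p.1.2.1 (hh _ p.2.2)⟩ : D.ann h)) ?_
      rintro ⟨⟨v, hv⟩, a⟩ ⟨⟨v', hv'⟩, a'⟩ e
      simp only [Subtype.mk.injEq] at e
      have e1 : v + v' = (a : V) + a' := by
        have e2 : v + v' = (v + a) + (v' + a) := by (first | rfl | exact eo (by abel_nf <;> simp only [ch2, ch3, ch4, ch5, ch6, add_zero, zero_add]))
        rw [e2, e]
        (first | rfl | exact eo (by abel_nf <;> simp only [ch2, ch3, ch4, ch5, ch6, add_zero, zero_add]))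
      have e3 : (a : V) + a' = 0 := by
        refine X.rad hu ((A u).add_mem a.2 a'.2) ?_
        rw [← e1]
        exact H.add_mem hv.2 hv'.2 |>.1
      have e4 : v = v' := eo (by rw [e1, e3])
      have e5 : a = a' := Subtype.ext (eo e3)
      subst e4 e5
      rfl
    have h2 : Nat.card (D.ann x) ≤ Nat.card ((D.ann x ⊓ H : Submodule (ZMod 2) V) × A u) := by
      refine Nat.card_le_card_of_surjective
        (fun p => (⟨(p.1 : V) + p.2, (D.ann x).add_mem p.1.2.1 (X.Ax hu p.2.2)⟩ : D.ann x)) ?_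
      rintro ⟨k, hk⟩
      obtain ⟨a, ha, hka⟩ := X.dec u hu k hk
      have hk' : C D x (k + a) := (show C D x k from hk).add (X.Ax hu ha)
      refine ⟨(⟨k + a, hk', hka, Dl.of_K hk'⟩, ⟨a, ha⟩), ?_⟩
      exact Subtype.ext add3
    rw [Nat.card_prod] at h1 h2
    have h3 := (h1.trans (X.mr h h0)).trans h2
    exact Nat.le_of_mul_le_mul_right h3 Nat.card_pos
  h6 := by
    rintro s ⟨hs, -⟩ ⟨t', ht'⟩ y ⟨hy, -⟩ hxy
    obtain ⟨m, hm, hgen⟩ := X.generic hu (X.good_A hu)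
    have hmx' : C D x m := X.Ax hu hm
    have e0 : D.q (y + m) x = D.q x u := by
      rw [qadd' hmx'.symm, D.symm]; exact hxy
    obtain ⟨t, h1, h2⟩ := D.link _ _ _ _ (ht'.trans e0.symm)
    rw [ht'] at h1
    have h3 : C D (y + m) (t + x) := (q_eq_iff.1 h2).of_eq rfl (add_comm _ _)
    have e1 : D.q x (y + m) = D.q x u := by rw [qadd hmx']; exact hxy
    have e2 : D.q x (t + x) = D.q x t := qadd (X.self x)
    have h4 : Dl D x u t := ⟨y + m, t + x, e1, e2, h3⟩
    have h5 : C D x t ∨ A u ≤ A t := by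
      by_cases hxt : C D x t
      · exact Or.inl hxt
      refine Or.inr (X.C_zero hu hxt ?_)
      rintro l ⟨hl, hlk⟩
      refine hgen t hxt (fun n hn hnk => ?_) l hl hlk
      have h6 : C D (y + m) n := X.a8 hu hxt e1 e2 h3 hn hnk
      exact C.canc' (h6.of_eq (add_comm _ _) rfl) (hy n hn)
    obtain ⟨a0, ha0, h6⟩ := X.l8 hu h5
    have e3 : D.q x (t + a0) = D.q x t := qadd (X.Ax hu ha0)
    refine ⟨t + a0, ⟨h6, h4.congr e3.symm⟩, ?_, ?_⟩
    · rw [qadd (hs a0 ha0)]; exact h1.symm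
    · have h7 : D.q y (t + a0 + x) = D.q m a0 := by
        have e4 : D.q y (t + a0 + x) = D.q y (t + x) := by
          have : t + a0 + x = t + x + a0 := by (first | rfl | exact eo (by abel_nf <;> simp only [ch2, ch3, ch4, ch5, ch6, add_zero, zero_add]))
          rw [this, qadd (hy a0 ha0)]
        rw [e4, q_eq'_iff.2 h3, qadd hmx'.symm, q_eq_iff.2 (h6 m hm).symm]
      have h8 : C D m a0 := X.e8 hu hxy hy hm ha0 h7
      have h9 : C D y (t + a0 + x) := (C.congr h7).2 h8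
      rw [q_eq h9, D.symm]; exact hxy

/-- (viii): `D' = K u (u + K)` -/
theorem viii [Finite V] {u : V} (hu : ¬ C D x u)
    (hmx : ∀ v, ¬ C D x v → Nat.card (A v) ≤ Nat.card (A u)) :
    ∀ v, ¬ C D x v → Dl D x u v → A u ≤ A v → D.q x v = D.q x u := by
  intro v hv hd hle
  obtain ⟨w, s, hw, hs, hws⟩ := hd
  have hd : Dl D x u v := ⟨w, s, hw, hs, hws⟩
  have h1 : C D x s ∨ A u ≤ A s := Or.inr (by rw [X.A_congr hv hs]; exact hle)
  obtain ⟨a1, ha1, h2⟩ := X.l8 hu h1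
  obtain ⟨a0, ha0, h3⟩ := X.trans_kill hu hw
  have e1 : D.q x (s + a1) = D.q x s := qadd (X.Ax hu ha1)
  have e2 : D.q x (w + a0) = D.q x u := by rw [qadd (X.Ax hu ha0)]; exact hw
  have hH : s + a1 ∈ HH D X.he x u (A u) := ⟨h2, hd.congr (hs.symm.trans e1.symm)⟩
  have hY : w + a0 ∈ HH D X.he x u (A u) := ⟨h3, (Dl.refl X.he x u).congr e2.symm⟩
  have h4 : D.q (w + a0) (s + a1) = D.q a0 a1 := by
    refine (split_q (a := w + a0) (a' := a0) (b := s + a1) (b' := a1) (h3 a1 ha1)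
      (h2 a0 ha0).symm).1 ?_
    exact hws.of_eq add3.symm add3.symm
  have h5 : C D a0 a1 := X.e8 hu e2 h3 ha0 ha1 h4
  have h6 : C D (w + a0) (s + a1) := (C.congr h4).2 h5
  rcases (X.d0 hu hmx).main hY e2 hH h6 with h7 | h7
  · exfalso
    have h8 : s = a1 := eo h7
    exact hv ((C.congr hs).1 (by rw [h8]; exact X.Ax hu ha1))
  · rw [← hs, ← e1, h7, e2]

end LDx

end Pool.Agent.ETCD2
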