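import Pool.Agent.ETCD2.Bridge
import Pool.Agent.ETCD2.C3
import Pool.Agent.ETCD2.S2a
import Pool.Agent.ETCD2.D2p

/-!
Note 2502 (helper32): the law D2 at the elements of minimal rank contradicts (K4) (helper24;
pieces by helper16, helper17, helper81).
-/

set_option autoImplicit false
set_option linter.unusedSectionVars false

namespace Pool.Agent.ETCD2

open Pool.Agent.Helper58.PLine (QData)
open Pool.Agent.ETCP

variable {V Q : Type} [AddCommGroup V] [Module (ZMod 2) V] {D : QData V Q}

/-- **Note 2502, THEOREM**: a finite linked structure with `-1 = 1`, without radical, with (K4)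
and (D2) at all elements of minimal rank is `0` -/
theorem core [Finite V] (he : D.e = 0) (hne : ∃ x : V, x ≠ 0)
    (rk : ∀ x : V, x ≠ 0 → ∃ u, ¬ C D x u) (k4 : ∀ z : V, z ≠ 0 → K4At D z)
    (d2 : ∀ z : V, z ≠ 0 → (∀ v, v ≠ 0 → Nat.card (D.ann v) ≤ Nat.card (D.ann z)) →
      D2At D z) : False := by
  classical
  -- `x` of minimal rank
  obtain ⟨x, x0, hx⟩ := Set.Finite.exists_maximalFor (fun v : V => Nat.card (D.ann v))
    {v : V | v ≠ 0} (Set.toFinite _) hne
  have mr : ∀ v, v ≠ 0 → Nat.card (D.ann v) ≤ Nat.card (D.ann x) := by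
    intro v hv
    rcases le_total (Nat.card (D.ann v)) (Nat.card (D.ann x)) with h | h
    · exact h
    · exact hx hv h
  obtain ⟨A, X⟩ := exists_LDx he x0 mr (d2plus he mr d2 k4)
  -- `|A u|` maximal
  obtain ⟨u, hu, hmax⟩ := Set.Finite.exists_maximalFor (fun u : V => Nat.card (A u))
    {u : V | ¬ C D x u} (Set.toFinite _) (rk x x0)
  have hmx : ∀ v, ¬ C D x v → Nat.card (A v) ≤ Nat.card (A u) := by
    intro v hv
    rcases le_total (Nat.card (A v)) (Nat.card (A u)) with h | h
    · exact h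
    · exact hmax hv h
  obtain ⟨w, s, h1, h2, h3, h4⟩ := k4 x x0 u hu
  have hd : Dl D x u s := ⟨w, s, (q_eq_iff.2 h1).symm, rfl, h2⟩
  rcases X.c3 hu (X.viii hu hmx) hd with h | h
  · exact h3 h
  · exact h4 (q_eq_iff.1 h)

end Pool.Agent.ETCD2
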