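import Pool.Agent.ETCD2.Core

/-!
Note 2502 (helper32), the form with the law D2 at one element `x` of minimal rank and at the
radical of `V_x` only (helper24).
-/

set_option autoImplicit false
set_option linter.unusedSectionVars false

namespace Pool.Agent.ETCD2

open Pool.Agent.Helper58.PLine (QData)
open Pool.Agent.ETCP

variable {V Q : Type} [AddCommGroup V] [Module (ZMod 2) V] {D : QData V Q}

/-- (D2+) from (D2) at the radical of `V_x` -/
theorem d2plus1 [Finite V] {x : V} (he : D.e = 0)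
    (mr : ∀ v, v ≠ 0 → Nat.card (D.ann v) ≤ Nat.card (D.ann x))
    (d2 : ∀ z, z ≠ 0 → (∀ k, C D x k → C D z k) → D2At D z)
    (k4 : ∀ z, z ≠ 0 → K4At D z) :
    ∀ z, z ≠ 0 → C D x z → (∀ k, C D x k → C D z k) → ∀ k, C D x k →
    (∀ v, C D k v → C D x v) ∨ ∀ v, C D (k + z) v → C D x v := by
  intro z hz _ hK k hk
  have h2 : ∀ v, C D z v → C D x v := by
    intro v hv
    by_contra hxv
    exact absurd (mr z hz)
      (not_le.2 (card_lt (show D.ann x ≤ D.ann z from fun k hk => hK k hk) (w := v) hv hxv))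
  rcases a2 he (d2 z hz hK) (k4 z hz) (hK k hk) with h | h
  · exact Or.inl fun v hv => h2 v (h v hv)
  · exact Or.inr fun v hv => h2 v (h v hv)

/-- **Note 2502, THEOREM**, with (D2) at one element `x` of minimal rank and the radical of `V_x` -/
theorem core2 [Finite V] (he : D.e = 0) {x : V} (x0 : x ≠ 0)
    (mr : ∀ v, v ≠ 0 → Nat.card (D.ann v) ≤ Nat.card (D.ann x))
    (rk : ∃ u, ¬ C D x u) (k4 : ∀ z : V, z ≠ 0 → K4At D z)
    (d2 : ∀ z : V, z ≠ 0 → (∀ k, C D x k → C D z k) → D2At D z) : False := by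
  classical
  obtain ⟨A, X⟩ := exists_LDx he x0 mr (d2plus1 he mr d2 k4)
  -- `|A u|` maximal
  obtain ⟨u, hu, hmax⟩ := Set.Finite.exists_maximalFor (fun u : V => Nat.card (A u))
    {u : V | ¬ C D x u} (Set.toFinite _) rk
  have hmx : ∀ v, ¬ C D x v → Nat.card (A v) ≤ Nat.card (A u) := by
    intro v hv
    rcases le_total (Nat.card (A v)) (Nat.card (A u)) with h | h
    · exact h
    · exact hmax hv h
  obtain ⟨w, s, h1, h2, h3, h4⟩ := k4 x x0 u hu
  have hd : Dl D x u s := ⟨w, s, (q_eq_iff.2 h1).symm, rfl, h2⟩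
  rcases X.c3 hu (X.viii hu hmx) hd with h | h
  · exact h3 h
  · exact h4 (q_eq_iff.1 h)

end Pool.Agent.ETCD2
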