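import Pool.Agent.ETCR2.D2cQ3

/-!
The genuine form of Theorem D2c (helper93, note 2612 (1); argument of helper32, note 2502 section
1): in a minimal exotic structure, for `x` of minimal rank and every class `c ≠ 0` of `q (x, V)`
there are `l ∈ V_x`, `c ∈ J_l` and `e ∈ J_{l+x}` with `e ≠ 0, c` (helper24).
-/

set_option autoImplicit false
set_option linter.unusedSectionVars false
set_option linter.unusedSimpArgs false
set_option linter.unnecessarySeqFocus false

namespace Pool.Agent.ETCD2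

open Pool.Agent.Helper58.PLine (QData)
open Pool.Agent.ETCP
open Pool.Agent.ETCR2 (SlQ q_of_C q_of_C' q_qC q_qC' q_z q_z' no_d2c)

variable {V Q : Type} [AddCommGroup V] [Module (ZMod 2) V]

/-- (D2) at `x` and `c`: `c ∈ J_l` implies `J_{l+x} ⊆ {0, c}` -/
structure G1 (D : QData V Q) (x : V) (c : Q) : Prop where
  he : D.e = 0
  cne : c ≠ D.z
  hw : ∃ u, D.q x u = c
  H : ∀ l v t, C D x l → D.q x v = c → C D l v → C D (x + l) t → C D x t ∨ D.q x t = c

namespace G1

variable {D : QData V Q} {x : V} {c : Q} (X : G1 D x c)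

include X

theorem com {s t : V} (hs : SlQ D c s) (ht : SlQ D c t) : ∃ y, D.q s y = c ∧ D.q t y = c := by
  obtain ⟨v, hv⟩ := hs
  obtain ⟨w, hw⟩ := ht
  obtain ⟨y, h1, h2⟩ := D.link s v t w (hv.trans hw.symm)
  exact ⟨y, h1.symm.trans hv, h2.symm.trans hw⟩

/-- `c = q (k, l)` with `k, l ∈ V_x`: `J_k ⊆ {0, c}` -/
theorem b1 {k l : V} (hk : C D x k) (_hl : C D x l) (hkl : D.q k l = c) {t : V} (ht : C D k t) :
    C D x t ∨ D.q x t = c := by
  obtain ⟨r, h1, h2⟩ := X.com X.hw ⟨l, hkl⟩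
  have h3 : C D (x + k) r := q_qC' h1 h2
  refine X.H (x + k) r t ((C.self X.he x).add hk) h1 h3 (ht.of_eq (eo ?_) rfl)
  abel_nf <;> simp only [ch2, ch3, ch4, add_zero, zero_add]

/-- `J_{x+k} ⊆ {0, c}` -/
theorem b2 {k l : V} (hk : C D x k) (hl : C D x l) (hkl : D.q k l = c) {t : V}
    (ht : C D (x + k) t) : C D x t ∨ D.q x t = c := by
  obtain ⟨r, h1, h2⟩ := X.com X.hw ⟨l, hkl⟩
  refine X.H k (l + r) t hk (q_of_C hl h1) ?_ ht
  exact q_qC hkl h2

/-- (K4) excludes `c = q (k, l)`, `k, l ∈ V_x` -/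
theorem nokk {k l : V} (hk : C D x k) (hl : C D x l) (hkl : D.q k l = c) {w s' : V}
    (hw : D.q x w = c) (hws : C D w s') (h1 : ¬ C D x s') (h2 : D.q x s' ≠ c) : False := by
  have F : ∀ t, C D x t → D.q s' t = c → False := by
    intro t ht hst
    obtain ⟨v, h3, h4⟩ := X.com X.hw (t := t) ⟨s', by rw [D.symm]; exact hst⟩
    have h5 : C D (x + t) v := q_qC' h3 h4
    have h6 : C D t (s' + v) := q_qC (by rw [D.symm]; exact hst) h4
    rcases X.H (x + t) v (s' + v) ((C.self X.he x).add ht) h3 h5 (h6.of_eq (eo (by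
      abel_nf <;> simp only [ch2, ch3, ch4, add_zero, zero_add])) rfl) with h | h
    · exact h2 (q_z h3 (h.of_eq rfl (add_comm _ _)))
    · exact h1 ((q_qC h h3).of_eq rfl (eo (by
        abel_nf <;> simp only [ch2, ch3, ch4, add_zero, zero_add])))
  have hs : SlQ D c (s' + x) := ⟨w, q_of_C' hws.symm hw⟩
  -- first link
  obtain ⟨t1, a1, a2⟩ := X.com hs (t := k) ⟨l, hkl⟩
  have a3 : C D x (t1 + l) ∨ D.q x (t1 + l) = c := X.b1 hk hl hkl (q_qC a2 hkl)
  have a4 : C D x t1 ∨ D.q x t1 = c := by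
    rcases a3 with h | h
    · left
      exact (h.add hl).of_eq rfl (eo (by
        abel_nf <;> simp only [ch2, ch3, ch4, add_zero, zero_add]))
    · right
      rw [add_comm] at h
      rw [← h]
      exact (q_of_C hl rfl).symm
  have a5 : D.q x t1 = c := by
    rcases a4 with h | h
    · exfalso
      refine F t1 h ?_
      exact q_z' a1 (h.of_eq (eo (by
        abel_nf <;> simp only [ch2, ch3, ch4, add_zero, zero_add])) rfl)
    · exact h
  have a6 : C D s' t1 := (q_qC' a1 a5).of_eq (eo (by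
    abel_nf <;> simp only [ch2, ch3, ch4, add_zero, zero_add])) rfl
  -- second link
  have hxk : D.q (x + k) l = c := q_of_C' hl hkl
  obtain ⟨t2, b1', b2'⟩ := X.com hs (t := x + k) ⟨l, hxk⟩
  have b3 : C D x (t2 + l) ∨ D.q x (t2 + l) = c := X.b2 hk hl hkl (q_qC b2' hxk)
  have b4 : C D x t2 ∨ D.q x t2 = c := by
    rcases b3 with h | h
    · left
      exact (h.add hl).of_eq rfl (eo (by
        abel_nf <;> simp only [ch2, ch3, ch4, add_zero, zero_add]))
    · right
      rw [add_comm] at h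
      rw [← h]
      exact (q_of_C hl rfl).symm
  have b5 : D.q x t2 = c := by
    rcases b4 with h | h
    · exfalso
      refine F t2 h ?_
      exact q_z' b1' (h.of_eq (eo (by
        abel_nf <;> simp only [ch2, ch3, ch4, add_zero, zero_add])) rfl)
    · exact h
  have b6 : C D s' t2 := (q_qC' b1' b5).of_eq (eo (by
    abel_nf <;> simp only [ch2, ch3, ch4, add_zero, zero_add])) rfl
  have b7 : C D k t2 := (q_qC' b2' b5).of_eq (eo (by
    abel_nf <;> simp only [ch2, ch3, ch4, add_zero, zero_add])) rfl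
  -- `n = t1 + t2`
  have n1 : C D x (t1 + t2) := q_qC a5 b5
  have n2 : C D (t1 + t2) s' := (a6.add b6).symm
  have n3 : D.q (t1 + t2) k = c := by
    rw [D.symm, add_comm]
    exact q_of_C b7 a2
  rcases X.b1 n1 hk n3 n2 with h | h
  · exact h1 h
  · exact h2 h

end G1

/-- **Theorem D2c, genuine form**: `x` of minimal rank, (D2) at `x` and `c`; then `q (x, w) = c` and
`q (w, s) = 0` imply that `q (x, s)` is `0` or `c` -/
theorem G1.main [Finite V] {D : QData V Q} {x : V} {c : Q} (X : G1 D x c)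
    (mr : ∀ v, v ≠ 0 → Nat.card (D.ann v) ≤ Nat.card (D.ann x)) {w s : V} (hw : D.q x w = c)
    (hs : C D w s) : C D x s ∨ D.q x s = c := by
  by_cases hkk : ∃ k l, C D x k ∧ C D x l ∧ D.q k l = c
  · obtain ⟨k, l, hk, hl, hkl⟩ := hkk
    by_contra hcon
    push Not at hcon
    exact X.nokk hk hl hkl hw hs hcon.1 hcon.2
  · obtain ⟨u, hu⟩ := X.hw
    have hu' : ¬ C D x u := fun h => X.cne (hu.symm.trans h)
    rcases ETCR2.d2cQ X.he mr hu' (w := w) (s := s) (fun l v h1 h2 h3 t h4 => by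
      have h2' : D.q x v = c := by
        rw [← hu]
        exact (q_eq_iff.2 h2).symm
      rcases X.H l v t h1 h2' h3 h4 with h | h
      · exact h
      · exfalso
        apply hkk
        refine ⟨l, v + t, h1, q_qC h2' h, ?_⟩
        rw [q_of_C h3 (v := t) (c := c)]
        exact q_z' h h4) (q_qC hu hw) hs with h | h
    · exact Or.inl h
    · right
      rw [← hu]
      exact q_eq_iff.2 h

/-- **D2C+** (note 2612 (1)): with (K4) at `x`, every class `u + V_x ≠ V_x` has a genuine failing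
partner -/
theorem no_d2g [Finite V] {D : QData V Q} (he : D.e = 0) {x : V}
    (mr : ∀ v, v ≠ 0 → Nat.card (D.ann v) ≤ Nat.card (D.ann x)) (k4 : K4At D x) {u : V}
    (hu : ¬ C D x u) :
    ∃ l v t, C D x l ∧ C D x (u + v) ∧ C D l v ∧ C D (x + l) t ∧ ¬ C D x t ∧
      ¬ C D x (t + u) := by
  by_contra hcon
  have X : G1 D x (D.q x u) :=
    { he := he
      cne := hu
      hw := ⟨u, rfl⟩
      H := by
        intro l v t h1 h2 h3 h4
        by_contra h5
        push Not at h5
        exact hcon ⟨l, v, t, h1, q_qC rfl h2, h3, h4, h5.1, fun h => h5.2 (q_eq_iff.2 h)⟩ }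
  obtain ⟨w, s, k1, k2, k3, k5⟩ := k4 u hu
  rcases X.main mr (q_eq_iff.2 k1).symm k2 with h | h
  · exact k3 h
  · exact k5 (q_eq_iff.1 h)

end Pool.Agent.ETCD2
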