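import Pool.Agent.ETCD2.Der

/-!
Derived structures, preservation of elementary type under retracts, and the hand-in statement
(helper24).
-/

set_option autoImplicit false
set_option linter.unusedSectionVars false

namespace Pool.Agent.ETCD2

open QS Pool.Agent.RFT Pool.Agent.ETG Pool.Agent.RFN Pool.Agent.REG10 Pool.Agent.AST
open Pool.Agent.ETCLH Pool.Agent.ETCT

theorem etz_of_elem {S : QStruct} (hE : ElemType S) (hneg : S.neg = 1) : ETZ (ZS S) := by
  intro T hT
  exact ElemType.iso S T
    (qis_proof _ _ (ZS S) (ZS S) (AddEquiv.refl _) (fun _ _ => Iff.rfl) S T (qof S hneg) hT) hE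

theorem pres_retract {S P : QStruct} (hE : ElemType S) (hf : Finite S.G) (hneg : S.neg = 1)
    (h : IsRetract S P) : ElemType P := by
  obtain ⟨hP, ι, ρ, h1, h2, h3⟩ := h
  have hι : Function.Injective ι := fun a b hab => by rw [← h1 a, ← h1 b, hab]
  let U : Subgroup S.G := ι.range
  let F : Submodule (ZMod 2) (Additive S.G) := pull S (MulEquiv.refl S.G) U
  have hF : RetZ (ZS S) F := by
    let σ : Additive S.G →+ Additive S.G := MonoidHom.toAdditive (ι.comp ρ)
    refine ⟨σ.toZModLinearMap 2, ?_, ?_, ?_⟩
    · intro v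
      exact ⟨ρ (Additive.toMul v), rfl⟩
    · rintro f ⟨a, ha⟩
      show Additive.ofMul (ι (ρ (Additive.toMul f))) = f
      have hf' : Additive.toMul f = ι a := ha.symm
      rw [hf', h1]
      exact ha
    · intro a b hab
      exact h2 _ _ (h3 _ _ hab)
  have hfA : Finite (Additive S.G) := hf
  refine ret_et (lzs S hneg) (etz_of_elem hE hneg) hF P ⟨hP, ?_⟩
  let e : F ≃+ Additive P.G :=
    { toFun := fun f => Additive.ofMul (ρ (Additive.toMul (f : Additive S.G)))
      invFun := fun p => ⟨Additive.ofMul (ι (Additive.toMul p)), ⟨Additive.toMul p, rfl⟩⟩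
      left_inv := by
        rintro ⟨f, a, ha⟩
        apply Subtype.ext
        show Additive.ofMul (ι (ρ (Additive.toMul f))) = f
        have hf' : Additive.toMul f = ι a := ha.symm
        rw [hf', h1]
        exact ha
      right_inv := by
        intro p
        show Additive.ofMul (ρ (ι (Additive.toMul p))) = p
        rw [h1]
        rfl
      map_add' := by
        intro a b
        show Additive.ofMul (ρ (Additive.toMul (a : Additive S.G) *
          Additive.toMul (b : Additive S.G))) = _
        rw [map_mul]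
        rfl }
  refine ⟨AddEquiv.toMultiplicative e, ?_⟩
  rintro ⟨a, a', ha⟩ ⟨b, b', hb⟩
  have ha' : a = Additive.ofMul (ι a') := ha.symm
  have hb' : b = Additive.ofMul (ι b') := hb.symm
  subst ha' hb'
  show P.q (ρ (ι a')) (ρ (ι b')) = P.zero ↔ S.q (ι a') (ι b') = S.zero
  constructor
  · intro h
    rw [h1, h1] at h
    exact h2 _ _ h
  · exact h3 _ _

/-- the structures derived from `S`: retracts, kernels of prime functionals and Pfister quotients,
iterated -/
inductive Derived (S : QStruct) : QStruct → Prop
  | self : Derived S S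
  | ret (T P : QStruct) (h : Derived S T) (hP : IsRetract T P) : Derived S P
  | ker (T P : QStruct) (h : Derived S T) (hP : IsPrimeKer T P) : Derived S P
  | pf (T P : QStruct) (h : Derived S T) (hP : IsPfister T P) : Derived S P

theorem Derived.fin {S : QStruct} (hf : Finite S.G) (hneg : S.neg = 1) {T : QStruct}
    (h : Derived S T) : Finite T.G ∧ T.neg = 1 := by
  induction h with
  | self => exact ⟨hf, hneg⟩
  | ret T P _ hP ih =>
    obtain ⟨h0, ι, ρ, h1, -⟩ := hP
    have := ih.1
    exact ⟨Finite.of_injective ι fun a b hab => by rw [← h1 a, ← h1 b, hab], h0⟩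
  | ker T P _ hP ih =>
    obtain ⟨h0, φ, ι, -, h1, -⟩ := hP
    have := ih.1
    exact ⟨Finite.of_injective ι h1, h0⟩
  | pf T P _ hP ih =>
    obtain ⟨h0, x, -, π, h1, -⟩ := hP
    have := ih.1
    exact ⟨Finite.of_surjective π h1, h0⟩

theorem derived_closed {S : QStruct} (hf : Finite S.G) (hneg : S.neg = 1) :
    Closed (Derived S) where
  fin := fun _ h => h.fin hf hneg
  ret := fun T P h hP => Derived.ret T P h hP
  ker := fun T P h hP => Derived.ker T P h hP
  pf := fun T P h hP => Derived.pf T P h hP

theorem all_closed : Closed (fun S => Finite S.G ∧ S.neg = 1) where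
  fin := fun _ h => h
  ret := fun _ P h hP => (Derived.ret _ P Derived.self hP).fin h.1 h.2
  ker := fun _ P h hP => (Derived.ker _ P Derived.self hP).fin h.1 h.2
  pf := fun _ P h hP => (Derived.pf _ P Derived.self hP).fin h.1 h.2

/-- preservation of elementary type under Pfister quotients -/
def Stmt_P1 : Prop := ∀ S P : QStruct, ElemType S → Finite S.G → S.neg = 1 → IsPfister S P →
  ElemType P

/-- preservation of elementary type under kernels of prime functionals -/
def Stmt_P2 : Prop := ∀ S P : QStruct, ElemType S → Finite S.G → S.neg = 1 → IsPrimeKer S P →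
  ElemType P

theorem derived_elem (P1 : Stmt_P1) (P2 : Stmt_P2) {S : QStruct} (hf : Finite S.G)
    (hneg : S.neg = 1) (hE : ElemType S) {T : QStruct} (h : Derived S T) : ElemType T := by
  induction h with
  | self => exact hE
  | ret T P h hP ih => exact pres_retract ih (h.fin hf hneg).1 (h.fin hf hneg).2 hP
  | ker T P h hP ih => exact P2 T P ih (h.fin hf hneg).1 (h.fin hf hneg).2 hP
  | pf T P h hP ih => exact P1 T P ih (h.fin hf hneg).1 (h.fin hf hneg).2 hP

/-- **elementary type and (D2)** -/
theorem elem_iff_d2 (P1 : Stmt_P1) (P2 : Stmt_P2) {S : QStruct} (hf : Finite S.G)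
    (hneg : S.neg = 1) :
    ElemType S ↔ ∀ T, Derived S T → (∃ g : T.G, g ≠ 1) → HasD2 T := by
  rw [← class_iff (derived_closed hf hneg)]
  exact ⟨fun h T hT => derived_elem P1 P2 hf hneg h hT, fun h => h S Derived.self⟩

theorem etc_iff' : (∀ S : QStruct, Finite S.G → S.neg = 1 → ElemType S) ↔
    ∀ S : QStruct, Finite S.G → S.neg = 1 → (∃ g : S.G, g ≠ 1) → HasD2 S := by
  have h := class_iff all_closed
  constructor
  · intro h1 S h2 h3
    exact h.1 (fun T hT => h1 T hT.1 hT.2) S ⟨h2, h3⟩
  · intro h1 S h2 h3
    exact h.2 (fun T hT => h1 T hT.1 hT.2) S ⟨h2, h3⟩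

end Pool.Agent.ETCD2
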