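import Pool.Agent.ETCD2.Pres1

/-!
Preservation of elementary type (helper50): kernels of prime functionals of structures of
elementary type with `-1 = 1` are of elementary type.
-/

set_option autoImplicit false
set_option linter.unusedSectionVars false
set_option linter.unusedVariables false

namespace Pool.Agent.ETCD2.Pres

open QS

/-- `φ` is prime: `V_x ∩ V_y` is not in the kernel as soon as none of `V_x, V_y, V_{xy}` is -/
structure PrF (S : QStruct) (φ : S.G →* Multiplicative (ZMod 2)) : Prop where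
  ne : ∃ v, φ v ≠ 1
  pr : ∀ x y, (∃ v, S.q x v = S.zero ∧ φ v ≠ 1) → (∃ v, S.q y v = S.zero ∧ φ v ≠ 1) →
    (∃ v, S.q (x * y) v = S.zero ∧ φ v ≠ 1) → ∃ v, S.q x v = S.zero ∧ S.q y v = S.zero ∧ φ v ≠ 1

/-- `T` (along `i`) is the kernel of `φ` -/
structure KerF (S : QStruct) (φ : S.G →* Multiplicative (ZMod 2)) (T : QStruct)
    (i : T.G →* S.G) : Prop where
  neg : T.neg = 1
  inj : Function.Injective i
  ker : ∀ g, φ g = 1 ↔ ∃ a, i a = g
  zero : ∀ a b, T.q a b = T.zero ↔ S.q (i a) (i b) = S.zero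

theorem ne_mul {G : Type} [CommGroup G] {φ : G →* Multiplicative (ZMod 2)} {a b : G}
    (ha : φ a ≠ 1) (hb : φ b ≠ 1) : φ (a * b) = 1 := by
  rw [map_mul]
  rcases two_cases (φ a) with h | h
  · exact absurd h ha
  · rcases two_cases (φ b) with h' | h'
    · exact absurd h' hb
    · rw [h, h']; exact x_mul_x

theorem ne_mul_left {G : Type} [CommGroup G] {φ : G →* Multiplicative (ZMod 2)} {a b : G}
    (ha : φ a = 1) (hb : φ b ≠ 1) : φ (a * b) ≠ 1 := by
  rw [map_mul, ha, one_mul]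
  exact hb

/-- the kernel of a prime functional is a linked subgroup -/
theorem PrF.lsub {S : QStruct} (hneg : S.neg = 1) {φ : S.G →* Multiplicative (ZMod 2)}
    (h : PrF S φ) : ∀ a ∈ φ.ker, ∀ b ∈ φ.ker, ∀ c ∈ φ.ker, ∀ d ∈ φ.ker, S.q a b = S.q c d →
      ∃ x ∈ φ.ker, S.q a b = S.q a x ∧ S.q c d = S.q c x := by
  intro a ha b hb c hc d hd e
  obtain ⟨y, h1, h2⟩ := S.qs4 a b c d e
  by_cases hy : φ y = 1
  · exact ⟨y, hy, h1, h2⟩
  · obtain ⟨v, h3, h4, h5⟩ := h.pr a c ⟨b * y, (S.qs3 _ _ _).1 h1, ne_mul_left hb hy⟩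
      ⟨d * y, (S.qs3 _ _ _).1 h2, ne_mul_left hd hy⟩ ⟨y, by
        rw [S.qs2, ← S.qs3, S.qs2 y, S.qs2 y, ← h1, ← h2, e], hy⟩
    refine ⟨y * v, ne_mul hy h5, ?_, ?_⟩
    · rw [h1, mul_comm, S.q_zero_mul h3]
    · rw [h2, mul_comm, S.q_zero_mul h4]

/-- the kernel as a structure -/
theorem PrF.exists_ker {S : QStruct} (hneg : S.neg = 1) {φ : S.G →* Multiplicative (ZMod 2)}
    (h : PrF S φ) : ∃ (T : QStruct) (i : T.G →* S.G), KerF S φ T i := by
  refine ⟨ESL.PRODRECX.sub S hneg φ.ker (h.lsub hneg), φ.ker.subtype, rfl,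
    Subtype.val_injective, ?_, ?_⟩
  · intro g
    constructor
    · exact fun e => ⟨⟨g, e⟩, rfl⟩
    · rintro ⟨a, rfl⟩
      exact a.2
  · intro a b
    exact ESL.PRODRECX.sub_zero_iff S hneg φ.ker (h.lsub hneg) a b

/-- two values -/
theorem two_val {S : QStruct} (h2 : Nat.card S.Q = 2) {β γ : S.Q} (hβ : β ≠ S.zero)
    (hγ : γ ≠ S.zero) : β = γ := by
  by_contra hne
  have : Finite S.Q := Nat.finite_of_card_ne_zero (by omega)
  have h3 : ({S.zero, β, γ} : Set S.Q).ncard = 3 :=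
    Set.ncard_eq_three.2 ⟨_, _, _, hβ.symm, hγ.symm, hne, rfl⟩
  have h4 : ({S.zero, β, γ} : Set S.Q).ncard ≤ Nat.card S.Q := Set.ncard_le_card _
  omega

open Classical in
/-- the functional `q (x, -)` of a structure with two quaternions -/
noncomputable def val (S : QStruct) (x y : S.G) : ZMod 2 := if S.q x y = S.zero then 0 else 1

theorem val_zero (S : QStruct) (x y : S.G) : val S x y = 0 ↔ S.q x y = S.zero := by
  unfold val
  split_ifs with h
  · exact iff_of_true rfl h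
  · exact iff_of_false (by decide) h

theorem val_comm (S : QStruct) (x y : S.G) : val S x y = val S y x := by
  unfold val
  rw [S.qs2]

theorem val_mul {S : QStruct} (h2 : Nat.card S.Q = 2) (x y z : S.G) :
    val S x (y * z) = val S x y + val S x z := by
  unfold val
  by_cases h1 : S.q x y = S.zero
  · rw [S.q_zero_mul h1, if_pos h1, zero_add]
  · by_cases h3 : S.q x z = S.zero
    · rw [mul_comm y z, S.q_zero_mul h3, if_pos h3, add_zero]
    · rw [if_neg h1, if_neg h3, if_pos ((S.qs3 x y z).1 (two_val h2 h1 h3))]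
      decide

theorem zsm {M : Type} [AddCommGroup M] [Module (ZMod 2) M] (c : ZMod 2) (m : M) :
    (c = 0 ∧ c • m = 0) ∨ (c = 1 ∧ c • m = m) := by
  have : c = 0 ∨ c = 1 := by revert c; decide
  rcases this with rfl | rfl
  · exact Or.inl ⟨rfl, zero_smul _ _⟩
  · exact Or.inr ⟨rfl, one_smul _ _⟩

/-- in a structure of local type every functional is some `q (x, -)` -/
theorem loc_dual (S : QStruct) [Finite S.G] (h1 : ∀ a, (∀ b, S.q a b = S.zero) → a = 1)
    (h2 : Nat.card S.Q = 2) (φ : S.G →* Multiplicative (ZMod 2)) :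
    ∃ x, ∀ v, S.q x v = S.zero ↔ φ v = 1 := by
  have hfin : Finite (Additive S.G) := (inferInstance : Finite S.G)
  have v1 : ∀ x, val S x 1 = 0 := fun x => (val_zero S x 1).2 (S.q_one x)
  let B : Additive S.G →ₗ[ZMod 2] Additive S.G →ₗ[ZMod 2] ZMod 2 :=
    LinearMap.mk₂ (ZMod 2) (fun x y => val S (Additive.toMul x) (Additive.toMul y))
      (by
        intro x y z
        rw [toMul_add, val_comm, val_mul h2, val_comm S _ (Additive.toMul x),
          val_comm S _ (Additive.toMul y)])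
      (by
        intro c x y
        rcases zsm c x with ⟨rfl, h⟩ | ⟨rfl, h⟩
        · rw [h, toMul_zero, val_comm, v1, zero_smul]
        · rw [h, one_smul])
      (by
        intro x y z
        rw [toMul_add, val_mul h2])
      (by
        intro c x y
        rcases zsm c y with ⟨rfl, h⟩ | ⟨rfl, h⟩
        · rw [h, toMul_zero, v1, zero_smul]
        · rw [h, one_smul])
  have hB : ∀ x y, B x y = val S (Additive.toMul x) (Additive.toMul y) := fun _ _ => rfl
  have hinj : Function.Injective B := by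
    rw [injective_iff_map_eq_zero]
    intro x hx
    have h3 : Additive.toMul x = 1 := by
      apply h1
      intro b
      rw [← val_zero]
      have : B x (Additive.ofMul b) = 0 := by rw [hx]; rfl
      exact this
    exact h3
  have hsurj : Function.Surjective B :=
    (LinearMap.injective_iff_surjective_of_finrank_eq_finrank
      (Subspace.dual_finrank_eq (K := ZMod 2) (V := Additive S.G)).symm).1 hinj
  let ψ : Additive S.G →+ ZMod 2 :=
    { toFun := fun v => Multiplicative.toAdd (φ (Additive.toMul v))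
      map_zero' := by
        rw [toMul_zero, map_one]; rfl
      map_add' := by
        intro v w
        rw [toMul_add, map_mul]; rfl }
  obtain ⟨x, hx⟩ := hsurj (ψ.toZModLinearMap 2)
  refine ⟨Additive.toMul x, fun v => ?_⟩
  have h3 : B x (Additive.ofMul v) = Multiplicative.toAdd (φ v) := by rw [hx]; rfl
  rw [hB] at h3
  rw [← val_zero]
  have h4 : val S (Additive.toMul x) v = Multiplicative.toAdd (φ v) := h3
  rw [h4]
  exact Iff.rfl

/-- any two elements commute with a common element outside the kernel: then there is a radical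
element outside the kernel -/
theorem rad_of_pairs {S : QStruct} (hS : ElemType S) : S.neg = 1 →
    ∀ φ : S.G →* Multiplicative (ZMod 2),
    (∀ x y, ∃ v, S.q x v = S.zero ∧ S.q y v = S.zero ∧ φ v ≠ 1) → ∃ r, Rad S r ∧ φ r ≠ 1 := by
  have triv : ∀ S : QStruct, (∀ a b, S.q a b = S.zero) → ∀ φ : S.G →* Multiplicative (ZMod 2),
      (∀ x y, ∃ v, S.q x v = S.zero ∧ S.q y v = S.zero ∧ φ v ≠ 1) → ∃ r, Rad S r ∧ φ r ≠ 1 := by
    intro S h0 φ h
    obtain ⟨v, -, -, hv⟩ := h 1 1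
    exact ⟨v, fun b => h0 v b, hv⟩
  induction hS with
  | L0 S h =>
    intro _
    refine triv S fun a b => ?_
    have : Subsingleton S.G := (Nat.card_eq_one_iff_unique.1 h).1
    rw [Subsingleton.elim b 1, S.q_one]
  | L10 S h h1 h2 => exact fun _ => triv S h2
  | L11 S h h1 h2 => exact fun hn => absurd hn h1
  | L1 S h h1 h2 => exact fun hn => absurd hn h1
  | loc S hf h h1 h2 =>
    intro hn φ hp
    obtain ⟨x, hx⟩ := loc_dual S h1 h2 φ
    obtain ⟨v, h3, -, h4⟩ := hp x x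
    exact absurd ((hx v).1 h3) h4
  | prod A B hA hB ihA ihB =>
    intro hn φ hp
    have hnA : A.neg = 1 := congrArg Prod.fst hn
    have hnB : B.neg = 1 := congrArg Prod.snd hn
    let φA : A.G →* Multiplicative (ZMod 2) := φ.comp (MonoidHom.inl A.G B.G)
    let φB : B.G →* Multiplicative (ZMod 2) := φ.comp (MonoidHom.inr A.G B.G)
    have hφ : ∀ a b, φ (a, b) = φA a * φB b := by
      intro a b
      show φ (a, b) = φ (a, 1) * φ (1, b)
      rw [← map_mul]
      congr 1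
      exact Prod.ext (mul_one a).symm (one_mul b).symm
    by_cases h1 : ∀ x y, ∃ v, A.q x v = A.zero ∧ A.q y v = A.zero ∧ φA v ≠ 1
    · obtain ⟨r, hr, hr'⟩ := ihA hnA φA h1
      exact ⟨(r, 1), (prod_rad _).2 ⟨hr, Rad.one B⟩, hr'⟩
    by_cases h2 : ∀ x y, ∃ v, B.q x v = B.zero ∧ B.q y v = B.zero ∧ φB v ≠ 1
    · obtain ⟨r, hr, hr'⟩ := ihB hnB φB h2
      exact ⟨(1, r), (prod_rad _).2 ⟨Rad.one A, hr⟩, hr'⟩
    push Not at h1 h2
    obtain ⟨x, y, h1⟩ := h1
    obtain ⟨x', y', h2⟩ := h2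
    obtain ⟨⟨v, v'⟩, h3, h4, h5⟩ := hp (x, x') (y, y')
    rw [prod_z] at h3 h4
    exact absurd (by rw [hφ, h1 v h3.1 h4.1, h2 v' h3.2 h4.2, one_mul]) h5
  | ext A hA ih =>
    intro hn φ hp
    have hn' : A.neg = 1 := congrArg Prod.fst hn
    by_cases ht : ∀ a : A.G, a = 1
    · refine triv (QS.ext A) ?_ φ hp
      rintro a b
      rcases ext_cases a with ⟨a, rfl⟩ | ⟨a, rfl⟩ <;> rcases ext_cases b with ⟨b, rfl⟩ | ⟨b, rfl⟩
      · rw [zaa, ht a]; exact q1 A b
      · rw [zat]; exact ht a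
      · rw [zta]; exact ht b
      · rw [ztt hn', ht a, ht b]
    · push Not at ht
      obtain ⟨c, hc⟩ := ht
      obtain ⟨v, h1, h2, h3⟩ := hp (et 1) (et c)
      rcases ext_cases v with ⟨b, rfl⟩ | ⟨b, rfl⟩
      · rw [zta] at h1
        rw [h1, ea_one, map_one] at h3
        exact absurd rfl h3
      · rw [ztt hn'] at h1 h2
        exact absurd (h2.trans h1.symm) hc
  | iso S S' h1 h2 ih =>
    intro hn φ hp
    obtain ⟨ψ, h3, h4⟩ := h1
    have hz := iso_z h4
    obtain ⟨r, hr, hr'⟩ := ih (ψ.injective (by rw [h3, hn, map_one])) (φ.comp ψ.toMonoidHom) (by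
      intro x y
      obtain ⟨v, h5, h6, h7⟩ := hp (ψ x) (ψ y)
      refine ⟨ψ.symm v, ?_, ?_, ?_⟩
      · rw [hz, ψ.apply_symm_apply]; exact h5
      · rw [hz, ψ.apply_symm_apply]; exact h6
      · show φ (ψ (ψ.symm v)) ≠ 1
        rw [ψ.apply_symm_apply]; exact h7)
    refine ⟨ψ r, ?_, hr'⟩
    intro b
    have := hr (ψ.symm b)
    rw [hz, ψ.apply_symm_apply] at this
    exact this

/-- the kernel is unique up to isomorphism -/
theorem KerF.iso {S : QStruct} {φ : S.G →* Multiplicative (ZMod 2)} {T T' : QStruct}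
    {i : T.G →* S.G} {i' : T'.G →* S.G} (h : KerF S φ T i) (h' : KerF S φ T' i') : Iso T T' := by
  have hex : ∀ a : T.G, ∃ b : T'.G, i' b = i a := fun a =>
    (h'.ker (i a)).1 ((h.ker (i a)).2 ⟨a, rfl⟩)
  choose f hf using hex
  let F : T.G →* T'.G :=
    { toFun := f
      map_one' := h'.inj (by rw [hf, map_one, map_one])
      map_mul' := fun a b => h'.inj (by rw [hf, map_mul, map_mul, hf, hf]) }
  have hF : ∀ a, i' (F a) = i a := hf
  have hb : Function.Bijective F := by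
    constructor
    · intro a b hab
      apply h.inj
      rw [← hF, ← hF, hab]
    · intro b
      obtain ⟨a, ha⟩ := (h.ker (i' b)).1 ((h'.ker (i' b)).2 ⟨b, rfl⟩)
      exact ⟨a, h'.inj (by rw [hF, ha])⟩
  refine isoc h.neg h'.neg (MulEquiv.ofBijective F hb) ?_
  intro a b
  show _ ↔ T'.q (F a) (F b) = T'.zero
  rw [h.zero, h'.zero, hF, hF]

theorem KerF.elem_of {S : QStruct} {φ : S.G →* Multiplicative (ZMod 2)} {T T' : QStruct}
    {i : T.G →* S.G} {i' : T'.G →* S.G} (h : KerF S φ T i) (h' : KerF S φ T' i')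
    (hT' : ElemType T') : ElemType T :=
  ElemType.iso T' T (h'.iso h) hT'

/-- structures of local type -/
theorem KerF.of_loc {S : QStruct} [Finite S.G] (hneg : S.neg = 1) (h2 : Nat.card S.Q = 2)
    {φ : S.G →* Multiplicative (ZMod 2)} (hφ : PrF S φ) {T : QStruct} {i : T.G →* S.G}
    (h : KerF S φ T i) : ElemType T := by
  have hfT : Finite T.G := Finite.of_injective i h.inj
  by_cases h0 : ∀ a b, T.q a b = T.zero
  · exact deg T hfT h.neg h0
  push Not at h0
  obtain ⟨a, b, hab⟩ := h0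
  rw [ne_eq, h.zero] at hab
  let U := ESL.PRODRECX.sub S hneg φ.ker (hφ.lsub hneg)
  have hU : KerF S φ U φ.ker.subtype := by
    refine ⟨rfl, Subtype.val_injective, ?_, ?_⟩
    · intro g
      constructor
      · exact fun e => ⟨⟨g, e⟩, rfl⟩
      · rintro ⟨a, rfl⟩
        exact a.2
    · intro a b
      exact ESL.PRODRECX.sub_zero_iff S hneg φ.ker (hφ.lsub hneg) a b
  refine h.elem_of hU ?_
  have : Finite U.G := (inferInstance : Finite φ.ker)
  refine (QS.main U).2 ⟨⟨i a, (h.ker _).2 ⟨a, rfl⟩⟩, ?_⟩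
  rintro ⟨β, c, d, hβ⟩
  by_cases h3 : β = S.zero
  · refine ⟨1, Subtype.ext ?_⟩
    show S.q (i a) 1 = β
    rw [S.q_one, h3]
  · refine ⟨⟨i b, (h.ker _).2 ⟨b, rfl⟩⟩, Subtype.ext ?_⟩
    show S.q (i a) (i b) = β
    exact two_val h2 hab h3

/-- a radical element outside the kernel -/
theorem KerF.of_rad {S : QStruct} (hS : ElemType S) [Finite S.G] (hneg : S.neg = 1)
    {φ : S.G →* Multiplicative (ZMod 2)} {T : QStruct} {i : T.G →* S.G} (h : KerF S φ T i)
    {r : S.G} (hr : Rad S r) (hr' : φ r ≠ 1) : ElemType T := by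
  have hfT : Finite T.G := Finite.of_injective i h.inj
  refine SameNd.elem (S := S) (i := i) ⟨h.neg, h.zero, ?_⟩ hS hneg
  intro s
  by_cases hs : φ s = 1
  · obtain ⟨t, rfl⟩ := (h.ker s).1 hs
    exact ⟨t, by rw [S.exp_two]; exact Rad.one S⟩
  · obtain ⟨t, ht⟩ := (h.ker (s * r)).1 (ne_mul hs hr')
    exact ⟨t, by rw [ht, mm]; exact hr⟩

/-- products -/
theorem KerF.of_prod {A B : QStruct} (hA : ElemType A) (hB : ElemType B) [Finite A.G]
    [Finite B.G] (hnA : A.neg = 1) (hnB : B.neg = 1)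
    (ihA : ∀ φ, PrF A φ → ∀ T i, KerF A φ T i → ElemType T)
    (ihB : ∀ φ, PrF B φ → ∀ T i, KerF B φ T i → ElemType T)
    {φ : (QS.prod A B).G →* Multiplicative (ZMod 2)} (hφ : PrF (QS.prod A B) φ)
    {T : QStruct} {i : T.G →* (QS.prod A B).G} (h : KerF (QS.prod A B) φ T i) :
    ElemType T := by
  have hn : (QS.prod A B).neg = 1 := Prod.ext hnA hnB
  let φA : A.G →* Multiplicative (ZMod 2) := φ.comp (MonoidHom.inl A.G B.G)
  let φB : B.G →* Multiplicative (ZMod 2) := φ.comp (MonoidHom.inr A.G B.G)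
  have hAB : ∀ a b, φ (a, b) = φA a * φB b := by
    intro a b
    show φ (a, b) = φ (a, 1) * φ (1, b)
    rw [← map_mul]
    congr 1
    exact Prod.ext (mul_one a).symm (one_mul b).symm
  by_cases tB : ∀ b, φB b = 1
  · -- `φ` lives on `A`
    have hAB' : ∀ a b, φ (a, b) = φA a := fun a b => by rw [hAB, tB, mul_one]
    have hpA : PrF A φA := by
      constructor
      · obtain ⟨⟨a, b⟩, hv⟩ := hφ.ne
        exact ⟨a, by rw [hAB'] at hv; exact hv⟩
      · rintro x y ⟨v1, h1, h1'⟩ ⟨v2, h2, h2'⟩ ⟨v3, h3, h3'⟩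
        obtain ⟨⟨a, b⟩, h4, h5, h6⟩ := hφ.pr (x, 1) (y, 1)
          ⟨(v1, 1), (prod_z _ _).2 ⟨h1, B.q_one _⟩, by rw [hAB']; exact h1'⟩
          ⟨(v2, 1), (prod_z _ _).2 ⟨h2, B.q_one _⟩, by rw [hAB']; exact h2'⟩
          ⟨(v3, 1), (prod_z _ _).2 ⟨h3, B.q_one _⟩, by rw [hAB']; exact h3'⟩
        exact ⟨a, ((prod_z _ _).1 h4).1, ((prod_z _ _).1 h5).1, by rw [hAB'] at h6; exact h6⟩
    obtain ⟨TA, iA, hTA⟩ := hpA.exists_ker hnA
    let i' : (QS.prod TA B).G →* (QS.prod A B).G :=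
      { toFun := fun p => (iA p.1, p.2)
        map_one' := Prod.ext (map_one iA) rfl
        map_mul' := fun p p' => Prod.ext (map_mul iA p.1 p'.1) rfl }
    refine h.elem_of (T' := QS.prod TA B) (i' := i') ⟨?_, ?_, ?_, ?_⟩
      (ElemType.prod TA B (ihA φA hpA TA iA hTA) hB)
    · exact Prod.ext hTA.neg hnB
    · rintro ⟨a, b⟩ ⟨a', b'⟩ e
      have e' : ((iA a, b) : A.G × B.G) = (iA a', b') := e
      rw [Prod.mk.injEq] at e'
      exact Prod.ext (hTA.inj e'.1) e'.2
    · rintro ⟨a, b⟩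
      rw [hAB', hTA.ker]
      constructor
      · rintro ⟨c, rfl⟩
        exact ⟨(c, b), rfl⟩
      · rintro ⟨⟨c, d⟩, e⟩
        exact ⟨c, congrArg Prod.fst e⟩
    · rintro ⟨a, b⟩ ⟨a', b'⟩
      show (QS.prod TA B).q (a, b) (a', b') = (QS.prod TA B).zero ↔
        (QS.prod A B).q (iA a, b) (iA a', b') = (QS.prod A B).zero
      rw [prod_z, prod_z, hTA.zero]
  by_cases tA : ∀ a, φA a = 1
  · -- `φ` lives on `B`
    have hAB' : ∀ a b, φ (a, b) = φB b := fun a b => by rw [hAB, tA, one_mul]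
    have hpB : PrF B φB := by
      constructor
      · obtain ⟨⟨a, b⟩, hv⟩ := hφ.ne
        exact ⟨b, by rw [hAB'] at hv; exact hv⟩
      · rintro x y ⟨v1, h1, h1'⟩ ⟨v2, h2, h2'⟩ ⟨v3, h3, h3'⟩
        obtain ⟨⟨a, b⟩, h4, h5, h6⟩ := hφ.pr (1, x) (1, y)
          ⟨(1, v1), (prod_z _ _).2 ⟨A.q_one _, h1⟩, by rw [hAB']; exact h1'⟩
          ⟨(1, v2), (prod_z _ _).2 ⟨A.q_one _, h2⟩, by rw [hAB']; exact h2'⟩
          ⟨(1, v3), (prod_z _ _).2 ⟨A.q_one _, h3⟩, by rw [hAB']; exact h3'⟩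
        exact ⟨b, ((prod_z _ _).1 h4).2, ((prod_z _ _).1 h5).2, by rw [hAB'] at h6; exact h6⟩
    obtain ⟨TB, iB, hTB⟩ := hpB.exists_ker hnB
    let i' : (QS.prod A TB).G →* (QS.prod A B).G :=
      { toFun := fun p => (p.1, iB p.2)
        map_one' := Prod.ext rfl (map_one iB)
        map_mul' := fun p p' => Prod.ext rfl (map_mul iB p.2 p'.2) }
    refine h.elem_of (T' := QS.prod A TB) (i' := i') ⟨?_, ?_, ?_, ?_⟩
      (ElemType.prod A TB hA (ihB φB hpB TB iB hTB))
    · exact Prod.ext hnA hTB.neg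
    · rintro ⟨a, b⟩ ⟨a', b'⟩ e
      have e' : ((a, iB b) : A.G × B.G) = (a', iB b') := e
      rw [Prod.mk.injEq] at e'
      exact Prod.ext e'.1 (hTB.inj e'.2)
    · rintro ⟨a, b⟩
      rw [hAB', hTB.ker]
      constructor
      · rintro ⟨c, rfl⟩
        exact ⟨(a, c), rfl⟩
      · rintro ⟨⟨c, d⟩, e⟩
        exact ⟨d, congrArg Prod.snd e⟩
    · rintro ⟨a, b⟩ ⟨a', b'⟩
      show (QS.prod A TB).q (a, b) (a', b') = (QS.prod A TB).zero ↔
        (QS.prod A B).q (a, iB b) (a', iB b') = (QS.prod A B).zero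
      rw [prod_z, prod_z, hTB.zero]
  -- both components are nontrivial
  push Not at tA tB
  obtain ⟨z, hz⟩ := tA
  obtain ⟨w, hw⟩ := tB
  -- no `(a, b)` is orthogonal to the outside
  have hN : ∀ p : A.G × B.G, ∃ v, (QS.prod A B).q p v = (QS.prod A B).zero ∧ φ v ≠ 1 := by
    rintro ⟨a, b⟩
    by_contra hcon
    push Not at hcon
    have ka : ∀ v, A.q a v = A.zero → φA v = 1 := by
      intro v hv
      have := hcon (v, 1) ((prod_z _ _).2 ⟨hv, B.q_one _⟩)
      rw [hAB, map_one, mul_one] at this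
      exact this
    have kb : ∀ v, B.q b v = B.zero → φB v = 1 := by
      intro v hv
      have := hcon (1, v) ((prod_z _ _).2 ⟨A.q_one _, hv⟩)
      rw [hAB, map_one, one_mul] at this
      exact this
    obtain ⟨⟨v, v'⟩, h1, h2, h3⟩ := hφ.pr (a, 1) (z, b)
      ⟨(1, w), (prod_z _ _).2 ⟨A.q_one _, q1 B w⟩, by rw [hAB, map_one, one_mul]; exact hw⟩
      ⟨(z, 1), (prod_z _ _).2 ⟨q_self A hnA z, B.q_one _⟩, by
        rw [hAB, map_one, mul_one]; exact hz⟩
      ⟨(a * z, 1), (prod_z _ _).2 ⟨q_self A hnA _, B.q_one _⟩, by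
        rw [hAB, map_one, mul_one]
        exact ne_mul_left (ka a (q_self A hnA a)) hz⟩
    rw [prod_z] at h1 h2
    exact h3 (by rw [hAB, ka v h1.1, kb v' h2.2, one_mul])
  have hex : ∃ r, Rad (QS.prod A B) r ∧ φ r ≠ 1 := by
    by_cases h1 : ∀ x y, ∃ v, A.q x v = A.zero ∧ A.q y v = A.zero ∧ φA v ≠ 1
    · obtain ⟨r, hr, hr'⟩ := rad_of_pairs hA hnA φA h1
      exact ⟨(r, 1), (prod_rad _).2 ⟨hr, Rad.one B⟩, hr'⟩
    by_cases h2 : ∀ x y, ∃ v, B.q x v = B.zero ∧ B.q y v = B.zero ∧ φB v ≠ 1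
    · obtain ⟨r, hr, hr'⟩ := rad_of_pairs hB hnB φB h2
      exact ⟨(1, r), (prod_rad _).2 ⟨Rad.one A, hr⟩, hr'⟩
    push Not at h1 h2
    obtain ⟨x, y, h1⟩ := h1
    obtain ⟨x', y', h2⟩ := h2
    obtain ⟨⟨v, v'⟩, h3, h4, h5⟩ := hφ.pr (x, x') (y, y') (hN _) (hN _) (hN _)
    rw [prod_z] at h3 h4
    exact absurd (by rw [hAB, h1 v h3.1 h4.1, h2 v' h3.2 h4.2, one_mul]) h5
  obtain ⟨r, hr, hr'⟩ := hex
  have : Finite (QS.prod A B).G := inferInstanceAs (Finite (A.G × B.G))
  exact h.of_rad (ElemType.prod A B hA hB) hn hr hr'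

/-- group extensions -/
theorem KerF.of_ext {A : QStruct} (hA : ElemType A) [Finite A.G] (hnA : A.neg = 1)
    (ihA : ∀ φ, PrF A φ → ∀ T i, KerF A φ T i → ElemType T)
    {φ : (QS.ext A).G →* Multiplicative (ZMod 2)} (hφ : PrF (QS.ext A) φ)
    {T : QStruct} {i : T.G →* (QS.ext A).G} (h : KerF (QS.ext A) φ T i) : ElemType T := by
  have hn : (QS.ext A).neg = 1 := Prod.ext hnA rfl
  by_cases t0 : ∀ a, φ (ea a) = 1
  · -- the kernel is `A`
    refine h.elem_of (T' := A) (i' := eaHom A) ⟨hnA, ?_, ?_, ?_⟩ hA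
    · intro a b e
      exact ea_inj e
    · have ht : ∀ b, φ (et b) ≠ 1 := by
        intro b hb
        obtain ⟨v, hv⟩ := hφ.ne
        rcases ext_cases v with ⟨a, rfl⟩ | ⟨a, rfl⟩
        · exact hv (t0 a)
        · apply hv
          have e : (et a : (QS.ext A).G) = ea (a * b) * et b := by
            rw [ea_mul_et, mul_assoc, A.exp_two, mul_one]
          rw [e, map_mul, t0, hb, one_mul]
      intro g
      rcases ext_cases g with ⟨a, rfl⟩ | ⟨a, rfl⟩
      · exact iff_of_true (t0 a) ⟨a, rfl⟩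
      · refine iff_of_false (ht a) ?_
        rintro ⟨b, hb⟩
        exact ea_ne_et b a hb
    · intro a b
      exact (zaa a b).symm
  · push Not at t0
    obtain ⟨g, hg⟩ := t0
    obtain ⟨c, hc⟩ : ∃ c : A.G, φ (et c) = 1 := by
      by_cases h1 : φ (et 1) = 1
      · exact ⟨1, h1⟩
      · refine ⟨g, ?_⟩
        have e : (et g : (QS.ext A).G) = ea g * et 1 := by rw [ea_mul_et, mul_one]
        rw [e]
        exact ne_mul hg h1
    let φA : A.G →* Multiplicative (ZMod 2) := φ.comp (eaHom A)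
    have hφA : ∀ a, φA a = φ (ea a) := fun a => rfl
    have hpA : PrF A φA := by
      refine ⟨⟨g, hg⟩, ?_⟩
      rintro x y ⟨v1, h1, h1'⟩ ⟨v2, h2, h2'⟩ ⟨v3, h3, h3'⟩
      by_cases hx : x = 1
      · exact ⟨v2, by rw [hx]; exact q1 A v2, h2, h2'⟩
      by_cases hy : y = 1
      · exact ⟨v1, h1, by rw [hy]; exact q1 A v1, h1'⟩
      by_cases hxy : x = y
      · exact ⟨v1, h1, by rw [← hxy]; exact h1, h1'⟩
      obtain ⟨v, h4, h5, h6⟩ := hφ.pr (ea x) (ea y) ⟨ea v1, (zaa _ _).2 h1, h1'⟩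
        ⟨ea v2, (zaa _ _).2 h2, h2'⟩ ⟨ea v3, (zaa _ _).2 h3, h3'⟩
      rcases ext_cases v with ⟨a, rfl⟩ | ⟨a, rfl⟩
      · exact ⟨a, (zaa _ _).1 h4, (zaa _ _).1 h5, h6⟩
      · exact absurd ((zat _ _).1 h4) hx
    obtain ⟨TA, iA, hTA⟩ := hpA.exists_ker hnA
    let f : (QS.ext TA).G → (QS.ext A).G := fun p =>
      ea (iA p.1) * (if p.2 = 1 then 1 else et c)
    have fa : ∀ a, f (ea a) = ea (iA a) := by
      intro a
      show ea (iA a) * (if (1 : Multiplicative (ZMod 2)) = 1 then 1 else et c) = _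
      rw [if_pos rfl, mul_one]
    have ft : ∀ a, f (et a) = et (iA a * c) := by
      intro a
      show ea (iA a) * (if (Multiplicative.ofAdd (1 : ZMod 2)) = 1 then 1 else et c) = _
      rw [if_neg (by decide), ea_mul_et]
    let i' : (QS.ext TA).G →* (QS.ext A).G :=
      { toFun := f
        map_one' := by
          rw [← ea_one, fa, map_one, ea_one]
        map_mul' := by
          intro x y
          rcases ext_cases x with ⟨a, rfl⟩ | ⟨a, rfl⟩ <;>
            rcases ext_cases y with ⟨b, rfl⟩ | ⟨b, rfl⟩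
          · rw [ea_mul_ea, fa, fa, fa, ea_mul_ea, map_mul]
          · rw [ea_mul_et, fa, ft, ft, ea_mul_et, map_mul, mul_assoc]
          · rw [et_mul_ea, fa, ft, ft, et_mul_ea, map_mul]
            congr 1
            ac_rfl
          · rw [et_mul_et, fa, ft, ft, et_mul_et, map_mul]
            congr 1
            calc iA a * iA b = iA a * iA b * (c * c) := by rw [A.exp_two, mul_one]
              _ = iA a * c * (iA b * c) := by ac_rfl }
    have ia : ∀ a, i' (ea a) = ea (iA a) := fa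
    have it : ∀ a, i' (et a) = et (iA a * c) := ft
    refine h.elem_of (T' := QS.ext TA) (i' := i') ⟨Prod.ext hTA.neg rfl, ?_, ?_, ?_⟩
      (ElemType.ext TA (ihA φA hpA TA iA hTA))
    · intro x y e
      rcases ext_cases x with ⟨a, rfl⟩ | ⟨a, rfl⟩ <;>
        rcases ext_cases y with ⟨b, rfl⟩ | ⟨b, rfl⟩
      · rw [ia, ia] at e
        rw [hTA.inj (ea_inj e)]
      · rw [ia, it] at e
        exact absurd e (ea_ne_et _ _)
      · rw [ia, it] at e
        exact absurd e.symm (ea_ne_et _ _)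
      · rw [it, it] at e
        rw [hTA.inj (mul_right_cancel (et_inj e))]
    · intro v
      rcases ext_cases v with ⟨a, rfl⟩ | ⟨a, rfl⟩
      · rw [← hφA, hTA.ker]
        constructor
        · rintro ⟨b, rfl⟩
          exact ⟨ea b, ia b⟩
        · rintro ⟨x, hx⟩
          rcases ext_cases x with ⟨b, rfl⟩ | ⟨b, rfl⟩
          · rw [ia] at hx
            exact ⟨b, ea_inj hx⟩
          · rw [it] at hx
            exact absurd hx.symm (ea_ne_et _ _)
      · have e : (et a : (QS.ext A).G) = ea (a * c) * et c := by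
          rw [ea_mul_et, mul_assoc, A.exp_two, mul_one]
        have e1 : φ (et a) = 1 ↔ φA (a * c) = 1 := by
          rw [e, map_mul, hc, mul_one, hφA]
        rw [e1, hTA.ker]
        constructor
        · rintro ⟨b, hb⟩
          refine ⟨et b, ?_⟩
          rw [it, hb, mul_assoc, A.exp_two, mul_one]
        · rintro ⟨x, hx⟩
          rcases ext_cases x with ⟨b, rfl⟩ | ⟨b, rfl⟩
          · rw [ia] at hx
            exact absurd hx (ea_ne_et _ _)
          · rw [it] at hx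
            refine ⟨b, ?_⟩
            rw [← et_inj hx, mul_assoc, A.exp_two, mul_one]
    · intro x y
      rcases ext_cases x with ⟨a, rfl⟩ | ⟨a, rfl⟩ <;>
        rcases ext_cases y with ⟨b, rfl⟩ | ⟨b, rfl⟩
      · rw [ia, ia, zaa, zaa, hTA.zero]
      · rw [ia, it, zat, zat]
        exact (map_eq_one_iff iA hTA.inj).symm
      · rw [ia, it, zta, zta]
        exact (map_eq_one_iff iA hTA.inj).symm
      · rw [it, it, ztt hTA.neg, ztt hnA]
        exact ⟨fun e => by rw [e], fun e => hTA.inj (mul_right_cancel e)⟩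

/-- **kernels of prime functionals of structures of elementary type are of elementary type** -/
theorem KerF.elem {S : QStruct} (hS : ElemType S) : Finite S.G → S.neg = 1 →
    ∀ φ, PrF S φ → ∀ T i, KerF S φ T i → ElemType T := by
  have hdeg : ∀ S : QStruct, Finite S.G → (∀ a b, S.q a b = S.zero) → ∀ φ T i,
      KerF S φ T i → ElemType T := by
    intro S hf h0 φ T i h
    have hfT : Finite T.G := Finite.of_injective i h.inj
    exact deg T hfT h.neg fun a b => (h.zero a b).2 (h0 _ _)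
  induction hS with
  | L0 S h =>
    intro hf _ φ hφ T i hT
    refine hdeg S hf (fun a b => ?_) φ T i hT
    have : Subsingleton S.G := (Nat.card_eq_one_iff_unique.1 h).1
    rw [Subsingleton.elim b 1, S.q_one]
  | L10 S h h1 h2 => exact fun hf _ φ _ T i hT => hdeg S hf h2 φ T i hT
  | L11 S h h1 h2 => exact fun _ hn => absurd hn h1
  | L1 S h h1 h2 => exact fun _ hn => absurd hn h1
  | loc S hf h h1 h2 => exact fun _ hn φ hφ T i hT => hT.of_loc hn h2 hφ
  | prod A B hA hB ihA ihB =>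
    intro hf hn φ hφ T i hT
    have hf' : Finite (A.G × B.G) := hf
    have : Finite A.G := Finite.of_surjective (Prod.fst : A.G × B.G → A.G) Prod.fst_surjective
    have : Finite B.G := Finite.of_surjective (Prod.snd : A.G × B.G → B.G) Prod.snd_surjective
    exact KerF.of_prod hA hB (congrArg Prod.fst hn) (congrArg Prod.snd hn)
      (ihA inferInstance (congrArg Prod.fst hn)) (ihB inferInstance (congrArg Prod.snd hn)) hφ hT
  | ext A hA ih =>
    intro hf hn φ hφ T i hT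
    have hf' : Finite (A.G × Multiplicative (ZMod 2)) := hf
    have : Finite A.G := Finite.of_surjective (Prod.fst : A.G × Multiplicative (ZMod 2) → A.G)
      Prod.fst_surjective
    exact KerF.of_ext hA (congrArg Prod.fst hn) (ih inferInstance (congrArg Prod.fst hn)) hφ hT
  | iso S S' h1 h2 ih =>
    intro hf hn φ hφ T i hT
    obtain ⟨ψ, h3, h4⟩ := h1
    have hz := iso_z h4
    have hfS : Finite S.G := Finite.of_equiv _ ψ.symm.toEquiv
    have hz' : ∀ a b, S'.q a b = S'.zero ↔ S.q (ψ.symm a) (ψ.symm b) = S.zero := by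
      intro a b
      rw [hz, ψ.apply_symm_apply, ψ.apply_symm_apply]
    refine ih hfS (ψ.injective (by rw [h3, hn, map_one])) (φ.comp ψ.toMonoidHom) ⟨?_, ?_⟩ T
      (ψ.symm.toMonoidHom.comp i) ⟨hT.neg, ?_, ?_, ?_⟩
    · obtain ⟨v, hv⟩ := hφ.ne
      refine ⟨ψ.symm v, ?_⟩
      show φ (ψ (ψ.symm v)) ≠ 1
      rw [ψ.apply_symm_apply]
      exact hv
    · rintro x y ⟨v1, h1, h1'⟩ ⟨v2, h2, h2'⟩ ⟨v3, h3, h3'⟩
      rw [hz] at h1 h2 h3
      rw [map_mul] at h3
      obtain ⟨v, h5, h6, h7⟩ := hφ.pr (ψ x) (ψ y) ⟨ψ v1, h1, h1'⟩ ⟨ψ v2, h2, h2'⟩ ⟨ψ v3, h3, h3'⟩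
      refine ⟨ψ.symm v, ?_, ?_, ?_⟩
      · rw [hz, ψ.apply_symm_apply]; exact h5
      · rw [hz, ψ.apply_symm_apply]; exact h6
      · show φ (ψ (ψ.symm v)) ≠ 1
        rw [ψ.apply_symm_apply]; exact h7
    · intro a b e
      exact hT.inj (ψ.symm.injective e)
    · intro g
      show φ (ψ g) = 1 ↔ _
      rw [hT.ker]
      constructor
      · rintro ⟨a, ha⟩
        refine ⟨a, ?_⟩
        show ψ.symm (i a) = g
        rw [ha, ψ.symm_apply_apply]
      · rintro ⟨a, ha⟩
        refine ⟨a, ?_⟩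
        have ha' : ψ.symm (i a) = g := ha
        rw [← ha', ψ.apply_symm_apply]
    · intro a b
      rw [hT.zero, hz']
      rfl

end Pool.Agent.ETCD2.Pres
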