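import Pool.Agent.ETCD2.Pres1
import Pool.Agent.ETCD2.Pres2

/-!
Preservation of elementary type (helper50): Pfister quotients and kernels of prime functionals of
structures of elementary type with `-1 = 1` are of elementary type.  The hypotheses are the unfolded
forms of `IsPfister` and `IsPrimeKer` of `Pool.Agent.ETCD2.Der`.
-/

set_option autoImplicit false
set_option linter.unusedVariables false

namespace Pool.Agent.ETCD2.Pres

open QS

/-- Pfister quotients -/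
theorem pfister {S P : QStruct} (hS : ElemType S) (hneg : S.neg = 1)
    (h : P.neg = 1 ∧ ∃ x : S.G, x ≠ 1 ∧ ∃ π : S.G →* P.G, Function.Surjective π ∧
      (∀ v, π v = 1 ↔ S.q x v = S.zero) ∧
      ∀ a b, P.q (π a) (π b) = P.zero ↔
        ∃ u v, S.q x u = S.zero ∧ S.q x v = S.zero ∧ S.q (a * u) (b * v) = S.zero) :
    ElemType P := by
  obtain ⟨h1, x, -, π, h2, h3, h4⟩ := h
  exact PfQuot.elem hS hneg x P π ⟨h1, h2, h3, h4⟩

/-- kernels of prime functionals -/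
theorem primeKer {S P : QStruct} (hS : ElemType S) (hf : Finite S.G) (hneg : S.neg = 1)
    (h : P.neg = 1 ∧ ∃ (φ : S.G →* Multiplicative (ZMod 2)) (ι : P.G →* S.G),
      ((∃ v, φ v ≠ 1) ∧ ∀ x y, (∃ v, S.q x v = S.zero ∧ φ v ≠ 1) →
        (∃ v, S.q y v = S.zero ∧ φ v ≠ 1) → (∃ v, S.q (x * y) v = S.zero ∧ φ v ≠ 1) →
        ∃ v, S.q x v = S.zero ∧ S.q y v = S.zero ∧ φ v ≠ 1) ∧
      Function.Injective ι ∧ (∀ g, φ g = 1 ↔ ∃ a, ι a = g) ∧
      ∀ a b, P.q a b = P.zero ↔ S.q (ι a) (ι b) = S.zero) : ElemType P := by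
  obtain ⟨h1, φ, ι, ⟨h2, h3⟩, h4, h5, h6⟩ := h
  exact KerF.elem hS hf hneg φ ⟨h2, h3⟩ P ι ⟨h1, h4, h5, h6⟩

end Pool.Agent.ETCD2.Pres
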