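import Pool.Agent.ETCD2.Der2
import Pool.Agent.ETCD2.Pres

/-!
One step: a structure with (D2) is of elementary type if its proper retracts, the kernels of its
prime functionals and its Pfister quotients are (helper24).
-/

set_option autoImplicit false
set_option linter.unusedSectionVars false

namespace Pool.Agent.ETCD2

open QS Pool.Agent.RFT Pool.Agent.ETG Pool.Agent.RFN Pool.Agent.REG10 Pool.Agent.AST
open Pool.Agent.ETCLH Pool.Agent.ETCT

theorem isRetract_of {S : QStruct} {F : Submodule (ZMod 2) (Additive S.G)}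
    (hF : RetZ (ZS S) F) {T : QStruct} (hT : QOf (Rs (ZS S) F) T) : IsRetract S T := by
  obtain ⟨hneg, e, he⟩ := hT
  obtain ⟨ρ, h1, h2, h3⟩ := hF
  refine ⟨hneg, ?_⟩
  let ι : T.G →* S.G :=
    { toFun := fun g => Additive.toMul ((Multiplicative.toAdd (e.symm g) : F) : Additive S.G)
      map_one' := by rw [map_one]; rfl
      map_mul' := by intro a b; rw [map_mul]; rfl }
  let σ : S.G →* T.G :=
    { toFun := fun g => e (Multiplicative.ofAdd (⟨ρ (Additive.ofMul g), h1 _⟩ : F))
      map_one' := by
        rw [← map_one e]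
        congr 1
        apply Multiplicative.toAdd.injective
        apply Subtype.ext
        exact map_zero ρ
      map_mul' := by
        intro a b
        rw [← map_mul e]
        congr 1
        apply Multiplicative.toAdd.injective
        apply Subtype.ext
        exact map_add ρ (Additive.ofMul a) (Additive.ofMul b) }
  have key : ∀ a b : T.G, T.q a b = T.zero ↔ S.q (ι a) (ι b) = S.zero := by
    intro a b
    have := he (Multiplicative.toAdd (e.symm a)) (Multiplicative.toAdd (e.symm b))
    rw [show e (Multiplicative.ofAdd (Multiplicative.toAdd (e.symm a))) = a from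
      e.apply_symm_apply a, show e (Multiplicative.ofAdd (Multiplicative.toAdd (e.symm b))) = b from
      e.apply_symm_apply b] at this
    exact this
  refine ⟨ι, σ, ?_, fun a b h => (key a b).1 h, ?_⟩
  · intro a
    show e _ = a
    rw [← e.apply_symm_apply a]
    congr 1
    apply Multiplicative.toAdd.injective
    apply Subtype.ext
    rw [e.apply_symm_apply]
    exact h2 _ (Multiplicative.toAdd (e.symm a) : F).2
  · intro a b hab
    rw [show T.q (σ a) (σ b) = T.zero ↔ _ from he _ _]
    exact h3 _ _ hab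

theorem isPrimeKer_of {S : QStruct}
    {φ : Additive S.G →ₗ[ZMod 2] ZMod 2} (hφ : PrimeZ (ZS S) φ) {T : QStruct}
    (hT : QOf (Rs (ZS S) (LinearMap.ker φ)) T) : IsPrimeKer S T := by
  obtain ⟨hneg, e, he⟩ := hT
  obtain ⟨h0, hp⟩ := hφ
  let ψ : S.G →* Multiplicative (ZMod 2) :=
    { toFun := fun g => Multiplicative.ofAdd (φ (Additive.ofMul g))
      map_one' := congrArg Multiplicative.ofAdd (map_zero φ)
      map_mul' := fun a b =>
        congrArg Multiplicative.ofAdd (map_add φ (Additive.ofMul a) (Additive.ofMul b)) }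
  have hψ : ∀ g : S.G, ψ g ≠ 1 ↔ φ (Additive.ofMul g) = 1 := by
    intro g
    show Multiplicative.ofAdd (φ (Additive.ofMul g)) ≠ 1 ↔ _
    rcases zz (φ (Additive.ofMul g)) with h | h
    · rw [h]
      exact ⟨fun h' => absurd rfl h', fun h' => absurd h' (by decide)⟩
    · rw [h]
      exact ⟨fun _ => rfl, fun _ => by decide⟩
  refine ⟨hneg, ψ, ?_⟩
  let ι : T.G →* S.G :=
    { toFun := fun g =>
        Additive.toMul ((Multiplicative.toAdd (e.symm g) : LinearMap.ker φ) : Additive S.G)
      map_one' := by rw [map_one]; rfl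
      map_mul' := by intro a b; rw [map_mul]; rfl }
  refine ⟨ι, ⟨?_, ?_⟩, ?_, ?_, ?_⟩
  · by_contra hcon
    push Not at hcon
    apply h0
    ext v
    rcases zz (φ v) with h | h
    · exact h
    · exact absurd (hcon (Additive.toMul v)) ((hψ _).2 h)
  · rintro x y ⟨v1, a1, b1⟩ ⟨v2, a2, b2⟩ ⟨v3, a3, b3⟩
    obtain ⟨v, c1, c2, c3⟩ := hp (Additive.ofMul x) (Additive.ofMul y)
      ⟨Additive.ofMul v1, a1, (hψ _).1 b1⟩ ⟨Additive.ofMul v2, a2, (hψ _).1 b2⟩
      ⟨Additive.ofMul v3, a3, (hψ _).1 b3⟩
    exact ⟨Additive.toMul v, c1, c2, (hψ _).2 c3⟩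
  · intro a b hab
    apply e.symm.injective
    apply Multiplicative.toAdd.injective
    exact Subtype.ext hab
  · intro g
    constructor
    · intro hg
      have h1 : φ (Additive.ofMul g) = 0 := by
        rcases zz (φ (Additive.ofMul g)) with h | h
        · exact h
        · exact absurd hg ((hψ g).2 h)
      refine ⟨e (Multiplicative.ofAdd ⟨Additive.ofMul g, LinearMap.mem_ker.2 h1⟩), ?_⟩
      show Additive.toMul ((Multiplicative.toAdd (e.symm (e _)) : LinearMap.ker φ) :
        Additive S.G) = g
      rw [e.symm_apply_apply]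
      rfl
    · rintro ⟨a, rfl⟩
      by_contra h
      have h1 := (hψ _).1 h
      have h2 : φ ((Multiplicative.toAdd (e.symm a) : LinearMap.ker φ) : Additive S.G) = 0 :=
        LinearMap.mem_ker.1 (Multiplicative.toAdd (e.symm a) : LinearMap.ker φ).2
      rw [show φ (Additive.ofMul (ι a)) = 0 from h2] at h1
      exact absurd h1 (by decide)
  · intro a b
    have := he (Multiplicative.toAdd (e.symm a)) (Multiplicative.toAdd (e.symm b))
    rw [show e (Multiplicative.ofAdd (Multiplicative.toAdd (e.symm a))) = a from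
      e.apply_symm_apply a, show e (Multiplicative.ofAdd (Multiplicative.toAdd (e.symm b))) = b from
      e.apply_symm_apply b] at this
    exact this

theorem isPfister_of {S : QStruct} {x : Additive S.G} (hx : x ≠ 0)
    {W : Type} [AddCommGroup W] [Module (ZMod 2) W] {ZW : W → W → Prop}
    {π : Additive S.G →ₗ[ZMod 2] W} (h : IsPf (ZS S) x π ZW) {T : QStruct} (hT : QOf ZW T) :
    IsPfister S T := by
  obtain ⟨hneg, e, he⟩ := hT
  let σ : S.G →* T.G :=
    { toFun := fun g => e (Multiplicative.ofAdd (π (Additive.ofMul g)))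
      map_one' := by
        rw [← map_one e]
        exact congrArg (fun w => e (Multiplicative.ofAdd w)) (map_zero π)
      map_mul' := by
        intro a b
        rw [← map_mul e]
        exact congrArg (fun w => e (Multiplicative.ofAdd w))
          (map_add π (Additive.ofMul a) (Additive.ofMul b)) }
  refine ⟨hneg, Additive.toMul x, fun h => hx h, σ, ?_, ?_, ?_⟩
  · intro g
    obtain ⟨m, rfl⟩ := e.surjective g
    obtain ⟨v, hv⟩ := h.surj (Multiplicative.toAdd m)
    refine ⟨Additive.toMul v, ?_⟩
    show e (Multiplicative.ofAdd (π v)) = e m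
    rw [hv]
    rfl
  · intro v
    have h1 := h.ker (Additive.ofMul v)
    rw [zs_iff] at h1
    rw [← show _ ↔ S.q (Additive.toMul x) v = S.zero from h1]
    constructor
    · intro h2
      have h3 : Multiplicative.ofAdd (π (Additive.ofMul v)) = 1 :=
        e.injective (by rw [map_one]; exact h2)
      exact h3
    · intro h2
      show e (Multiplicative.ofAdd (π (Additive.ofMul v))) = 1
      rw [h2]
      exact map_one e
  · intro a b
    rw [show T.q (σ a) (σ b) = T.zero ↔ _ from he _ _, h.rel]
    constructor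
    · rintro ⟨a', b', g1, g2, g3⟩
      refine ⟨a * Additive.toMul a', b * Additive.toMul b', g1, g2, ?_⟩
      rw [← mul_assoc, S.exp_two, one_mul, ← mul_assoc, S.exp_two, one_mul]
      exact g3
    · rintro ⟨u, v, g1, g2, g3⟩
      refine ⟨Additive.ofMul (a * u), Additive.ofMul (b * v), ?_, ?_, g3⟩
      · show S.q (Additive.toMul x) (a * (a * u)) = S.zero
        rw [← mul_assoc, S.exp_two, one_mul]
        exact g1
      · show S.q (Additive.toMul x) (b * (b * v)) = S.zero
        rw [← mul_assoc, S.exp_two, one_mul]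
        exact g2


theorem p1_proof : Stmt_P1 := fun _ _ hE _ hn h => Pres.pfister hE hn h

theorem p2_proof : Stmt_P2 := fun _ _ hE hf hn h => Pres.primeKer hE hf hn h

/-- **one step** -/
theorem step (S : QStruct) (hf : Finite S.G) (hneg : S.neg = 1)
    (hD : (∃ g : S.G, g ≠ 1) → HasD2 S)
    (hR : ∀ P, IsRetract S P → Nat.card P.G < Nat.card S.G → ElemType P)
    (hK : ∀ P, IsPrimeKer S P → ElemType P) (hP : ∀ P, IsPfister S P → ElemType P) :
    ElemType S := by
  by_cases hne : ∃ g : S.G, g ≠ 1
  swap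
  · push Not at hne
    apply ElemType.L0
    have hs : Subsingleton S.G := ⟨fun a b => by rw [hne a, hne b]⟩
    exact Nat.card_unique
  obtain ⟨x, hm, hd⟩ := hD hne
  have hfA : Finite (Additive S.G) := hf
  have cardF : ∀ (F : Submodule (ZMod 2) (Additive S.G)) (T : QStruct), F ≠ ⊤ →
      QOf (Rs (ZS S) F) T → Nat.card T.G < Nat.card S.G := by
    rintro F T hF ⟨-, e, -⟩
    obtain ⟨w, hw⟩ : ∃ w, w ∉ F := by
      by_contra hcon
      push Not at hcon
      exact hF (eq_top_iff.2 fun v _ => hcon v)
    calc Nat.card T.G = Nat.card F := (Nat.card_congr e.toEquiv).symm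
      _ < Nat.card (Additive S.G) := card_lt_of F hw
      _ = Nat.card S.G := rfl
  refine topZ (lzs S hneg) (x := Additive.ofMul x) ?_ ?_ ?_ (fun h => hm.1 h) ?_ ?_ S
    (qof S hneg)
  · intro F hF hR' T hT
    exact hR T (isRetract_of hR' hT) (cardF F T hF hT)
  · intro φ hφ T hT
    exact hK T (isPrimeKer_of hφ hT)
  · intro y hy W _ _ _ ZW π hL hP' T hT
    exact hP T (isPfister_of hy hP' hT)
  · intro v hv
    exact hm.2 (Additive.toMul v) (fun h => hv h)
  · intro z hz hzx k a b h1 h2 h3 h4 h5
    have h6 := hd (Additive.toMul z) (fun h => hz h) (fun w hw => hzx (Additive.ofMul w) hw)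
      (Additive.toMul k) (Additive.toMul a) (Additive.toMul b) h1 h2 h3
    rcases h6 with h6 | h6 | h6
    · exact absurd h6 h4
    · exact absurd h6 h5
    · exact (S.qs3 _ _ _).1 h6

theorem hasD2_of_elem {S : QStruct} (hE : ElemType S) (hf : Finite S.G) (hneg : S.neg = 1)
    (hne : ∃ g : S.G, g ≠ 1) : HasD2 S := by
  have hd := d2_of_elem hE hf hneg
  obtain ⟨x, x0, hx⟩ := Set.Finite.exists_maximalFor
    (fun v : S.G => Nat.card {w : S.G // S.q v w = S.zero}) {v : S.G | v ≠ 1} (Set.toFinite _) hne
  have hm : MinRk S x := by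
    refine ⟨x0, fun v hv => ?_⟩
    rcases le_total (Nat.card {w : S.G // S.q v w = S.zero})
      (Nat.card {w : S.G // S.q x w = S.zero}) with h | h
    · exact h
    · exact hx hv h
  refine ⟨x, hm, fun z hz hzx => hd z ⟨hz, fun v hv => (hm.2 v hv).trans ?_⟩⟩
  exact Nat.card_mono (Set.toFinite _) (fun w hw => hzx w hw)

/-- **one step, equivalence** -/
theorem step_iff (S : QStruct) (hf : Finite S.G) (hneg : S.neg = 1) :
    ElemType S ↔ ((∃ g : S.G, g ≠ 1) → HasD2 S) ∧
      (∀ P, IsRetract S P → Nat.card P.G < Nat.card S.G → ElemType P) ∧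
      (∀ P, IsPrimeKer S P → ElemType P) ∧ ∀ P, IsPfister S P → ElemType P :=
  ⟨fun h => ⟨hasD2_of_elem h hf hneg, fun _ hP _ => pres_retract h hf hneg hP,
    fun P hP => p2_proof S P h hf hneg hP, fun P hP => p1_proof S P h hf hneg hP⟩,
    fun h => step S hf hneg h.1 h.2.1 h.2.2.1 h.2.2.2⟩

end Pool.Agent.ETCD2
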