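import Pool.Agent.Lib_MP_d26ff6_al.Defs
import Pool.Agent.ETCD2.Step

/-!
The elementary type conjecture for finite quaternionic structures with `-1 = 1` and condition (D2).

DRAFT of the hand-in D2Theorem (not in `Results/` until the lead decides).
-/

namespace Pool.Agent.ETCD2.HandIn

open QS

/-- `x ≠ 1` is of minimal rank: the group `V_x = {w : q (x, w) = 0}` has maximal order. -/
def MinRank (S : QStruct) (x : S.G) : Prop :=
  x ≠ 1 ∧ ∀ v : S.G, v ≠ 1 →
    Nat.card {w : S.G // S.q v w = S.zero} ≤ Nat.card {w : S.G // S.q x w = S.zero}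

/-- (D2) at `x`: if `q (x, k) = 0`, `q (k, a) = 0` and `q (k x, b) = 0`, then `q (x, a)` and
`q (x, b)` are not two different nonzero quaternions. -/
def D2 (S : QStruct) (x : S.G) : Prop :=
  ∀ k a b : S.G, S.q x k = S.zero → S.q k a = S.zero → S.q (k * x) b = S.zero →
    S.q x a = S.zero ∨ S.q x b = S.zero ∨ S.q x a = S.q x b

/-- For some `x` of minimal rank (D2) holds at all `z ≠ 1` with `V_x ⊆ V_z` (for instance at
`z = x`). -/
def HasD2 (S : QStruct) : Prop :=
  ∃ x, MinRank S x ∧ ∀ z, z ≠ 1 → (∀ w, S.q x w = S.zero → S.q z w = S.zero) → D2 S z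

/-- `P` is a retract of `S` (with `-1 = 1`). -/
def Retract (S P : QStruct) : Prop :=
  P.neg = 1 ∧ ∃ (ι : P.G →* S.G) (ρ : S.G →* P.G), (∀ a, ρ (ι a) = a) ∧
    (∀ a b, P.q a b = P.zero → S.q (ι a) (ι b) = S.zero) ∧
    ∀ a b, S.q a b = S.zero → P.q (ρ a) (ρ b) = P.zero

/-- `φ` is a prime functional: `φ ≠ 1`, and if `φ` is nontrivial on `V_x`, `V_y` and `V_{xy}`, then
it is nontrivial on `V_x ∩ V_y`. -/
def PrimeFunctional (S : QStruct) (φ : S.G →* Multiplicative (ZMod 2)) : Prop :=
  (∃ v, φ v ≠ 1) ∧ ∀ x y, (∃ v, S.q x v = S.zero ∧ φ v ≠ 1) →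
    (∃ v, S.q y v = S.zero ∧ φ v ≠ 1) → (∃ v, S.q (x * y) v = S.zero ∧ φ v ≠ 1) →
    ∃ v, S.q x v = S.zero ∧ S.q y v = S.zero ∧ φ v ≠ 1

/-- `P` (with `-1 = 1`) is the kernel of a prime functional of `S`, with the relation `q = 0`
of `S`. -/
def PrimeKernel (S P : QStruct) : Prop :=
  P.neg = 1 ∧ ∃ (φ : S.G →* Multiplicative (ZMod 2)) (ι : P.G →* S.G), PrimeFunctional S φ ∧
    Function.Injective ι ∧ (∀ g, φ g = 1 ↔ ∃ a, ι a = g) ∧
    ∀ a b, P.q a b = P.zero ↔ S.q (ι a) (ι b) = S.zero

/-- `P` (with `-1 = 1`) is a Pfister quotient of `S`: for some `x ≠ 1` its group is `G / V_x`, and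
`q (aV_x, bV_x) = 0` if and only if `q (a', b') = 0` for some `a' ∈ aV_x`, `b' ∈ bV_x`. -/
def PfisterQuotient (S P : QStruct) : Prop :=
  P.neg = 1 ∧ ∃ x : S.G, x ≠ 1 ∧ ∃ π : S.G →* P.G, Function.Surjective π ∧
    (∀ v, π v = 1 ↔ S.q x v = S.zero) ∧
    ∀ a b, P.q (π a) (π b) = P.zero ↔
      ∃ u v, S.q x u = S.zero ∧ S.q x v = S.zero ∧ S.q (a * u) (b * v) = S.zero

/-- The structures derived from `S` by iterating the three operations. -/
inductive Derived (S : QStruct) : QStruct → Prop
  | self : Derived S S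
  | ret (T P : QStruct) (h : Derived S T) (hP : Retract T P) : Derived S P
  | ker (T P : QStruct) (h : Derived S T) (hP : PrimeKernel T P) : Derived S P
  | pf (T P : QStruct) (h : Derived S T) (hP : PfisterQuotient T P) : Derived S P

theorem derived_iff {S T : QStruct} : Derived S T ↔ ETCD2.Derived S T := by
  constructor
  · intro h
    induction h with
    | self => exact ETCD2.Derived.self
    | ret T P _ hP ih => exact ETCD2.Derived.ret T P ih hP
    | ker T P _ hP ih => exact ETCD2.Derived.ker T P ih hP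
    | pf T P _ hP ih => exact ETCD2.Derived.pf T P ih hP
  · intro h
    induction h with
    | self => exact Derived.self
    | ret T P _ hP ih => exact Derived.ret T P ih hP
    | ker T P _ hP ih => exact Derived.ker T P ih hP
    | pf T P _ hP ih => exact Derived.pf T P ih hP

/-- Condition (D2) and elementary type, for finite structures with `-1 = 1`.
(1) `S` is of elementary type if and only if it satisfies (D2) at some `x` of minimal rank (and at
all `z ≠ 1` with `V_x ⊆ V_z`) and its proper retracts, the kernels of its prime functionals and its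
Pfister quotients are of elementary type.
(2) `S` is of elementary type if and only if every nontrivial structure derived from `S` by these
three operations satisfies (D2) at some `x` of minimal rank as in (1).
(3) The elementary type conjecture for `-1 = 1` holds if and only if every nontrivial finite
structure with `-1 = 1` satisfies (D2) at some `x` of minimal rank as in (1).
(4) In a structure of elementary type (D2) holds at all elements of minimal rank. -/
theorem result :
    (∀ S : QStruct, Finite S.G → S.neg = 1 →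
      (ElemType S ↔ ((∃ g : S.G, g ≠ 1) → HasD2 S) ∧
        (∀ P, Retract S P → Nat.card P.G < Nat.card S.G → ElemType P) ∧
        (∀ P, PrimeKernel S P → ElemType P) ∧ ∀ P, PfisterQuotient S P → ElemType P)) ∧
    (∀ S : QStruct, Finite S.G → S.neg = 1 →
      (ElemType S ↔ ∀ T, Derived S T → (∃ g : T.G, g ≠ 1) → HasD2 T)) ∧
    ((∀ S : QStruct, Finite S.G → S.neg = 1 → ElemType S) ↔
      ∀ S : QStruct, Finite S.G → S.neg = 1 → (∃ g : S.G, g ≠ 1) → HasD2 S) ∧
    (∀ S : QStruct, Finite S.G → S.neg = 1 → ElemType S → ∀ x, MinRank S x → D2 S x) := by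
  refine ⟨fun S hf hneg => ETCD2.step_iff S hf hneg, fun S hf hneg => ?_, ETCD2.etc_iff',
    fun S hf hneg h => ETCD2.d2_of_elem h hf hneg⟩
  rw [ETCD2.elem_iff_d2 ETCD2.p1_proof ETCD2.p2_proof hf hneg]
  exact forall_congr' fun T => imp_congr_left derived_iff.symm

end Pool.Agent.ETCD2.HandIn
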