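import Pool.Agent.ETCD2.OG2
import Pool.Agent.ETCD2.AN3

/-!
helper62's THEOREM AN-M (note 2587), set-valued: the final steps (11)-(13) (helper24).
-/

set_option autoImplicit false
set_option linter.unusedSectionVars false
set_option linter.unusedVariables false

namespace Pool.Agent.ETCD2.OG

open Pool.Agent.ETCD2.AN (LSp sum0 exists_two)

variable {V : Type} [AddCommGroup V] [Module (ZMod 2) V] {Z N : V → V → Prop} {M : ℕ}

/-- the points: slots commuting with `D` -/
def inF (Z N : V → V → Prop) (D : Submodule (ZMod 2) V) (s : V) : Prop :=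
  Sl N s ∧ ∀ m ∈ D, Z s m

theorem core [Finite V] (T : Th Z N) (D : Submodule (ZMod 2) V)
    (H1 : ∀ s, inF Z N D s → Nat.card {w : V // Z s w} = M)
    (H2 : ∀ s s', inF Z N D s → inF Z N D s' → s ≠ s' → ∀ m, Z s m → Z s' m → m ∈ D)
    (h4 : 4 * Nat.card D ≤ M) {x t : V} (hx : inF Z N D x) (ht : inF Z N D t) (hxt : x ≠ t) :
    False := by
  classical
  have := Fintype.ofFinite V
  have := Fintype.ofFinite (V ⧸ D)
  have Dpos : 0 < Nat.card D := Nat.card_pos
  -- `κ`
  obtain ⟨m, hm⟩ : ∃ m : ℕ, M = 2 ^ m := by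
    rw [← H1 x hx]; exact pow2 (W := T.K x)
  obtain ⟨d, hd⟩ : ∃ d : ℕ, Nat.card D = 2 ^ d := pow2
  have hdm : d ≤ m := by
    have h1 : (2 : ℕ) ^ d ≤ 2 ^ m := by rw [← hd, ← hm]; omega
    exact (Nat.pow_le_pow_iff_right (by norm_num)).1 h1
  obtain ⟨e, rfl⟩ := Nat.exists_eq_add_of_le hdm
  have hMκ : M = 2 ^ e * Nat.card D := by rw [hm, hd, pow_add, mul_comm]
  have κ4 : 4 ≤ 2 ^ e := by
    rw [hMκ] at h4
    exact Nat.le_of_mul_le_mul_right h4 Dpos
  -- `q s` is constant on `D`-cosets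
  have cst : ∀ s r r' : V, inF Z N D s → D.mkQ r' = D.mkQ r → N s r' → N s r := by
    intro s r r' hs h hr
    have h1 : r - r' ∈ D := (Submodule.Quotient.eq D).1 h.symm
    rw [sub_eq_add_neg, ZModModule.neg_eq_self] at h1
    have h2 := T.nadd hr (hs.2 _ h1)
    rwa [add_comm r r', xaa] at h2
  let F : Finset V := Finset.univ.filter fun s => inF Z N D s
  let pts : V ⧸ D → Finset V := fun l =>
    Finset.univ.filter fun s => inF Z N D s ∧ ∃ r, D.mkQ r = l ∧ N s r
  let Λ : Finset (V ⧸ D) := Finset.univ.filter fun l => (pts l).Nonempty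
  have mF : ∀ s, s ∈ F ↔ inF Z N D s := fun s => by
    simp only [F, Finset.mem_filter, Finset.mem_univ, true_and]
  have mp : ∀ l s, s ∈ pts l ↔ inF Z N D s ∧ ∃ r, D.mkQ r = l ∧ N s r := fun l s => by
    simp only [pts, Finset.mem_filter, Finset.mem_univ, true_and]
  have mp' : ∀ r s, s ∈ pts (D.mkQ r) ↔ inF Z N D s ∧ N s r := by
    intro r s
    rw [mp]
    constructor
    · rintro ⟨h1, r', h2, h3⟩
      exact ⟨h1, cst s r r' h1 h2 h3⟩
    · rintro ⟨h1, h2⟩
      exact ⟨h1, r, rfl, h2⟩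
  have mΛ : ∀ l, l ∈ Λ ↔ (pts l).Nonempty := fun l => by
    simp only [Λ, Finset.mem_filter, Finset.mem_univ, true_and]
  -- the direction space of a line
  have dirs : ∀ r s0 : V, inF Z N D s0 → N s0 r → ∀ s, s ∈ pts (D.mkQ r) ↔
      Z r (s + s0) ∧ ∀ m ∈ D, Z m (s + s0) := by
    intro r s0 h0 h1 s
    rw [mp']
    constructor
    · rintro ⟨h2, h3⟩
      exact ⟨T.nn (T.ns h3) (T.ns h1),
        fun m hm => T.zadd (T.zs (h2.2 m hm)) (T.zs (h0.2 m hm))⟩
    · rintro ⟨h2, h3⟩
      have h4 : N s r := by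
        have h5 := T.nadd (T.ns h1) h2
        rw [add_comm s s0, xaa] at h5
        exact T.ns h5
      exact ⟨⟨T.sl h4, fun m hm => T.zs (T.zsub (h3 m hm) (T.zs (h0.2 m hm)))⟩, h4⟩
  let W : V → Submodule (ZMod 2) V := fun r =>
    { carrier := {v | Z r v ∧ ∀ m ∈ D, Z m v}
      add_mem' := by
        rintro a b ⟨ha, ha'⟩ ⟨hb, hb'⟩
        exact ⟨T.zadd ha hb, fun m hm => T.zadd (ha' m hm) (hb' m hm)⟩
      zero_mem' := ⟨T.z0 _, fun m _ => T.z0 m⟩
      smul_mem' := by
        rintro k a ⟨ha, ha'⟩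
        exact ⟨(T.K r).smul_mem k ha, fun m hm => (T.K m).smul_mem k (ha' m hm)⟩ }
  have cardW : ∀ r s0 : V, inF Z N D s0 → N s0 r →
      (pts (D.mkQ r)).card = Nat.card (W r) := by
    intro r s0 h0 h1
    have e1 : (pts (D.mkQ r)).card = Nat.card {s : V // s ∈ pts (D.mkQ r)} := by
      rw [Nat.card_eq_fintype_card, Fintype.card_coe]
    rw [e1]
    refine Nat.card_congr
      { toFun := fun s => ⟨s.1 + s0, (dirs r s0 h0 h1 s.1).1 s.2⟩
        invFun := fun v => ⟨v.1 + s0, (dirs r s0 h0 h1 _).2 (by rw [aax]; exact v.2)⟩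
        left_inv := fun s => Subtype.ext (aax _ _)
        right_inv := fun s => Subtype.ext (aax _ _) }
  have thr : ∀ s, inF Z N D s → ∀ l, (l ∈ Λ ∧ s ∈ pts l) ↔ ∃ r, D.mkQ r = l ∧ N s r := by
    intro s hs l
    rw [mp, mΛ]
    constructor
    · rintro ⟨_, _, h⟩
      exact h
    · intro h
      exact ⟨⟨s, (mp l s).2 ⟨hs, h⟩⟩, hs, h⟩
  -- fibres
  have fib : ∀ (A : Finset V), (∀ a ∈ A, ∀ m ∈ D, a + m ∈ A) → ∀ L : Finset (V ⧸ D),
      (∀ l, l ∈ L ↔ ∃ a ∈ A, D.mkQ a = l) → A.card = L.card * Nat.card D := by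
    intro A hA L hL
    rw [Finset.card_eq_sum_card_fiberwise (f := D.mkQ) (t := L)
      (fun a ha => (hL _).2 ⟨a, ha, rfl⟩), Finset.sum_congr rfl (g := fun _ => Nat.card D),
      Finset.sum_const, smul_eq_mul]
    intro l hl
    obtain ⟨a0, ha0, rfl⟩ := (hL l).1 hl
    have e1 : (A.filter fun a => D.mkQ a = D.mkQ a0).card =
        Nat.card {a : V // a ∈ A.filter fun a => D.mkQ a = D.mkQ a0} := by
      rw [Nat.card_eq_fintype_card, Fintype.card_coe]
    rw [e1]
    refine Nat.card_congr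
      { toFun := fun a => ⟨a.1 + a0, ?_⟩
        invFun := fun v => ⟨v.1 + a0, ?_⟩
        left_inv := fun s => Subtype.ext (aax _ _)
        right_inv := fun s => Subtype.ext (aax _ _) }
    · have h1 := (Finset.mem_filter.1 a.2).2
      have h2 : a.1 - a0 ∈ D := (Submodule.Quotient.eq D).1 h1
      rwa [sub_eq_add_neg, ZModModule.neg_eq_self] at h2
    · rw [Finset.mem_filter]
      refine ⟨by rw [add_comm]; exact hA a0 ha0 _ v.2, ?_⟩
      refine (Submodule.Quotient.eq D).2 ?_
      rw [add_sub_cancel_right]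
      exact v.2
  -- `κ` lines through a point
  have hone : ∀ s ∈ F, (Λ.filter fun l => s ∈ pts l).card = 2 ^ e := by
    intro s hs
    rw [mF] at hs
    obtain ⟨y0, hy0⟩ := hs.1
    have h1 := fib (Finset.univ.filter fun r => N s r)
      (fun a ha m hm => by
        rw [Finset.mem_filter] at ha ⊢
        exact ⟨Finset.mem_univ _, T.nadd ha.2 (hs.2 m hm)⟩)
      (Λ.filter fun l => s ∈ pts l) (fun l => by
        rw [Finset.mem_filter, thr s hs]
        constructor
        · rintro ⟨r, h1, h2⟩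
          exact ⟨r, Finset.mem_filter.2 ⟨Finset.mem_univ _, h2⟩, h1⟩
        · rintro ⟨r, h1, h2⟩
          exact ⟨r, h2, (Finset.mem_filter.1 h1).2⟩)
    have h2 : (Finset.univ.filter fun r => N s r).card = M := by
      rw [← H1 s hs, ← Fintype.card_subtype, ← Nat.card_eq_fintype_card]
      exact T.card_N hy0
    rw [h2, hMκ] at h1
    exact (Nat.eq_of_mul_eq_mul_right Dpos h1).symm
  have htwo : ∀ s ∈ F, ∀ s' ∈ F, s ≠ s' →
      (Λ.filter fun l => s ∈ pts l ∧ s' ∈ pts l).card = 1 := by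
    intro s hs s' hs' hne
    rw [mF] at hs hs'
    obtain ⟨r, h1, h2⟩ := T.lk hs.1 hs'.1
    rw [Finset.card_eq_one]
    refine ⟨D.mkQ r, ?_⟩
    ext l
    rw [Finset.mem_filter, Finset.mem_singleton]
    constructor
    · rintro ⟨h3, h4, h5⟩
      obtain ⟨r1, rfl⟩ := D.mkQ_surjective l
      rw [mp'] at h4 h5
      refine (Submodule.Quotient.eq D).2 ?_
      rw [sub_eq_add_neg, ZModModule.neg_eq_self]
      exact H2 s s' hs hs' hne _ (T.nn h4.2 h1) (T.nn h5.2 h2)
    · rintro rfl
      refine ⟨(mΛ _).2 ⟨s, (mp' _ _).2 ⟨hs, h1⟩⟩, (mp' _ _).2 ⟨hs, h1⟩, (mp' _ _).2 ⟨hs', h2⟩⟩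
  -- the number of lines
  have hb : Λ.card + 1 ≤ F.card + 2 ^ e := by
    by_cases hD : D = ⊥
    · have h1 : Λ.card ≤ F.card := by
        have h2 : Λ ⊆ F.image D.mkQ := by
          intro l hl
          obtain ⟨s, hs⟩ := (mΛ l).1 hl
          obtain ⟨h3, r, rfl, h4⟩ := (mp l s).1 hs
          refine Finset.mem_image.2 ⟨r, (mF r).2 ⟨T.sl' h4, fun m hm => ?_⟩, rfl⟩
          rw [hD, Submodule.mem_bot] at hm
          rw [hm]
          exact T.z0 r
        exact (Finset.card_le_card h2).trans Finset.card_image_le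
      omega
    · obtain ⟨m0, hm0, m00⟩ := D.exists_mem_ne_zero_of_ne_bot hD
      have hsplit : Λ.card = (Λ.filter fun l => x ∈ pts l).card +
          (Λ.filter fun l => x ∉ pts l).card := by
        rw [Finset.card_filter_add_card_filter_not]
      have hx' : x ∈ F := (mF x).2 hx
      have h1 : (Λ.filter fun l => x ∉ pts l).card ≤ (F.erase x).card := by
        refine Finset.card_le_card_of_forall_subsingleton
          (fun l z => ∃ r, D.mkQ r = l ∧ Sl N r ∧ N x (r + z)) ?_ ?_
        · intro l hl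
          rw [Finset.mem_filter, mΛ] at hl
          obtain ⟨⟨s, hs⟩, hxl⟩ := hl
          obtain ⟨hsF, r, rfl, hsr⟩ := (mp l s).1 hs
          rw [mp'] at hxl
          have hxr : ¬ N x r := fun h => hxl ⟨hx, h⟩
          have rS : Sl N r := T.sl' hsr
          have hxr0 : ¬ Z x r := by
            intro h
            have h2 := T.thin x r hx.1 rS h
            rw [h2] at hsr
            exact m00 (T.disj hsr (hsF.2 m0 hm0) (hx.2 m0 hm0))
          obtain ⟨y1, h2, h3⟩ := T.lk hx.1 rS
          have zS : Sl N (r + y1) := by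
            refine T.sl' (s := r) ?_
            rw [add_comm r y1]
            exact T.nadd h3 (T.za r)
          have hrz : N x (r + (r + y1)) := by rw [xaa]; exact h2
          refine ⟨r + y1, Finset.mem_erase.2 ⟨?_, (mF _).2 ⟨zS, fun m hm => ?_⟩⟩,
            r, rfl, rS, hrz⟩
          · intro h
            have h5 : Z x (r + y1) := by rw [h]; exact T.za x
            have h6 := T.nadd h2 h5
            rw [add_comm r y1, xaa] at h6
            exact hxr h6
          · refine (T.dir rS zS hrz (hx.2 m hm)).1 (T.sl' (s := s) ?_)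
            exact T.nadd hsr (hsF.2 m hm)
        · rintro z hz l ⟨_, r, rfl, hr, hrz⟩ l' ⟨_, r', rfl, hr', hrz'⟩
          rw [Finset.mem_erase, mF] at hz
          have hm0' : Z x (r + r') := by
            have : r + r' = (r + z) + (r' + z) := by
              have : r + z + (r' + z) = r + r' + (z + z) := by abel
              rw [this, two, add_zero]
            rw [this]
            exact T.nn hrz hrz'
          have h2 : Z z (r + r') := by
            refine (T.dir hr hz.2.1 hrz hm0').1 ?_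
            rw [xaa]
            exact hr'
          refine (Submodule.Quotient.eq D).2 ?_
          rw [sub_eq_add_neg, ZModModule.neg_eq_self]
          exact H2 x z hx hz.2 hz.1.symm _ hm0' h2
      rw [Finset.card_erase_of_mem hx'] at h1
      rw [hsplit, hone x hx']
      have : 0 < F.card := Finset.card_pos.2 ⟨x, hx'⟩
      omega
  have L : LSp F Λ pts (2 ^ e) := by
    refine ⟨?_, ?_, ?_, hone, htwo, ⟨e, rfl⟩, κ4, ?_, hb⟩
    · intro l _ s hs
      exact (mF s).2 ((mp l s).1 hs).1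
    · intro l hl
      obtain ⟨s, hs⟩ := (mΛ l).1 hl
      obtain ⟨hsF, r, rfl, hsr⟩ := (mp l s).1 hs
      rw [cardW r s hsF hsr]
      exact pow2
    · intro l hl hl4
      obtain ⟨s, hs⟩ := (mΛ l).1 hl
      obtain ⟨hsF, r, rfl, hsr⟩ := (mp l s).1 hs
      rw [cardW r s hsF hsr] at hl4
      obtain ⟨a, ha, b, hb', a0, b0, ab⟩ := exists_two hl4
      have cl : ∀ w ∈ W r, ∀ z ∈ pts (D.mkQ r), z + w ∈ pts (D.mkQ r) := by
        intro w hw z hz
        rw [dirs r s hsF hsr] at hz ⊢
        have : z + w + s = (z + s) + w := by abel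
        rw [this]
        exact ⟨T.zadd hz.1 hw.1, fun m hm => T.zadd (hz.2 m hm) (hw.2 m hm)⟩
      exact sum0 _ a0 b0 ab (cl a ha) (cl b hb')
    · refine Finset.one_lt_card.2 ⟨x, (mF x).2 hx, t, (mF t).2 ht, hxt⟩
  exact L.false_

/-- **THEOREM AN-M** (helper62, note 2587) -/
theorem MX.an [Finite V] (X : MX Z N M) (h4 : 4 ≤ M) {x : V} (hx : Sl N x)
    (hM : Nat.card {w : V // Z x w} = M) (s : V) (hs : Sl N s) : s = x ∨ N x s := by
  classical
  have T := X.toTh
  by_contra hcon
  push Not at hcon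
  have p0 : P Z N M x s := ⟨hx, hM, hs, fun h => hcon.1 (T.thin x s hx hs h), hcon.2⟩
  -- a pair with `|D|` maximal
  obtain ⟨⟨⟨x, t⟩, p⟩, hmax⟩ : ∃ w : {w : V × V // P Z N M w.1 w.2}, ∀ w' :
      {w : V × V // P Z N M w.1 w.2}, Nat.card (X.D w'.1.1 w'.1.2) ≤
        Nat.card (X.D w.1.1 w.1.2) := by
    have : Nonempty {w : V × V // P Z N M w.1 w.2} := ⟨⟨(x, s), p0⟩⟩
    exact Finite.exists_max _
  have gl : ∀ x' t', P Z N M x' t' → Nat.card (X.D x' t') ≤ Nat.card (X.D x t) :=
    fun x' t' h => hmax ⟨(x', t'), h⟩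
  replace p : P Z N M x t := p
  clear hmax p0 hcon
  have ten : ∀ x' t', P Z N M x' t' → Nat.card (X.D x t) ≤ Nat.card (X.D x' t') →
      Nat.card {w : V // Z t' w} = M := fun x' t' h h' =>
    X.ten h fun t'' h'' => (gl x' t'' h'').trans h'
  have htM : Nat.card {w : V // Z t w} = M := ten x t p le_rfl
  have hne : x ≠ t := by
    rintro rfl
    exact p.n0 (T.za x)
  by_cases hD : X.D x t = ⊥
  · have c1 : Nat.card (X.D x t) = 1 := by rw [hD]; exact Nat.card_unique
    have pos : ∀ a b, Nat.card (X.D x t) ≤ Nat.card (X.D a b) := fun a b => by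
      rw [c1]; exact Nat.card_pos
    have D0 : ∀ m, Z x m → Z t m → m = 0 := by
      intro m h1 h2
      have h3 : m ∈ X.D x t := ⟨h1, h2⟩
      rwa [hD, Submodule.mem_bot] at h3
    -- all slots have maximal centralizers
    have all : ∀ s, Sl N s → Nat.card {w : V // Z s w} = M := by
      intro s hs
      by_cases e1 : s = x
      · rw [e1]; exact p.cx
      by_cases e2 : N x s
      · by_cases e3 : N t s
        · -- `s' = s + k`
          obtain ⟨k, hk, k0, kx⟩ : ∃ k ∈ T.K x, k ≠ 0 ∧ k ≠ x := by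
            obtain ⟨a, ha, b, hb, a0, b0, ab⟩ := exists_two (W := T.K x)
              (by rw [show Nat.card (T.K x) = M from p.cx]; exact h4)
            by_cases h : a = x
            · exact ⟨b, hb, b0, fun h' => ab (h.trans h'.symm)⟩
            · exact ⟨a, ha, a0, h⟩
          have hk' : Z x k := hk
          have s'x : N x (s + k) := T.nadd e2 hk'
          have s'S : Sl N (s + k) := T.sl' s'x
          have hts' : ¬ N t (s + k) := by
            intro h
            exact k0 (D0 k hk' (T.zc e3 h))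
          have hts0 : ¬ Z t (s + k) := by
            intro h
            have h1 := T.thin t (s + k) p.st s'S h
            rw [h1] at s'x
            exact p.nc s'x
          have M1 : Nat.card {w : V // Z (s + k) w} = M :=
            ten t (s + k) ⟨p.st, htM, s'S, hts0, hts'⟩ (pos _ _)
          refine ten (s + k) s ⟨s'S, M1, hs, ?_, ?_⟩ (pos _ _)
          · intro h
            have h5 : Z k s := by
              have h6 := T.zadd' h (T.za s)
              rwa [add_comm s k, aax] at h6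
            exact k0 (T.disj e2 hk' (T.zs h5))
          · intro h
            exact kx (T.thin x k p.sx (T.sl (T.nc' (T.za s) h)) hk')
        · refine ten t s ⟨p.st, htM, hs, ?_, e3⟩ (pos _ _)
          intro h
          have h1 := T.thin t s p.st hs h
          rw [h1] at e2
          exact p.nc e2
      · exact ten x s ⟨p.sx, p.cx, hs, fun h => e1 (T.thin x s p.sx hs h), e2⟩ (pos _ _)
    refine core T (⊥ : Submodule (ZMod 2) V) (M := M) (fun s hs => all s hs.1) ?_ ?_
      (x := x) (t := t) ⟨p.sx, ?_⟩ ⟨p.st, ?_⟩ hne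
    · intro s s' hs hs' hss m h1 h2
      rw [Submodule.mem_bot]
      by_cases e1 : N s s'
      · exact T.disj e1 h1 h2
      · have p1 : P Z N M s s' := ⟨hs.1, all s hs.1, hs'.1,
          fun h => hss (T.thin s s' hs.1 hs'.1 h).symm, e1⟩
        have h3 := gl s s' p1
        rw [c1, Finite.card_le_one_iff_subsingleton] at h3
        have h4 := h3.elim ⟨m, h1, h2⟩ ⟨0, (X.D s s').zero_mem⟩
        exact congrArg Subtype.val h4
    · have : Nat.card (⊥ : Submodule (ZMod 2) V) = 1 := Nat.card_unique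
      rw [this]
      omega
    · intro m hm
      rw [(Submodule.mem_bot _).1 hm]
      exact T.z0 _
    · intro m hm
      rw [(Submodule.mem_bot _).1 hm]
      exact T.z0 _
  · obtain ⟨m0, hm0, m00⟩ := (X.D x t).exists_mem_ne_zero_of_ne_bot hD
    have hxF : inF Z N (X.D x t) x := ⟨p.sx, fun m hm => hm.1⟩
    have htF : inF Z N (X.D x t) t := ⟨p.st, fun m hm => hm.2⟩
    have key : ∀ s s', inF Z N (X.D x t) s → inF Z N (X.D x t) s' → s ≠ s' →
        Nat.card {w : V // Z s w} = M → P Z N M s s' ∧ X.D x t ≤ X.D s s' := by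
      intro s s' hs hs' hss hsM
      refine ⟨⟨hs.1, hsM, hs'.1, fun h => hss (T.thin s s' hs.1 hs'.1 h).symm, fun h =>
        m00 (T.disj h (hs.2 m0 hm0) (hs'.2 m0 hm0))⟩, fun m hm => ⟨hs.2 m hm, hs'.2 m hm⟩⟩
    have all : ∀ s, inF Z N (X.D x t) s → Nat.card {w : V // Z s w} = M := by
      intro s hs
      by_cases e1 : s = x
      · rw [e1]; exact p.cx
      · obtain ⟨h1, h2⟩ := key x s hxF hs (fun h => e1 h.symm) p.cx
        exact ten x s h1 (Set.ncard_le_ncard h2 (Set.toFinite _))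
    refine core T (X.D x t) (M := M) all ?_ (X.six p) hxF htF hne
    intro s s' hs hs' hss m h1 h2
    obtain ⟨h3, h4⟩ := key s s' hs hs' hss (all s hs)
    have h5 : X.D x t = X.D s s' :=
      SetLike.coe_injective (Set.eq_of_subset_of_ncard_le h4 (gl s s' h3) (Set.toFinite _))
    rw [h5]
    exact ⟨h1, h2⟩

end Pool.Agent.ETCD2.OG
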