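import Pool.Agent.ETCD2.Step
import Pool.Agent.ETCD2.Conv2
import Pool.Agent.ETCR2.D2cQ3

/-!
The elementary type conjecture for `-1 = 1` from (D2) at ONE element `x` of minimal rank and ONE
quaternion `q (x, u)` (Theorem D2c: helpers 32, 58, 62, 53; this file: helper24).
-/

set_option autoImplicit false
set_option linter.unusedSectionVars false

namespace Pool.Agent.ETCD2

open QS Pool.Agent.RFT Pool.Agent.ETG Pool.Agent.RFN Pool.Agent.REG10 Pool.Agent.AST
open Pool.Agent.ETCLH Pool.Agent.ETCT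
open Pool.Agent.Helper58.PLine (QData)
open Pool.Agent.ETCP (C)

/-- relation form -/
theorem topZc {V : Type} [AddCommGroup V] [Module (ZMod 2) V] [Finite V] {Z : V → V → Prop}
    (hZ : LZ Z) (hr : RetET Z) (hk : KerET Z) (hp : PfET Z) {x : V} (x0 : x ≠ 0)
    (mr : ∀ v, v ≠ 0 → Nat.card {w // Z v w} ≤ Nat.card {w // Z x w})
    (d2 : (∀ u v, Z x u ∨ Z x v ∨ Z x (u + v)) ∨ ∃ u, ¬ Z x u ∧ ∀ l v t, Z x l → Z x (u + v) →
      Z l v → Z (x + l) t → Z x t) : ETZ Z := by
  by_contra hET
  have M := mn' hZ hr hk hET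
  have hz : ∀ a b, C (dat hZ) a b ↔ Z a b := dat_zero hZ
  have hcard : ∀ v : V, Nat.card ((dat hZ).ann v) = Nat.card {w // Z v w} := fun v =>
    Nat.card_congr ((Equiv.refl V).subtypeEquiv fun w => hz v w)
  rcases d2 with d2 | ⟨u, hu, d2⟩
  · exact x0 (M.r1 x fun u v => by simp only [hz]; exact d2 u v)
  · have hu' : ¬ C (dat hZ) x u := fun h => hu ((hz _ _).1 h)
    obtain ⟨l, v, t, h1, h2, h3, h4, h5⟩ := ETCR2.no_d2c M.he (x := x) (fun v hv => by
      rw [hcard, hcard]; exact mr v hv) (fun u hu => k4' hZ M hp x0 hu) hu'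
    simp only [hz] at h1 h2 h3 h4 h5
    exact h5 (d2 l v t h1 h2 h3 h4)

/-- from `QStruct` to relations -/
theorem d2c_zs {S : QStruct} {x : S.G}
    (h : (∀ u v, S.q x u = S.zero ∨ S.q x v = S.zero ∨ S.q x u = S.q x v) ∨
      ∃ u, S.q x u ≠ S.zero ∧ D2One S x u) :
    (∀ u v : Additive S.G, ZS S (Additive.ofMul x) u ∨ ZS S (Additive.ofMul x) v ∨
      ZS S (Additive.ofMul x) (u + v)) ∨ ∃ u, ¬ ZS S (Additive.ofMul x) u ∧
      ∀ l v t, ZS S (Additive.ofMul x) l → ZS S (Additive.ofMul x) (u + v) →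
      ZS S l v → ZS S (Additive.ofMul x + l) t → ZS S (Additive.ofMul x) t := by
  rcases h with h | ⟨u, hu, h⟩
  · left
    intro u v
    rcases h (Additive.toMul u) (Additive.toMul v) with h | h | h
    · exact Or.inl h
    · exact Or.inr (Or.inl h)
    · exact Or.inr (Or.inr ((S.qs3 _ _ _).1 h))
  · right
    refine ⟨Additive.ofMul u, fun h' => hu h', fun l v t h1 h2 h3 h4 => ?_⟩
    refine h (Additive.toMul l) (Additive.toMul v) (Additive.toMul t) h1 ?_ h3 ?_
    · exact ((S.qs3 _ _ _).2 h2).symm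
    · have h5 : S.q (x * Additive.toMul l) (Additive.toMul t) = S.zero := h4
      rw [mul_comm]
      exact h5

/-- **one step** -/
theorem stepc (S : QStruct) (hf : Finite S.G) (hneg : S.neg = 1)
    (hD : (∃ g : S.G, g ≠ 1) → HasD2c S)
    (hR : ∀ P, IsRetract S P → Nat.card P.G < Nat.card S.G → ElemType P)
    (hK : ∀ P, IsPrimeKer S P → ElemType P) (hP : ∀ P, IsPfister S P → ElemType P) :
    ElemType S := by
  by_cases hne : ∃ g : S.G, g ≠ 1
  swap
  · push Not at hne
    apply ElemType.L0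
    have hs : Subsingleton S.G := ⟨fun a b => by rw [hne a, hne b]⟩
    exact Nat.card_unique
  obtain ⟨x, hm, hd⟩ := hD hne
  have hfA : Finite (Additive S.G) := hf
  have cardF : ∀ (F : Submodule (ZMod 2) (Additive S.G)) (T : QStruct), F ≠ ⊤ →
      QOf (Rs (ZS S) F) T → Nat.card T.G < Nat.card S.G := by
    rintro F T hF ⟨-, e, -⟩
    obtain ⟨w, hw⟩ : ∃ w, w ∉ F := by
      by_contra hcon
      push Not at hcon
      exact hF (eq_top_iff.2 fun v _ => hcon v)
    calc Nat.card T.G = Nat.card F := (Nat.card_congr e.toEquiv).symm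
      _ < Nat.card (Additive S.G) := card_lt_of F hw
      _ = Nat.card S.G := rfl
  refine topZc (lzs S hneg) (x := Additive.ofMul x) ?_ ?_ ?_ (fun h => hm.1 h) ?_ (d2c_zs hd) S
    (qof S hneg)
  · intro F hF hR' T hT
    exact hR T (isRetract_of hR' hT) (cardF F T hF hT)
  · intro φ hφ T hT
    exact hK T (isPrimeKer_of hφ hT)
  · intro y hy W _ _ _ ZW π hL hP' T hT
    exact hP T (isPfister_of hy hP' hT)
  · intro v hv
    exact hm.2 (Additive.toMul v) (fun h => hv h)

/-- in a structure of elementary type the condition holds at every element of minimal rank -/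
theorem d2c_of_elem {S : QStruct} (hE : ElemType S) (hf : Finite S.G) (hneg : S.neg = 1) {x : S.G}
    (hx : MinRk S x) : (∀ u v, S.q x u = S.zero ∨ S.q x v = S.zero ∨ S.q x u = S.q x v) ∨
      ∃ u, S.q x u ≠ S.zero ∧ D2One S x u :=
  d2c_of (d2_of_elem hE hf hneg x hx) (w_of_elem hE hf hneg x hx)

theorem exists_minRk {S : QStruct} (hf : Finite S.G) (hne : ∃ g : S.G, g ≠ 1) :
    ∃ x, MinRk S x := by
  obtain ⟨x, x0, hx⟩ := Set.Finite.exists_maximalFor
    (fun v : S.G => Nat.card {w : S.G // S.q v w = S.zero}) {v : S.G | v ≠ 1} (Set.toFinite _) hne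
  refine ⟨x, x0, fun v hv => ?_⟩
  rcases le_total (Nat.card {w : S.G // S.q v w = S.zero})
    (Nat.card {w : S.G // S.q x w = S.zero}) with h | h
  · exact h
  · exact hx hv h

theorem hasD2c_of_elem {S : QStruct} (hE : ElemType S) (hf : Finite S.G) (hneg : S.neg = 1)
    (hne : ∃ g : S.G, g ≠ 1) : HasD2c S := by
  obtain ⟨x, hx⟩ := exists_minRk hf hne
  exact ⟨x, hx, d2c_of_elem hE hf hneg hx⟩

/-- **one step, equivalence** -/
theorem stepc_iff (S : QStruct) (hf : Finite S.G) (hneg : S.neg = 1) :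
    ElemType S ↔ ((∃ g : S.G, g ≠ 1) → HasD2c S) ∧
      (∀ P, IsRetract S P → Nat.card P.G < Nat.card S.G → ElemType P) ∧
      (∀ P, IsPrimeKer S P → ElemType P) ∧ ∀ P, IsPfister S P → ElemType P :=
  ⟨fun h => ⟨hasD2c_of_elem h hf hneg, fun _ hP _ => pres_retract h hf hneg hP,
    fun P hP => p2_proof S P h hf hneg hP, fun P hP => p1_proof S P h hf hneg hP⟩,
    fun h => stepc S hf hneg h.1 h.2.1 h.2.2.1 h.2.2.2⟩

/-- **closed classes** -/
theorem classc_iff {𝒞 : QStruct → Prop} (hC : Closed 𝒞) :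
    (∀ S, 𝒞 S → ElemType S) ↔ ∀ S, 𝒞 S → (∃ g : S.G, g ≠ 1) → HasD2c S := by
  constructor
  · intro h S hS hne
    obtain ⟨hf, hneg⟩ := hC.fin S hS
    exact hasD2c_of_elem (h S hS) hf hneg hne
  · intro h
    have key : ∀ n : ℕ, ∀ S, 𝒞 S → Nat.card S.G = n → ElemType S := by
      intro n
      induction n using Nat.strong_induction_on with
      | _ n ih =>
        intro S hS hn
        obtain ⟨hf, hneg⟩ := hC.fin S hS
        have hlt : ∀ T, 𝒞 T → Nat.card T.G < Nat.card S.G → ElemType T := by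
          intro T hT hc
          exact ih _ (by rw [← hn]; exact hc) T hT rfl
        refine stepc S hf hneg (h S hS) (fun P hP hc => hlt P (hC.ret S P hS hP) hc)
          (fun P hP => hlt P (hC.ker S P hS hP) ?_) (fun P hP => hlt P (hC.pf S P hS hP) ?_)
        · obtain ⟨-, φ, ι, ⟨⟨v, hv⟩, -⟩, hι, hφ, -⟩ := hP
          have h1 : ∀ a, ι a ≠ v := fun a ha => hv ((hφ v).2 ⟨a, ha⟩)
          have := Fintype.ofFinite S.G
          have hfP : Finite P.G := Finite.of_injective ι hι
          have := Fintype.ofFinite P.G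
          rw [Nat.card_eq_fintype_card, Nat.card_eq_fintype_card]
          exact Fintype.card_lt_of_injective_not_surjective ι hι fun hs => by
            obtain ⟨a, ha⟩ := hs v
            exact h1 a ha
        · obtain ⟨hn', y, hy, π, hπ, hker, -⟩ := hP
          have hfP : Finite P.G := Finite.of_surjective π hπ
          have := Fintype.ofFinite S.G
          have := Fintype.ofFinite P.G
          rw [Nat.card_eq_fintype_card, Nat.card_eq_fintype_card]
          refine Fintype.card_lt_of_surjective_not_injective π hπ fun hinj => hy ?_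
          apply hinj
          rw [map_one, hker]
          have := S.qs1 y
          rwa [hneg, one_mul] at this
    exact fun S hS => key _ S hS rfl

/-- **derived structures** -/
theorem elem_iff_d2c {S : QStruct} (hf : Finite S.G) (hneg : S.neg = 1) :
    ElemType S ↔ ∀ T, Derived S T → (∃ g : T.G, g ≠ 1) → HasD2c T := by
  rw [← classc_iff (derived_closed hf hneg)]
  exact ⟨fun h T hT => derived_elem p1_proof p2_proof hf hneg h hT, fun h => h S Derived.self⟩

/-- **the conjecture** -/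
theorem etcc_iff : (∀ S : QStruct, Finite S.G → S.neg = 1 → ElemType S) ↔
    ∀ S : QStruct, Finite S.G → S.neg = 1 → (∃ g : S.G, g ≠ 1) → HasD2c S := by
  have h := classc_iff all_closed
  constructor
  · intro h1 S h2 h3
    exact h.1 (fun T hT => h1 T hT.1 hT.2) S ⟨h2, h3⟩
  · intro h1 S h2 h3
    exact h.2 (fun T hT => h1 T hT.1 hT.2) S ⟨h2, h3⟩

end Pool.Agent.ETCD2
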