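import Pool.Agent.ETCD2.Step
import Pool.Agent.ETCD2.D2g

/-!
The elementary type conjecture for `-1 = 1` from (D2) at ONE element `x` of minimal rank and ONE
quaternion `q (x, u)` (Theorem D2c: helpers 32, 58, 62, 53, 93; this file: helper24).
-/

set_option autoImplicit false
set_option linter.unusedSectionVars false

namespace Pool.Agent.ETCD2

open QS Pool.Agent.RFT Pool.Agent.ETG Pool.Agent.RFN Pool.Agent.REG10 Pool.Agent.AST
open Pool.Agent.ETCLH Pool.Agent.ETCT
open Pool.Agent.Helper58.PLine (QData)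
open Pool.Agent.ETCP (C)

/-- (D2) at `x` and the quaternion `c = q (x, u)`: if `l ∈ V_x` and `q (l, v) = 0` for some `v`
with `q (x, v) = c`, then `q (x, t) ∈ {0, c}` for all `t ∈ V_{lx}` -/
def D2c (S : QStruct) (x u : S.G) : Prop := ∀ l v t : S.G, S.q x l = S.zero →
  S.q x v = S.q x u → S.q l v = S.zero → S.q (l * x) t = S.zero →
    S.q x t = S.zero ∨ S.q x t = S.q x u

/-- `x` is in the radical, or (D2) holds at `x` and some nonzero quaternion of `q (x, G)` -/
def GoodX (S : QStruct) (x : S.G) : Prop :=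
  (∀ u, S.q x u = S.zero) ∨ ∃ u, S.q x u ≠ S.zero ∧ D2c S x u

/-- some `x` of minimal rank is good -/
def HasG (S : QStruct) : Prop := ∃ x, MinRk S x ∧ GoodX S x

/-- relation form -/
theorem topZg {V : Type} [AddCommGroup V] [Module (ZMod 2) V] [Finite V] {Z : V → V → Prop}
    (hZ : LZ Z) (hr : RetET Z) (hk : KerET Z) (hp : PfET Z) {x : V} (x0 : x ≠ 0)
    (mr : ∀ v, v ≠ 0 → Nat.card {w // Z v w} ≤ Nat.card {w // Z x w})
    (d2 : (∀ u, Z x u) ∨ ∃ u, ¬ Z x u ∧ ∀ l v t, Z x l → Z x (u + v) →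
      Z l v → Z (x + l) t → Z x t ∨ Z x (t + u)) : ETZ Z := by
  by_contra hET
  have M := mn' hZ hr hk hET
  have hz : ∀ a b, C (dat hZ) a b ↔ Z a b := dat_zero hZ
  have hcard : ∀ v : V, Nat.card ((dat hZ).ann v) = Nat.card {w // Z v w} := fun v =>
    Nat.card_congr ((Equiv.refl V).subtypeEquiv fun w => hz v w)
  rcases d2 with d2 | ⟨u, hu, d2⟩
  · exact x0 (M.r1 x fun u v => by simp only [hz]; exact Or.inl (d2 u))
  · have hu' : ¬ C (dat hZ) x u := fun h => hu ((hz _ _).1 h)
    obtain ⟨l, v, t, h1, h2, h3, h4, h5, h6⟩ := no_d2g M.he (x := x) (fun v hv => by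
      rw [hcard, hcard]; exact mr v hv) (fun u hu => k4' hZ M hp x0 hu) hu'
    simp only [hz] at h1 h2 h3 h4 h5 h6
    rcases d2 l v t h1 h2 h3 h4 with h | h
    · exact h5 h
    · exact h6 h

/-- from `QStruct` to relations -/
theorem d2g_zs {S : QStruct} {x : S.G} (h : GoodX S x) :
    (∀ u : Additive S.G, ZS S (Additive.ofMul x) u) ∨ ∃ u, ¬ ZS S (Additive.ofMul x) u ∧
      ∀ l v t, ZS S (Additive.ofMul x) l → ZS S (Additive.ofMul x) (u + v) →
      ZS S l v → ZS S (Additive.ofMul x + l) t → ZS S (Additive.ofMul x) t ∨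
        ZS S (Additive.ofMul x) (t + u) := by
  rcases h with h | ⟨u, hu, h⟩
  · left
    exact fun u => h (Additive.toMul u)
  · right
    refine ⟨Additive.ofMul u, fun h' => hu h', fun l v t h1 h2 h3 h4 => ?_⟩
    have h5 : S.q (x * Additive.toMul l) (Additive.toMul t) = S.zero := h4
    rcases h (Additive.toMul l) (Additive.toMul v) (Additive.toMul t) h1
      ((S.qs3 _ _ _).2 h2).symm h3 (by rw [mul_comm]; exact h5) with h | h
    · exact Or.inl h
    · exact Or.inr ((S.qs3 _ _ _).1 h)

/-- **one step** -/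
theorem stepg (S : QStruct) (hf : Finite S.G) (hneg : S.neg = 1)
    (hD : (∃ g : S.G, g ≠ 1) → HasG S)
    (hR : ∀ P, IsRetract S P → Nat.card P.G < Nat.card S.G → ElemType P)
    (hK : ∀ P, IsPrimeKer S P → ElemType P) (hP : ∀ P, IsPfister S P → ElemType P) :
    ElemType S := by
  by_cases hne : ∃ g : S.G, g ≠ 1
  swap
  · push Not at hne
    apply ElemType.L0
    have hs : Subsingleton S.G := ⟨fun a b => by rw [hne a, hne b]⟩
    exact Nat.card_unique
  obtain ⟨x, hm, hd⟩ := hD hne
  have hfA : Finite (Additive S.G) := hf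
  have cardF : ∀ (F : Submodule (ZMod 2) (Additive S.G)) (T : QStruct), F ≠ ⊤ →
      QOf (Rs (ZS S) F) T → Nat.card T.G < Nat.card S.G := by
    rintro F T hF ⟨-, e, -⟩
    obtain ⟨w, hw⟩ : ∃ w, w ∉ F := by
      by_contra hcon
      push Not at hcon
      exact hF (eq_top_iff.2 fun v _ => hcon v)
    calc Nat.card T.G = Nat.card F := (Nat.card_congr e.toEquiv).symm
      _ < Nat.card (Additive S.G) := card_lt_of F hw
      _ = Nat.card S.G := rfl
  refine topZg (lzs S hneg) (x := Additive.ofMul x) ?_ ?_ ?_ (fun h => hm.1 h) ?_ (d2g_zs hd) S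
    (qof S hneg)
  · intro F hF hR' T hT
    exact hR T (isRetract_of hR' hT) (cardF F T hF hT)
  · intro φ hφ T hT
    exact hK T (isPrimeKer_of hφ hT)
  · intro y hy W _ _ _ ZW π hL hP' T hT
    exact hP T (isPfister_of hy hP' hT)
  · intro v hv
    exact hm.2 (Additive.toMul v) (fun h => hv h)

/-- in a structure of elementary type the condition holds at every element of minimal rank -/
theorem goodX_of_elem {S : QStruct} (hE : ElemType S) (hf : Finite S.G) (hneg : S.neg = 1) {x : S.G}
    (hx : MinRk S x) : GoodX S x := by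
  by_cases h : ∀ u, S.q x u = S.zero
  · exact Or.inl h
  · push Not at h
    obtain ⟨u, hu⟩ := h
    refine Or.inr ⟨u, hu, fun l v t h1 h2 h3 h4 => ?_⟩
    rcases d2_of_elem hE hf hneg x hx l v t h1 h3 h4 with h | h | h
    · exact absurd (h2.symm.trans h) hu
    · exact Or.inl h
    · exact Or.inr (h.symm.trans h2)

theorem exists_minRk {S : QStruct} (hf : Finite S.G) (hne : ∃ g : S.G, g ≠ 1) :
    ∃ x, MinRk S x := by
  obtain ⟨x, x0, hx⟩ := Set.Finite.exists_maximalFor
    (fun v : S.G => Nat.card {w : S.G // S.q v w = S.zero}) {v : S.G | v ≠ 1} (Set.toFinite _) hne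
  refine ⟨x, x0, fun v hv => ?_⟩
  rcases le_total (Nat.card {w : S.G // S.q v w = S.zero})
    (Nat.card {w : S.G // S.q x w = S.zero}) with h | h
  · exact h
  · exact hx hv h

theorem hasG_of_elem {S : QStruct} (hE : ElemType S) (hf : Finite S.G) (hneg : S.neg = 1)
    (hne : ∃ g : S.G, g ≠ 1) : HasG S := by
  obtain ⟨x, hx⟩ := exists_minRk hf hne
  exact ⟨x, hx, goodX_of_elem hE hf hneg hx⟩

/-- **one step, equivalence** -/
theorem stepg_iff (S : QStruct) (hf : Finite S.G) (hneg : S.neg = 1) :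
    ElemType S ↔ ((∃ g : S.G, g ≠ 1) → HasG S) ∧
      (∀ P, IsRetract S P → Nat.card P.G < Nat.card S.G → ElemType P) ∧
      (∀ P, IsPrimeKer S P → ElemType P) ∧ ∀ P, IsPfister S P → ElemType P :=
  ⟨fun h => ⟨hasG_of_elem h hf hneg, fun _ hP _ => pres_retract h hf hneg hP,
    fun P hP => p2_proof S P h hf hneg hP, fun P hP => p1_proof S P h hf hneg hP⟩,
    fun h => stepg S hf hneg h.1 h.2.1 h.2.2.1 h.2.2.2⟩

/-- **closed classes** -/
theorem classg_iff {𝒞 : QStruct → Prop} (hC : Closed 𝒞) :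
    (∀ S, 𝒞 S → ElemType S) ↔ ∀ S, 𝒞 S → (∃ g : S.G, g ≠ 1) → HasG S := by
  constructor
  · intro h S hS hne
    obtain ⟨hf, hneg⟩ := hC.fin S hS
    exact hasG_of_elem (h S hS) hf hneg hne
  · intro h
    have key : ∀ n : ℕ, ∀ S, 𝒞 S → Nat.card S.G = n → ElemType S := by
      intro n
      induction n using Nat.strong_induction_on with
      | _ n ih =>
        intro S hS hn
        obtain ⟨hf, hneg⟩ := hC.fin S hS
        have hlt : ∀ T, 𝒞 T → Nat.card T.G < Nat.card S.G → ElemType T := by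
          intro T hT hc
          exact ih _ (by rw [← hn]; exact hc) T hT rfl
        refine stepg S hf hneg (h S hS) (fun P hP hc => hlt P (hC.ret S P hS hP) hc)
          (fun P hP => hlt P (hC.ker S P hS hP) ?_) (fun P hP => hlt P (hC.pf S P hS hP) ?_)
        · obtain ⟨-, φ, ι, ⟨⟨v, hv⟩, -⟩, hι, hφ, -⟩ := hP
          have h1 : ∀ a, ι a ≠ v := fun a ha => hv ((hφ v).2 ⟨a, ha⟩)
          have := Fintype.ofFinite S.G
          have hfP : Finite P.G := Finite.of_injective ι hι
          have := Fintype.ofFinite P.G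
          rw [Nat.card_eq_fintype_card, Nat.card_eq_fintype_card]
          exact Fintype.card_lt_of_injective_not_surjective ι hι fun hs => by
            obtain ⟨a, ha⟩ := hs v
            exact h1 a ha
        · obtain ⟨hn', y, hy, π, hπ, hker, -⟩ := hP
          have hfP : Finite P.G := Finite.of_surjective π hπ
          have := Fintype.ofFinite S.G
          have := Fintype.ofFinite P.G
          rw [Nat.card_eq_fintype_card, Nat.card_eq_fintype_card]
          refine Fintype.card_lt_of_surjective_not_injective π hπ fun hinj => hy ?_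
          apply hinj
          rw [map_one, hker]
          have := S.qs1 y
          rwa [hneg, one_mul] at this
    exact fun S hS => key _ S hS rfl

/-- **derived structures** -/
theorem elem_iff_g {S : QStruct} (hf : Finite S.G) (hneg : S.neg = 1) :
    ElemType S ↔ ∀ T, Derived S T → (∃ g : T.G, g ≠ 1) → HasG T := by
  rw [← classg_iff (derived_closed hf hneg)]
  exact ⟨fun h T hT => derived_elem p1_proof p2_proof hf hneg h hT, fun h => h S Derived.self⟩

/-- **the conjecture** -/
theorem etcg_iff : (∀ S : QStruct, Finite S.G → S.neg = 1 → ElemType S) ↔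
    ∀ S : QStruct, Finite S.G → S.neg = 1 → (∃ g : S.G, g ≠ 1) → HasG S := by
  have h := classg_iff all_closed
  constructor
  · intro h1 S h2 h3
    exact h.1 (fun T hT => h1 T hT.1 hT.2) S ⟨h2, h3⟩
  · intro h1 S h2 h3
    exact h.2 (fun T hT => h1 T hT.1 hT.2) S ⟨h2, h3⟩

end Pool.Agent.ETCD2
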