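import Pool.Agent.Lib_MP_d26ff6_al.Defs
import Pool.Agent.ETCD2.TopG

/-!
The elementary type conjecture for finite quaternionic structures with `-1 = 1` and condition (D2)
at one element and one quaternion.

DRAFT of the hand-in D2Theorem (not in `Results/` until the lead decides).
-/

namespace Pool.Agent.ETCD2.HandIn3

open QS

/-- `x ≠ 1` is of minimal rank: the group `V_x = {w : q (x, w) = 0}` has maximal order. -/
def MinRank (S : QStruct) (x : S.G) : Prop :=
  x ≠ 1 ∧ ∀ v : S.G, v ≠ 1 →
    Nat.card {w : S.G // S.q v w = S.zero} ≤ Nat.card {w : S.G // S.q x w = S.zero}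

/-- (D2) at `x`: if `q (x, k) = 0`, `q (k, a) = 0` and `q (k x, b) = 0`, then `q (x, a)` and
`q (x, b)` are not two different nonzero quaternions. -/
def D2 (S : QStruct) (x : S.G) : Prop :=
  ∀ k a b : S.G, S.q x k = S.zero → S.q k a = S.zero → S.q (k * x) b = S.zero →
    S.q x a = S.zero ∨ S.q x b = S.zero ∨ S.q x a = S.q x b

/-- (D2) at `x` and the quaternion `c = q (x, u)`: if `q (x, l) = 0`, `q (x, v) = c`, `q (l, v) = 0`
and `q (l x, t) = 0`, then `q (x, t) ∈ {0, c}`. -/
def D2At (S : QStruct) (x u : S.G) : Prop :=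
  ∀ l v t : S.G, S.q x l = S.zero → S.q x v = S.q x u → S.q l v = S.zero →
    S.q (l * x) t = S.zero → S.q x t = S.zero ∨ S.q x t = S.q x u

/-- `x` is good: `q (x, G) = {0}`, or (D2) holds at `x` and some nonzero `c ∈ q (x, G)`. -/
def Good (S : QStruct) (x : S.G) : Prop :=
  (∀ u, S.q x u = S.zero) ∨ ∃ u, S.q x u ≠ S.zero ∧ D2At S x u

/-- Some `x` of minimal rank is good. -/
def HasGood (S : QStruct) : Prop := ∃ x, MinRank S x ∧ Good S x

/-- `P` is a retract of `S` (with `-1 = 1`). -/
def Retract (S P : QStruct) : Prop :=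
  P.neg = 1 ∧ ∃ (ι : P.G →* S.G) (ρ : S.G →* P.G), (∀ a, ρ (ι a) = a) ∧
    (∀ a b, P.q a b = P.zero → S.q (ι a) (ι b) = S.zero) ∧
    ∀ a b, S.q a b = S.zero → P.q (ρ a) (ρ b) = P.zero

/-- `φ` is a prime functional: `φ ≠ 1`, and if `φ` is nontrivial on `V_x`, `V_y` and `V_{xy}`, then
it is nontrivial on `V_x ∩ V_y`. -/
def PrimeFunctional (S : QStruct) (φ : S.G →* Multiplicative (ZMod 2)) : Prop :=
  (∃ v, φ v ≠ 1) ∧ ∀ x y, (∃ v, S.q x v = S.zero ∧ φ v ≠ 1) →
    (∃ v, S.q y v = S.zero ∧ φ v ≠ 1) → (∃ v, S.q (x * y) v = S.zero ∧ φ v ≠ 1) →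
    ∃ v, S.q x v = S.zero ∧ S.q y v = S.zero ∧ φ v ≠ 1

/-- `P` (with `-1 = 1`) is the kernel of a prime functional of `S`, with the relation `q = 0`
of `S`. -/
def PrimeKernel (S P : QStruct) : Prop :=
  P.neg = 1 ∧ ∃ (φ : S.G →* Multiplicative (ZMod 2)) (ι : P.G →* S.G), PrimeFunctional S φ ∧
    Function.Injective ι ∧ (∀ g, φ g = 1 ↔ ∃ a, ι a = g) ∧
    ∀ a b, P.q a b = P.zero ↔ S.q (ι a) (ι b) = S.zero

/-- `P` (with `-1 = 1`) is a Pfister quotient of `S`: for some `x ≠ 1` its group is `G / V_x`, and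
`q (aV_x, bV_x) = 0` if and only if `q (a', b') = 0` for some `a' ∈ aV_x`, `b' ∈ bV_x`. -/
def PfisterQuotient (S P : QStruct) : Prop :=
  P.neg = 1 ∧ ∃ x : S.G, x ≠ 1 ∧ ∃ π : S.G →* P.G, Function.Surjective π ∧
    (∀ v, π v = 1 ↔ S.q x v = S.zero) ∧
    ∀ a b, P.q (π a) (π b) = P.zero ↔
      ∃ u v, S.q x u = S.zero ∧ S.q x v = S.zero ∧ S.q (a * u) (b * v) = S.zero

/-- The structures derived from `S` (`S` included) by iterating the three operations. -/
inductive Derived (S : QStruct) : QStruct → Prop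
  | self : Derived S S
  | ret (T P : QStruct) (h : Derived S T) (hP : Retract T P) : Derived S P
  | ker (T P : QStruct) (h : Derived S T) (hP : PrimeKernel T P) : Derived S P
  | pf (T P : QStruct) (h : Derived S T) (hP : PfisterQuotient T P) : Derived S P

theorem derived_iff {S T : QStruct} : Derived S T ↔ ETCD2.Derived S T := by
  constructor
  · intro h
    induction h with
    | self => exact ETCD2.Derived.self
    | ret T P _ hP ih => exact ETCD2.Derived.ret T P ih hP
    | ker T P _ hP ih => exact ETCD2.Derived.ker T P ih hP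
    | pf T P _ hP ih => exact ETCD2.Derived.pf T P ih hP
  · intro h
    induction h with
    | self => exact Derived.self
    | ret T P _ hP ih => exact Derived.ret T P ih hP
    | ker T P _ hP ih => exact Derived.ker T P ih hP
    | pf T P _ hP ih => exact Derived.pf T P ih hP

open Pool.Agent.ETCLH Pool.Agent.RFT Pool.Agent.ETG Pool.Agent.RFN Pool.Agent.REG10 Pool.Agent.AST Pool.Agent.ETCT in
/-- every `s` with `q (x, u) ∈ q (s, G)` has `q (x, s) ∈ {0, q (x, u)}` -/
theorem slots (S : QStruct) (hf : Finite S.G) (hneg : S.neg = 1) (x u : S.G)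
    (hm : MinRank S x) (hu : S.q x u ≠ S.zero) (hc : D2At S x u) (s r : S.G)
    (hs : S.q s r = S.q x u) : S.q x s = S.zero ∨ S.q x s = S.q x u := by
  have hfA : Finite (Additive S.G) := hf
  have hZ := lzs S hneg
  have hz : ∀ a b, ETCP.C (dat hZ) a b ↔ ZS S a b := dat_zero hZ
  have hcard : ∀ v : Additive S.G, Nat.card ((dat hZ).ann v) =
      Nat.card {w : S.G // S.q (Additive.toMul v) w = S.zero} := by
    intro v
    exact Nat.card_congr ((Equiv.refl S.G).subtypeEquiv fun w => hz v w)
  have he : (dat hZ).e = 0 := rfl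
  have hxx : S.q x x = S.zero := by
    have := S.qs1 x
    rwa [hneg, one_mul] at this
  obtain ⟨w, h1, h2⟩ := S.qs4 _ _ _ _ hs
  have h3 : S.q x (u * w) = S.zero := (S.qs3 _ _ _).1 h2
  have h4 : S.q w (s * x) = S.zero := by
    rw [← S.qs3, S.qs2 w s, S.qs2 w x, ← h1, hs, h2]
  have X : ETCD2.G1 (dat hZ) (Additive.ofMul x)
      ((dat hZ).q (Additive.ofMul x) (Additive.ofMul u)) :=
    { he := he
      cne := fun h => hu ((hz _ _).1 h)
      hw := ⟨_, rfl⟩
      H := by
        intro l v t e1 e2 e3 e4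
        have f1 : S.q x (Additive.toMul l) = S.zero := (hz _ _).1 e1
        have f2 : S.q x (Additive.toMul v * u) = S.zero := (hz _ _).1 (ETCP.q_eq_iff.1 e2)
        have f3 : S.q (Additive.toMul l) (Additive.toMul v) = S.zero := (hz _ _).1 e3
        have f4 : S.q (x * Additive.toMul l) (Additive.toMul t) = S.zero := (hz _ _).1 e4
        rcases hc _ _ (Additive.toMul t) f1 ((S.qs3 _ _ _).2 f2) f3
          (by rw [mul_comm]; exact f4) with h | h
        · exact Or.inl ((hz _ _).2 h)
        · exact Or.inr (ETCP.q_eq_iff.2 ((hz _ _).2 ((S.qs3 _ _ _).1 h))) }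
  have h3' : S.q x (w * u) = S.zero := by rw [mul_comm]; exact h3
  have key := X.main (fun v hv => by
      rw [hcard, hcard]
      exact hm.2 (Additive.toMul v) fun h => hv h)
    (w := Additive.ofMul w) (s := Additive.ofMul (s * x))
    (ETCP.q_eq_iff.2 ((hz _ _).2 h3')) ((hz _ _).2 h4)
  rcases key with h | h
  · left
    have h5 : S.q x (s * x) = S.zero := (hz _ _).1 h
    exact ((S.qs3 _ _ _).2 h5).trans hxx
  · right
    have h5 : S.q x (s * x * u) = S.zero := (hz _ _).1 (ETCP.q_eq_iff.1 h)
    have h6 : S.q x (s * x) = S.q x u := (S.qs3 _ _ _).2 h5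
    rw [← h6, mul_comm s x]
    exact (S.q_zero_mul hxx).symm

/-- Condition (D2) and elementary type, for finite structures with `-1 = 1`.
(1) `S` is of elementary type if and only if it is trivial or has a good element of minimal rank,
and its proper retracts, the kernels of its prime functionals and its Pfister quotients are of
elementary type.
(2) `S` is of elementary type if and only if every nontrivial structure derived from `S` by these
three operations has a good element of minimal rank.
(3) The elementary type conjecture for `-1 = 1` holds if and only if every nontrivial finite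
structure with `-1 = 1` has a good element of minimal rank.
(4) In a structure of elementary type (D2) holds at all elements of minimal rank.
(5) If `x` is of minimal rank and (D2) holds at `x` and `c = q (x, u) ≠ 0`, then
`q (x, s) ∈ {0, c}` for all `s` with `c ∈ q (s, G)`. -/
theorem result :
    (∀ S : QStruct, Finite S.G → S.neg = 1 →
      (ElemType S ↔ ((∃ g : S.G, g ≠ 1) → HasGood S) ∧
        (∀ P, Retract S P → Nat.card P.G < Nat.card S.G → ElemType P) ∧
        (∀ P, PrimeKernel S P → ElemType P) ∧ ∀ P, PfisterQuotient S P → ElemType P)) ∧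
    (∀ S : QStruct, Finite S.G → S.neg = 1 →
      (ElemType S ↔ ∀ T, Derived S T → (∃ g : T.G, g ≠ 1) → HasGood T)) ∧
    ((∀ S : QStruct, Finite S.G → S.neg = 1 → ElemType S) ↔
      ∀ S : QStruct, Finite S.G → S.neg = 1 → (∃ g : S.G, g ≠ 1) → HasGood S) ∧
    (∀ S : QStruct, Finite S.G → S.neg = 1 → ElemType S → ∀ x, MinRank S x → D2 S x) ∧
    (∀ S : QStruct, Finite S.G → S.neg = 1 → ∀ x u, MinRank S x → S.q x u ≠ S.zero →
      D2At S x u → ∀ s r, S.q s r = S.q x u → S.q x s = S.zero ∨ S.q x s = S.q x u) := by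
  refine ⟨fun S hf hneg => ETCD2.stepg_iff S hf hneg, fun S hf hneg => ?_, ETCD2.etcg_iff,
    fun S hf hneg h => ETCD2.d2_of_elem h hf hneg, slots⟩
  rw [ETCD2.elem_iff_g hf hneg]
  exact forall_congr' fun T => imp_congr_left derived_iff.symm

end Pool.Agent.ETCD2.HandIn3
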