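import Pool.Agent.ETCW2.W2

/-!
Note 2573 (helper5), THEOREM L: `D2` holds at `x` when `q (V_x, V_x)` has at most one nonzero value.
Part A: `rad V_x = {0, x}` (helper24).
-/

set_option autoImplicit false
set_option linter.unusedSectionVars false
set_option linter.unusedVariables false

namespace Pool.Agent.ETCD2.TL

open Pool.Agent.ETCW2

variable {V B : Type} [AddCommGroup V] [Module (ZMod 2) V] [AddCommGroup B] [Module (ZMod 2) B]

/-- the situation of Theorem L -/
structure LS (q : V →ₗ[ZMod 2] V →ₗ[ZMod 2] B) (K Z : Submodule (ZMod 2) V) (β : B) : Prop where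
  fr : Fr q K Z
  b0 : β ≠ 0
  kk : ∀ k ∈ K, ∀ l ∈ K, q k l = 0 ∨ q k l = β
  rad : ∀ k ∈ K, k ∉ Z → ∃ l ∈ K, q k l = β
  nb : ∀ z ∈ Z, ∀ v, q z v ≠ β
  hN : ∀ k ∈ K, k ∉ Z → ∀ a b, q k a = 0 → q k b = 0 → a ∉ K → b ∉ K → a + b ∈ K

section
variable {q : V →ₗ[ZMod 2] V →ₗ[ZMod 2] B} {K Z : Submodule (ZMod 2) V} {β : B}

/-- equality modulo `β` -/
def M (β a b : B) : Prop := a = b ∨ a = b + β

theorem M.rfl' {a : B} : M β a a := Or.inl rfl

theorem M.of {a b : B} (h : a = b) : M β a b := Or.inl h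

theorem M.symm {a b : B} (h : M β a b) : M β b a := by
  rcases h with h | h
  · exact Or.inl h.symm
  · right
    rw [h, add_assoc, two, add_zero]

theorem M.trans {a b c : B} (h : M β a b) (h' : M β b c) : M β a c := by
  rcases h with rfl | rfl <;> rcases h' with rfl | rfl
  · exact Or.inl rfl
  · exact Or.inr rfl
  · exact Or.inr rfl
  · left
    rw [add_assoc, two, add_zero]

theorem M.add {a b c d : B} (h : M β a b) (h' : M β c d) : M β (a + c) (b + d) := by
  rcases h with rfl | rfl <;> rcases h' with rfl | rfl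
  · exact Or.inl rfl
  · right; abel
  · right; abel
  · left
    have : b + β + (d + β) = b + d + (β + β) := by abel
    rw [this, two, add_zero]

theorem LS.zv (L : LS q K Z β) {a b : V} (h : M β (q a b) 0) : q a b = 0 ∨ q a b = β := by
  rcases h with h | h
  · exact Or.inl h
  · exact Or.inr (by rw [h, zero_add])

theorem LS.mk0 (L : LS q K Z β) {k l : V} (hk : k ∈ K) (hl : l ∈ K) : M β (q k l) 0 := by
  rcases L.kk k hk l hl with h | h
  · exact Or.inl h
  · exact Or.inr (by rw [h, zero_add])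

/-- elements of `Z` act injectively modulo `K`, even modulo `β` -/
theorem LS.inK (L : LS q K Z β) {z v : V} (hz : z ∈ Z) (h0 : z ≠ 0) (h : M β (q z v) 0) :
    v ∈ K := by
  rcases L.zv h with h | h
  · exact (L.fr.ann z hz h0 v).1 h
  · exact absurd h (L.nb z hz v)

theorem LS.inK' (L : LS q K Z β) {z v w : V} (hz : z ∈ Z) (h0 : z ≠ 0) (h : M β (q z v) (q z w)) :
    v + w ∈ K := by
  apply L.inK hz h0
  rw [map_add]
  exact (h.add M.rfl').trans (M.of (two _))

/-- `k` kills at most one class, modulo `β` -/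
theorem LS.hN' (L : LS q K Z β) {k a b : V} (hk : k ∈ K) (hkZ : k ∉ Z) (ha : M β (q k a) 0)
    (hb : M β (q k b) 0) (na : a ∉ K) (nb : b ∉ K) : a + b ∈ K := by
  obtain ⟨l, hl, e⟩ := L.rad k hk hkZ
  have adj : ∀ c, M β (q k c) 0 → c ∉ K → ∃ c', q k c' = 0 ∧ c' ∉ K ∧ c + c' ∈ K := by
    intro c hc nc
    rcases L.zv hc with h | h
    · exact ⟨c, h, nc, by rw [ZModModule.add_self]; exact K.zero_mem⟩
    · refine ⟨c + l, by rw [map_add, h, e, two], fun h' => nc ?_, ?_⟩
      · have := K.add_mem h' hl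
        rwa [add_assoc, ZModModule.add_self, add_zero] at this
      · rw [← add_assoc, ZModModule.add_self, zero_add]; exact hl
  obtain ⟨a', a1, a2, a3⟩ := adj a ha na
  obtain ⟨b', b1, b2, b3⟩ := adj b hb nb
  have h1 := L.hN k hk hkZ a' b' a1 b1 a2 b2
  have h2 := K.add_mem (K.add_mem a3 b3) h1
  have e2 : a + a' + (b + b') + (a' + b') = a + b + ((a' + a') + (b' + b')) := by abel
  rw [e2, ZModModule.add_self, ZModModule.add_self, add_zero, add_zero] at h2
  exact h2

/-- the elements of `K` killing `v` modulo `β` -/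
def LA (q : V →ₗ[ZMod 2] V →ₗ[ZMod 2] B) (K : Submodule (ZMod 2) V) (β : B) (v : V) (k : V) :
    Prop := k ∈ K ∧ M β (q k v) 0

theorem LA.add {v k k' : V} (h : LA q K β v k) (h' : LA q K β v k') : LA q K β v (k + k') := by
  refine ⟨K.add_mem h.1 h'.1, ?_⟩
  rw [addl]
  exact (h.2.add h'.2).trans (M.of (add_zero _))

theorem LS.LA_congr (L : LS q K Z β) {v v' k : V} (hv : v + v' ∈ K) (h : LA q K β v k) :
    LA q K β v' k := by
  refine ⟨h.1, ?_⟩
  have e : v' = v + (v + v') := by rw [← add_assoc, ZModModule.add_self, zero_add]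
  rw [e, map_add]
  exact (h.2.add (L.mk0 h.1 hv)).trans (M.of (add_zero _))

/-- X-linkage -/
theorem LS.xl (L : LS q K Z β) {x : V} (hx : ∀ z ∈ Z, z = 0 ∨ z = x) {k k' v v' : V} (hk : k ∈ K)
    (hk' : k' ∈ K) (h : M β (q k v) (q k' v')) : ∃ s, q k s = q k' s ∧ M β (q k s) (q k v) := by
  -- exact equality
  have exact' : ∀ v v', q k v = q k' v' → ∃ s, q k s = q k' s ∧ q k s = q k v := by
    intro v v' h
    by_cases hk0 : k = 0
    · refine ⟨0, by rw [map_zero, map_zero], ?_⟩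
      simp only [hk0, map_zero, LinearMap.zero_apply]
    · obtain ⟨y, h1, h2⟩ := L.fr.link k hk hk0 k' v v' h
      exact ⟨y, by rw [h1, h2], h1⟩
  rcases h with h | h
  · obtain ⟨s, h1, h2⟩ := exact' v v' h
    exact ⟨s, h1, M.of h2⟩
  by_cases hkZ : k ∈ Z
  · by_cases hk'Z : k' ∈ Z
    · exfalso
      rcases hx k hkZ with rfl | rfl
      · apply L.nb k' hk'Z v'
        rw [map_zero, LinearMap.zero_apply] at h
        exact (eo h.symm)
      · rcases hx k' hk'Z with rfl | rfl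
        · apply L.nb k hkZ v
          rw [map_zero, LinearMap.zero_apply, zero_add] at h
          exact h
        · apply L.nb k' hkZ (v + v')
          rw [map_add, h, add_assoc, add_comm β, ← add_assoc, two, zero_add]
    · obtain ⟨l, hl, e⟩ := L.rad k' hk' hk'Z
      obtain ⟨s, h1, h2⟩ := exact' v (v' + l) (by rw [map_add, e, h])
      exact ⟨s, h1, M.of h2⟩
  · obtain ⟨l, hl, e⟩ := L.rad k hk hkZ
    obtain ⟨s, h1, h2⟩ := exact' (v + l) v' (by
      rw [map_add, e, h, add_assoc, two, add_zero])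
    refine ⟨s, h1, Or.inr ?_⟩
    rw [h2, map_add, e]

/-- two prescribed values of the form -/
theorem LS.tv (L : LS q K Z β) {a b : V} (ha : a ∈ K) (hb : b ∈ K) (a0 : a ∉ Z) (b0 : b ∉ Z)
    (ab : a + b ∉ Z) (s t : ZMod 2) : ∃ l ∈ K, q a l = s • β ∧ q b l = t • β := by
  -- `(0, 1)`
  have h01 : ∀ a b : V, a ∈ K → b ∈ K → b ∉ Z → a + b ∉ Z →
      ∃ l ∈ K, q a l = 0 ∧ q b l = β := by
    intro a b ha hb b0 ab
    obtain ⟨l1, hl1, e1⟩ := L.rad b hb b0
    obtain ⟨l2, hl2, e2⟩ := L.rad (a + b) (K.add_mem ha hb) ab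
    rw [addl] at e2
    rcases L.kk a ha l1 hl1 with h1 | h1
    · exact ⟨l1, hl1, h1, e1⟩
    · rcases L.kk a ha l2 hl2 with h2 | h2
      · rw [h2, zero_add] at e2
        exact ⟨l2, hl2, h2, e2⟩
      · have h3 : q b l2 = 0 := by
          rw [h2] at e2
          have : β + (β + q b l2) = β + β := by rw [e2]
          rwa [← add_assoc, two, zero_add] at this
        refine ⟨l1 + l2, K.add_mem hl1 hl2, ?_, ?_⟩
        · rw [map_add, h1, h2, two]
        · rw [map_add, e1, h3, add_zero]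
  obtain ⟨l1, m1, f1, g1⟩ := h01 a b ha hb b0 ab
  obtain ⟨l2, m2, f2, g2⟩ := h01 b a hb ha a0 (by rwa [add_comm])
  rcases z2 s with rfl | rfl <;> rcases z2 t with rfl | rfl
  · exact ⟨0, K.zero_mem, by rw [map_zero, zero_smul], by rw [map_zero, zero_smul]⟩
  · exact ⟨l1, m1, by rw [f1, zero_smul], by rw [g1, one_smul]⟩
  · exact ⟨l2, m2, by rw [g2, one_smul], by rw [f2, zero_smul]⟩
  · exact ⟨l1 + l2, K.add_mem m1 m2, by rw [map_add, f1, g2, zero_add, one_smul],
      by rw [map_add, g1, f2, add_zero, one_smul]⟩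

/-- a representative of the class of `v` with two prescribed values on `LA` -/
theorem LS.rep (L : LS q K Z β) {v a b : V} (ha : LA q K β v a) (hb : LA q K β v b) (a0 : a ∉ Z)
    (b0 : b ∉ Z) (ab : a + b ∉ Z) (s t : ZMod 2) :
    ∃ v', v + v' ∈ K ∧ q a v' = s • β ∧ q b v' = t • β := by
  have val : ∀ c, LA q K β v c → ∃ r : ZMod 2, q c v = r • β := by
    intro c hc
    rcases L.zv hc.2 with h | h
    · exact ⟨0, by rw [h, zero_smul]⟩
    · exact ⟨1, by rw [h, one_smul]⟩
  obtain ⟨r1, e1⟩ := val a ha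
  obtain ⟨r2, e2⟩ := val b hb
  obtain ⟨l, hl, f1, f2⟩ := L.tv ha.1 hb.1 a0 b0 ab (s + r1) (t + r2)
  refine ⟨v + l, by rw [← add_assoc, ZModModule.add_self, zero_add]; exact hl, ?_, ?_⟩
  · rw [map_add, e1, f1, ← add_smul]
    congr 1
    rw [add_comm s, ← add_assoc, CharTwo.add_self_eq_zero, zero_add]
  · rw [map_add, e2, f2, ← add_smul]
    congr 1
    rw [add_comm t, ← add_assoc, CharTwo.add_self_eq_zero, zero_add]

/-- a representative with `a v' = β` -/
theorem LS.rep1 (L : LS q K Z β) {v a : V} (ha : LA q K β v a) (a0 : a ∉ Z) :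
    ∃ v', v + v' ∈ K ∧ q a v' = β := by
  rcases L.zv ha.2 with h | h
  · obtain ⟨l, hl, e⟩ := L.rad a ha.1 a0
    refine ⟨v + l, by rw [← add_assoc, ZModModule.add_self, zero_add]; exact hl, ?_⟩
    rw [map_add, h, e, zero_add]
  · exact ⟨v, by rw [ZModModule.add_self]; exact K.zero_mem, h⟩

/-- the perp of `LA v` in `K` -/
def U (q : V →ₗ[ZMod 2] V →ₗ[ZMod 2] B) (K : Submodule (ZMod 2) V) (β : B) (v : V) (k : V) :
    Prop := k ∈ K ∧ ∀ a, LA q K β v a → q k a = 0

theorem LS.U_congr (L : LS q K Z β) {v v' k : V} (hv : v + v' ∈ K) (h : U q K β v k) :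
    U q K β v' k :=
  ⟨h.1, fun a ha => h.2 a (L.LA_congr (by rw [add_comm]; exact hv) ha)⟩

theorem U.add {v k k' : V} (h : U q K β v k) (h' : U q K β v k') : U q K β v (k + k') :=
  ⟨K.add_mem h.1 h'.1, fun a ha => by rw [addl, h.2 a ha, h'.2 a ha, add_zero]⟩

theorem LS.nk {v : V} (hv : v ∉ K) {κ : V} (hκ : κ ∈ K) : v + κ ∉ K := by
  intro h
  apply hv
  have := K.add_mem h hκ
  rwa [add_assoc, ZModModule.add_self, add_zero] at this

/-- Lemma 4 -/
theorem LS.l4 (L : LS q K Z β) {v k l : V} (hk : U q K β v k) (hkZ : k ∉ Z)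
    (hl : LA q K β v l) (e : q l v = β) : ∃ r, r ∉ K ∧ q k r = β ∧ q v r = β := by
  obtain ⟨l', hl', e'⟩ := L.rad k hk.1 hkZ
  have hk0 : k ≠ 0 := by rintro rfl; exact hkZ Z.zero_mem
  obtain ⟨y, h1, h2⟩ := L.fr.link k hk.1 hk0 v l' l (by rw [e', L.fr.symm v l, e])
  rw [e'] at h1 h2
  refine ⟨y, fun hy => ?_, h1, h2⟩
  have h3 : LA q K β v y := ⟨hy, Or.inr (by rw [L.fr.symm, h2, zero_add])⟩
  exact L.b0 (by rw [← h1, hk.2 y h3])

/-- (4a): elements of the perp are long -/
theorem LS.long (L : LS q K Z β) {k r : V} (hk : k ∈ K) (e : q k r = β) : M β (q k r) 0 :=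
  Or.inr (by rw [e, zero_add])

/-- (4b) -/
theorem LS.l4b (L : LS q K Z β) {v k l : V} (hv : v ∉ K) (hk : U q K β v k) (hkZ : k ∉ Z)
    (hkL : LA q K β v k) (hl : LA q K β v l) (e : q l v = β) : q k v = β := by
  obtain ⟨r, nr, h1, h2⟩ := L.l4 hk hkZ hl e
  have h3 : r + v ∈ K := L.hN' hk.1 hkZ (L.long hk.1 h1) hkL.2 nr hv
  have h4 : q v (r + v) = β := by rw [map_add, L.fr.alt, add_zero]; exact h2
  have h5 : LA q K β v (r + v) := ⟨h3, Or.inr (by rw [L.fr.symm, h4, zero_add])⟩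
  have h6 := hk.2 _ h5
  rw [map_add, h1] at h6
  exact (eo h6).symm

/-- (4b): a nonzero element in the radical of `LA v` generates it -/
theorem LS.l4b' (L : LS q K Z β) {x : V} (hx : ∀ z ∈ Z, z = 0 ∨ z = x) (xZ : x ∈ Z) (x0 : x ≠ 0)
    {v k a : V} (hv : v ∉ K) (hk : U q K β v k) (hk0 : k ≠ 0)
    (hkL : LA q K β v k) (ha : LA q K β v a) : a = 0 ∨ a = k := by
  have nZ : ∀ c, LA q K β v c → c ≠ 0 → c ∉ Z := by
    intro c hc h0 hZ
    rcases hx c hZ with h | h
    · exact h0 h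
    · subst h
      exact hv (L.inK hZ x0 hc.2)
  by_contra hcon
  push Not at hcon
  obtain ⟨a0, ak⟩ := hcon
  have hak : a + k ≠ 0 := fun h => ak (by
    have : a + k + k = 0 + k := by rw [h]
    rwa [add_assoc, ZModModule.add_self, add_zero, zero_add] at this)
  obtain ⟨v', h1, h2, h3⟩ := L.rep ha hkL (nZ a ha a0) (nZ k hkL hk0) (nZ _ (ha.add hkL) hak) 1 0
  rw [one_smul] at h2
  rw [zero_smul] at h3
  have hv' : v' ∉ K := by
    intro h
    apply hv
    have := K.add_mem h1 h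
    rwa [add_assoc, ZModModule.add_self, add_zero] at this
  have := L.l4b hv' (L.U_congr h1 hk) (nZ k hkL hk0) (L.LA_congr h1 hkL) (L.LA_congr h1 ha) h2
  exact L.b0 (by rw [← this, h3])

/-- (3) -/
theorem LS.l3 (L : LS q K Z β) {x : V} (hx : ∀ z ∈ Z, z = 0 ∨ z = x) (xZ : x ∈ Z) (x0 : x ≠ 0)
    {t t' k k' : V} (ht : t ∉ K) (h1 : LA q K β t k) (h2 : LA q K β t' (k + x))
    (h3 : LA q K β t k') (h4 : LA q K β (t + t') (k' + x)) : False := by
  have e1 : M β (q k t') (q x t') := by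
    have := h2.2.add (M.rfl' (a := q x t'))
    rw [addl, add_assoc, two, add_zero, zero_add] at this
    exact this
  have e2 : M β (q k' t') (q x t + q x t') := by
    have h5 := h4.2
    rw [addl, map_add, map_add] at h5
    have h6 := (h5.add h3.2).add (M.rfl' (a := q x t + q x t'))
    have e : q k' t + q k' t' + (q x t + q x t') + q k' t + (q x t + q x t') =
      q k' t' + (q k' t + q k' t) + (q x t + q x t') + (q x t + q x t') := by abel
    rw [e, two, add_zero, add_assoc, two, add_zero, add_zero, zero_add] at h6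
    exact h6
  have e3 : M β (q (k + k') t') (q x t) := by
    have := e1.add e2
    have e : q x t' + (q x t + q x t') = q x t + (q x t' + q x t') := by abel
    rw [e, two, add_zero] at this
    rwa [addl]
  have hN := h1.add h3
  have xK := L.fr.zle xZ
  obtain ⟨s, f1, f2⟩ := L.xl hx hN.1 xK e3
  have f3 : M β (q x s) (q x t) := (M.of f1.symm).trans (f2.trans e3)
  have f4 : s + t ∈ K := L.inK' xZ x0 f3
  have f5 : M β (q (k + k') (s + t)) 0 := L.mk0 hN.1 f4
  rw [map_add] at f5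
  have f6 : M β (q (k + k') s) 0 := by
    have := f5.add hN.2
    rwa [add_assoc, two, add_zero, add_zero] at this
  exact ht (L.inK xZ x0 (f3.symm.trans ((M.of f1.symm).trans f6)))

/-- (3') -/
theorem LS.l3' (L : LS q K Z β) {x : V} (hx : ∀ z ∈ Z, z = 0 ∨ z = x) (xZ : x ∈ Z) (x0 : x ≠ 0)
    {t w d : V} (hd : d ∈ K) (h : M β (q x t) (q d w)) :
    ∃ k, LA q K β t k ∧ LA q K β (t + w) (k + x) := by
  have xK := L.fr.zle xZ
  obtain ⟨s, f1, f2⟩ := L.xl hx xK hd h
  have f4 : s + t ∈ K := L.inK' xZ x0 f2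
  have f5 : M β (q d (s + t)) 0 := L.mk0 hd f4
  have f6 : M β (q d t) (q x t) := by
    rw [map_add] at f5
    have := f5.add (M.rfl' (a := q d s))
    have e : q d s + q d t + q d s = q d t + (q d s + q d s) := by abel
    rw [e, two, add_zero, zero_add] at this
    exact this.trans ((M.of f1.symm).trans f2)
  have h1 : M β (q (d + x) t) 0 := by
    rw [addl]
    exact (f6.add M.rfl').trans (M.of (two _))
  have h2 : M β (q d (t + w)) 0 := by
    rw [map_add]
    exact (f6.add h.symm).trans (M.of (two _))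
  refine ⟨d + x, ⟨K.add_mem hd xK, h1⟩, ?_⟩
  rw [add_assoc, ZModModule.add_self, add_zero]
  exact ⟨hd, h2⟩

end

end Pool.Agent.ETCD2.TL
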