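import Pool.Agent.ETCD2.L1

/-!
Note 2573 (helper5), THEOREM L, part A: the end (helper24).
-/

set_option autoImplicit false
set_option linter.unusedSectionVars false
set_option linter.unusedVariables false

namespace Pool.Agent.ETCD2.TL

open Pool.Agent.ETCW2

variable {V B : Type} [AddCommGroup V] [Module (ZMod 2) V] [AddCommGroup B] [Module (ZMod 2) B]
variable {q : V →ₗ[ZMod 2] V →ₗ[ZMod 2] B} {K Z : Submodule (ZMod 2) V} {β : B}

/-- part A: the radical of `K` is `{0, x}` -/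
structure LA' (q : V →ₗ[ZMod 2] V →ₗ[ZMod 2] B) (K Z : Submodule (ZMod 2) V) (β : B) (x : V) :
    Prop where
  ls : LS q K Z β
  hx : ∀ z ∈ Z, z = 0 ∨ z = x
  xZ : x ∈ Z
  x0 : x ≠ 0

namespace LA'

variable {x : V}

theorem xK (L : LA' q K Z β x) : x ∈ K := L.ls.fr.zle L.xZ

theorem nZ (L : LA' q K Z β x) {v c : V} (hv : v ∉ K) (hc : LA q K β v c) (h0 : c ≠ 0) :
    c ∉ Z := by
  intro hZ
  rcases L.hx c hZ with h | h
  · exact h0 h
  · subst h
    exact hv (L.ls.inK hZ L.x0 hc.2)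

/-- two classes have no common killer -/
theorem disj (L : LA' q K Z β x) {v w c : V} (hv : v ∉ K) (hw : w ∉ K) (hvw : v + w ∉ K)
    (h : LA q K β v c) (h' : LA q K β w c) : c = 0 := by
  by_contra h0
  exact hvw (L.ls.hN' h.1 (L.nZ hv h h0) h.2 h'.2 hv hw)

/-- (4c): the key step for two representatives which differ by `d` -/
theorem c4 (L : LA' q K Z β x) {v k t d l l' : V} (hv : v ∉ K) (hk : U q K β v k) (hkZ : k ∉ Z)
    (ht : t ∉ K) (hkt : LA q K β t k) (hd : d ∈ K) (hl : LA q K β v l) (e : q l v = β)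
    (hl' : LA q K β v l') (e' : q l' (v + d) = β) : ∃ m ∈ K, M β (q d t) (q m v) := by
  obtain ⟨r, nr, h1, h2⟩ := L.ls.l4 hk hkZ hl e
  have hdv : v + (v + d) ∈ K := by rw [← add_assoc, ZModModule.add_self, zero_add]; exact hd
  obtain ⟨r', nr', h1', h2'⟩ := L.ls.l4 (L.ls.U_congr hdv hk) hkZ (L.ls.LA_congr hdv hl') e'
  have h3 : r + t ∈ K := L.ls.hN' hk.1 hkZ (L.ls.long hk.1 h1) hkt.2 nr ht
  have h3' : r' + t ∈ K := L.ls.hN' hk.1 hkZ (L.ls.long hk.1 h1') hkt.2 nr' ht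
  have hm : r + r' ∈ K := by
    have := K.add_mem h3 h3'
    have e1 : r + t + (r' + t) = r + r' + (t + t) := by abel
    rwa [e1, ZModModule.add_self, add_zero] at this
  refine ⟨r + r', hm, ?_⟩
  -- `(r + r') v = d r'`
  rw [addl] at h2'
  have h4 : q (r + r') v = q d r' := by
    rw [L.ls.fr.symm, map_add, h2]
    have : q v r' = β + q d r' := by
      rw [← h2', add_assoc, two, add_zero]
    rw [this, ← add_assoc, two, zero_add]
  rw [h4]
  -- `d t ≡ d r'`
  have h5 : M β (q d (r' + t)) 0 := L.ls.mk0 hd h3'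
  rw [map_add] at h5
  have h6 := h5.add (M.rfl' (a := q d r'))
  have e2 : q d r' + q d t + q d r' = q d t + (q d r' + q d r') := by abel
  rw [e2, two, add_zero, zero_add] at h6
  exact h6

/-- (4c), the violator -/
theorem viol (L : LA' q K Z β x) {v k t l : V} (hv : v ∉ K) (hk : U q K β v k) (hkZ : k ∉ Z)
    (ht : t ∉ K) (hkt : LA q K β t k) (hl : LA q K β v l) (e : q l v = β) :
    ∃ m, LA q K β t m ∧ LA q K β (t + v) (m + x) := by
  have e' : q l (v + x) = β := by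
    rw [map_add, e, L.ls.fr.kz L.xZ hl.1, add_zero]
  obtain ⟨m, hm, h⟩ := L.c4 hv hk hkZ ht hkt L.xK hl e hl e'
  exact L.ls.l3' L.hx L.xZ L.x0 hm h

/-- elements of the perp are long -/
theorem lng (L : LA' q K Z β x) {v k l : V} (hv : v ∉ K) (hk : U q K β v k) (hkZ : k ∉ Z)
    (hl : LA q K β v l) (l0 : l ≠ 0) : ∃ t, t ∉ K ∧ LA q K β t k := by
  obtain ⟨v', h1, h2⟩ := L.ls.rep1 hl (L.nZ hv hl l0)
  obtain ⟨r, nr, h3, h4⟩ := L.ls.l4 (L.ls.U_congr h1 hk) hkZ (L.ls.LA_congr h1 hl) h2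
  exact ⟨r, nr, hk.1, L.ls.long hk.1 h3⟩

/-- (4c) for any representative of `v` -/
theorem viol' (L : LA' q K Z β x) {v k t l : V} (hv : v ∉ K) (hk : U q K β v k) (hkZ : k ∉ Z)
    (ht : t ∉ K) (hkt : LA q K β t k) (hl : LA q K β v l) (l0 : l ≠ 0) :
    ∃ m, LA q K β t m ∧ LA q K β (t + v) (m + x) := by
  obtain ⟨v', h1, h2⟩ := L.ls.rep1 hl (L.nZ hv hl l0)
  have hv' : v' ∉ K := by
    intro h
    apply hv
    have := K.add_mem h1 h
    rwa [add_assoc, ZModModule.add_self, add_zero] at this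
  obtain ⟨m, h3, h4⟩ := L.viol hv' (L.ls.U_congr h1 hk) hkZ ht hkt (L.ls.LA_congr h1 hl) h2
  refine ⟨m, h3, L.ls.LA_congr ?_ h4⟩
  have e : t + v' + (t + v) = (t + t) + (v + v') := by abel
  rw [e, ZModModule.add_self, zero_add]
  exact h1

/-- (5): no `LA v` has dimension one -/
theorem five (L : LA' q K Z β x) {v k : V} (hv : v ∉ K) (hk : LA q K β v k) (k0 : k ≠ 0) :
    ∃ l, LA q K β v l ∧ l ≠ 0 ∧ l ≠ k := by
  by_contra hcon
  push Not at hcon
  have kZ : k ∉ Z := L.nZ hv hk k0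
  have hgen : ∀ a, LA q K β v a → a = 0 ∨ a = k := by
    intro a ha
    by_cases h : a = 0
    · exact Or.inl h
    · exact Or.inr (hcon a ha h)
  have kxZ : k + x ∉ Z := by
    intro h
    apply kZ
    have := Z.add_mem h L.xZ
    rwa [add_assoc, ZModModule.add_self, add_zero] at this
  have hU : U q K β v (k + x) := by
    refine ⟨K.add_mem hk.1 L.xK, fun a ha => ?_⟩
    rcases hgen a ha with rfl | rfl
    · rw [map_zero]
    · rw [addl, L.ls.fr.alt, zero_add]; exact L.ls.fr.zk L.xZ hk.1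
  obtain ⟨t, nt, ht⟩ := L.lng hv hU kxZ hk k0
  obtain ⟨m, h1, h2⟩ := L.viol' hv hU kxZ nt ht hk k0
  have h3 : LA q K β v (k + x + x) := by rwa [add_assoc, ZModModule.add_self, add_zero]
  exact L.ls.l3 L.hx L.xZ L.x0 nt ht h3 h1 h2

/-- the submodule `K v + <β>` -/
def G (q : V →ₗ[ZMod 2] V →ₗ[ZMod 2] B) (K : Submodule (ZMod 2) V) (β : B) (v : V) :
    Submodule (ZMod 2) B :=
  (K.map (q v)) ⊔ Submodule.span (ZMod 2) {β}

theorem mem_G (L : LA' q K Z β x) {v : V} {b : B} : b ∈ G q K β v ↔ ∃ k ∈ K, M β b (q k v) := by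
  unfold G
  rw [Submodule.mem_sup]
  constructor
  · rintro ⟨y, ⟨k, hk, rfl⟩, z, hz, rfl⟩
    obtain ⟨c, rfl⟩ := Submodule.mem_span_singleton.1 hz
    refine ⟨k, hk, ?_⟩
    rw [L.ls.fr.symm v k]
    rcases z2 c with rfl | rfl
    · rw [zero_smul, add_zero]; exact M.rfl'
    · rw [one_smul]; exact Or.inr rfl
  · rintro ⟨k, hk, h | h⟩
    · exact ⟨b, ⟨k, hk, by rw [L.ls.fr.symm, h]⟩, 0, Submodule.zero_mem _, add_zero b⟩
    · exact ⟨q k v, ⟨k, hk, L.ls.fr.symm _ _⟩, β, Submodule.mem_span_singleton_self β, h.symm⟩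

/-- `K t ⊂ K w` -/
theorem G_le (L : LA' q K Z β x) {v k t a b : V} (hv : v ∉ K) (hk : U q K β v k) (hkZ : k ∉ Z)
    (ht : t ∉ K) (hkt : LA q K β t k) (ha : LA q K β v a) (hb : LA q K β v b) (a0 : a ≠ 0)
    (b0 : b ≠ 0) (ab : a ≠ b) : G q K β t ≤ G q K β v := by
  intro c hc
  obtain ⟨d, hd, h⟩ := L.mem_G.1 hc
  rw [L.mem_G]
  have ab0 : a + b ≠ 0 := fun h => ab (by
    have : a + b + b = 0 + b := by rw [h]
    rwa [add_assoc, ZModModule.add_self, add_zero, zero_add] at this)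
  have aZ := L.nZ hv ha a0
  have bZ := L.nZ hv hb b0
  have abZ := L.nZ hv (ha.add hb) ab0
  -- values `(s, r)` different from `0` and from `(<d,a>, <d,b>)`
  obtain ⟨da, hda⟩ : ∃ s : ZMod 2, q a d = s • β := by
    rcases L.ls.kk a ha.1 d hd with h | h
    · exact ⟨0, by rw [h, zero_smul]⟩
    · exact ⟨1, by rw [h, one_smul]⟩
  obtain ⟨db, hdb⟩ : ∃ s : ZMod 2, q b d = s • β := by
    rcases L.ls.kk b hb.1 d hd with h | h
    · exact ⟨0, by rw [h, zero_smul]⟩
    · exact ⟨1, by rw [h, one_smul]⟩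
  have dec : ∀ da db : ZMod 2, ∃ s r : ZMod 2, (s = 1 ∨ r = 1) ∧ (s + da = 1 ∨ r + db = 1) := by
    decide
  obtain ⟨s, r, hs1, hs2⟩ := dec da db
  obtain ⟨v', h1, h2, h3⟩ := L.ls.rep ha hb aZ bZ abZ s r
  have hv' : v' ∉ K := by
    intro h
    apply hv
    have := K.add_mem h1 h
    rwa [add_assoc, ZModModule.add_self, add_zero] at this
  have e1 : q a (v' + d) = (s + da) • β := by rw [map_add, h2, hda, add_smul]
  have e2 : q b (v' + d) = (r + db) • β := by rw [map_add, h3, hdb, add_smul]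
  have ha' := L.ls.LA_congr h1 ha
  have hb' := L.ls.LA_congr h1 hb
  have g1 : ∃ l, LA q K β v' l ∧ q l v' = β := by
    rcases hs1 with h | h
    · exact ⟨a, ha', by rw [h2, h, one_smul]⟩
    · exact ⟨b, hb', by rw [h3, h, one_smul]⟩
  have g2 : ∃ l, LA q K β v' l ∧ q l (v' + d) = β := by
    rcases hs2 with h | h
    · exact ⟨a, ha', by rw [e1, h, one_smul]⟩
    · exact ⟨b, hb', by rw [e2, h, one_smul]⟩
  obtain ⟨l, m1, m2⟩ := g1
  obtain ⟨l', m3, m4⟩ := g2
  obtain ⟨m, hm, h4⟩ := L.c4 hv' (L.ls.U_congr h1 hk) hkZ ht hkt hd m1 m2 m3 m4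
  refine ⟨m, hm, h.trans (h4.trans ?_)⟩
  have h5 : M β (q m (v + v')) 0 := L.ls.mk0 hm h1
  rw [map_add] at h5
  have h6 := h5.add (M.rfl' (a := q m v))
  have e3 : q m v + q m v' + q m v = q m v' + (q m v + q m v) := by abel
  rw [e3, two, add_zero, zero_add] at h6
  exact h6

/-- `LA v` as a submodule -/
def sub (q : V →ₗ[ZMod 2] V →ₗ[ZMod 2] B) (K : Submodule (ZMod 2) V) (β : B) (v : V) :
    Submodule (ZMod 2) V where
  carrier := {k | LA q K β v k}
  add_mem' := fun h h' => h.add h'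
  zero_mem' := ⟨K.zero_mem, Or.inl (by rw [map_zero, LinearMap.zero_apply])⟩
  smul_mem' := by
    intro c k hk
    rcases z2 c with rfl | rfl
    · rw [zero_smul]
      exact ⟨K.zero_mem, Or.inl (by rw [map_zero, LinearMap.zero_apply])⟩
    · rw [one_smul]; exact hk

/-- if `LA w` is nondegenerate then `K = LA w + U w` -/
theorem dec [Finite V] (L : LA' q K Z β x) {w : V}
    (h : ∀ k, LA q K β w k → U q K β w k → k = 0) {κ : V} (hκ : κ ∈ K) :
    ∃ a, LA q K β w a ∧ U q K β w (κ + a) := by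
  obtain ⟨θ, hθ⟩ : ∃ θ : B →ₗ[ZMod 2] ZMod 2, θ β ≠ 0 := by
    by_contra hcon
    push Not at hcon
    exact L.ls.b0 ((Module.forall_dual_apply_eq_zero_iff (ZMod 2) β).1 hcon)
  have hz : ∀ a ∈ K, ∀ b ∈ K, θ (q a b) = 0 → q a b = 0 := by
    intro a ha b hb h
    rcases L.ls.kk a ha b hb with h' | h'
    · exact h'
    · rw [h'] at h
      exact absurd h hθ
  let A := sub q K β w
  let g : A →ₗ[ZMod 2] A →ₗ[ZMod 2] ZMod 2 := (q.compr₂ θ).domRestrict₁₂ A A
  have hg : ∀ a b : A, g a b = θ (q a b) := fun a b => rfl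
  have hinj : Function.Injective g := by
    rw [← LinearMap.ker_eq_bot, LinearMap.ker_eq_bot']
    intro a ha
    apply Subtype.ext
    refine h a a.2 ⟨a.2.1, fun b hb => hz _ a.2.1 _ hb.1 ?_⟩
    have := LinearMap.congr_fun ha ⟨b, hb⟩
    rwa [hg] at this
  have hsurj : Function.Surjective g := by
    have h1 : Module.finrank (ZMod 2) A = Module.finrank (ZMod 2) (A →ₗ[ZMod 2] ZMod 2) :=
      (Subspace.dual_finrank_eq (K := ZMod 2) (V := A)).symm
    exact (LinearMap.injective_iff_surjective_of_finrank_eq_finrank h1).1 hinj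
  obtain ⟨a, ha⟩ := hsurj ((q.compr₂ θ κ).domRestrict A)
  refine ⟨a, a.2, K.add_mem hκ a.2.1, fun b hb => hz _ (K.add_mem hκ a.2.1) _ hb.1 ?_⟩
  have h1 := LinearMap.congr_fun ha ⟨b, hb⟩
  have h2 : θ (q a b) = θ (q κ b) := h1
  rw [addl, map_add, h2]
  exact CharTwo.add_self_eq_zero _

/-- (6) -/
theorem six [Finite V] (L : LA' q K Z β x) {t t' k : V} (nt : t ∉ K) (nt' : t' ∉ K)
    (ntt : t + t' ∉ K) (h1 : LA q K β t k) (h2 : LA q K β t' (k + x)) : False := by
  have k0 : k ≠ 0 := by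
    rintro rfl
    rw [zero_add] at h2
    exact nt' (L.ls.inK L.xZ L.x0 h2.2)
  have kx0 : k + x ≠ 0 := by
    intro h
    have e : k = x := by
      have : k + x + x = 0 + x := by rw [h]
      rwa [add_assoc, ZModModule.add_self, add_zero, zero_add] at this
    subst e
    exact nt (L.ls.inK L.xZ L.x0 h1.2)
  -- the minimal `G w`
  obtain ⟨w, ⟨hw, a, ha, a0⟩, hmin⟩ := Set.Finite.exists_minimalFor (fun v : V => G q K β v)
    {v : V | v ∉ K ∧ ∃ a, LA q K β v a ∧ a ≠ 0} (Set.toFinite _) ⟨t, nt, k, h1, k0⟩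
  obtain ⟨b, hb, b0, hba⟩ := L.five hw ha a0
  -- (6a)
  have six_a : ∀ c, LA q K β w c → U q K β w c → c = 0 := by
    intro c hc hU
    by_contra c0
    obtain ⟨l, hl, l0, lc⟩ := L.five hw hc c0
    rcases L.ls.l4b' L.hx L.xZ L.x0 hw hU c0 hc hl with h | h
    · exact l0 h
    · exact lc h
  -- (6b)
  have six_b : ∃ c, U q K β w c ∧ c ∉ Z := by
    by_contra hcon
    push Not at hcon
    have key : ∀ s c, s ∉ K → LA q K β s c → c ≠ 0 → s + w ∉ K → False := by
      intro s c ns hc c0 nsw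
      obtain ⟨l, hl, l0, lc⟩ := L.five ns hc c0
      have sh : ∀ m, LA q K β s m → m ≠ 0 → LA q K β w (m + x) := by
        intro m hm m0
        obtain ⟨a', h3, h4⟩ := L.dec six_a hm.1
        rcases L.hx _ (hcon _ h4) with h5 | h5
        · exfalso
          have h6 : m = a' := by
            have : m + a' + a' = 0 + a' := by rw [h5]
            rwa [add_assoc, ZModModule.add_self, add_zero, zero_add] at this
          subst h6
          exact m0 (L.disj ns hw nsw hm h3)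
        · have h6 : m + x = a' := by
            rw [← h5, ← add_assoc, ZModModule.add_self, zero_add]
          rw [h6]; exact h3
      have h7 := (sh c hc c0).add (sh l hl l0)
      have e : c + x + (l + x) = c + l + (x + x) := by abel
      rw [e, ZModModule.add_self, add_zero] at h7
      have h8 := L.disj ns hw nsw (hc.add hl) h7
      apply lc
      have : c + l + l = 0 + l := by rw [h8]
      rw [add_assoc, ZModModule.add_self, add_zero, zero_add] at this
      exact this.symm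
    by_cases htw : t + w ∈ K
    · refine key t' (k + x) nt' h2 kx0 fun h => ntt ?_
      have := K.add_mem htw h
      have e : t + w + (t' + w) = t + t' + (w + w) := by abel
      rwa [e, ZModModule.add_self, add_zero] at this
    · exact key t k nt h1 k0 htw
  -- (6c)
  obtain ⟨c, hU, hc⟩ := six_b
  have c0 : c ≠ 0 := by rintro rfl; exact hc Z.zero_mem
  obtain ⟨s, ns, hs⟩ := L.lng hw hU hc ha a0
  have nsw : s + w ∉ K := by
    intro h
    exact c0 (six_a c (L.ls.LA_congr h hs) hU)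
  have g1 : G q K β s ≤ G q K β w := L.G_le hw hU hc ns hs ha hb a0 b0 hba.symm
  have g2 : G q K β w ≤ G q K β s := hmin ⟨ns, c, hs, c0⟩ g1
  obtain ⟨m, m1, m2⟩ := L.viol' hw hU hc ns hs ha a0
  have mx0 : m + x ≠ 0 := by
    intro h
    have e : m = x := by
      have : m + x + x = 0 + x := by rw [h]
      rwa [add_assoc, ZModModule.add_self, add_zero, zero_add] at this
    subst e
    exact ns (L.ls.inK L.xZ L.x0 m1.2)
  have g3 : G q K β (s + w) ≤ G q K β w := by
    intro y hy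
    obtain ⟨d, hd, h⟩ := L.mem_G.1 hy
    have y1 : q d s ∈ G q K β w := g1 (L.mem_G.2 ⟨d, hd, M.rfl'⟩)
    have y2 : q d w ∈ G q K β w := L.mem_G.2 ⟨d, hd, M.rfl'⟩
    have yβ : β ∈ G q K β w :=
      (le_sup_right : _ ≤ G q K β w) (Submodule.mem_span_singleton_self β)
    rw [map_add] at h
    rcases h with h | h
    · rw [h]; exact Submodule.add_mem _ y1 y2
    · rw [h]; exact Submodule.add_mem _ (Submodule.add_mem _ y1 y2) yβ
  have g4 : G q K β w ≤ G q K β (s + w) := hmin ⟨nsw, m + x, m2, mx0⟩ g3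
  have h5 : q x s ∈ G q K β (s + w) := g4 (g1 (L.mem_G.2 ⟨x, L.xK, M.rfl'⟩))
  obtain ⟨d, hd, h6⟩ := L.mem_G.1 h5
  obtain ⟨k', h7, h8⟩ := L.ls.l3' L.hx L.xZ L.x0 hd h6
  rw [← add_assoc, ZModModule.add_self, zero_add] at h8
  exact L.ls.l3 L.hx L.xZ L.x0 ns h7 h8 m1 m2

end LA'

end Pool.Agent.ETCD2.TL
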