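import Pool.Agent.ETCD2.L2

/-!
Note 2573 (helper5), THEOREM L, part B (`|rad V_x| ≥ 4`) and the theorem (helper24).
-/

set_option autoImplicit false
set_option linter.unusedSectionVars false
set_option linter.unusedVariables false

namespace Pool.Agent.ETCD2.TL

open Pool.Agent.ETCW2

variable {V B : Type} [AddCommGroup V] [Module (ZMod 2) V] [AddCommGroup B] [Module (ZMod 2) B]
variable {q : V →ₗ[ZMod 2] V →ₗ[ZMod 2] B} {K Z : Submodule (ZMod 2) V} {β : B}

/-- linkage of the pairs `w`, `w + k` -/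
def Lk2 (q : V →ₗ[ZMod 2] V →ₗ[ZMod 2] B) (K : Submodule (ZMod 2) V) : Prop :=
  ∀ k ∈ K, k ≠ 0 → ∀ w r s, q w r = q (w + k) s → ∃ y, q w y = q w r ∧ q (w + k) y = q w r

/-- elements of `Z` do not kill classes -/
theorem LS.LAZ (L : LS q K Z β) {v c : V} (hv : v ∉ K) (h : LA q K β v c) (hc : c ∈ Z) :
    c = 0 := by
  by_contra h0
  exact hv (L.inK hc h0 h.2)

theorem LS.disj2 (L : LS q K Z β) {v w c : V} (hv : v ∉ K) (hw : w ∉ K) (hvw : v + w ∉ K)
    (h : LA q K β v c) (h' : LA q K β w c) : c = 0 := by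
  by_cases hc : c ∈ Z
  · exact L.LAZ hv h hc
  · exact absurd (L.hN' h.1 hc h.2 h'.2 hv hw) hvw

theorem aax (a b : V) : a + b + b = a := by rw [add_assoc, ZModModule.add_self, add_zero]

theorem xaa (a b : V) : a + (a + b) = b := by rw [← add_assoc, ZModModule.add_self, zero_add]

theorem eqv {a b : V} (h : a + b = 0) : a = b := by
  have := congrArg (· + b) h
  simpa [aax] using this

/-- the sunflower lemma (2561 (1)) -/
theorem LS.sun (L : LS q K Z β) (l2 : Lk2 q K) {u v' b z z' : V} (hb : b ∈ K) (hz : z ∈ Z)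
    (z0 : z ≠ 0) (hz' : z' ∈ Z) (z0' : z' ≠ 0) (h : q b u = q z v') :
    ∃ b' ∈ K, q b' u = q z' v' := by
  have F := L.fr
  have zK := F.zle hz
  -- the two killers
  obtain ⟨y, e1, e2⟩ := F.link z zK z0 u v' b (by rw [F.symm u b, h])
  obtain ⟨y', e3, e4⟩ := F.link z zK z0 (u + z) v' b (by
    rw [addl, F.zk hz hb, add_zero, F.symm u b, h])
  have k1 : y + v' ∈ K := (F.eqK hz z0).1 e1
  have k2 : y' + v' ∈ K := (F.eqK hz z0).1 e3
  have f1 : q (u + z) y = 0 := by rw [addl, e1, e2, two]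
  have f2 : q u y' = 0 := by
    rw [addl, e3] at e4
    have := congrArg (· + q z v') e4
    simpa [two, add_assoc] using this
  have g1 : q z' y = q z' v' := (F.eqK hz' z0').2 k1
  have g2 : q z' y' = q z' v' := (F.eqK hz' z0').2 k2
  obtain ⟨b', h1, h2⟩ := l2 z zK z0 (u + z') y' y (by
    have e : u + z' + z = (u + z) + z' := by abel
    rw [e, addl q u z' y', f2, zero_add, addl q (u + z) z' y, f1, zero_add, g1, g2])
  have h3 : q z b' = 0 := by
    rw [addl q (u + z') z b', h1] at h2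
    have := congrArg (· + q (u + z') y') h2
    have e : q (u + z') y' + q z b' + q (u + z') y' =
      q z b' + (q (u + z') y' + q (u + z') y') := by abel
    simp only [e, two, add_zero] at this
    exact this
  have h4 : b' ∈ K := (F.ann z hz z0 b').1 h3
  refine ⟨b', h4, ?_⟩
  rw [addl q u z' b', F.zk hz' h4, add_zero, addl q u z' y', f2, zero_add, g2] at h1
  rw [F.symm]; exact h1

/-- the classes of `b` -/
theorem LS.cls (L : LS q K Z β) {v v' u b z : V} (hu : u + (v + v') ∈ K) (hb : b ∈ K)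
    (hz : z ∈ Z) (z0 : z ≠ 0) (h : q b u = q z v') : LA q K β v b ∧ LA q K β v' (b + z) := by
  have F := L.fr
  obtain ⟨y, e1, e2⟩ := F.link z (F.zle hz) z0 b v' u h.symm
  have k1 : y + v' ∈ K := (F.eqK hz z0).1 e1
  have h1 : LA q K β y (b + z) := ⟨K.add_mem hb (F.zle hz), M.of (by rw [addl, e1, e2, two])⟩
  have h2 : LA q K β (u + y) b := ⟨hb, M.of (by rw [map_add, h, e2, two])⟩
  refine ⟨L.LA_congr ?_ h2, L.LA_congr k1 h1⟩
  have := K.add_mem hu k1
  have e : u + (v + v') + (y + v') = u + y + v + (v' + v') := by abel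
  rwa [e, ZModModule.add_self, add_zero] at this

/-- **Part B** -/
theorem LS.partB (L : LS q K Z β) (l2 : Lk2 q K) {x z k v v' : V} (xZ : x ∈ Z) (x0 : x ≠ 0)
    (hz : z ∈ Z) (z0 : z ≠ 0) (hzx : z ≠ x) (hk : k ∈ K) (hv : v ∉ K) (hv' : v' ∉ K)
    (hvv : v + v' ∉ K) (h1 : q k v = 0) (h2 : q (k + x) v' = 0) : False := by
  have F := L.fr
  set u := v + v' with hu
  have e1 : q k v' = q x v' := by
    rw [addl] at h2
    exact eo h2
  have hku : q k u = q x v' := by rw [hu, map_add, h1, zero_add, e1]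
  have hu0 : u + (v + v') ∈ K := by rw [hu, ZModModule.add_self]; exact K.zero_mem
  -- uniqueness for `u'` in the class of `u`
  have main : ∀ u', u' + (v + v') ∈ K → ∀ b b' z, b ∈ K → b' ∈ K → z ∈ Z → z ≠ 0 →
      ∀ u'', u'' + (v + v') ∈ K → q b u' = q z v' → q b' u'' = q z v' → b = b' := by
    intro u' hu' b b' z hb hb' hz z0 u'' hu'' e e'
    obtain ⟨m1, m2⟩ := L.cls hu' hb hz z0 e
    obtain ⟨m3, m4⟩ := L.cls hu'' hb' hz z0 e'
    have m5 := m1.add m3
    have m6 := m2.add m4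
    have e3 : b + z + (b' + z) = b + b' + (z + z) := by abel
    rw [e3, ZModModule.add_self, add_zero] at m6
    exact eqv (L.disj2 hv hv' hvv m5 m6)
  -- `b_x = k` and `b_z`
  obtain ⟨b, hb, hbu⟩ := L.sun l2 hk xZ x0 hz z0 hku
  have incl : ∀ z1 z2 b1 b2, z1 ∈ Z → z1 ≠ 0 → z2 ∈ Z → z2 ≠ 0 → b1 ∈ K → b2 ∈ K →
      q b1 u = q z1 v' → q b2 u = q z2 v' → ∀ c ∈ K, q b1 c = 0 → q b2 c = 0 := by
    intro z1 z2 b1 b2 hz1 z10 hz2 z20 hb1 hb2 g1 g2 c hc g3
    have g4 : q b1 (u + c) = q z1 v' := by rw [map_add, g3, add_zero, g1]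
    obtain ⟨b', hb', g5⟩ := L.sun l2 hb1 hz1 z10 hz2 z20 g4
    have hu1 : u + c + (v + v') ∈ K := by
      have : u + c + (v + v') = c + (u + (v + v')) := by abel
      rw [this]; exact K.add_mem hc hu0
    have g6 := main u hu0 b2 b' z2 hb2 hb' hz2 z20 (u + c) hu1 g2 g5
    subst g6
    rw [map_add, g2] at g5
    have := congrArg (· + q z2 v') g5
    have e : q z2 v' + q b2 c + q z2 v' = q b2 c + (q z2 v' + q z2 v') := by abel
    simp only [e, two, add_zero] at this
    exact this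
  have i1 := incl x z k b xZ x0 hz z0 hk hb hku hbu
  have i2 := incl z x b k hz z0 xZ x0 hb hk hbu hku
  -- `k + b` is in the radical
  have hkb : k + b ∈ Z := by
    by_contra hcon
    obtain ⟨l, hl, e⟩ := L.rad (k + b) (K.add_mem hk hb) hcon
    apply L.b0
    rw [← e, addl]
    rcases L.kk k hk l hl with g | g
    · rw [g, i1 l hl g, add_zero]
    · rcases L.kk b hb l hl with g' | g'
      · rw [i2 l hl g'] at g
        exact absurd g.symm L.b0
      · rw [g, g', two]
  obtain ⟨m1, -⟩ := L.cls hu0 hk xZ x0 hku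
  obtain ⟨m3, -⟩ := L.cls hu0 hb hz z0 hbu
  have m5 := L.LAZ hv (m1.add m3) hkb
  have m6 : k = b := eqv m5
  rw [← m6, hku] at hbu
  have hne : q x v' ≠ 0 := fun h => hv' ((F.ann x xZ x0 v').1 h)
  exact hzx (F.uni xZ hz hbu hne).1.symm

end Pool.Agent.ETCD2.TL
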