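import Pool.Agent.ETCD2.L3

/-!
**THEOREM L** (helper5, note 2573): `D2` holds at `x` when `q (V_x, V_x)` has at most one nonzero
value (helper24).
-/

set_option autoImplicit false
set_option linter.unusedSectionVars false
set_option linter.unusedVariables false

namespace Pool.Agent.ETCD2.TL

open Pool.Agent.ETCW2

variable {V B : Type} [AddCommGroup V] [Module (ZMod 2) V] [AddCommGroup B] [Module (ZMod 2) B]
variable {q : V →ₗ[ZMod 2] V →ₗ[ZMod 2] B} {x : V}

/-- **THEOREM L** (helper5, note 2573).  `V` finite, `q` alternating bilinear, the planes which meet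
`V_x - 0` are linked, `|V_k| ≤ |V_x|` for `k ∈ V_x - 0`; `q (V_x, V_x) ⊆ {0, β}`.  Then `D2` holds
at `x`. -/
theorem L [Finite V] (alt : ∀ v, q v v = 0)
    (link : ∀ k, k ≠ 0 → q x k = 0 → ∀ w r s, q k r = q w s → ∃ y, q k y = q k r ∧ q w y = q k r)
    (link2 : ∀ k, k ≠ 0 → q x k = 0 → ∀ w r s, q w r = q (w + k) s →
      ∃ y, q w y = q w r ∧ q (w + k) y = q w r)
    (mr : ∀ k, k ≠ 0 → q x k = 0 → Nat.card (Kx q k) ≤ Nat.card (Kx q x))
    {β : B} (kk : ∀ k l, q x k = 0 → q x l = 0 → q k l = 0 ∨ q k l = β)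
    {κ v v' : V} (hκ : q x κ = 0) (hv : q κ v = 0) (hv' : q (κ + x) v' = 0)
    (nv : q x v ≠ 0) (nv' : q x v' ≠ 0) : q x v = q x v' := by
  by_contra nn
  have memK : ∀ k v, v ∈ Kx q k ↔ q k v = 0 := fun k v => LinearMap.mem_ker
  have x0 : x ≠ 0 := by
    rintro rfl
    exact nv (by rw [map_zero, LinearMap.zero_apply])
  have xx : x ∈ Zx q x := ⟨alt x, fun k hk => hk⟩
  have F : Fr q (Kx q x) (Zx q x) :=
    { alt := alt
      zle := fun z hz => (memK _ _).2 hz.1
      ann := by
        intro z hz z0 v
        have hle : Kx q x ≤ Kx q z := fun k hk => (memK _ _).2 (hz.2 k ((memK _ _).1 hk))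
        have he : Kx q x = Kx q z := by
          refine SetLike.coe_injective (Set.eq_of_subset_of_ncard_le hle ?_ (Set.toFinite _))
          exact mr z z0 hz.1
        rw [he]; exact (memK _ _).symm
      link := fun k hk k0 w r s h => link k k0 ((memK _ _).1 hk) w r s h }
  have kK : κ ∈ Kx q x := (memK _ _).2 hκ
  have nK : v ∉ Kx q x := fun h => nv ((memK _ _).1 h)
  have nK' : v' ∉ Kx q x := fun h => nv' ((memK _ _).1 h)
  have nnK : v + v' ∉ Kx q x := fun h => nn (eo (by rw [← map_add]; exact (memK _ _).1 h))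
  have rad : ∀ k ∈ Kx q x, k ∉ Zx q x → ∃ l ∈ Kx q x, q k l = β := by
    intro k hk hkZ
    by_contra hno
    push Not at hno
    refine hkZ ⟨(memK _ _).1 hk, fun l hl => ?_⟩
    rcases kk k l ((memK _ _).1 hk) hl with h | h
    · exact h
    · exact absurd h (hno l ((memK _ _).2 hl))
  have κZ : κ ∉ Zx q x := by
    intro h
    have κ0 : κ ≠ 0 := by
      rintro rfl
      rw [zero_add] at hv'
      exact nv' hv'
    exact nK ((F.ann κ h κ0 v).1 hv)
  have κxZ : κ + x ∉ Zx q x := by
    intro h
    apply κZ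
    have := (Zx q x).add_mem h xx
    rwa [aax] at this
  have b0 : β ≠ 0 := by
    rintro rfl
    refine κZ ⟨hκ, fun l hl => ?_⟩
    rcases kk κ l hκ hl with h | h <;> exact h
  have hN : ∀ u ∈ Kx q x, u ∉ Zx q x → ∀ a b, q u a = 0 → q u b = 0 → a ∉ Kx q x → b ∉ Kx q x →
      a + b ∈ Kx q x := by
    intro u hu huZ a b ha hb na nb
    by_contra nab
    have u0 : u ≠ 0 := by
      rintro rfl; exact huZ (Zx q x).zero_mem
    obtain ⟨l, hl, e⟩ := rad u hu huZ
    let C : Submodule (ZMod 2) V := Kx q x ⊓ Kx q u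
    -- `|K| ≤ 2 |C|`
    have h1 : Nat.card (Kx q x) ≤ 2 * Nat.card C := by
      classical
      let g : Kx q x → ZMod 2 × C := fun k =>
        if h : q u k = 0 then (0, ⟨k, k.2, (memK _ _).2 h⟩)
        else (1, ⟨k + l, (Kx q x).add_mem k.2 hl, (memK _ _).2 (by
          rcases kk u k ((memK _ _).1 hu) ((memK _ _).1 k.2) with h' | h'
          · exact absurd h' h
          · rw [map_add, h', e, two])⟩)
      have ginj : Function.Injective g := by
        intro k k' hkk
        by_cases h : q u k = 0 <;> by_cases h' : q u k' = 0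
        · simp only [g, h, h', dif_pos, Prod.mk.injEq, Subtype.mk.injEq] at hkk
          exact Subtype.ext hkk.2
        · simp only [g, h, h', dif_pos, dif_neg, not_false_eq_true, Prod.mk.injEq] at hkk
          exact absurd hkk.1 (by decide)
        · simp only [g, h, h', dif_pos, dif_neg, not_false_eq_true, Prod.mk.injEq] at hkk
          exact absurd hkk.1 (by decide)
        · simp only [g, h, h', dif_neg, not_false_eq_true, Prod.mk.injEq, Subtype.mk.injEq] at hkk
          exact Subtype.ext (add_right_cancel hkk.2)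
      have := Nat.card_le_card_of_injective g ginj
      rwa [Nat.card_prod, Nat.card_zmod] at this
    -- `4 |C| ≤ |V_u|`
    have h2 : 4 * Nat.card C ≤ Nat.card (Kx q u) := by
      let f : C × (ZMod 2 × ZMod 2) → Kx q u := fun p =>
        ⟨p.1 + (p.2.1 • a + p.2.2 • b), (memK _ _).2 (by
          rw [map_add, map_add, map_smul, map_smul, ha, hb, (memK _ _).1 p.1.2.2]; simp)⟩
      have inj : Function.Injective f := by
        rintro ⟨c, j, k⟩ ⟨c', j', k'⟩ h
        have h1 : (c : V) + (j • a + k • b) = c' + (j' • a + k' • b) := congrArg Subtype.val h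
        have h2 := congrArg (q x) h1
        have cx : q x c = 0 := (memK _ _).1 c.2.1
        have cx' : q x c' = 0 := (memK _ _).1 c'.2.1
        simp only [map_add, map_smul, cx, cx', zero_add] at h2
        have na' : q x a ≠ 0 := fun h => na ((memK _ _).2 h)
        have nb' : q x b ≠ 0 := fun h => nb ((memK _ _).2 h)
        have nab' : q x a + q x b ≠ 0 := fun h => nab ((memK _ _).2 (by rw [map_add]; exact h))
        have e0 : (j - j') • q x a + (k - k') • q x b = 0 := by
          rw [sub_smul, sub_smul]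
          have : j • q x a - j' • q x a + (k • q x b - k' • q x b) =
            (j • q x a + k • q x b) - (j' • q x a + k' • q x b) := by abel
          rw [this, h2, sub_self]
        have e1 : j = j' ∧ k = k' := by
          rcases z2 (j - j') with h | h <;> rcases z2 (k - k') with h' | h' <;>
            rw [h, h'] at e0 <;> simp only [zero_smul, one_smul, zero_add, add_zero] at e0
          · exact ⟨sub_eq_zero.1 h, sub_eq_zero.1 h'⟩
          · exact absurd e0 nb'
          · exact absurd e0 na'
          · exact absurd e0 nab'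
        obtain ⟨rfl, rfl⟩ := e1
        have e3 : c = c' := Subtype.ext (add_right_cancel h1)
        rw [e3]
      have hc := Nat.card_le_card_of_injective f inj
      rw [Nat.card_prod, Nat.card_prod, Nat.card_zmod] at hc
      omega
    have h3 := mr u u0 ((memK _ _).1 hu)
    have cpos : 0 < Nat.card C := Nat.card_pos
    omega
  by_cases nb : ∀ z ∈ Zx q x, ∀ v, q z v ≠ β
  · -- the main case
    have L : LS q (Kx q x) (Zx q x) β :=
      { fr := F, b0 := b0, rad := rad, nb := nb, hN := hN
        kk := fun k hk l hl => kk k l ((memK _ _).1 hk) ((memK _ _).1 hl) }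
    by_cases hx : ∀ z ∈ Zx q x, z = 0 ∨ z = x
    · have L' : LA' q (Kx q x) (Zx q x) β x := ⟨L, hx, xx, x0⟩
      exact L'.six nK nK' nnK ⟨kK, M.of hv⟩ ⟨(memK _ _).2 (by rw [map_add, hκ, alt, add_zero]),
        M.of hv'⟩
    · push Not at hx
      obtain ⟨z, hz, z0, hzx⟩ := hx
      exact L.partB (fun k hk k0 w r s h => link2 k k0 ((memK _ _).1 hk) w r s h) xx x0 hz z0 hzx
        kK nK nK' nnK hv hv'
  · -- `β ∈ Q_z`
    push Not at nb
    obtain ⟨z, hz, y0, hy0⟩ := nb
    have z0 : z ≠ 0 := by
      rintro rfl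
      rw [map_zero, LinearMap.zero_apply] at hy0
      exact b0 hy0.symm
    have key : ∀ k ∈ Kx q x, k ∉ Zx q x → ∀ v, q k v = 0 → v ∉ Kx q x → v + y0 ∈ Kx q x := by
      intro k hk hkZ v hkv nv
      obtain ⟨l, hl, e⟩ := rad k hk hkZ
      obtain ⟨y, h1, h2⟩ := link z z0 hz.1 (k + z) y0 l (by
        rw [hy0, addl, e, F.zk hz hl, add_zero])
      rw [hy0] at h1 h2
      rw [addl, h1] at h2
      have h3 : q k y = 0 := by
        have := congrArg (· + β) h2
        simpa [add_assoc, two] using this
      have h4 : y + y0 ∈ Kx q x := (F.eqK hz z0).1 (by rw [h1, hy0])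
      have h5 : y ∉ Kx q x := by
        intro h
        exact b0 (by rw [← h1]; exact F.zk hz h)
      have h6 := hN k hk hkZ v y hkv h3 nv h5
      have := (Kx q x).add_mem h6 h4
      have e' : v + y + (y + y0) = v + y0 + (y + y) := by abel
      rwa [e', ZModModule.add_self, add_zero] at this
    have h1 := key κ kK κZ v hv nK
    have h2 := key (κ + x) ((memK _ _).2 (by rw [map_add, hκ, alt, add_zero])) κxZ v' hv' nK'
    apply nnK
    have := (Kx q x).add_mem h1 h2
    have e' : v + y0 + (v' + y0) = v + v' + (y0 + y0) := by abel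
    rwa [e', ZModModule.add_self, add_zero] at this

end Pool.Agent.ETCD2.TL
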