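import Pool.Agent.ETCD2.Core
import Pool.Agent.ETCT.K4

/-!
Note 2502 (helper32): **the law D2 implies the elementary type conjecture for `-1 = 1`**
(helper24; pieces by helpers 16, 17, 29, 81).

`x` is of minimal rank if `x ≠ 1` and no `v ≠ 1` commutes with more elements than `x`.
-/

set_option autoImplicit false
set_option linter.unusedSectionVars false

namespace Pool.Agent.ETCD2

open QS Pool.Agent.RFT Pool.Agent.ETG Pool.Agent.RFN Pool.Agent.REG10 Pool.Agent.AST
open Pool.Agent.ETCLH
open Pool.Agent.Helper58.PLine (QData)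

/-- `x ≠ 1` has minimal rank: the number of elements `w` with `q (x, w) = 0` is maximal -/
def MinRk (S : QStruct) (x : S.G) : Prop := x ≠ 1 ∧ ∀ v : S.G, v ≠ 1 →
  Nat.card {w : S.G // S.q v w = S.zero} ≤ Nat.card {w : S.G // S.q x w = S.zero}

/-- (D2) at `x`: if `q (x, k) = 0`, `q (k, a) = 0` and `q (k x, b) = 0`, then `q (x, a)` and
`q (x, b)` are not two different nonzero quaternions -/
def D2Q (S : QStruct) (x : S.G) : Prop := ∀ k a b : S.G, S.q x k = S.zero → S.q k a = S.zero →
  S.q (k * x) b = S.zero → S.q x a = S.zero ∨ S.q x b = S.zero ∨ S.q x a = S.q x b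

/-- the relation form -/
theorem not_min {V : Type} [AddCommGroup V] [Module (ZMod 2) V] [Finite V] {Z : V → V → Prop}
    (hZ : LZ Z) (hsm : Smaller V) (hET : ¬ ETZ Z) (hne : ∃ x : V, x ≠ 0)
    (d2 : ∀ z : V, z ≠ 0 → (∀ v, v ≠ 0 → Nat.card ((dat hZ).ann v) ≤ Nat.card ((dat hZ).ann z)) →
      D2At (dat hZ) z) : False := by
  have M : Mn (dat hZ) := mn_of hZ hsm hET
  refine core M.he hne ?_ ?_ d2
  · intro x hx
    by_contra h
    push Not at h
    exact hx (M.r1 x fun v w => Or.inl (h v))
  · intro z hz u hu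
    exact ETCT.Mn.K4 M hsm hz hu

/-- a structure with `-1 = 1` all of whose smaller structures are of elementary type and which
satisfies (D2) at the elements of minimal rank is of elementary type -/
theorem top_D2 (S : QStruct) [Finite S.G] (hneg : S.neg = 1)
    (hT : ∀ T : QStruct, Finite T.G → T.neg = 1 → Nat.card T.G < Nat.card S.G → ElemType T)
    (h : ∀ x, MinRk S x → D2Q S x) (hne : ∃ g : S.G, g ≠ 1) : ElemType S := by
  by_contra hS
  have hf : Finite (Additive S.G) := (inferInstance : Finite S.G)
  have hZ := lzs S hneg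
  have hET : ¬ ETZ (ZS S) := fun h => hS (h S (qof S hneg))
  have hz : ∀ a b, ETCP.C (dat hZ) a b ↔ ZS S a b := dat_zero hZ
  have hcard : ∀ v : Additive S.G, Nat.card ((dat hZ).ann v) =
      Nat.card {w : S.G // S.q (Additive.toMul v) w = S.zero} := by
    intro v
    exact Nat.card_congr ((Equiv.refl S.G).subtypeEquiv fun w => hz v w)
  refine not_min hZ (smaller S hT) hET ?_ ?_
  · obtain ⟨g, hg⟩ := hne
    exact ⟨Additive.ofMul g, fun h => hg h⟩
  · intro z hz0 hm k a b h1 h2 h3 h4 h5
    have hmr : MinRk S (Additive.toMul z) := by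
      refine ⟨fun h => hz0 h, fun v hv => ?_⟩
      have := hm (Additive.ofMul v) (fun h => hv h)
      rw [hcard, hcard] at this
      exact this
    have e1 : S.q (Additive.toMul z) (Additive.toMul k) = S.zero := (hz _ _).1 h1
    have e2 : S.q (Additive.toMul k) (Additive.toMul a) = S.zero := (hz _ _).1 h2
    have e3 : S.q (Additive.toMul k * Additive.toMul z) (Additive.toMul b) = S.zero :=
      (hz _ _).1 h3
    rw [hz]
    rcases h _ hmr _ _ _ e1 e2 e3 with h6 | h6 | h6
    · exact absurd ((hz _ _).2 h6) h4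
    · exact absurd ((hz _ _).2 h6) h5
    · exact (S.qs3 _ _ _).1 h6

/-- **Note 2502: (D2) at the elements of minimal rank implies the elementary type conjecture for
`-1 = 1`.** It is enough to know (D2) in structures all of whose smaller structures are of
elementary type. -/
theorem all_of_D2 (h : ∀ S : QStruct, Finite S.G → S.neg = 1 →
      (∀ T : QStruct, Finite T.G → T.neg = 1 → Nat.card T.G < Nat.card S.G → ElemType T) →
      ¬ ElemType S → ∀ x, MinRk S x → D2Q S x) :
    ∀ S : QStruct, Finite S.G → S.neg = 1 → ElemType S := by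
  intro S hf hneg
  induction hn : Nat.card S.G using Nat.strong_induction_on generalizing S with
  | _ n ih =>
    subst hn
    have hT : ∀ T : QStruct, Finite T.G → T.neg = 1 → Nat.card T.G < Nat.card S.G →
        ElemType T := fun T hf' hn' hc => ih (Nat.card T.G) hc T hf' hn' rfl
    by_contra hS
    by_cases h1 : ∃ g : S.G, g ≠ 1
    · exact hS (top_D2 S hneg hT (h S hf hneg hT hS) h1)
    · push Not at h1
      refine hS (ElemType.L0 S ?_)
      rw [Nat.card_eq_one_iff_unique]
      exact ⟨⟨fun a b => (h1 a).trans (h1 b).symm⟩, ⟨1⟩⟩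

end Pool.Agent.ETCD2
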