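import Mathlib

/-!
One-symbol geometries: relations `Z a b` (commute) and `N a b` (`q (a, b) = c`), `c`-linked.
helper62's THEOREM AN-M (note 2587), set-valued form, part 1 (helper24).
-/

set_option autoImplicit false
set_option linter.unusedSectionVars false
set_option linter.unusedVariables false

namespace Pool.Agent.ETCD2.OG

variable {V : Type} [AddCommGroup V] [Module (ZMod 2) V]

theorem two (v : V) : v + v = 0 := ZModModule.add_self v

theorem eo {a b : V} (h : a + b = 0) : a = b := by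
  have : a + b + b = 0 + b := by rw [h]
  rwa [add_assoc, two, add_zero, zero_add] at this

theorem aax (a b : V) : a + b + b = a := by rw [add_assoc, two, add_zero]

theorem xaa (a b : V) : a + (a + b) = b := by rw [← add_assoc, two, zero_add]

/-- a `c`-linked one-symbol geometry -/
structure Geo (Z N : V → V → Prop) : Prop where
  zs : ∀ {a b}, Z a b → Z b a
  ns : ∀ {a b}, N a b → N b a
  za : ∀ a, Z a a
  zadd : ∀ {a b b'}, Z a b → Z a b' → Z a (b + b')
  nadd : ∀ {a b v}, N a b → Z a v → N a (b + v)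
  nn : ∀ {a b b'}, N a b → N a b' → Z a (b + b')
  nz : ∀ {a b}, N a b → ¬ Z a b
  link : ∀ {s t r r'}, N s r → N t r' → ∃ y, N s y ∧ N t y

/-- slots -/
def Sl (N : V → V → Prop) (s : V) : Prop := ∃ v, N s v

variable {Z N : V → V → Prop}

namespace Geo

theorem z0 (G : Geo Z N) (a : V) : Z a 0 := by
  rw [← two a]; exact G.zadd (G.za a) (G.za a)

theorem zsub (G : Geo Z N) {a b v : V} (h : Z a (b + v)) (h' : Z a v) : Z a b := by
  have := G.zadd h h'
  rwa [aax] at this

theorem zadd' (G : Geo Z N) {a a' b : V} (h : Z a b) (h' : Z a' b) : Z (a + a') b :=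
  G.zs (G.zadd (G.zs h) (G.zs h'))

theorem nadd' (G : Geo Z N) {a v b : V} (h : N a b) (h' : Z v b) : N (a + v) b :=
  G.ns (G.nadd (G.ns h) (G.zs h'))

theorem nn' (G : Geo Z N) {a a' b : V} (h : N a b) (h' : N a' b) : Z (a + a') b :=
  G.zs (G.nn (G.ns h) (G.ns h'))

/-- `q a v = 0` from `q a (b + v) = c` and `q a b = c` -/
theorem zc (G : Geo Z N) {a b v : V} (h : N a b) (h' : N a (b + v)) : Z a v := by
  have := G.nn h h'
  rwa [xaa] at this

theorem zc' (G : Geo Z N) {a b v : V} (h : N a b) (h' : N (a + v) b) : Z v b :=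
  G.zs (G.zc (G.ns h) (G.ns h'))

/-- `q a v = c` from `q a (b + v) = c` and `q a b = 0` -/
theorem nc (G : Geo Z N) {a b v : V} (h : Z a b) (h' : N a (b + v)) : N a v := by
  have := G.nadd h' h
  rwa [add_comm b v, aax] at this

theorem nc' (G : Geo Z N) {a b v : V} (h : Z a b) (h' : N (a + v) b) : N v b :=
  G.ns (G.nc (G.zs h) (G.ns h'))

theorem sl (G : Geo Z N) {s t : V} (h : N s t) : Sl N s := ⟨t, h⟩

theorem sl' (G : Geo Z N) {s t : V} (h : N s t) : Sl N t := ⟨s, G.ns h⟩

theorem lk (G : Geo Z N) {s t : V} (hs : Sl N s) (ht : Sl N t) : ∃ y, N s y ∧ N t y := by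
  obtain ⟨r, hr⟩ := hs
  obtain ⟨r', hr'⟩ := ht
  exact G.link hr hr'

theorem slz (G : Geo Z N) {s : V} (hs : Sl N s) : s ≠ 0 := by
  rintro rfl
  obtain ⟨v, hv⟩ := hs
  exact G.nz hv (G.zs (G.z0 v))

/-- `V_v` -/
def K (G : Geo Z N) (v : V) : Submodule (ZMod 2) V where
  carrier := {w | Z v w}
  add_mem' := G.zadd
  zero_mem' := G.z0 v
  smul_mem' := by
    intro k a ha
    have z2 : ∀ k : ZMod 2, k = 0 ∨ k = 1 := by decide
    rcases z2 k with rfl | rfl
    · rw [zero_smul]; exact G.z0 v
    · rw [one_smul]; exact ha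

theorem mem_K (G : Geo Z N) {v w : V} : w ∈ G.K v ↔ Z v w := Iff.rfl

/-- `V_x ∩ V_t` -/
def D (G : Geo Z N) (x t : V) : Submodule (ZMod 2) V := G.K x ⊓ G.K t

theorem mem_D (G : Geo Z N) {x t m : V} : m ∈ G.D x t ↔ Z x m ∧ Z t m := Iff.rfl

theorem D_comm (G : Geo Z N) (x t : V) : G.D x t = G.D t x := inf_comm _ _

/-- number of elements of a coset -/
theorem card_coset (W : Submodule (ZMod 2) V) (P : V → Prop) (r0 : V)
    (h : ∀ v, P (v + r0) ↔ v ∈ W) : Nat.card {r : V // P r} = Nat.card W :=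
  Nat.card_congr
    { toFun := fun r => ⟨r.1 + r0, (h _).1 (by rw [aax]; exact r.2)⟩
      invFun := fun v => ⟨v.1 + r0, (h _).2 v.2⟩
      left_inv := fun r => Subtype.ext (aax _ _)
      right_inv := fun r => Subtype.ext (aax _ _) }

theorem iffN (G : Geo Z N) {s r0 : V} (h : N s r0) (v : V) : N s (v + r0) ↔ Z s v := by
  rw [add_comm]
  exact ⟨fun h' => G.zc h h', fun h' => G.nadd h h'⟩

theorem iffZ (G : Geo Z N) {s r0 : V} (h : Z s r0) (v : V) : Z s (v + r0) ↔ Z s v :=
  ⟨fun h' => G.zsub h' h, fun h' => G.zadd h' h⟩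

theorem card_N (G : Geo Z N) {s r0 : V} (h : N s r0) :
    Nat.card {r : V // N s r} = Nat.card (G.K s) := card_coset _ _ r0 fun v => G.iffN h v

theorem card_NN (G : Geo Z N) {s t r0 : V} (h : N s r0) (h' : N t r0) :
    Nat.card {r : V // N s r ∧ N t r} = Nat.card (G.D s t) :=
  card_coset _ _ r0 fun v => and_congr (G.iffN h v) (G.iffN h' v)

theorem card_ZN (G : Geo Z N) {s t r0 : V} (h : Z s r0) (h' : N t r0) :
    Nat.card {r : V // Z s r ∧ N t r} = Nat.card (G.D s t) :=
  card_coset _ _ r0 fun v => and_congr (G.iffZ h v) (G.iffN h' v)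

theorem card_NZ (G : Geo Z N) {s t r0 : V} (h : N s r0) (h' : Z t r0) :
    Nat.card {r : V // N s r ∧ Z t r} = Nat.card (G.D s t) :=
  card_coset _ _ r0 fun v => and_congr (G.iffN h v) (G.iffZ h' v)

/-- symmetry of the counts -/
theorem cnt_swap (G : Geo Z N) {s t : V} (hs : Sl N s) (ht : Sl N t) :
    Nat.card {r : V // Z s r ∧ N t r} = Nat.card {r : V // N s r ∧ Z t r} := by
  by_cases h : Sl N (s + t)
  · obtain ⟨r, h1, h2⟩ := G.lk ht h
    obtain ⟨r', h1', h2'⟩ := G.lk hs h
    have a1 : Z s r := by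
      rw [add_comm s t] at h2
      exact G.zc' h1 h2
    have a2 : Z t r' := G.zc' h1' h2'
    rw [G.card_ZN a1 h1, G.card_NZ h1' a2]
  · have e1 : IsEmpty {r : V // Z s r ∧ N t r} :=
      ⟨fun r => h ⟨r.1, by rw [add_comm]; exact G.nadd' r.2.2 r.2.1⟩⟩
    have e2 : IsEmpty {r : V // N s r ∧ Z t r} := ⟨fun r => h ⟨r.1, G.nadd' r.2.1 r.2.2⟩⟩
    rw [Nat.card_of_isEmpty, Nat.card_of_isEmpty]

/-- thin is global -/
theorem thin1 [Finite V] (G : Geo Z N) {x : V} (hx : Sl N x)
    (thin : ∀ v, Sl N v → Z x v → v = x) {t s : V} (ht : Sl N t) (hs : Sl N s)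
    (hts : Z t s) : s = t := by
  classical
  have := Fintype.ofFinite V
  have cc : ∀ P : V → Prop, Nat.card {r : V // P r} = ∑ r : V, if P r then 1 else 0 := by
    intro P
    rw [Nat.card_eq_fintype_card, Fintype.card_subtype, Finset.card_filter]
  have key1 : ∑ s : V, (if Z t s then Nat.card {r : V // N s r ∧ N x r} else 0) =
      ∑ r : V, (if N x r then Nat.card {s : V // Z t s ∧ N r s} else 0) := by
    have e1 : ∀ s : V, (if Z t s then Nat.card {r : V // N s r ∧ N x r} else 0) =
        ∑ r : V, (if Z t s ∧ N s r ∧ N x r then 1 else 0) := by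
      intro s
      by_cases h : Z t s
      · simp only [h, if_true, true_and]
        rw [cc]
        congr!
      · simp only [h, if_false, false_and, Finset.sum_const_zero]
    have e2 : ∀ r : V, (if N x r then Nat.card {s : V // Z t s ∧ N r s} else 0) =
        ∑ s : V, (if Z t s ∧ N s r ∧ N x r then 1 else 0) := by
      intro r
      by_cases h : N x r
      · simp only [h, if_true, and_true]
        rw [cc]
        refine Finset.sum_congr rfl fun s _ => ?_
        have : N r s ↔ N s r := ⟨G.ns, G.ns⟩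
        simp only [this]
      · simp only [h, if_false, and_false, Finset.sum_const_zero]
    simp only [e1, e2]
    exact Finset.sum_comm
  have key2 : ∑ r : V, (if N x r then Nat.card {s : V // N t s ∧ Z r s} else 0) =
      ∑ s : V, (if N t s then Nat.card {r : V // Z s r ∧ N x r} else 0) := by
    have e1 : ∀ s : V, (if N t s then Nat.card {r : V // Z s r ∧ N x r} else 0) =
        ∑ r : V, (if N t s ∧ Z s r ∧ N x r then 1 else 0) := by
      intro s
      by_cases h : N t s
      · simp only [h, if_true, true_and]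
        rw [cc]
        congr!
      · simp only [h, if_false, false_and, Finset.sum_const_zero]
    have e2 : ∀ r : V, (if N x r then Nat.card {s : V // N t s ∧ Z r s} else 0) =
        ∑ s : V, (if N t s ∧ Z s r ∧ N x r then 1 else 0) := by
      intro r
      by_cases h : N x r
      · simp only [h, if_true, and_true]
        rw [cc]
        refine Finset.sum_congr rfl fun s _ => ?_
        have : Z r s ↔ Z s r := ⟨G.zs, G.zs⟩
        simp only [this]
      · simp only [h, if_false, and_false, Finset.sum_const_zero]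
    simp only [e1, e2]
    exact Finset.sum_comm
  have key3 : ∑ r : V, (if N x r then Nat.card {s : V // Z t s ∧ N r s} else 0) =
      ∑ r : V, (if N x r then Nat.card {s : V // N t s ∧ Z r s} else 0) := by
    refine Finset.sum_congr rfl fun r _ => ?_
    by_cases h : N x r
    · simp only [h, if_true]
      exact G.cnt_swap ht (G.sl' h)
    · simp only [h, if_false]
  have key4 : ∑ s : V, (if N t s then Nat.card {r : V // Z s r ∧ N x r} else 0) =
      ∑ s : V, (if N t s then Nat.card {r : V // N s r ∧ Z x r} else 0) := by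
    refine Finset.sum_congr rfl fun s _ => ?_
    by_cases h : N t s
    · simp only [h, if_true]
      exact G.cnt_swap (G.sl' h) hx
    · simp only [h, if_false]
  have key5 : ∑ s : V, (if N t s then Nat.card {r : V // N s r ∧ Z x r} else 0) =
      Nat.card {s : V // N t s ∧ N x s} := by
    rw [cc]
    refine Finset.sum_congr rfl fun s _ => ?_
    by_cases h : N t s
    · simp only [h, if_true, true_and]
      by_cases h' : N x s
      · simp only [h', if_true]
        rw [Nat.card_eq_one_iff_unique]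
        refine ⟨⟨fun a b => ?_⟩, ⟨⟨x, G.ns h', G.za x⟩⟩⟩
        have ha := thin a.1 (G.sl' a.2.1) a.2.2
        have hb := thin b.1 (G.sl' b.2.1) b.2.2
        exact Subtype.ext (ha.trans hb.symm)
      · simp only [h', if_false]
        have : IsEmpty {r : V // N s r ∧ Z x r} := by
          refine ⟨fun a => h' ?_⟩
          have ha := thin a.1 (G.sl' a.2.1) a.2.2
          have := a.2.1
          rw [ha] at this
          exact G.ns this
        rw [Nat.card_of_isEmpty]
    · simp only [h, if_false, false_and]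
  have main : ∑ s : V, (if Z t s then Nat.card {r : V // N s r ∧ N x r} else 0) =
      Nat.card {s : V // N t s ∧ N x s} := key1.trans (key3.trans (key2.trans (key4.trans key5)))
  by_contra hne
  have pos : 0 < Nat.card {r : V // N s r ∧ N x r} := by
    obtain ⟨r, h1, h2⟩ := G.lk hs hx
    have : Nonempty {r : V // N s r ∧ N x r} := ⟨⟨r, h1, h2⟩⟩
    exact Nat.card_pos
  have h1 : Nat.card {r : V // N s r ∧ N x r} + Nat.card {s : V // N t s ∧ N x s} ≤
      ∑ s : V, (if Z t s then Nat.card {r : V // N s r ∧ N x r} else 0) := by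
    have h2 : ∑ v ∈ ({s, t} : Finset V), (if Z t v then Nat.card {r : V // N v r ∧ N x r} else 0) ≤
        ∑ v : V, (if Z t v then Nat.card {r : V // N v r ∧ N x r} else 0) :=
      Finset.sum_le_sum_of_subset (Finset.subset_univ _)
    rw [Finset.sum_pair hne, if_pos hts, if_pos (G.za t)] at h2
    exact h2
  omega

end Geo

/-- a thin symbol -/
structure Th (Z N : V → V → Prop) : Prop extends Geo Z N where
  thin : ∀ t s, Sl N t → Sl N s → Z t s → s = t

namespace Th

/-- slots `s, t, s + t` of `c` give `q s t = c` -/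
theorem adj (T : Th Z N) {s t : V} (hs : Sl N s) (ht : Sl N t) (hst : Sl N (s + t)) :
    N s t := by
  obtain ⟨r, h1, h2⟩ := T.lk ht hst
  rw [add_comm s t] at h2
  have h3 : Z s r := T.zc' h1 h2
  have h4 := T.thin s r hs (T.sl' h1) h3
  subst h4
  exact T.ns h1

/-- `q s t = c` implies `V_s ∩ V_t = 0` -/
theorem disj (T : Th Z N) {s t v : V} (h : N s t) (h1 : Z s v) (h2 : Z t v) :
    v = 0 := by
  have h3 : Sl N (s + v) := T.sl' (s := t) (T.nadd (T.ns h) h2)
  have h4 := T.thin s (s + v) (T.sl h) h3 (T.zadd (T.za s) h1)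
  exact add_eq_left.1 h4

/-- (3): `z ∈ S ∩ X_d`, `z' ∈ S ∩ X_{c+d}` are adjacent -/
theorem zz (T : Th Z N) {x z z' : V} (hz : Sl N z) (hz' : Sl N z') (h : N x (z + z')) :
    N z z' := T.adj hz hz' (T.sl' h)

/-- (3): the directions -/
theorem dir (T : Th Z N) {x z z' m : V} (hz : Sl N z) (hz' : Sl N z')
    (h : N x (z + z')) (hm : Z x m) : Sl N (z + m) ↔ Z z' m := by
  have h1 := T.zz hz hz' h
  constructor
  · intro h2
    have h3 : N (z + m) z' := by
      apply T.zz h2 hz' (x := x)
      have : z + m + z' = z + z' + m := by abel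
      rw [this]
      exact T.nadd h hm
    exact T.zs (T.zc' h1 h3)
  · intro h2
    exact T.sl (t := z') (T.nadd' h1 (T.zs h2))

/-- (4): the two directions commute -/
theorem four (T : Th Z N) {x z z' m m' : V} (hz : Sl N z) (hz' : Sl N z')
    (h : N x (z + z')) (hm : Z x m) (hm' : Z x m') (h1 : Z z' m)
    (h2 : Z z m') : Z m m' := by
  have a1 : Sl N (z + m) := (T.dir hz hz' h hm).2 h1
  have a2 : Sl N (z' + m') := (T.dir hz' hz (by rw [add_comm]; exact h) hm').2 h2
  have a3 := T.zz a1 a2 (x := x) (by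
    have : z + m + (z' + m') = z + z' + (m + m') := by abel
    rw [this]
    exact T.nadd h (T.zadd hm hm'))
  have a0 := T.zz hz hz' h
  have b0 : N (z + m) z' := T.nadd' a0 (T.zs h1)
  have b1 : Z (z + m) m' := T.zc b0 a3
  have b2 : Z (z + m + z) m' := T.zadd' b1 h2
  have e : z + m + z = m := by rw [add_comm z m, aax]
  rwa [e] at b2

/-- (5) (first half): `c ∉ J_t` -/
theorem five0 (T : Th Z N) {x t v : V} (hx : Sl N x) (ht : Sl N t) (hxt : ¬ N x t)
    (hv : Z t v) : ¬ N x v := by
  intro h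
  exact hxt (T.adj hx ht (T.sl (t := v) (T.nadd' h hv)))

end Th

/-- powers of two -/
theorem pow2 {W : Type} [AddCommGroup W] [Module (ZMod 2) W] [Finite W] :
    ∃ n : ℕ, Nat.card W = 2 ^ n := by
  have := Module.natCard_eq_pow_finrank (K := ZMod 2) (V := W)
  rw [Nat.card_zmod] at this
  exact ⟨_, this⟩

theorem half_of_lt {a b : ℕ} (ha : ∃ n : ℕ, a = 2 ^ n) (hb : ∃ n : ℕ, b = 2 ^ n) (h : a < b) :
    2 * a ≤ b := by
  obtain ⟨m, rfl⟩ := ha
  obtain ⟨n, rfl⟩ := hb
  have h1 : m < n := (Nat.pow_lt_pow_iff_right (by norm_num)).1 h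
  calc 2 * 2 ^ m = 2 ^ (m + 1) := by ring
    _ ≤ 2 ^ n := Nat.pow_le_pow_right (by norm_num) h1

theorem pow_mul {a b : ℕ} (ha : ∃ n : ℕ, a = 2 ^ n) (hb : ∃ n : ℕ, b = 2 ^ n) :
    ∃ n : ℕ, a * b = 2 ^ n := by
  obtain ⟨m, rfl⟩ := ha
  obtain ⟨n, rfl⟩ := hb
  exact ⟨m + n, by rw [pow_add]⟩

end Pool.Agent.ETCD2.OG
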