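import Pool.Agent.ETCD2.OG1

/-!
helper62's THEOREM AN-M (note 2587), set-valued: steps (6)-(10) (helper24).
-/

set_option autoImplicit false
set_option linter.unusedSectionVars false
set_option linter.unusedVariables false

namespace Pool.Agent.ETCD2.OG

variable {V : Type} [AddCommGroup V] [Module (ZMod 2) V] {Z N : V → V → Prop} {M : ℕ}

/-- a thin symbol, all centralizers have at most `M` elements -/
structure MX (Z N : V → V → Prop) (M : ℕ) : Prop extends Th Z N where
  mx : ∀ v, v ≠ 0 → Nat.card {w : V // Z v w} ≤ M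

/-- `x, t ∈ S`, `|V_x| = M`, `q x t` not in `<c>` -/
structure P (Z N : V → V → Prop) (M : ℕ) (x t : V) : Prop where
  sx : Sl N x
  cx : Nat.card {w : V // Z x w} = M
  st : Sl N t
  n0 : ¬ Z x t
  nc : ¬ N x t

variable [Finite V]

/-- (6) -/
theorem MX.six (X : MX Z N M) {x t : V} (p : P Z N M x t) :
    4 * Nat.card (X.D x t) ≤ M := by
  obtain ⟨y, hy1, hy2⟩ := X.lk p.sx p.st
  have hne : x + t ≠ 0 := by
    intro h
    have h1 : x = t := eo h
    exact p.n0 (by rw [← h1]; exact X.za x)
  refine le_trans ?_ (X.mx (x + t) hne)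
  have zy : Z (x + t) y := X.nn' hy1 hy2
  have zxt : Z (x + t) (x + t) := X.za _
  have smulK : ∀ (i : ZMod 2) (v : V), Z (x + t) v → Z (x + t) (i • v) := fun i v hv =>
    (X.K (x + t)).smul_mem i hv
  let f : (X.D x t) × (ZMod 2 × ZMod 2) → {w : V // Z (x + t) w} := fun w =>
    ⟨w.1 + (w.2.1 • y + w.2.2 • (x + t)), X.zadd (X.zadd' w.1.2.1 w.1.2.2)
      (X.zadd (smulK _ _ zy) (smulK _ _ zxt))⟩
  have key : ∀ (m : V) (i j : ZMod 2), m ∈ X.D x t → m + (i • y + j • (x + t)) = 0 →
      m = 0 ∧ i = 0 ∧ j = 0 := by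
    intro m i j hm h
    have z2 : ∀ a : ZMod 2, a = 0 ∨ a = 1 := by decide
    have hm1 : Z x m := hm.1
    rcases z2 i with rfl | rfl <;> rcases z2 j with rfl | rfl
    · rw [zero_smul, zero_smul, add_zero, add_zero] at h
      exact ⟨h, rfl, rfl⟩
    · rw [zero_smul, one_smul, zero_add] at h
      have h1 : m = x + t := eo h
      rw [h1] at hm1
      exact absurd (X.zsub (b := t) (v := x) (by rw [add_comm]; exact hm1) (X.za x)) p.n0
    · rw [one_smul, zero_smul, add_zero] at h
      have h1 : m = y := eo h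
      rw [h1] at hm1
      exact absurd hm1 (X.nz hy1)
    · rw [one_smul, one_smul] at h
      have h1 : m = y + (x + t) := eo h
      rw [h1] at hm1
      have h2 : Z x (y + t) := by
        refine X.zsub (v := x) ?_ (X.za x)
        have : y + t + x = y + (x + t) := by abel
        rw [this]
        exact hm1
      refine absurd ?_ p.nc
      have h3 : N x (y + (y + t)) := X.nadd hy1 h2
      rwa [xaa] at h3
  have inj : Function.Injective f := by
    rintro ⟨m, i, j⟩ ⟨m', i', j'⟩ h
    have h1 : (m : V) + (i • y + j • (x + t)) = m' + (i' • y + j' • (x + t)) :=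
      congrArg Subtype.val h
    have h2 : ((m : V) - m') + ((i - i') • y + (j - j') • (x + t)) = 0 := by
      rw [sub_smul, sub_smul]
      have : (m : V) - m' + (i • y - i' • y + (j • (x + t) - j' • (x + t))) =
        ((m : V) + (i • y + j • (x + t))) - (m' + (i' • y + j' • (x + t))) := by abel
      rw [this, h1, sub_self]
    obtain ⟨e1, e2, e3⟩ := key _ _ _ ((X.D x t).sub_mem m.2 m'.2) h2
    rw [sub_eq_zero] at e1 e2 e3
    rw [e2, e3, Subtype.ext e1]
  have := Nat.card_le_card_of_injective f inj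
  rw [Nat.card_prod, Nat.card_prod, Nat.card_zmod] at this
  omega

/-- (9) -/
theorem MX.nine (X : MX Z N M) {x t z : V} (p : P Z N M x t) (hz : Sl N z)
    (hxz : N x (t + z)) : 2 * (Nat.card (X.D x t) * Nat.card (X.D x z)) ≤ M := by
  have tz : N t z := X.zz p.st hz hxz
  have cK : Nat.card {w : V // Z x w} = Nat.card (X.K x) := rfl
  let f : (X.D x t) × (X.D x z) → {w : V // Z x w} := fun w =>
    ⟨w.1 + w.2, X.zadd w.1.2.1 w.2.2.1⟩
  have inj : Function.Injective f := by
    rintro ⟨a, b⟩ ⟨a', b'⟩ h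
    have h1 : (a : V) + b = a' + b' := congrArg Subtype.val h
    have h2 : (a : V) + a' = b + b' := by
      have : (a : V) + a' = (a + b) + (a' + b) := by
        have : (a : V) + b + (a' + b) = a + a' + (b + b) := by abel
        rw [this, two, add_zero]
      rw [this, h1]
      have : (a' : V) + b' + (a' + b) = b + b' + (a' + a') := by abel
      rw [this, two, add_zero]
    have h3 : (a : V) + a' = 0 := by
      refine X.disj tz ?_ ?_
      · exact X.zadd a.2.2 a'.2.2
      · rw [h2]
        exact X.zadd b.2.2 b'.2.2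
    have e1 : a = a' := Subtype.ext (eo h3)
    rw [h3] at h2
    have e2 : b = b' := Subtype.ext (eo h2.symm)
    rw [e1, e2]
  have hle := Nat.card_le_card_of_injective f inj
  rw [Nat.card_prod, p.cx] at hle
  refine half_of_lt (pow_mul pow2 pow2) (by rw [← p.cx, cK]; exact pow2) (lt_of_le_of_ne hle ?_)
  intro heq
  have bij := inj.bijective_of_nat_card_le (by rw [Nat.card_prod, heq, p.cx])
  obtain ⟨⟨a, b⟩, hab⟩ := bij.2 ⟨x, X.za x⟩
  have hx : (a : V) + b = x := congrArg Subtype.val hab
  by_cases a0 : (a : V) = 0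
  · rw [a0, zero_add] at hx
    have h1 : Z z x := by rw [← hx]; exact b.2.2
    refine p.nc ?_
    have h3 := X.nadd hxz (X.zs h1)
    rwa [aax] at h3
  · -- `V_a` contains `V_x` and `t`
    have h1 : ∀ k, Z x k → Z (a : V) k := by
      intro k hk
      obtain ⟨⟨a', b'⟩, hk'⟩ := bij.2 ⟨k, hk⟩
      have hk'' : (a' : V) + b' = k := congrArg Subtype.val hk'
      have e1 : ∀ (u w : V), u ∈ X.D x t → w ∈ X.D x z → Z u w := by
        intro u w hu hw
        exact X.zs (X.four p.st hz hxz hw.1 hu.1 hw.2 hu.2)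
      have e2 : Z (a : V) a' := by
        have h3 : Z x (a' : V) := a'.2.1
        have h4 : (a : V) = x + b :=
          (aax (a : V) b).symm.trans (congrArg (fun w => w + (b : V)) hx)
        rw [h4]
        exact X.zadd' h3 (X.zs (e1 a' b a'.2 b.2))
      rw [← hk'']
      exact X.zadd e2 (e1 a b' a.2 b'.2)
    have h2 : Z (a : V) t := X.zs a.2.2
    have h4 : Nat.card {w : V // Z x w} < Nat.card {w : V // Z (a : V) w} := by
      apply Set.ncard_lt_ncard (s := {w : V | Z x w}) (t := {w : V | Z (a : V) w})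
      exact ⟨fun k hk => h1 k hk, fun h => p.n0 (h h2)⟩
    have h5 := X.mx (a : V) a0
    rw [p.cx] at h4
    omega

/-- adjacent to `t`, not in `X_{c+d}`: `V_x ∩ V_z = 0` -/
theorem MX.subA (X : MX Z N M) {x t z m : V} (p : P Z N M x t)
    (hmax : ∀ t', P Z N M x t' → Nat.card (X.D x t') ≤ Nat.card (X.D x t)) (htz : N t z)
    (hxz : ¬ N x (t + z)) (h1 : Z x m) (h2 : Z z m) : m = 0 := by
  have zS : Sl N z := X.sl' htz
  by_cases hc : N x z
  · exact X.disj hc h1 h2
  have hx0 : ¬ Z x z := by
    intro h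
    have h3 := X.thin x z p.sx zS h
    rw [h3] at htz
    exact p.nc (X.ns htz)
  obtain ⟨y0, hy1, hy2⟩ := X.lk p.sx p.st
  have hd : ¬ Z x (z + t) := by
    intro h
    refine X.five0 p.sx p.st p.nc (v := z + y0 + t) ?_ ?_
    · exact X.zadd (X.nn htz hy2) (X.za t)
    · have : z + y0 + t = y0 + (z + t) := by abel
      rw [this]
      exact X.nadd hy1 h
  -- `z0 = y0 + t`
  have hz0 : N t (y0 + t) := X.nadd hy2 (X.za t)
  have z0S : Sl N (y0 + t) := X.sl' hz0
  have tz0 : N x (t + (y0 + t)) := by
    have : t + (y0 + t) = y0 + (t + t) := by abel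
    rw [this, two, add_zero]
    exact hy1
  have i1 : Z (y0 + t) m := by
    refine (X.dir p.st z0S tz0 h1).1 (X.sl' (s := z) ?_)
    exact X.nadd (X.ns htz) h2
  -- `r0 = z + t`, `z3 = r0 + y1`
  have hr0 : N t (z + t) := X.nadd htz (X.za t)
  have r0S : Sl N (z + t) := X.sl' hr0
  obtain ⟨y1, g1, g2⟩ := X.lk p.sx r0S
  have z3S : Sl N (z + t + y1) := by
    refine X.sl' (s := z + t) ?_
    rw [add_comm (z + t) y1]
    exact X.nadd g2 (X.za _)
  have e3 : N x (z + t + (z + t + y1)) := by rw [xaa]; exact g1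
  have p3 : P Z N M x (z + t + y1) := by
    refine ⟨p.sx, p.cx, z3S, ?_, ?_⟩
    · intro h
      apply hxz
      have h5 : N x (y1 + (z + t + y1)) := X.nadd g1 h
      have : y1 + (z + t + y1) = t + z := by
        have : y1 + (z + t + y1) = (t + z) + (y1 + y1) := by abel
        rw [this, two, add_zero]
      rwa [this] at h5
    · intro h
      apply hd
      have h5 := X.nn g1 h
      have : y1 + (z + t + y1) = z + t := by
        have : y1 + (z + t + y1) = (z + t) + (y1 + y1) := by abel
        rw [this, two, add_zero]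
      rwa [this] at h5
  have hle : X.D x t ≤ X.D x (z + t + y1) := by
    intro m' hm'
    refine ⟨hm'.1, (X.dir r0S z3S e3 hm'.1).1 (X.sl' (s := t) ?_)⟩
    exact X.nadd hr0 hm'.2
  have heq : X.D x t = X.D x (z + t + y1) := by
    refine SetLike.coe_injective (Set.eq_of_subset_of_ncard_le hle ?_ (Set.toFinite _))
    exact hmax _ p3
  have i2 : Z t m := by
    have h3 : m ∈ X.D x (z + t + y1) := by
      refine ⟨h1, (X.dir r0S z3S e3 h1).1 (X.sl' (s := z) ?_)⟩
      have h6 : N z (t + z) := X.nadd (X.ns htz) (X.za z)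
      rw [add_comm z t]
      exact X.nadd h6 h2
    rw [← heq] at h3
    exact h3.2
  exact X.disj (s := t) (t := y0 + t) hz0 i2 i1

/-- adjacent to `t`, in `X_{c+d}`: `V_x ∩ V_z` is independent of `z` -/
theorem MX.subB (X : MX Z N M) {x t z z' : V} (p : P Z N M x t) (hz : Sl N z)
    (hz' : Sl N z') (h : N x (t + z)) (h' : N x (t + z')) : X.D x z = X.D x z' := by
  ext m
  rw [X.mem_D, X.mem_D]
  refine and_congr_right fun hm => ?_
  rw [← X.dir p.st hz h hm, ← X.dir p.st hz' h' hm]

/-- **(10)** -/
theorem MX.ten (X : MX Z N M) {x t : V} (p : P Z N M x t)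
    (hmax : ∀ t', P Z N M x t' → Nat.card (X.D x t') ≤ Nat.card (X.D x t)) :
    Nat.card {w : V // Z t w} = M := by
  classical
  have := Fintype.ofFinite V
  have cK : ∀ v, Nat.card {w : V // Z v w} = Nat.card (X.K v) := fun _ => rfl
  have cc : ∀ P : V → Prop, Nat.card {r : V // P r} = ∑ r : V, if P r then 1 else 0 := by
    intro P
    rw [Nat.card_eq_fintype_card, Fintype.card_subtype, Finset.card_filter]
  obtain ⟨y0, hy1, hy2⟩ := X.lk p.sx p.st
  have hz0 : N t (y0 + t) := X.nadd hy2 (X.za t)
  have z0S : Sl N (y0 + t) := X.sl' hz0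
  have tz0 : N x (t + (y0 + t)) := by
    have : t + (y0 + t) = y0 + (t + t) := by abel
    rw [this, two, add_zero]
    exact hy1
  have t0 : t ≠ 0 := X.slz p.st
  set k := Nat.card (X.D x (y0 + t)) with hk
  have kpos : 0 < k := Nat.card_pos
  -- lower bound
  have low : M ≤ ∑ z : V, (if N t z then Nat.card {y : V // N x y ∧ N z y} else 0) := by
    have e1 : M = ∑ y : V, (if N x y then 1 else 0) := by
      rw [← p.cx, cK, ← X.card_N hy1, cc]
    have e2 : ∀ z : V, (if N t z then Nat.card {y : V // N x y ∧ N z y} else 0) =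
        ∑ y : V, (if N x y ∧ N t z ∧ N z y then 1 else 0) := by
      intro z
      by_cases h : N t z
      · simp only [h, if_true, true_and]
        rw [cc]
        congr!
      · simp only [h, if_false, false_and, and_false, Finset.sum_const_zero]
    rw [e1]
    simp only [e2]
    rw [Finset.sum_comm]
    refine Finset.sum_le_sum fun y _ => ?_
    by_cases h : N x y
    · obtain ⟨r, g1, g2⟩ := X.lk (X.sl' h) p.st
      rw [if_pos h]
      refine le_trans ?_ (Finset.single_le_sum (f := fun z =>
        if N x y ∧ N t z ∧ N z y then 1 else 0) (fun _ _ => Nat.zero_le _)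
        (Finset.mem_univ r))
      rw [if_pos ⟨h, g2, X.ns g1⟩]
    · rw [if_neg h]
      exact Nat.zero_le _
  -- upper bound
  have up : ∑ z : V, (if N t z then Nat.card {y : V // N x y ∧ N z y} else 0) ≤
      ∑ z : V, ((if N t z then 1 else 0) +
        (if N t z ∧ N x (t + z) then (k - 1) else 0)) := by
    refine Finset.sum_le_sum fun z _ => ?_
    by_cases h : N t z
    · have zS : Sl N z := X.sl' h
      obtain ⟨r, g1, g2⟩ := X.lk p.sx zS
      rw [if_pos h, if_pos h, X.card_NN g1 g2]
      by_cases h' : N x (t + z)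
      · rw [if_pos ⟨h, h'⟩]
        have e : X.D x z = X.D x (y0 + t) := X.subB p zS z0S h' tz0
        rw [e]
        omega
      · rw [if_neg (fun h3 => h' h3.2), add_zero]
        have : Subsingleton (X.D x z) := ⟨fun a b => by
          apply Subtype.ext
          have ha := X.subA p hmax h h' a.2.1 a.2.2
          have hb := X.subA p hmax h h' b.2.1 b.2.2
          rw [ha, hb]⟩
        exact Finite.card_le_one_iff_subsingleton.2 this
    · rw [if_neg h, if_neg h, if_neg (fun h3 => h h3.1)]
  have e1 : ∑ z : V, (if N t z then 1 else 0) = Nat.card (X.K t) := by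
    rw [← X.card_N hy2, cc]
  have e2 : ∑ z : V, (if N t z ∧ N x (t + z) then (k - 1) else 0) =
      Nat.card (X.D x t) * (k - 1) := by
    have h1 : ∑ z : V, (if N t z ∧ N x (t + z) then (k - 1) else 0) =
        Nat.card {z : V // N t z ∧ N x (t + z)} * (k - 1) := by
      rw [Nat.card_eq_fintype_card, Fintype.card_subtype, ← Finset.sum_filter,
        Finset.sum_const, smul_eq_mul]
    have h2 : Nat.card {z : V // N t z ∧ N x (t + z)} = Nat.card (X.D x t) := by
      refine Geo.card_coset _ _ (y0 + t) fun v => ?_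
      rw [X.iffN hz0 v, X.mem_D]
      have : t + (v + (y0 + t)) = v + y0 := by
        have : t + (v + (y0 + t)) = (v + y0) + (t + t) := by abel
        rw [this, two, add_zero]
      rw [this, X.iffN hy1 v]
      exact and_comm
    rw [h1, h2]
  rw [Finset.sum_add_distrib, e1, e2] at up
  have h9 := X.nine p z0S tz0
  rw [← hk] at h9
  have hle := X.mx t t0
  rcases lt_or_eq_of_le hle with hlt | heq
  · exfalso
    have h3 := half_of_lt (by rw [cK]; exact pow2) (by rw [← p.cx, cK]; exact pow2) hlt
    rw [cK] at h3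
    have dpos : 0 < Nat.card (X.D x t) := Nat.card_pos
    have h4 : Nat.card (X.D x t) * (k - 1) + Nat.card (X.D x t) = Nat.card (X.D x t) * k := by
      obtain ⟨k', hk'⟩ := Nat.exists_eq_succ_of_ne_zero kpos.ne'
      rw [hk']
      simp only [Nat.succ_eq_add_one, Nat.add_sub_cancel]
      ring
    omega
  · exact heq

end Pool.Agent.ETCD2.OG
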