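import Pool.Agent.ETCM.Rec
import Pool.Agent.ESL.DEG
import Pool.Agent.ESL.EXTREC
import Pool.Agent.Lib_MP_d26ff6_al.Main

/-!
Preservation of elementary type (helper50): basic facts, and structures with the same
nondegenerate part.
-/

set_option autoImplicit false
set_option linter.unusedSectionVars false
set_option linter.unusedVariables false

namespace Pool.Agent.ETCD2.Pres

open QS

theorem q1 (S : QStruct) (a : S.G) : S.q 1 a = S.zero := by rw [S.qs2, S.q_one]

theorem mm (S : QStruct) (a b : S.G) : a * (a * b) = b := by rw [← mul_assoc, S.exp_two, one_mul]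

theorem inv_eq (S : QStruct) (a : S.G) : a⁻¹ = a := inv_eq_of_mul_eq_one_right (S.exp_two a)

theorem prodrec : ESL.Stmt_PRODREC := ESL.prodrec_proof ESL.isoc_proof

theorem extrec : ESL.Stmt_EXTREC := ESL.extrec_proof ESL.isoc_proof

theorem deg : ESL.Stmt_DEG := ESL.deg_proof prodrec

theorem prod_z {S T : QStruct} (x w : S.G × T.G) :
    (QS.prod S T).q x w = (QS.prod S T).zero ↔ S.q x.1 w.1 = S.zero ∧ T.q x.2 w.2 = T.zero := by
  show (S.q x.1 w.1, T.q x.2 w.2) = (S.zero, T.zero) ↔ _
  rw [Prod.mk.injEq]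

theorem ext_z {S : QStruct} (u v : S.G × Multiplicative (ZMod 2)) :
    (QS.ext S).q u v = (QS.ext S).zero ↔ extMap S u v = (S.zero, 1) :=
  Subtype.ext_iff

theorem ext_z11 {S : QStruct} (a b : S.G) :
    (QS.ext S).q (a, 1) (b, 1) = (QS.ext S).zero ↔ S.q a b = S.zero := by
  rw [ext_z, extMap_one_one, Prod.mk.injEq]
  exact and_iff_left rfl

theorem ext_z1x {S : QStruct} (a b : S.G) :
    (QS.ext S).q (a, 1) (b, Multiplicative.ofAdd 1) = (QS.ext S).zero ↔ a = 1 := by
  rw [ext_z, extMap_one_x, Prod.mk.injEq]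
  constructor
  · exact fun h => h.2
  · rintro rfl
    exact ⟨q1 S b, rfl⟩

theorem ext_zx1 {S : QStruct} (a b : S.G) :
    (QS.ext S).q (a, Multiplicative.ofAdd 1) (b, 1) = (QS.ext S).zero ↔ b = 1 := by
  rw [(QS.ext S).qs2]
  exact ext_z1x b a

theorem ext_zxx {S : QStruct} (hneg : S.neg = 1) (a b : S.G) :
    (QS.ext S).q (a, Multiplicative.ofAdd 1) (b, Multiplicative.ofAdd 1) = (QS.ext S).zero ↔
      a = b := by
  rw [ext_z, extMap_x_x, Prod.mk.injEq, hneg, one_mul, ← eq_iff_mul]
  constructor
  · exact fun h => h.2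
  · rintro rfl
    refine ⟨?_, rfl⟩
    have := S.qs1 a
    rwa [hneg, one_mul] at this

theorem q_self (S : QStruct) (hneg : S.neg = 1) (a : S.G) : S.q a a = S.zero := by
  have := S.qs1 a
  rwa [hneg, one_mul] at this

/-- the element `a` of `A[t]` -/
def ea {A : QStruct} (a : A.G) : (QS.ext A).G := (a, 1)

/-- the element `a t` of `A[t]` -/
def et {A : QStruct} (a : A.G) : (QS.ext A).G := (a, Multiplicative.ofAdd 1)

section ext
variable {A : QStruct}

theorem ext_cases (g : (QS.ext A).G) : (∃ a, g = ea a) ∨ ∃ a, g = et a := by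
  obtain ⟨a, α⟩ := g
  rcases two_cases α with rfl | rfl
  · exact Or.inl ⟨a, rfl⟩
  · exact Or.inr ⟨a, rfl⟩

theorem ea_one : (ea 1 : (QS.ext A).G) = 1 := rfl

theorem ea_inj {a b : A.G} (h : ea a = ea b) : a = b := congrArg Prod.fst h

theorem et_inj {a b : A.G} (h : et a = et b) : a = b := congrArg Prod.fst h

theorem ea_ne_et (a b : A.G) : ea a ≠ et b := by
  intro h
  have : (1 : Multiplicative (ZMod 2)) = Multiplicative.ofAdd 1 := congrArg Prod.snd h
  exact absurd this (by decide)

theorem ea_mul_ea (a b : A.G) : ea a * ea b = ea (a * b) := rfl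

theorem ea_mul_et (a b : A.G) : ea a * et b = et (a * b) := Prod.ext rfl (one_mul _)

theorem et_mul_ea (a b : A.G) : et a * ea b = et (a * b) := Prod.ext rfl (mul_one _)

theorem et_mul_et (a b : A.G) : et a * et b = ea (a * b) := Prod.ext rfl x_mul_x

theorem zaa (a b : A.G) : (QS.ext A).q (ea a) (ea b) = (QS.ext A).zero ↔ A.q a b = A.zero :=
  ext_z11 a b

theorem zat (a b : A.G) : (QS.ext A).q (ea a) (et b) = (QS.ext A).zero ↔ a = 1 :=
  ext_z1x a b

theorem zta (a b : A.G) : (QS.ext A).q (et a) (ea b) = (QS.ext A).zero ↔ b = 1 :=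
  ext_zx1 a b

theorem ztt (hneg : A.neg = 1) (a b : A.G) :
    (QS.ext A).q (et a) (et b) = (QS.ext A).zero ↔ a = b :=
  ext_zxx hneg a b

/-- the inclusion `A → A[t]` -/
def eaHom (A : QStruct) : A.G →* (QS.ext A).G where
  toFun := ea
  map_one' := rfl
  map_mul' := fun _ _ => rfl

@[simp] theorem eaHom_apply (a : A.G) : eaHom A a = ea a := rfl

end ext

/-- isomorphism from the relation `q = 0` -/
theorem isoc {S T : QStruct} (hS : S.neg = 1) (hT : T.neg = 1) (φ : S.G ≃* T.G)
    (h : ∀ a b, S.q a b = S.zero ↔ T.q (φ a) (φ b) = T.zero) : Iso S T :=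
  ESL.isoc_proof S T φ (by rw [hS, hT, map_one]) h

theorem iso_z {S T : QStruct} {φ : S.G ≃* T.G}
    (h : ∀ a b c d, S.q a b = S.q c d ↔ T.q (φ a) (φ b) = T.q (φ c) (φ d)) (a b : S.G) :
    S.q a b = S.zero ↔ T.q (φ a) (φ b) = T.zero := by
  rw [← S.q_one 1, ← T.q_one 1, h, map_one]

/-- a structure with a group of order at most one -/
theorem elem_triv (S : QStruct) (h : ∀ g : S.G, g = 1) : ElemType S :=
  ElemType.L0 S (Nat.card_eq_one_iff_unique.2 ⟨⟨fun a b => (h a).trans (h b).symm⟩, ⟨1⟩⟩)

theorem zero_mul_left {S : QStruct} {a c : S.G} (h : S.q a c = S.zero) (b : S.G) :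
    S.q (a * b) c = S.zero ↔ S.q b c = S.zero := by
  rw [S.qs2, S.qs2 b, S.q_zero_mul (by rw [S.qs2]; exact h)]

theorem zero_mul_right {S : QStruct} {a c : S.G} (h : S.q a c = S.zero) (b : S.G) :
    S.q a (c * b) = S.zero ↔ S.q a b = S.zero := by
  rw [S.q_zero_mul h]

/-- the element `s` is in the radical -/
def Rad (S : QStruct) (s : S.G) : Prop := ∀ b, S.q s b = S.zero

theorem Rad.one (S : QStruct) : Rad S 1 := q1 S

theorem Rad.mul {S : QStruct} {a b : S.G} (ha : Rad S a) (hb : Rad S b) : Rad S (a * b) :=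
  fun c => (zero_mul_left (ha c) b).2 (hb c)

/-- `i : T → S` identifies `T` modulo its radical with `S` modulo its radical -/
structure SameNd (S T : QStruct) (i : T.G →* S.G) : Prop where
  neg : T.neg = 1
  zero : ∀ a b, T.q a b = T.zero ↔ S.q (i a) (i b) = S.zero
  surj : ∀ s, ∃ t, Rad S (s * i t)

theorem SameNd.rad {S T : QStruct} {i : T.G →* S.G} (h : SameNd S T i) (t : T.G) :
    Rad S (i t) ↔ Rad T t := by
  constructor
  · intro h1 b
    rw [h.zero]
    exact h1 _
  · intro h1 s
    obtain ⟨t', ht'⟩ := h.surj s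
    have h2 : S.q (s * i t') (i t) = S.zero := ht' _
    have h3 : S.q (i t') (i t) = S.zero := by
      rw [S.qs2, ← h.zero]
      exact h1 t'
    rw [S.qs2]
    rw [mul_comm] at h2
    exact (zero_mul_left h3 s).1 h2

theorem prod_rad {A B : QStruct} (s : A.G × B.G) :
    Rad (QS.prod A B) s ↔ Rad A s.1 ∧ Rad B s.2 := by
  constructor
  · intro h
    exact ⟨fun b => ((prod_z s (b, 1)).1 (h _)).1, fun b => ((prod_z s (1, b)).1 (h _)).2⟩
  · rintro ⟨h1, h2⟩ b
    exact (prod_z s b).2 ⟨h1 _, h2 _⟩

/-- nondegenerate case of `SameNd.elem` -/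
theorem sameNd_nd {S : QStruct} (hS : ElemType S) : Finite S.G → S.neg = 1 →
    ∀ (T : QStruct) (i : T.G →* S.G), SameNd S T i → (∀ t, Rad T t → t = 1) → ElemType T := by
  -- the case of a nondegenerate `S`
  have key : ∀ S : QStruct, ElemType S → S.neg = 1 → (∀ s, Rad S s → s = 1) →
      ∀ (T : QStruct) (i : T.G →* S.G), SameNd S T i → (∀ t, Rad T t → t = 1) → ElemType T := by
    intro S hS hneg hr T i h hnd
    have hb : Function.Bijective i := by
      constructor
      · rw [injective_iff_map_eq_one]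
        intro t ht
        apply hnd
        rw [← h.rad, ht]
        exact Rad.one S
      · intro s
        obtain ⟨t, ht⟩ := h.surj s
        exact ⟨t, ((eq_iff_mul S s (i t)).2 (hr _ ht)).symm⟩
    refine ElemType.iso S T (isoc hneg h.neg (MulEquiv.ofBijective i hb).symm ?_) hS
    intro a b
    rw [h.zero]
    have e : ∀ x, i ((MulEquiv.ofBijective i hb).symm x) = x := fun x =>
      (MulEquiv.ofBijective i hb).apply_symm_apply x
    rw [e, e]
  -- the totally degenerate case
  have triv : ∀ S : QStruct, (∀ a b, S.q a b = S.zero) →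
      ∀ (T : QStruct) (i : T.G →* S.G), SameNd S T i → (∀ t, Rad T t → t = 1) → ElemType T := by
    intro S h0 T i h hnd
    refine elem_triv T fun g => hnd g fun b => ?_
    rw [h.zero, h0]
  induction hS with
  | L0 S h =>
    intro _ _
    refine triv S fun a b => ?_
    have : Subsingleton S.G := (Nat.card_eq_one_iff_unique.1 h).1
    rw [Subsingleton.elim b 1, S.q_one]
  | L10 S h h1 h2 => exact fun _ _ => triv S h2
  | L11 S h h1 h2 => exact fun _ hn => absurd hn h1
  | L1 S h h1 h2 => exact fun _ hn => absurd hn h1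
  | loc S hf h h1 h2 =>
    intro _ hn
    exact key S (ElemType.loc S hf h h1 h2) hn h1
  | prod A B hA hB ihA ihB =>
    intro hf hn T i h hnd
    have hf' : Finite (A.G × B.G) := hf
    have : Finite A.G := Finite.of_surjective (Prod.fst : A.G × B.G → A.G) Prod.fst_surjective
    have : Finite B.G := Finite.of_surjective (Prod.snd : A.G × B.G → B.G) Prod.snd_surjective
    have hnA : A.neg = 1 := congrArg Prod.fst hn
    have hnB : B.neg = 1 := congrArg Prod.snd hn
    -- components of `i`
    let i1 : T.G →* A.G := (MonoidHom.fst A.G B.G).comp i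
    let i2 : T.G →* B.G := (MonoidHom.snd A.G B.G).comp i
    have hz : ∀ a b, T.q a b = T.zero ↔ A.q (i1 a) (i1 b) = A.zero ∧ B.q (i2 a) (i2 b) = B.zero :=
      fun a b => (h.zero a b).trans (prod_z _ _)
    have hrad : ∀ t, Rad A (i1 t) → Rad B (i2 t) → t = 1 := by
      intro t h1 h2
      refine hnd t fun b => ?_
      rw [hz]
      exact ⟨h1 _, h2 _⟩
    let UA : Subgroup T.G :=
      { carrier := {t | Rad B (i2 t)}
        mul_mem' := fun {a b} ha hb => by
          show Rad B (i2 (a * b))
          rw [map_mul]; exact Rad.mul ha hb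
        one_mem' := by
          show Rad B (i2 1)
          rw [map_one]; exact Rad.one B
        inv_mem' := fun {a} ha => by
          show Rad B (i2 a⁻¹)
          rw [inv_eq]; exact ha }
    let UB : Subgroup T.G :=
      { carrier := {t | Rad A (i1 t)}
        mul_mem' := fun {a b} ha hb => by
          show Rad A (i1 (a * b))
          rw [map_mul]; exact Rad.mul ha hb
        one_mem' := by
          show Rad A (i1 1)
          rw [map_one]; exact Rad.one A
        inv_mem' := fun {a} ha => by
          show Rad A (i1 a⁻¹)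
          rw [inv_eq]; exact ha }
    have hUA : ∀ t, t ∈ UA ↔ Rad B (i2 t) := fun t => Iff.rfl
    have hUB : ∀ t, t ∈ UB ↔ Rad A (i1 t) := fun t => Iff.rfl
    have sA : ∀ a : A.G, ∃ t ∈ UA, Rad A (a * i1 t) := by
      intro a
      obtain ⟨t, ht⟩ := h.surj (a, 1)
      have ht' := (prod_rad _).1 ht
      refine ⟨t, ?_, ht'.1⟩
      have h2 : Rad B (1 * i2 t) := ht'.2
      rw [one_mul] at h2
      exact h2
    have sB : ∀ b : B.G, ∃ t ∈ UB, Rad B (b * i2 t) := by
      intro b
      obtain ⟨t, ht⟩ := h.surj (1, b)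
      have ht' := (prod_rad _).1 ht
      refine ⟨t, ?_, ht'.2⟩
      have h2 : Rad A (1 * i1 t) := ht'.1
      rw [one_mul] at h2
      exact h2
    have hc : IsCompl UA UB := by
      constructor
      · rw [Subgroup.disjoint_def]
        intro t h1 h2
        exact hrad t h2 h1
      · rw [codisjoint_iff, Subgroup.eq_top_iff']
        intro t
        obtain ⟨t1, ht1, ht2⟩ := sA (i1 t)
        rw [← map_mul] at ht2
        have e : t = t1 * (t * t1) := by
          rw [mul_comm t, mm]
        rw [e]
        exact Subgroup.mul_mem _ (Subgroup.mem_sup_left ht1) (Subgroup.mem_sup_right ht2)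
    have dropr : ∀ {X : QStruct} {a b c : X.G}, Rad X b → (X.q a (c * b) = X.zero ↔
        X.q a c = X.zero) := by
      intro X a b c hb
      rw [mul_comm]
      exact zero_mul_right (by rw [X.qs2]; exact hb a) c
    have dropl : ∀ {X : QStruct} {a b c : X.G}, Rad X b → (X.q (a * b) c = X.zero ↔
        X.q a c = X.zero) := by
      intro X a b c hb
      rw [mul_comm]
      exact zero_mul_left (hb c) a
    obtain ⟨SA, SB, f, g, nA, nB, zA, zB, hiso⟩ := prodrec T h.neg UA UB hc (by
      intro a ha b hb a' ha' b' hb'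
      rw [hz, hz, hz, map_mul, map_mul, map_mul, map_mul]
      rw [dropl (X := A) hb, dropr (X := A) hb', mul_comm (i2 a), mul_comm (i2 a'),
        dropl (X := B) ha, dropr (X := B) ha']
      have e1 : B.q (i2 a) (i2 a') = B.zero := ha _
      have e2 : A.q (i1 b) (i1 b') = A.zero := hb _
      simp only [e1, e2, and_true, true_and])
    refine ElemType.iso _ _ hiso (ElemType.prod SA SB ?_ ?_)
    · refine ihA inferInstance hnA SA (i1.comp (UA.subtype.comp f.toMonoidHom)) ⟨nA, ?_, ?_⟩ ?_
      · intro a b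
        rw [zA, hz]
        exact and_iff_left ((f a).2 _)
      · intro s
        obtain ⟨t, ht1, ht2⟩ := sA s
        refine ⟨f.symm ⟨t, ht1⟩, ?_⟩
        have e : ((i1.comp (UA.subtype.comp f.toMonoidHom)) (f.symm ⟨t, ht1⟩)) = i1 t := by
          show i1 ((f (f.symm ⟨t, ht1⟩) : UA) : T.G) = _
          rw [f.apply_symm_apply]
        rw [e]
        exact ht2
      · intro t ht
        have h1 : Rad A (i1 (f t : T.G)) := by
          intro a
          obtain ⟨t', ht1, ht2⟩ := sA a
          have h2 : A.q (i1 (f t : T.G)) (i1 t') = A.zero := by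
            have h3 := ht (f.symm ⟨t', ht1⟩)
            rw [zA, f.apply_symm_apply, hz] at h3
            exact h3.1
          have h4 : A.q (i1 (f t : T.G)) (a * i1 t') = A.zero := by
            rw [A.qs2]; exact ht2 _
          rw [mul_comm] at h4
          exact (zero_mul_right h2 a).1 h4
        have h5 : (f t : T.G) = 1 := hrad _ h1 (f t).2
        apply f.injective
        rw [map_one]
        exact Subtype.ext h5
    · refine ihB inferInstance hnB SB (i2.comp (UB.subtype.comp g.toMonoidHom)) ⟨nB, ?_, ?_⟩ ?_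
      · intro a b
        rw [zB, hz]
        exact and_iff_right ((g a).2 _)
      · intro s
        obtain ⟨t, ht1, ht2⟩ := sB s
        refine ⟨g.symm ⟨t, ht1⟩, ?_⟩
        have e : ((i2.comp (UB.subtype.comp g.toMonoidHom)) (g.symm ⟨t, ht1⟩)) = i2 t := by
          show i2 ((g (g.symm ⟨t, ht1⟩) : UB) : T.G) = _
          rw [g.apply_symm_apply]
        rw [e]
        exact ht2
      · intro t ht
        have h1 : Rad B (i2 (g t : T.G)) := by
          intro a
          obtain ⟨t', ht1, ht2⟩ := sB a
          have h2 : B.q (i2 (g t : T.G)) (i2 t') = B.zero := by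
            have h3 := ht (g.symm ⟨t', ht1⟩)
            rw [zB, g.apply_symm_apply, hz] at h3
            exact h3.2
          have h4 : B.q (i2 (g t : T.G)) (a * i2 t') = B.zero := by
            rw [B.qs2]; exact ht2 _
          rw [mul_comm] at h4
          exact (zero_mul_right h2 a).1 h4
        have h5 : (g t : T.G) = 1 := hrad _ (g t).2 h1
        apply g.injective
        rw [map_one]
        exact Subtype.ext h5
  | ext A hA ih =>
    intro hf hn
    have hn' : A.neg = 1 := congrArg Prod.fst hn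
    by_cases ht : ∀ a : A.G, a = 1
    · refine triv (QS.ext A) ?_
      rintro ⟨a, α⟩ ⟨b, β⟩
      rw [ht a, ht b]
      rcases two_cases α with rfl | rfl <;> rcases two_cases β with rfl | rfl
      · exact (ext_z11 _ _).2 (q1 A 1)
      · exact (ext_z1x _ _).2 rfl
      · exact (ext_zx1 _ _).2 rfl
      · exact (ext_zxx hn' _ _).2 rfl
    · push Not at ht
      obtain ⟨c, hc⟩ := ht
      refine key (QS.ext A) (ElemType.ext A hA) hn ?_
      rintro ⟨a, α⟩ hs
      rcases two_cases α with rfl | rfl
      · have := (ext_z1x a 1).1 (hs (1, Multiplicative.ofAdd 1))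
        rw [this]; rfl
      · exact absurd ((ext_zx1 a c).1 (hs (c, 1))) hc
  | iso S S' h1 h2 ih =>
    intro hf hn T i h hnd
    obtain ⟨φ, h3, h4⟩ := h1
    have hfS : Finite S.G := Finite.of_equiv _ φ.symm.toEquiv
    have hz := iso_z h4
    refine ih hfS (φ.injective (by rw [h3, hn, map_one])) T (φ.symm.toMonoidHom.comp i)
      ⟨h.neg, ?_, ?_⟩ hnd
    · intro a b
      rw [h.zero]
      have e : ∀ x, φ ((φ.symm.toMonoidHom.comp i) x) = i x := fun x => φ.apply_symm_apply _
      rw [hz, e, e]
    · intro s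
      obtain ⟨t, ht⟩ := h.surj (φ s)
      refine ⟨t, fun b => ?_⟩
      rw [hz, map_mul]
      have e : φ ((φ.symm.toMonoidHom.comp i) t) = i t := φ.apply_symm_apply _
      rw [e]
      exact ht _

/-- **structures with the same nondegenerate part** -/
theorem SameNd.elem {S T : QStruct} {i : T.G →* S.G} (h : SameNd S T i) (hS : ElemType S)
    [Finite S.G] [Finite T.G] (hneg : S.neg = 1) : ElemType T := by
  let Z : Subgroup T.G :=
    { carrier := {t | Rad T t}
      mul_mem' := fun {a b} ha hb => Rad.mul ha hb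
      one_mem' := Rad.one T
      inv_mem' := fun {a} ha => by
        show Rad T a⁻¹
        rw [inv_eq]; exact ha }
  obtain ⟨W, hWZ⟩ := ESL.J2RX.exists_compl T.exp_two Z
  have dropr : ∀ {a b c : T.G}, Rad T b → (T.q a (c * b) = T.zero ↔ T.q a c = T.zero) := by
    intro a b c hb
    rw [mul_comm]
    exact zero_mul_right (by rw [T.qs2]; exact hb a) c
  have dropl : ∀ {a b c : T.G}, Rad T b → (T.q (a * b) c = T.zero ↔ T.q a c = T.zero) := by
    intro a b c hb
    rw [mul_comm]
    exact zero_mul_left (hb c) a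
  obtain ⟨SA, SB, f, g, nA, nB, zA, zB, hiso⟩ := prodrec T h.neg W Z hWZ (by
    intro a ha b hb a' ha' b' hb'
    rw [dropl hb, dropr hb']
    exact (and_iff_left (hb b')).symm)
  have hfA : Finite SA.G := Finite.of_equiv W f.symm.toEquiv
  have hfB : Finite SB.G := Finite.of_equiv Z g.symm.toEquiv
  refine ElemType.iso _ _ hiso (ElemType.prod SA SB ?_ ?_)
  · refine sameNd_nd hS inferInstance hneg SA (i.comp (W.subtype.comp f.toMonoidHom))
      ⟨nA, ?_, ?_⟩ ?_
    · intro a b
      rw [zA, h.zero]
      rfl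
    · intro s
      obtain ⟨t, ht⟩ := h.surj s
      have hmem : t ∈ W ⊔ Z := by rw [hWZ.sup_eq_top]; trivial
      obtain ⟨w, hw, z, hz, rfl⟩ := Subgroup.mem_sup.1 hmem
      refine ⟨f.symm ⟨w, hw⟩, ?_⟩
      have e : (i.comp (W.subtype.comp f.toMonoidHom)) (f.symm ⟨w, hw⟩) = i w := by
        show i ((f (f.symm ⟨w, hw⟩) : W) : T.G) = _
        rw [f.apply_symm_apply]
      rw [e]
      have hz' : Rad S (i z) := (h.rad z).2 hz
      have h1 : Rad S (s * i (w * z) * i z) := Rad.mul ht hz'
      have h2 : s * i (w * z) * i z = s * i w := by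
        rw [map_mul, mul_assoc, mul_assoc, S.exp_two, mul_one]
      rwa [h2] at h1
    · intro t ht
      have h1 : (f t : T.G) ∈ Z := by
        intro b
        have hmem : b ∈ W ⊔ Z := by rw [hWZ.sup_eq_top]; trivial
        obtain ⟨w, hw, z, hz, rfl⟩ := Subgroup.mem_sup.1 hmem
        rw [dropr hz]
        have h2 := ht (f.symm ⟨w, hw⟩)
        rw [zA, f.apply_symm_apply] at h2
        exact h2
      have h2 : (f t : T.G) = 1 := Subgroup.disjoint_def.1 hWZ.disjoint (f t).2 h1
      apply f.injective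
      rw [map_one]
      exact Subtype.ext h2
  · refine deg SB hfB nB fun a b => ?_
    rw [zB]
    exact (g a).2 _

end Pool.Agent.ETCD2.Pres
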