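import Pool.Agent.ETCD2.Pres0

/-!
Preservation of elementary type (helper50): Pfister quotients of structures of elementary type
with `-1 = 1` are of elementary type.
-/

set_option autoImplicit false
set_option linter.unusedSectionVars false
set_option linter.unusedVariables false

namespace Pool.Agent.ETCD2

open QS Pres

/-- `P` (along `π`) is the quotient of `S` by the Pfister form of `x`: the group is `G / V_x` and
`q (π a, π b) = 0` iff `a V_x` and `b V_x` have commuting representatives -/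
structure PfQuot (S : QStruct) (x : S.G) (P : QStruct) (π : S.G →* P.G) : Prop where
  neg : P.neg = 1
  surj : Function.Surjective π
  ker : ∀ v, π v = 1 ↔ S.q x v = S.zero
  zero : ∀ a b, P.q (π a) (π b) = P.zero ↔
    ∃ u v, S.q x u = S.zero ∧ S.q x v = S.zero ∧ S.q (a * u) (b * v) = S.zero

namespace PfQuot

theorem eq_iff' {S : QStruct} {x : S.G} {P : QStruct} {π : S.G →* P.G} (h : PfQuot S x P π)
    (a b : S.G) : π a = π b ↔ S.q x (a * b) = S.zero := by
  rw [← h.ker, map_mul]
  exact eq_iff_mul P _ _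

/-- `x` in the radical -/
theorem triv {S : QStruct} {x : S.G} {P : QStruct} {π : S.G →* P.G} (h : PfQuot S x P π)
    (h0 : ∀ v, S.q x v = S.zero) : ElemType P := by
  refine elem_triv P fun g => ?_
  obtain ⟨a, rfl⟩ := h.surj g
  exact (h.ker a).2 (h0 a)

theorem of_loc {S : QStruct} {x : S.G} {P : QStruct} {π : S.G →* P.G} (h : PfQuot S x P π)
    (h2 : Nat.card S.Q = 2) {c : S.G} (hc : S.q x c ≠ S.zero) : ElemType P := by
  -- every value of `q (x, -)` is `0` or `q (x, c)`
  have hv : ∀ v, S.q x v = S.zero ∨ S.q x v = S.q x c := by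
    intro v
    by_contra hcon
    push Not at hcon
    have : Finite S.Q := Nat.finite_of_card_ne_zero (by omega)
    have h3 : ({S.zero, S.q x v, S.q x c} : Set S.Q).ncard = 3 :=
      Set.ncard_eq_three.2 ⟨_, _, _, hcon.1.symm, hc.symm, hcon.2, rfl⟩
    have h4 : ({S.zero, S.q x v, S.q x c} : Set S.Q).ncard ≤ Nat.card S.Q := Set.ncard_le_card _
    omega
  have hG : ∀ g : P.G, g = 1 ∨ g = π c := by
    intro g
    obtain ⟨a, rfl⟩ := h.surj g
    rcases hv a with h1 | h1
    · exact Or.inl ((h.ker a).2 h1)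
    · exact Or.inr ((h.eq_iff' a c).2 ((S.qs3 _ _ _).1 h1))
  have hne : (1 : P.G) ≠ π c := fun e => hc ((h.ker c).1 e.symm)
  refine ElemType.L10 P ?_ h.neg ?_
  · rw [Nat.card_eq_two_iff]
    refine ⟨1, π c, hne, ?_⟩
    ext g
    simpa using hG g
  · intro a b
    rcases hG a with rfl | rfl
    · exact q1 P b
    · rcases hG b with rfl | rfl
      · exact P.q_one _
      · exact q_self P h.neg _

theorem of_prod {A B : QStruct} {x : (QS.prod A B).G} {P : QStruct}
    {π : (QS.prod A B).G →* P.G} (h : PfQuot (QS.prod A B) x P π)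
    (hA : ∀ (P : QStruct) (π : A.G →* P.G), PfQuot A x.1 P π → ElemType P)
    (hB : ∀ (P : QStruct) (π : B.G →* P.G), PfQuot B x.2 P π → ElemType P) : ElemType P := by
  let πA : A.G →* P.G := π.comp (MonoidHom.inl A.G B.G)
  let πB : B.G →* P.G := π.comp (MonoidHom.inr A.G B.G)
  have hAB : ∀ a b, π (a, b) = πA a * πB b := by
    intro a b
    show π (a, b) = π (a, 1) * π (1, b)
    rw [← map_mul]
    congr 1
    exact Prod.ext (mul_one a).symm (one_mul b).symm
  have kA : ∀ a, πA a = 1 ↔ A.q x.1 a = A.zero := by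
    intro a
    show π (a, 1) = 1 ↔ _
    rw [h.ker, prod_z]
    exact and_iff_left (B.q_one _)
  have kB : ∀ b, πB b = 1 ↔ B.q x.2 b = B.zero := by
    intro b
    show π (1, b) = 1 ↔ _
    rw [h.ker, prod_z]
    exact and_iff_right (A.q_one _)
  have z : ∀ a b a' b', P.q (π (a, b)) (π (a', b')) = P.zero ↔
      (∃ u v, A.q x.1 u = A.zero ∧ A.q x.1 v = A.zero ∧ A.q (a * u) (a' * v) = A.zero) ∧
      ∃ u v, B.q x.2 u = B.zero ∧ B.q x.2 v = B.zero ∧ B.q (b * u) (b' * v) = B.zero := by
    intro a b a' b'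
    rw [h.zero]
    constructor
    · rintro ⟨u, v, h1, h2, h3⟩
      rw [prod_z] at h1 h2 h3
      exact ⟨⟨u.1, v.1, h1.1, h2.1, h3.1⟩, ⟨u.2, v.2, h1.2, h2.2, h3.2⟩⟩
    · rintro ⟨⟨u, v, h1, h2, h3⟩, ⟨u', v', h1', h2', h3'⟩⟩
      exact ⟨(u, u'), (v, v'), (prod_z _ _).2 ⟨h1, h1'⟩, (prod_z _ _).2 ⟨h2, h2'⟩,
        (prod_z _ _).2 ⟨h3, h3'⟩⟩
  have zA : ∀ a a', P.q (πA a) (πA a') = P.zero ↔
      ∃ u v, A.q x.1 u = A.zero ∧ A.q x.1 v = A.zero ∧ A.q (a * u) (a' * v) = A.zero := by
    intro a a'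
    show P.q (π (a, 1)) (π (a', 1)) = P.zero ↔ _
    rw [z]
    refine and_iff_left ⟨1, 1, B.q_one _, B.q_one _, ?_⟩
    rw [mul_one, B.q_one]
  have zB : ∀ b b', P.q (πB b) (πB b') = P.zero ↔
      ∃ u v, B.q x.2 u = B.zero ∧ B.q x.2 v = B.zero ∧ B.q (b * u) (b' * v) = B.zero := by
    intro b b'
    show P.q (π (1, b)) (π (1, b')) = P.zero ↔ _
    rw [z]
    refine and_iff_right ⟨1, 1, A.q_one _, A.q_one _, ?_⟩
    rw [mul_one, A.q_one]
  have hc : IsCompl πA.range πB.range := by
    constructor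
    · rw [Subgroup.disjoint_def]
      rintro _ ⟨a, rfl⟩ ⟨b, hb⟩
      rw [kA]
      have h1 : π (a, b) = 1 := by
        rw [hAB, hb, P.exp_two]
      rw [h.ker, prod_z] at h1
      exact h1.1
    · rw [codisjoint_iff, Subgroup.eq_top_iff']
      intro g
      obtain ⟨⟨a, b⟩, rfl⟩ := h.surj g
      rw [hAB]
      exact Subgroup.mul_mem _ (Subgroup.mem_sup_left ⟨a, rfl⟩) (Subgroup.mem_sup_right ⟨b, rfl⟩)
  obtain ⟨SA, SB, f, g, nA, nB, sA, sB, hiso⟩ := prodrec P h.neg πA.range πB.range hc (by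
    rintro _ ⟨a, rfl⟩ _ ⟨b, rfl⟩ _ ⟨a', rfl⟩ _ ⟨b', rfl⟩
    rw [← hAB, ← hAB, z, zA, zB])
  refine ElemType.iso _ _ hiso (ElemType.prod SA SB ?_ ?_)
  · refine hA SA (f.symm.toMonoidHom.comp πA.rangeRestrict) ⟨nA, ?_, ?_, ?_⟩
    · intro s
      obtain ⟨a, ha⟩ := (f s).2
      refine ⟨a, ?_⟩
      apply f.injective
      apply Subtype.ext
      show ((f (f.symm (πA.rangeRestrict a)) : πA.range) : P.G) = _
      rw [f.apply_symm_apply]
      exact ha
    · intro v
      rw [← kA]
      constructor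
      · intro e
        have e1 : f (f.symm (πA.rangeRestrict v)) = 1 := by
          have : f.symm (πA.rangeRestrict v) = 1 := e
          rw [this, map_one]
        rw [f.apply_symm_apply] at e1
        exact congrArg Subtype.val e1
      · intro e
        show f.symm (πA.rangeRestrict v) = 1
        have : πA.rangeRestrict v = 1 := Subtype.ext e
        rw [this, map_one]
    · intro a b
      rw [sA, ← zA]
      have e : ∀ x, ((f ((f.symm.toMonoidHom.comp πA.rangeRestrict) x) : πA.range) : P.G) =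
          πA x := by
        intro x
        show ((f (f.symm (πA.rangeRestrict x)) : πA.range) : P.G) = _
        rw [f.apply_symm_apply]
        rfl
      rw [e, e]
  · refine hB SB (g.symm.toMonoidHom.comp πB.rangeRestrict) ⟨nB, ?_, ?_, ?_⟩
    · intro s
      obtain ⟨a, ha⟩ := (g s).2
      refine ⟨a, ?_⟩
      apply g.injective
      apply Subtype.ext
      show ((g (g.symm (πB.rangeRestrict a)) : πB.range) : P.G) = _
      rw [g.apply_symm_apply]
      exact ha
    · intro v
      rw [← kB]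
      constructor
      · intro e
        have e1 : g (g.symm (πB.rangeRestrict v)) = 1 := by
          have : g.symm (πB.rangeRestrict v) = 1 := e
          rw [this, map_one]
        rw [g.apply_symm_apply] at e1
        exact congrArg Subtype.val e1
      · intro e
        show g.symm (πB.rangeRestrict v) = 1
        have : πB.rangeRestrict v = 1 := Subtype.ext e
        rw [this, map_one]
    · intro a b
      rw [sB, ← zB]
      have e : ∀ x, ((g ((g.symm.toMonoidHom.comp πB.rangeRestrict) x) : πB.range) : P.G) =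
          πB x := by
        intro x
        show ((g (g.symm (πB.rangeRestrict x)) : πB.range) : P.G) = _
        rw [g.apply_symm_apply]
        rfl
      rw [e, e]

/-- `A[t]` at `a t`: the quotient is `A` -/
theorem of_ext_x {A : QStruct} (hA : ElemType A) (hneg : A.neg = 1) {a : A.G} {P : QStruct}
    {π : (QS.ext A).G →* P.G} (h : PfQuot (QS.ext A) (et a) P π) : ElemType P := by
  have hV : ∀ u : (QS.ext A).G, (QS.ext A).q (et a) u = (QS.ext A).zero ↔
      u = 1 ∨ u = et a := by
    intro u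
    rcases ext_cases u with ⟨b, rfl⟩ | ⟨b, rfl⟩
    · rw [zta]
      constructor
      · rintro rfl; exact Or.inl rfl
      · rintro (h | h)
        · exact ea_inj h
        · exact absurd h (ea_ne_et b a)
    · rw [ztt hneg]
      constructor
      · rintro rfl; exact Or.inr rfl
      · rintro (h | h)
        · exact absurd h.symm (ea_ne_et 1 b)
        · exact (et_inj h).symm
  let i : A.G →* P.G := π.comp (eaHom A)
  have hi : ∀ b, i b = π (ea b) := fun b => rfl
  have hb : Function.Bijective i := by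
    constructor
    · rw [injective_iff_map_eq_one]
      intro b hb
      rw [hi, h.ker, zta] at hb
      exact hb
    · intro s
      obtain ⟨v, rfl⟩ := h.surj s
      rcases ext_cases v with ⟨b, rfl⟩ | ⟨b, rfl⟩
      · exact ⟨b, rfl⟩
      · refine ⟨b * a, ?_⟩
        rw [hi, h.eq_iff', hV, ea_mul_et, mul_comm (b * a), mm]
        exact Or.inr rfl
  refine ElemType.iso A P (isoc hneg h.neg (MulEquiv.ofBijective i hb) ?_) hA
  intro b c
  show A.q b c = A.zero ↔ P.q (π (ea b)) (π (ea c)) = P.zero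
  rw [h.zero]
  constructor
  · intro e
    refine ⟨1, 1, (QS.ext A).q_one _, (QS.ext A).q_one _, ?_⟩
    rw [mul_one, mul_one, zaa]
    exact e
  · rintro ⟨u, v, hu, hv, e⟩
    rcases (hV u).1 hu with rfl | rfl <;> rcases (hV v).1 hv with rfl | rfl
    · rw [mul_one, mul_one, zaa] at e
      exact e
    · rw [mul_one, ea_mul_et, zat] at e
      rw [e]
      exact q1 A c
    · rw [mul_one, ea_mul_et, zta] at e
      rw [e]
      exact A.q_one b
    · rw [ea_mul_et, ea_mul_et, ztt hneg] at e
      rw [mul_right_cancel e]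
      exact q_self A hneg c

/-- `A[t]` at `a ≠ 1`: the quotient is `A^(a)[t]` -/
theorem of_ext_1 {A : QStruct} (hneg : A.neg = 1) {a : A.G} (ha : a ≠ 1) {P : QStruct}
    {π : (QS.ext A).G →* P.G} (h : PfQuot (QS.ext A) (ea a) P π)
    (hA : ∀ (P : QStruct) (π : A.G →* P.G), PfQuot A a P π → ElemType P) : ElemType P := by
  have hV : ∀ u : (QS.ext A).G, (QS.ext A).q (ea a) u = (QS.ext A).zero →
      ∃ b, A.q a b = A.zero ∧ u = ea b := by
    intro u hu
    rcases ext_cases u with ⟨b, rfl⟩ | ⟨b, rfl⟩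
    · exact ⟨b, (zaa a b).1 hu, rfl⟩
    · exact absurd ((zat a b).1 hu) ha
  let i : A.G →* P.G := π.comp (eaHom A)
  have hi : ∀ b, i b = π (ea b) := fun b => rfl
  let t : P.G := π (et 1)
  have ki : ∀ b, i b = 1 ↔ A.q a b = A.zero := by
    intro b
    rw [hi, h.ker, zaa]
  have hit : ∀ b, i b * t = π (et b) := by
    intro b
    show π (ea b) * π (et 1) = _
    rw [← map_mul, ea_mul_et, mul_one]
  have zi : ∀ b c, P.q (i b) (i c) = P.zero ↔
      ∃ u v, A.q a u = A.zero ∧ A.q a v = A.zero ∧ A.q (b * u) (c * v) = A.zero := by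
    intro b c
    rw [hi, hi, h.zero]
    constructor
    · rintro ⟨u, v, hu, hv, e⟩
      obtain ⟨u', hu', rfl⟩ := hV u hu
      obtain ⟨v', hv', rfl⟩ := hV v hv
      exact ⟨u', v', hu', hv', (zaa (b * u') (c * v')).1 e⟩
    · rintro ⟨u, v, hu, hv, e⟩
      exact ⟨ea u, ea v, (zaa _ _).2 hu, (zaa _ _).2 hv, (zaa (b * u) (c * v)).2 e⟩
  obtain ⟨SH, f, nH, sH, hiso⟩ := extrec P h.neg i.range t (by
    rintro ⟨b, hb⟩
    have h1 : i b * t = 1 := by rw [hb, P.exp_two]
    rw [hit, h.ker, zat] at h1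
    exact ha h1) (by
    intro g
    obtain ⟨v, rfl⟩ := h.surj g
    rcases ext_cases v with ⟨b, rfl⟩ | ⟨b, rfl⟩
    · exact Or.inl ⟨b, rfl⟩
    · right
      rw [← hit, mul_assoc, P.exp_two, mul_one]
      exact ⟨b, rfl⟩) (by
    rintro _ ⟨b, rfl⟩ _ ⟨c, rfl⟩
    rw [hit, ki, hi, h.zero]
    constructor
    · rintro ⟨u, v, hu, hv, e⟩
      obtain ⟨u', hu', rfl⟩ := hV u hu
      obtain ⟨v', hv', rfl⟩ := hV v hv
      rw [ea_mul_ea, et_mul_ea, zat] at e
      rw [(eq_iff_mul A b u').2 e]
      exact hu'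
    · intro e
      refine ⟨ea b, 1, (zaa _ _).2 e, (QS.ext A).q_one _, ?_⟩
      rw [mul_one, ea_mul_ea, A.exp_two, zat]) (by
    rintro _ ⟨b, rfl⟩ _ ⟨c, rfl⟩
    rw [hit, hit, h.zero]
    constructor
    · rintro ⟨u, v, hu, hv, e⟩
      obtain ⟨u', hu', rfl⟩ := hV u hu
      obtain ⟨v', hv', rfl⟩ := hV v hv
      rw [et_mul_ea, et_mul_ea, ztt hneg] at e
      have e2 := congrArg i e
      rw [map_mul, map_mul, (ki u').2 hu', (ki v').2 hv', mul_one, mul_one] at e2
      exact e2
    · intro e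
      have e1 : A.q a (b * c) = A.zero := by
        rw [← ki, map_mul, e, P.exp_two]
      refine ⟨ea (b * c), 1, (zaa _ _).2 e1, (QS.ext A).q_one _, ?_⟩
      rw [mul_one, et_mul_ea, mm, ztt hneg])
  refine ElemType.iso _ _ hiso (ElemType.ext SH ?_)
  refine hA SH (f.symm.toMonoidHom.comp i.rangeRestrict) ⟨nH, ?_, ?_, ?_⟩
  · intro s
    obtain ⟨b, hb⟩ := (f s).2
    refine ⟨b, ?_⟩
    apply f.injective
    apply Subtype.ext
    show ((f (f.symm (i.rangeRestrict b)) : i.range) : P.G) = _
    rw [f.apply_symm_apply]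
    exact hb
  · intro v
    rw [← ki]
    constructor
    · intro e
      have e1 : f (f.symm (i.rangeRestrict v)) = 1 := by
        have : f.symm (i.rangeRestrict v) = 1 := e
        rw [this, map_one]
      rw [f.apply_symm_apply] at e1
      exact congrArg Subtype.val e1
    · intro e
      show f.symm (i.rangeRestrict v) = 1
      have : i.rangeRestrict v = 1 := Subtype.ext e
      rw [this, map_one]
  · intro b c
    rw [sH, ← zi]
    have e : ∀ x, ((f ((f.symm.toMonoidHom.comp i.rangeRestrict) x) : i.range) : P.G) =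
        i x := by
      intro x
      show ((f (f.symm (i.rangeRestrict x)) : i.range) : P.G) = _
      rw [f.apply_symm_apply]
      rfl
    rw [e, e]

end PfQuot

/-- **Pfister quotients of structures of elementary type are of elementary type** -/
theorem PfQuot.elem {S : QStruct} (hS : ElemType S) : S.neg = 1 →
    ∀ (x : S.G) (P : QStruct) (π : S.G →* P.G), PfQuot S x P π → ElemType P := by
  induction hS with
  | L0 S h =>
    intro _ x P π hP
    refine hP.triv fun v => ?_
    have : Subsingleton S.G := (Nat.card_eq_one_iff_unique.1 h).1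
    rw [Subsingleton.elim v 1, S.q_one]
  | L10 S h h1 h2 => exact fun _ x P π hP => hP.triv (h2 x)
  | L11 S h h1 h2 => exact fun hn => absurd hn h1
  | L1 S h h1 h2 => exact fun hn => absurd hn h1
  | loc S hf h h1 h2 =>
    intro _ x P π hP
    by_cases hx : ∀ v, S.q x v = S.zero
    · exact hP.triv hx
    · push Not at hx
      obtain ⟨c, hc⟩ := hx
      exact hP.of_loc h2 hc
  | prod A B hA hB ihA ihB =>
    intro hn x P π hP
    exact hP.of_prod (ihA (congrArg Prod.fst hn) x.1) (ihB (congrArg Prod.snd hn) x.2)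
  | ext A hA ih =>
    intro hn x P π hP
    have hn' : A.neg = 1 := congrArg Prod.fst hn
    rcases ext_cases x with ⟨a, rfl⟩ | ⟨a, rfl⟩
    · by_cases ha : a = 1
      · rw [ha] at hP
        exact hP.triv (q1 (QS.ext A))
      · exact PfQuot.of_ext_1 hn' ha hP (ih hn' a)
    · exact PfQuot.of_ext_x hA hn' hP
  | iso S S' h1 h2 ih =>
    intro hn x P π hP
    obtain ⟨φ, h3, h4⟩ := h1
    have hz := iso_z h4
    refine ih (φ.injective (by rw [h3, hn, map_one])) (φ.symm x) P (π.comp φ.toMonoidHom)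
      ⟨hP.neg, ?_, ?_, ?_⟩
    · intro s
      obtain ⟨v, hv⟩ := hP.surj s
      refine ⟨φ.symm v, ?_⟩
      show π (φ (φ.symm v)) = s
      rw [φ.apply_symm_apply, hv]
    · intro v
      show π (φ v) = 1 ↔ _
      rw [hP.ker, hz, φ.apply_symm_apply]
    · intro a b
      show P.q (π (φ a)) (π (φ b)) = P.zero ↔ _
      rw [hP.zero]
      constructor
      · rintro ⟨u, v, hu, hv, e⟩
        refine ⟨φ.symm u, φ.symm v, ?_, ?_, ?_⟩
        · rw [hz, φ.apply_symm_apply, φ.apply_symm_apply]; exact hu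
        · rw [hz, φ.apply_symm_apply, φ.apply_symm_apply]; exact hv
        · rw [hz, map_mul, map_mul, φ.apply_symm_apply, φ.apply_symm_apply]; exact e
      · rintro ⟨u, v, hu, hv, e⟩
        rw [hz, φ.apply_symm_apply] at hu hv
        rw [hz, map_mul, map_mul] at e
        exact ⟨φ u, φ v, hu, hv, e⟩

end Pool.Agent.ETCD2
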