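import Pool.Agent.ETCD2.Der2

/-!
Kernels of prime functionals of structures of elementary type (with `-1 = 1`) are of elementary type
(helper24).
-/

set_option autoImplicit false
set_option linter.unusedSectionVars false

namespace Pool.Agent.ETCD2

open QS Pool.Agent.RFT Pool.Agent.ETG Pool.Agent.RFN Pool.Agent.REG10 Pool.Agent.AST
open Pool.Agent.ETCLH Pool.Agent.ETCT

section
variable {V V' : Type} [AddCommGroup V] [Module (ZMod 2) V] [AddCommGroup V'] [Module (ZMod 2) V']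
  {Z : V → V → Prop} {Z' : V' → V' → Prop}

theorem etz_congr (e : V ≃+ V') (h : ∀ a b, Z a b ↔ Z' (e a) (e b)) (hE : ETZ Z) : ETZ Z' := by
  rintro T ⟨hneg, φ, hφ⟩
  refine hE T ⟨hneg, (AddEquiv.toMultiplicative e).trans φ, fun a b => ?_⟩
  rw [h]
  exact hφ (e a) (e b)

theorem lz_retr (hZ : LZ Z) (i : V' →+ V) (ρ : V →+ V') (h0 : ∀ v, ρ (i v) = v)
    (h1 : ∀ a b, Z' a b → Z (i a) (i b)) (h2 : ∀ a b, Z a b → Z' (ρ a) (ρ b)) : LZ Z' where
  symm := fun a b h => by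
    have := h2 _ _ (hZ.symm _ _ (h1 _ _ h))
    rwa [h0, h0] at this
  zero := fun a => by
    have := h2 _ _ (hZ.zero (i a))
    rwa [h0, map_zero] at this
  add := fun a b c h h' => by
    have := h2 _ _ (hZ.add _ _ _ (h1 _ _ h) (h1 _ _ h'))
    rwa [map_add, h0, h0, h0] at this
  alt := fun a => by
    have := h2 _ _ (hZ.alt (i a))
    rwa [h0] at this
  trans := by
    rintro a b c d a' b' ⟨x, e1, e2, e3⟩ ⟨y, f1, f2, f3⟩
    have g1 := h1 _ _ e1
    have g2 := h1 _ _ e2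
    have g3 := h1 _ _ e3
    have k1 := h1 _ _ f1
    have k2 := h1 _ _ f2
    have k3 := h1 _ _ f3
    rw [map_add] at g1 g2 g3 k1 k2 k3
    obtain ⟨z, m1, m2, m3⟩ := hZ.trans (i a) (i b) (i c) (i d) (i a') (i b') ⟨i x, g1, g2, g3⟩
      ⟨i y, k1, k2, k3⟩
    have n1 := h2 _ _ m1
    have n2 := h2 _ _ m2
    have n3 := h2 _ _ m3
    rw [map_add, h0, h0] at n1 n2 n3
    exact ⟨ρ z, n1, n2, n3⟩

/-- if `φ` is prime, its kernel is of elementary type -/
def KP1 (Z : V → V → Prop) (φ : V →ₗ[ZMod 2] ZMod 2) : Prop :=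
  PrimeZ Z φ → LZ (Rs Z (LinearMap.ker φ)) → ETZ (Rs Z (LinearMap.ker φ))

/-- kernels of prime functionals are of elementary type -/
def KP (Z : V → V → Prop) : Prop := ∀ φ : V →ₗ[ZMod 2] ZMod 2, KP1 Z φ

/-- a functional which does not vanish on the intersections of two centralizers does not vanish on
the radical -/
def SPr (Z : V → V → Prop) : Prop :=
  ∀ β : V →ₗ[ZMod 2] ZMod 2, (∀ b b', ∃ v, Z b v ∧ Z b' v ∧ β v = 1) →
    ∃ r, (∀ v, Z r v) ∧ β r = 1

/-- the linear map of an additive equivalence -/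
def lin (e : V ≃+ V') : V →ₗ[ZMod 2] V' := e.toAddMonoidHom.toZModLinearMap 2

theorem lin_apply (e : V ≃+ V') (v : V) : lin e v = e v := rfl

theorem kp1_congr (e : V ≃+ V') (h : ∀ a b, Z a b ↔ Z' (e a) (e b)) {φ : V' →ₗ[ZMod 2] ZMod 2}
    (hK : KP1 Z (φ.comp (lin e))) : KP1 Z' φ := by
  rintro ⟨h0, hφ⟩ hL
  let ψ : V →ₗ[ZMod 2] ZMod 2 := φ.comp (lin e)
  have hψ : ∀ v, ψ v = φ (e v) := fun v => rfl
  have h' : ∀ a b, Z' a b ↔ Z (e.symm a) (e.symm b) := by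
    intro a b
    rw [h, e.apply_symm_apply, e.apply_symm_apply]
  have hP : PrimeZ Z ψ := by
    refine ⟨fun hc => h0 ?_, ?_⟩
    · ext v
      have := LinearMap.congr_fun hc (e.symm v)
      rw [hψ, e.apply_symm_apply] at this
      exact this
    · rintro x y ⟨v1, a1, b1⟩ ⟨v2, a2, b2⟩ ⟨v3, a3, b3⟩
      obtain ⟨v, c1, c2, c3⟩ := hφ (e x) (e y) ⟨e v1, (h _ _).1 a1, b1⟩ ⟨e v2, (h _ _).1 a2, b2⟩
        ⟨e v3, by rw [← map_add]; exact (h _ _).1 a3, b3⟩
      refine ⟨e.symm v, ?_, ?_, ?_⟩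
      · rw [h, e.apply_symm_apply]; exact c1
      · rw [h, e.apply_symm_apply]; exact c2
      · rw [hψ, e.apply_symm_apply]; exact c3
  let eK : LinearMap.ker ψ ≃+ LinearMap.ker φ :=
    { toFun := fun v => ⟨e v, LinearMap.mem_ker.2 (LinearMap.mem_ker.1 v.2)⟩
      invFun := fun v => ⟨e.symm v, LinearMap.mem_ker.2 (by
        rw [hψ, e.apply_symm_apply]; exact LinearMap.mem_ker.1 v.2)⟩
      left_inv := fun v => Subtype.ext (e.symm_apply_apply _)
      right_inv := fun v => Subtype.ext (e.apply_symm_apply _)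
      map_add' := fun a b => Subtype.ext (map_add e _ _) }
  have hZK : ∀ a b : LinearMap.ker ψ, Rs Z _ a b ↔ Rs Z' _ (eK a) (eK b) := fun a b => h _ _
  refine etz_congr eK hZK (hK hP ?_)
  exact lz_retr hL eK.toAddMonoidHom eK.symm.toAddMonoidHom (fun v => eK.symm_apply_apply v)
    (fun a b hab => (hZK a b).1 hab) (fun a b hab => (hZK _ _).2 (by
      show Rs Z' _ (eK (eK.symm a)) (eK (eK.symm b))
      rw [eK.apply_symm_apply, eK.apply_symm_apply]; exact hab))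

theorem kp_congr (e : V ≃+ V') (h : ∀ a b, Z a b ↔ Z' (e a) (e b)) (hK : KP Z) : KP Z' :=
  fun _ => kp1_congr e h (hK _)

theorem spr_congr (e : V ≃+ V') (h : ∀ a b, Z a b ↔ Z' (e a) (e b)) (hK : SPr Z) : SPr Z' := by
  intro β hβ
  obtain ⟨r, h1, h2⟩ := hK (β.comp (lin e)) (fun b b' => by
    obtain ⟨v, c1, c2, c3⟩ := hβ (e b) (e b')
    refine ⟨e.symm v, ?_, ?_, ?_⟩
    · rw [h, e.apply_symm_apply]; exact c1
    · rw [h, e.apply_symm_apply]; exact c2
    · show β (e (e.symm v)) = 1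
      rw [e.apply_symm_apply]; exact c3)
  refine ⟨e r, fun v => ?_, h2⟩
  obtain ⟨v, rfl⟩ := e.surjective v
  exact (h _ _).1 (h1 v)

/-- the product relation -/
def PZ (Z : V → V → Prop) (Z' : V' → V' → Prop) (a b : V × V') : Prop := Z a.1 b.1 ∧ Z' a.2 b.2

theorem one_of_ne {a : ZMod 2} (h : a ≠ 0) : a = 1 := by revert a; decide

theorem spr_prod (hZ : SPr Z) (hZ' : SPr Z') (l : LZ Z) (l' : LZ Z') : SPr (PZ Z Z') := by
  intro φ hφ
  let α : V →ₗ[ZMod 2] ZMod 2 := φ.comp (LinearMap.inl (ZMod 2) V V')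
  let β : V' →ₗ[ZMod 2] ZMod 2 := φ.comp (LinearMap.inr (ZMod 2) V V')
  have hsum : ∀ a b, φ (a, b) = α a + β b := by
    intro a b
    show φ (a, b) = φ (a, 0) + φ (0, b)
    rw [← map_add, Prod.mk_add_mk, add_zero, zero_add]
  by_cases hα : ∀ b b', ∃ v, Z b v ∧ Z b' v ∧ α v = 1
  · obtain ⟨r, h1, h2⟩ := hZ α hα
    refine ⟨(r, 0), fun v => ⟨h1 _, l'.symm _ _ (l'.zero _)⟩, h2⟩
  by_cases hβ : ∀ b b', ∃ v, Z' b v ∧ Z' b' v ∧ β v = 1
  · obtain ⟨r, h1, h2⟩ := hZ' β hβ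
    refine ⟨(0, r), fun v => ⟨l.symm _ _ (l.zero _), h1 _⟩, h2⟩
  exfalso
  push Not at hα hβ
  obtain ⟨a, a', ha⟩ := hα
  obtain ⟨b, b', hb⟩ := hβ
  obtain ⟨⟨v, w⟩, ⟨e1, e2⟩, ⟨e3, e4⟩, e5⟩ := hφ (a, b) (a', b')
  rw [hsum] at e5
  rcases zz (α v) with h | h
  · rw [h, zero_add] at e5
    exact hb w e2 e4 e5
  · exact ha v e1 e3 h

/-! ### Kernels in products -/

theorem pz_lz (l : LZ Z) (l' : LZ Z') : LZ (PZ Z Z') where
  symm := fun a b h => ⟨l.symm _ _ h.1, l'.symm _ _ h.2⟩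
  zero := fun a => ⟨l.zero _, l'.zero _⟩
  add := fun a b c h h' => ⟨l.add _ _ _ h.1 h'.1, l'.add _ _ _ h.2 h'.2⟩
  alt := fun a => ⟨l.alt _, l'.alt _⟩
  trans := by
    rintro a b c d a' b' ⟨x, e1, e2, e3⟩ ⟨y, f1, f2, f3⟩
    obtain ⟨z, g1, g2, g3⟩ := l.trans a.1 b.1 c.1 d.1 a'.1 b'.1 ⟨x.1, e1.1, e2.1, e3.1⟩
      ⟨y.1, f1.1, f2.1, f3.1⟩
    obtain ⟨w, k1, k2, k3⟩ := l'.trans a.2 b.2 c.2 d.2 a'.2 b'.2 ⟨x.2, e1.2, e2.2, e3.2⟩
      ⟨y.2, f1.2, f2.2, f3.2⟩
    exact ⟨(z, w), ⟨g1, k1⟩, ⟨g2, k2⟩, ⟨g3, k3⟩⟩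

/-- the case of a functional which factors through the second component -/
theorem kp1_snd (l : LZ Z) (hE : ETZ Z) (hK' : KP Z')
    {φ : V × V' →ₗ[ZMod 2] ZMod 2} (hα : ∀ a, φ (a, 0) = 0) : KP1 (PZ Z Z') φ := by
  rintro ⟨h0, hφ⟩ hL
  let β : V' →ₗ[ZMod 2] ZMod 2 := φ.comp (LinearMap.inr (ZMod 2) V V')
  have hsum : ∀ a b, φ (a, b) = β b := by
    intro a b
    show φ (a, b) = φ (0, b)
    rw [← zero_add (φ (0, b)), ← hα a, ← map_add, Prod.mk_add_mk, add_zero, zero_add]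
  have hP : PrimeZ Z' β := by
    refine ⟨fun hc => h0 ?_, ?_⟩
    · apply LinearMap.ext
      rintro ⟨a, b⟩
      rw [hsum, hc]
      rfl
    · rintro x y ⟨v1, a1, b1⟩ ⟨v2, a2, b2⟩ ⟨v3, a3, b3⟩
      obtain ⟨⟨v, w⟩, c1, c2, c3⟩ := hφ (0, x) (0, y) ⟨(0, v1), ⟨l.zero _, a1⟩, b1⟩
        ⟨(0, v2), ⟨l.zero _, a2⟩, b2⟩ ⟨(0, v3), ⟨l.zero _, a3⟩, b3⟩
      exact ⟨w, c1.2, c2.2, by rw [← hsum v w]; exact c3⟩
  let i : LinearMap.ker β →+ LinearMap.ker φ :=
    { toFun := fun b => ⟨(0, b), LinearMap.mem_ker.2 (LinearMap.mem_ker.1 b.2)⟩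
      map_zero' := rfl
      map_add' := fun a b => Subtype.ext (Prod.ext (add_zero (0 : V)).symm rfl) }
  let ρ : LinearMap.ker φ →+ LinearMap.ker β :=
    { toFun := fun v => ⟨(v : V × V').2, LinearMap.mem_ker.2 (by
        rw [← hsum (v : V × V').1]; exact LinearMap.mem_ker.1 v.2)⟩
      map_zero' := rfl
      map_add' := fun a b => rfl }
  have hLK : LZ (Rs Z' (LinearMap.ker β)) :=
    lz_retr hL i ρ (fun v => rfl) (fun a b hab => ⟨l.zero _, hab⟩) (fun a b hab => hab.2)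
  let e : LinearMap.ker φ ≃+ V × LinearMap.ker β :=
    { toFun := fun v => ((v : V × V').1, ρ v)
      invFun := fun w => ⟨(w.1, w.2), LinearMap.mem_ker.2 (by
        rw [hsum]; exact LinearMap.mem_ker.1 w.2.2)⟩
      left_inv := fun v => rfl
      right_inv := fun v => rfl
      map_add' := fun a b => rfl }
  exact qpr_proof qex_proof qis_proof _ _ _ (Rs (PZ Z Z') (LinearMap.ker φ)) Z
    (Rs Z' (LinearMap.ker β)) e l hLK (fun a b => Iff.rfl) hE (hK' β hP hLK)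

theorem kp_prod [Finite V] [Finite V'] (l : LZ Z) (l' : LZ Z') (hE : ETZ Z) (hE' : ETZ Z')
    (hK : KP Z) (hK' : KP Z') (hS : SPr Z) (hS' : SPr Z') : KP (PZ Z Z') := by
  intro φ
  by_cases hα : ∀ a, φ (a, 0) = 0
  · exact kp1_snd l hE hK' hα
  by_cases hβ : ∀ b, φ (0, b) = 0
  · refine kp1_congr (Z := PZ Z' Z) (Z' := PZ Z Z') AddEquiv.prodComm (fun a b => and_comm)
      (kp1_snd l' hE' hK fun b => ?_)
    exact hβ b
  push Not at hα hβ
  obtain ⟨s, hs⟩ := hα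
  obtain ⟨p, hp⟩ := hβ
  have hs1 := one_of_ne hs
  have hp1 := one_of_ne hp
  rintro ⟨h0, hφ⟩ hL
  let α : V →ₗ[ZMod 2] ZMod 2 := φ.comp (LinearMap.inl (ZMod 2) V V')
  let β : V' →ₗ[ZMod 2] ZMod 2 := φ.comp (LinearMap.inr (ZMod 2) V V')
  have hsum : ∀ a b, φ (a, b) = α a + β b := by
    intro a b
    show φ (a, b) = φ (a, 0) + φ (0, b)
    rw [← map_add, Prod.mk_add_mk, add_zero, zero_add]
  -- a radical element
  have hr : ∃ r, (∀ v, PZ Z Z' r v) ∧ φ r = 1 := by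
    by_cases hα : ∀ b b', ∃ v, Z b v ∧ Z b' v ∧ α v = 1
    · obtain ⟨r, h1, h2⟩ := hS α hα
      exact ⟨(r, 0), fun v => ⟨h1 _, l'.symm _ _ (l'.zero _)⟩, h2⟩
    by_cases hβ : ∀ b b', ∃ v, Z' b v ∧ Z' b' v ∧ β v = 1
    · obtain ⟨r, h1, h2⟩ := hS' β hβ
      exact ⟨(0, r), fun v => ⟨l.symm _ _ (l.zero _), h1 _⟩, h2⟩
    exfalso
    push Not at hα hβ
    obtain ⟨a, a', ha⟩ := hα
    obtain ⟨b, b', hb⟩ := hβ
    -- elements `a0`, `b0` with `α = 0` on `A_{a0}`, `β = 0` on `B_{b0}`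
    have hex : ∃ a0 b0, (∀ v, Z a0 v → α v ≠ 1) ∧ ∀ w, Z' b0 w → β w ≠ 1 := by
      by_contra hcon
      push Not at hcon
      have hx : ∀ x : V × V', ∃ v, PZ Z Z' x v ∧ φ v = 1 := by
        rintro ⟨x1, x2⟩
        by_cases h1 : ∃ v, Z x1 v ∧ α v = 1
        · obtain ⟨v, h2, h3⟩ := h1
          exact ⟨(v, 0), ⟨h2, l'.zero _⟩, h3⟩
        · push Not at h1
          obtain ⟨w, h2, h3⟩ := hcon x1 x2 h1
          exact ⟨(0, w), ⟨l.zero _, h2⟩, h3⟩
      obtain ⟨⟨v, w⟩, ⟨e1, e2⟩, ⟨e3, e4⟩, e5⟩ := hφ (a, b) (a', b') (hx _) (hx _) (hx _)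
      rw [hsum] at e5
      rcases zz (α v) with h | h
      · rw [h, zero_add] at e5
        exact hb w e2 e4 e5
      · exact ha v e1 e3 h
    obtain ⟨a0, b0, ha0, hb0⟩ := hex
    have hb00 : β b0 = 0 := by
      rcases zz (β b0) with h | h
      · exact h
      · exact absurd h (hb0 b0 (l'.alt _))
    obtain ⟨⟨v, w⟩, ⟨e1, e2⟩, ⟨e3, e4⟩, e5⟩ := hφ (a0, p) (0, b0)
      ⟨(0, p), ⟨l.zero _, l'.alt _⟩, hp1⟩
      ⟨(s, 0), ⟨l.symm _ _ (l.zero _), l'.zero _⟩, hs1⟩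
      ⟨(0, p + b0), ⟨l.zero _, l'.alt _⟩, by
        rw [hsum, map_zero, zero_add, map_add, hb00, add_zero]
        exact hp1⟩
    rw [hsum] at e5
    rcases zz (α v) with h | h
    · rw [h, zero_add] at e5
      exact hb0 w e4 e5
    · exact ha0 v e1 h
  obtain ⟨r, hr1, hr2⟩ := hr
  have hlz := pz_lz l l'
  have hfin : Finite (V × V') := inferInstance
  have hEP : ETZ (PZ Z Z') := qpr_proof qex_proof qis_proof _ _ _ (PZ Z Z') Z Z'
    (AddEquiv.refl _) l l' (fun a b => Iff.rfl) hE hE'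
  refine ret_et hlz hEP ⟨LinearMap.id + φ.smulRight r, ?_, ?_, ?_⟩
  · intro v
    rw [LinearMap.mem_ker]
    show φ (v + φ v • r) = 0
    rw [map_add, map_smul, hr2, smul_eq_mul, mul_one]
    exact CharTwo.add_self_eq_zero _
  · intro f hf
    show f + φ f • r = f
    rw [LinearMap.mem_ker.1 hf, zero_smul, add_zero]
  · intro a b hab
    show PZ Z Z' (a + φ a • r) (b + φ b • r)
    have key : ∀ (x y : V × V') (c : ZMod 2), PZ Z Z' x y → PZ Z Z' x (y + c • r) := by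
      intro x y c hxy
      refine hlz.add _ _ _ hxy ?_
      rcases zz c with h | h
      · rw [h, zero_smul]; exact hlz.zero _
      · rw [h, one_smul]; exact hlz.symm _ _ (hr1 _)
    exact key _ _ _ (hlz.symm _ _ (key _ _ _ (hlz.symm _ _ hab)))

/-! ### Extensions -/

/-- the relation of the group extension -/
def XZ (Z : V → V → Prop) (a b : V × ZMod 2) : Prop := Z a.1 b.1 ∧ b.2 • a.1 = a.2 • b.1

theorem spr_ext (l : LZ Z) : SPr (XZ Z) := by
  intro β hβ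
  by_cases hU : ∃ u : V, u ≠ 0
  · obtain ⟨u, hu⟩ := hU
    exfalso
    obtain ⟨⟨v, ε⟩, ⟨-, e1⟩, ⟨-, e2⟩, e3⟩ := hβ (0, 1) (u, 1)
    have h1 : v = 0 := by
      have : ε • (0 : V) = (1 : ZMod 2) • v := e1
      rwa [smul_zero, one_smul, eq_comm] at this
    subst h1
    have h2 : ε • u = (1 : ZMod 2) • (0 : V) := e2
    rw [smul_zero] at h2
    rcases zz ε with h | h
    · subst h
      rw [show ((0 : V), (0 : ZMod 2)) = 0 from rfl, map_zero] at e3
      exact absurd e3 (by decide)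
    · rw [h, one_smul] at h2
      exact hu h2
  · push Not at hU
    obtain ⟨v, -, -, hv⟩ := hβ 0 0
    refine ⟨v, fun w => ⟨?_, ?_⟩, hv⟩
    · rw [hU v.1]; exact l.symm _ _ (l.zero _)
    · rw [hU v.1, hU w.1, smul_zero, smul_zero]

/-- the additive form of the group of the extension -/
def eX (S : QStruct) : Additive (QS.ext S).G ≃+ Additive S.G × ZMod 2 where
  toFun := fun g => (Additive.ofMul (Additive.toMul g).1, Multiplicative.toAdd (Additive.toMul g).2)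
  invFun := fun w => Additive.ofMul (Additive.toMul w.1, Multiplicative.ofAdd w.2)
  left_inv := fun _ => rfl
  right_inv := fun _ => rfl
  map_add' := fun _ _ => rfl

theorem zs_ext (S : QStruct) (hneg : S.neg = 1) (a b : Additive (QS.ext S).G) :
    ZS (QS.ext S) a b ↔ XZ (ZS S) (eX S a) (eX S b) := by
  obtain ⟨a, α⟩ := a
  obtain ⟨b, β⟩ := b
  show (QS.ext S).q (a, α) (b, β) = (QS.ext S).zero ↔ S.q a b = S.zero ∧
    Multiplicative.toAdd β • (Additive.ofMul a) = Multiplicative.toAdd α • (Additive.ofMul b)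
  rw [ext_zero]
  rcases two_cases α with rfl | rfl <;> rcases two_cases β with rfl | rfl
  · rw [extMap_one_one, Prod.mk.injEq]
    simp
  · rw [extMap_one_x, Prod.mk.injEq]
    refine and_congr_right fun _ => ?_
    show a = 1 ↔ (1 : ZMod 2) • (Additive.ofMul a) = (0 : ZMod 2) • (Additive.ofMul b)
    rw [one_smul, zero_smul]
    rfl
  · rw [extMap_x_one, Prod.mk.injEq]
    refine and_congr_right fun _ => ?_
    show b = 1 ↔ (0 : ZMod 2) • (Additive.ofMul a) = (1 : ZMod 2) • (Additive.ofMul b)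
    rw [one_smul, zero_smul]
    exact eq_comm
  · rw [extMap_x_x, Prod.mk.injEq, hneg, one_mul]
    refine and_congr_right fun _ => ?_
    show a * b = 1 ↔ (1 : ZMod 2) • (Additive.ofMul a) = (1 : ZMod 2) • (Additive.ofMul b)
    rw [one_smul, one_smul, ← eq_iff_mul]
    rfl

/-- the additive form of an isomorphism with the group of a structure -/
def eS {S : QStruct} (φ : Multiplicative V ≃* S.G) : V ≃+ Additive S.G where
  toFun := fun v => Additive.ofMul (φ (Multiplicative.ofAdd v))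
  invFun := fun g => Multiplicative.toAdd (φ.symm (Additive.toMul g))
  left_inv := fun v => φ.symm_apply_apply (Multiplicative.ofAdd v)
  right_inv := fun g => φ.apply_symm_apply (Additive.toMul g)
  map_add' := fun a b => map_mul φ (Multiplicative.ofAdd a) (Multiplicative.ofAdd b)

theorem ext_neg {S : QStruct} (hneg : S.neg = 1) : (QS.ext S).neg = 1 := by
  show (S.neg, (1 : Multiplicative (ZMod 2))) = 1
  rw [hneg]; rfl

theorem etz_ext (hZ : LZ Z) (hE : ETZ Z) : ETZ (XZ Z) := by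
  obtain ⟨S, hS⟩ := qex_proof V Z hZ
  have hET := hE S hS
  obtain ⟨hneg, φ, hφ⟩ := hS
  let e : V ≃+ Additive S.G := eS φ
  have he : ∀ a b, Z a b ↔ ZS S (e a) (e b) := fun a b => (hφ a b).symm
  have h1 : ETZ (ZS (QS.ext S)) := etz_of_elem (ElemType.ext S hET) (ext_neg hneg)
  have h2 : ETZ (XZ (ZS S)) := etz_congr (eX S) (zs_ext S hneg) h1
  refine etz_congr (e.prodCongr (AddEquiv.refl (ZMod 2))).symm ?_ h2
  rintro ⟨a, α⟩ ⟨b, β⟩
  obtain ⟨a, rfl⟩ := e.surjective a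
  obtain ⟨b, rfl⟩ := e.surjective b
  show ZS S (e a) (e b) ∧ β • e a = α • e b ↔ Z (e.symm (e a)) (e.symm (e b)) ∧
    β • e.symm (e a) = α • e.symm (e b)
  rw [e.symm_apply_apply, e.symm_apply_apply, he]
  refine and_congr_right fun _ => ?_
  have hs : ∀ (c : ZMod 2) (v : V), c • e v = e (c • v) := by
    intro c v
    rcases zz c with h | h
    · rw [h, zero_smul, zero_smul, map_zero]
    · rw [h, one_smul, one_smul]
  rw [hs, hs]
  exact e.injective.eq_iff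

theorem kp_ext (l : LZ Z) (hE : ETZ Z) (hK : KP Z) : KP (XZ Z) := by
  rintro φ ⟨h0, hφ⟩ hL
  let α : V →ₗ[ZMod 2] ZMod 2 := φ.comp (LinearMap.inl (ZMod 2) V (ZMod 2))
  have hsum : ∀ a ε, φ (a, ε) = α a + ε * φ (0, 1) := by
    intro a ε
    show φ (a, ε) = φ (a, 0) + ε * φ (0, 1)
    rw [← smul_eq_mul, ← map_smul, ← map_add, Prod.smul_mk, smul_zero, smul_eq_mul, mul_one,
      Prod.mk_add_mk, add_zero, zero_add]
  by_cases hα : α = 0
  · have ht : φ (0, 1) = 1 := by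
      rcases zz (φ (0, 1)) with h | h
      · exfalso
        apply h0
        apply LinearMap.ext
        rintro ⟨a, ε⟩
        rw [hsum, hα, h, mul_zero, LinearMap.zero_apply, add_zero, LinearMap.zero_apply]
      · exact h
    have hφ2 : ∀ v : V × ZMod 2, φ v = v.2 := by
      rintro ⟨a, ε⟩
      rw [hsum, hα, ht, mul_one, LinearMap.zero_apply, zero_add]
    let e : V ≃+ LinearMap.ker φ :=
      { toFun := fun a => ⟨(a, 0), LinearMap.mem_ker.2 (hφ2 _)⟩
        invFun := fun v => (v : V × ZMod 2).1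
        left_inv := fun a => rfl
        right_inv := by
          rintro ⟨⟨a, ε⟩, h⟩
          apply Subtype.ext
          have : φ (a, ε) = 0 := h
          rw [hφ2] at this
          exact Prod.ext rfl this.symm
        map_add' := fun a b => Subtype.ext (Prod.ext rfl (add_zero (0 : ZMod 2)).symm) }
    refine etz_congr e (fun a b => ?_) hE
    show Z a b ↔ Z a b ∧ (0 : ZMod 2) • a = (0 : ZMod 2) • b
    rw [zero_smul, zero_smul]
    exact (and_iff_left rfl).symm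
  -- an element `p` with `α p = φ (0, 1)`
  obtain ⟨p, hp⟩ : ∃ p, α p = φ (0, 1) := by
    rcases zz (φ (0, 1)) with h | h
    · exact ⟨0, by rw [h, map_zero]⟩
    · by_contra hcon
      push Not at hcon
      apply hα
      ext v
      rcases zz (α v) with h' | h'
      · exact h'
      · exact absurd (h'.trans h.symm) (hcon v)
  have hP : PrimeZ Z α := by
    refine ⟨hα, ?_⟩
    obtain ⟨s, hs⟩ : ∃ s, α s = 1 := by
      by_contra hcon
      push Not at hcon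
      apply hα
      ext v
      rcases zz (α v) with h' | h'
      · exact h'
      · exact absurd h' (hcon v)
    rintro x y ⟨v1, a1, b1⟩ ⟨v2, a2, b2⟩ ⟨v3, a3, b3⟩
    have hX : ∀ a b, Z a b → XZ Z (a, 0) (b, 0) := by
      intro a b hab
      exact ⟨hab, by rw [zero_smul, zero_smul]⟩
    have hx3 : XZ Z ((x, 0) + (y, 0)) (v3, 0) := by
      rw [Prod.mk_add_mk, add_zero]
      exact hX _ _ a3
    obtain ⟨⟨v, ε⟩, ⟨c1, c2⟩, ⟨c3, c4⟩, c5⟩ := hφ (x, 0) (y, 0) ⟨(v1, 0), hX _ _ a1, b1⟩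
      ⟨(v2, 0), hX _ _ a2, b2⟩ ⟨(v3, 0), hx3, b3⟩
    have c2' : ε • x = (0 : ZMod 2) • v := c2
    have c4' : ε • y = (0 : ZMod 2) • v := c4
    rcases zz ε with h | h
    · rw [hsum, h, zero_mul, add_zero] at c5
      exact ⟨v, c1, c3, c5⟩
    · rw [h, one_smul, zero_smul] at c2' c4'
      rw [c2', c4']
      exact ⟨s, l.symm _ _ (l.zero _), l.symm _ _ (l.zero _), hs⟩
  have hmul : ∀ (ε : ZMod 2), ε + ε = 0 := fun ε => CharTwo.add_self_eq_zero _
  have hvv : ∀ v : V, v + v = 0 := fun v => by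
    rw [← one_smul (ZMod 2) v, ← add_smul, hmul, zero_smul]
  have hmem : ∀ (a : V) (ε : ZMod 2), φ (a, ε) = α (a + ε • p) := by
    intro a ε
    rw [hsum, map_add, map_smul, hp, smul_eq_mul]
  -- the isomorphism
  let e : LinearMap.ker α × ZMod 2 ≃+ LinearMap.ker φ :=
    { toFun := fun w => ⟨((w.1 : V) + w.2 • p, w.2), LinearMap.mem_ker.2 (by
        rw [hmem, add_assoc, ← add_smul, hmul, zero_smul, add_zero]
        exact LinearMap.mem_ker.1 w.1.2)⟩
      invFun := fun v => (⟨(v : V × ZMod 2).1 + (v : V × ZMod 2).2 • p, LinearMap.mem_ker.2 (by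
        rw [← hmem]
        exact LinearMap.mem_ker.1 v.2)⟩, (v : V × ZMod 2).2)
      left_inv := by
        rintro ⟨⟨a, ha⟩, ε⟩
        refine Prod.ext (Subtype.ext ?_) rfl
        show a + ε • p + ε • p = a
        rw [add_assoc, ← add_smul, hmul, zero_smul, add_zero]
      right_inv := by
        rintro ⟨⟨a, ε⟩, ha⟩
        refine Subtype.ext (Prod.ext ?_ rfl)
        show a + ε • p + ε • p = a
        rw [add_assoc, ← add_smul, hmul, zero_smul, add_zero]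
      map_add' := by
        rintro ⟨⟨a, ha⟩, ε⟩ ⟨⟨b, hb⟩, δ⟩
        refine Subtype.ext (Prod.ext ?_ rfl)
        show a + b + (ε + δ) • p = a + ε • p + (b + δ • p)
        rw [add_smul]
        abel }
  have hrel : ∀ (a b : V) (ε δ : ZMod 2), XZ Z (a, ε) (b, δ) ↔
      XZ Z (a + ε • p, ε) (b + δ • p, δ) := by
    intro a b ε δ
    have h2 : δ • (a + ε • p) = ε • (b + δ • p) ↔ δ • a = ε • b := by
      rw [smul_add, smul_add, smul_smul, smul_smul, mul_comm δ ε]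
      exact add_left_inj _
    show Z a b ∧ δ • a = ε • b ↔ Z (a + ε • p) (b + δ • p) ∧
      δ • (a + ε • p) = ε • (b + δ • p)
    rw [h2]
    refine and_congr_left fun h => ?_
    rcases zz ε with e1 | e1 <;> rcases zz δ with e2 | e2 <;> subst e1 <;> subst e2
    · rw [zero_smul, add_zero, add_zero]
    · rw [one_smul, zero_smul] at h
      rw [h, zero_smul, add_zero]
      exact iff_of_true (l.symm _ _ (l.zero _)) (l.symm _ _ (l.zero _))
    · rw [one_smul, zero_smul] at h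
      rw [← h, zero_smul, add_zero]
      exact iff_of_true (l.zero _) (l.zero _)
    · rw [one_smul, one_smul] at h
      rw [h]
      exact iff_of_true (l.alt _) (l.alt _)
  -- the kernel of `α` is linked
  let i : LinearMap.ker α →+ LinearMap.ker φ :=
    { toFun := fun a => ⟨((a : V), 0), LinearMap.mem_ker.2 (LinearMap.mem_ker.1 a.2)⟩
      map_zero' := rfl
      map_add' := fun a b => Subtype.ext (Prod.ext rfl (add_zero (0 : ZMod 2)).symm) }
  let ρ : LinearMap.ker φ →+ LinearMap.ker α :=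
    { toFun := fun v => (e.symm v).1
      map_zero' := by rw [map_zero]; rfl
      map_add' := fun a b => by rw [map_add]; rfl }
  have hLK : LZ (Rs Z (LinearMap.ker α)) := by
    refine lz_retr hL i ρ (fun v => ?_) (fun a b hab => ?_) (fun a b hab => ?_)
    · apply Subtype.ext
      show (v : V) + (0 : ZMod 2) • p = v
      rw [zero_smul, add_zero]
    · show Z (a : V) b ∧ (0 : ZMod 2) • (a : V) = (0 : ZMod 2) • (b : V)
      exact ⟨hab, by rw [zero_smul, zero_smul]⟩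
    · obtain ⟨⟨a, ε⟩, ha⟩ := a
      obtain ⟨⟨b, δ⟩, hb⟩ := b
      exact ((hrel a b ε δ).1 hab).1
  refine etz_congr e ?_ (etz_ext hLK (hK α hP hLK))
  rintro ⟨⟨a, ha⟩, ε⟩ ⟨⟨b, hb⟩, δ⟩
  refine Iff.trans ?_ (hrel a b ε δ)
  show Z a b ∧ δ • (⟨a, ha⟩ : LinearMap.ker α) = ε • (⟨b, hb⟩ : LinearMap.ker α) ↔
    Z a b ∧ δ • a = ε • b
  rw [Subtype.ext_iff]
  rfl

/-! ### Structures with two quaternions -/

theorem elem_of_two (P : QStruct) (hf : Finite P.G) (hneg : P.neg = 1)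
    (h : ∀ a b c d, P.q a b ≠ P.zero → P.q c d ≠ P.zero → P.q a b = P.q c d) : ElemType P := by
  rw [elem_iff_hregR P hf hneg]
  intro U _
  by_cases hU : ∃ x ∈ U, ∃ z ∈ U, P.q x z ≠ P.zero
  · obtain ⟨x, hx, z, hz, hxz⟩ := hU
    refine ⟨x, hx, fun w hw _ v hv => ?_⟩
    by_cases h0 : P.q w v = P.zero
    · exact ⟨1, U.one_mem, by rw [P.q_one, h0]⟩
    · exact ⟨z, hz, h _ _ _ _ hxz h0⟩
  · push Not at hU
    exact ⟨1, U.one_mem, fun w hw _ v hv => ⟨1, U.one_mem, by rw [P.q_one, hU w hw v hv]⟩⟩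

theorem two_sub {S T : QStruct} (ι : T.G →* S.G)
    (hι : ∀ a b, T.q a b = T.zero ↔ S.q (ι a) (ι b) = S.zero)
    (h : ∀ a b c d, S.q a b ≠ S.zero → S.q c d ≠ S.zero → S.q a b = S.q c d) :
    ∀ a b c d, T.q a b ≠ T.zero → T.q c d ≠ T.zero → T.q a b = T.q c d := by
  have key : ∀ a b c, T.q a b ≠ T.zero → T.q a c ≠ T.zero → T.q a b = T.q a c := by
    intro a b c h1 h2
    rw [T.qs3, hι, map_mul, ← S.qs3]
    exact h _ _ _ _ (fun h' => h1 ((hι _ _).2 h')) (fun h' => h2 ((hι _ _).2 h'))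
  intro a b c d h1 h2
  have hc : ∃ x, T.q a x ≠ T.zero ∧ T.q c x ≠ T.zero := by
    by_cases g1 : T.q c b = T.zero
    · by_cases g2 : T.q a d = T.zero
      · refine ⟨b * d, ?_, ?_⟩
        · rw [mul_comm, T.q_zero_mul g2]; exact h1
        · rw [T.q_zero_mul g1]; exact h2
      · exact ⟨d, g2, h2⟩
    · exact ⟨b, h1, g1⟩
  obtain ⟨x, x1, x2⟩ := hc
  calc T.q a b = T.q a x := key _ _ _ h1 x1
    _ = T.q x a := T.qs2 _ _
    _ = T.q x c := key _ _ _ (by rw [T.qs2]; exact x1) (by rw [T.qs2]; exact x2)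
    _ = T.q c x := T.qs2 _ _
    _ = T.q c d := key _ _ _ x2 h2

end

end Pool.Agent.ETCD2
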