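import Pool.Agent.ETCD2.PresK

/-!
Kernels of prime functionals of structures of elementary type (with `-1 = 1`) are of elementary type:
the induction (helper24).
-/

set_option autoImplicit false
set_option linter.unusedSectionVars false

namespace Pool.Agent.ETCD2

open QS Pool.Agent.RFT Pool.Agent.ETG Pool.Agent.RFN Pool.Agent.REG10 Pool.Agent.AST
open Pool.Agent.ETCLH Pool.Agent.ETCT

/-- at most one nonzero quaternion -/
def TwoVal (S : QStruct) : Prop :=
  ∀ a b c d, S.q a b ≠ S.zero → S.q c d ≠ S.zero → S.q a b = S.q c d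

/-- the inclusion of a submodule in terms of a structure with the restricted relation -/
def incl {S T : QStruct} {F : Submodule (ZMod 2) (Additive S.G)} (e : Multiplicative F ≃* T.G) :
    T.G →* S.G where
  toFun := fun g => Additive.toMul ((Multiplicative.toAdd (e.symm g) : F) : Additive S.G)
  map_one' := by rw [map_one]; rfl
  map_mul' := by intro a b; rw [map_mul]; rfl

theorem incl_zero {S T : QStruct} {F : Submodule (ZMod 2) (Additive S.G)}
    {e : Multiplicative F ≃* T.G}
    (he : ∀ a b : F, T.q (e (Multiplicative.ofAdd a)) (e (Multiplicative.ofAdd b)) = T.zero ↔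
      Rs (ZS S) F a b) (a b : T.G) :
    T.q a b = T.zero ↔ S.q (incl e a) (incl e b) = S.zero := by
  have := he (Multiplicative.toAdd (e.symm a)) (Multiplicative.toAdd (e.symm b))
  rw [show e (Multiplicative.ofAdd (Multiplicative.toAdd (e.symm a))) = a from
    e.apply_symm_apply a, show e (Multiplicative.ofAdd (Multiplicative.toAdd (e.symm b))) = b from
    e.apply_symm_apply b] at this
  exact this

theorem kp_two (S : QStruct) (hf : Finite S.G) (h : TwoVal S) : KP (ZS S) := by
  rintro φ - - T ⟨hneg, e, he⟩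
  have hfin : Finite (Multiplicative (LinearMap.ker φ)) := by
    have : Finite (Additive S.G) := hf
    exact inferInstanceAs (Finite (LinearMap.ker φ))
  exact elem_of_two T (Finite.of_equiv _ e.toEquiv) hneg (two_sub (incl e) (incl_zero he) h)

open Classical in
/-- the pairing of a structure with at most one nonzero quaternion -/
noncomputable def chi (S : QStruct) (a b : Additive S.G) : ZMod 2 := if ZS S a b then 0 else 1

theorem chi_zero {S : QStruct} {a b : Additive S.G} : chi S a b = 0 ↔ ZS S a b := by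
  unfold chi
  split_ifs with h
  · exact iff_of_true rfl h
  · exact iff_of_false (by decide) h

theorem chi_symm (S : QStruct) (a b : Additive S.G) : chi S a b = chi S b a := by
  have h : ZS S a b ↔ ZS S b a := by
    rw [zs_iff, zs_iff, S.qs2]
  by_cases h1 : ZS S a b
  · rw [chi_zero.2 h1, chi_zero.2 (h.1 h1)]
  · rw [one_of_ne fun h' => h1 (chi_zero.1 h'), one_of_ne fun h' => h1 (h.2 (chi_zero.1 h'))]

theorem chi_add {S : QStruct} (hneg : S.neg = 1) (h : TwoVal S) (a b c : Additive S.G) :
    chi S a (b + c) = chi S a b + chi S a c := by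
  have l := lzs S hneg
  by_cases h1 : ZS S a b
  · by_cases h2 : ZS S a c
    · rw [chi_zero.2 h1, chi_zero.2 h2, chi_zero.2 (l.add _ _ _ h1 h2), add_zero]
    · have h3 : ¬ ZS S a (b + c) := by
        intro h4
        apply h2
        have := l.add _ _ _ h1 h4
        rwa [← add_assoc, show b + b = 0 from S.exp_two _, zero_add] at this
      have e2 : chi S a c = 1 := one_of_ne fun h' => h2 (chi_zero.1 h')
      have e3 : chi S a (b + c) = 1 := one_of_ne fun h' => h3 (chi_zero.1 h')
      rw [chi_zero.2 h1, e2, e3, zero_add]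
  · have e1 : chi S a b = 1 := one_of_ne fun h' => h1 (chi_zero.1 h')
    by_cases h2 : ZS S a c
    · have h3 : ¬ ZS S a (b + c) := by
        intro h4
        apply h1
        have := l.add _ _ _ h4 h2
        rwa [add_assoc, show c + c = 0 from S.exp_two _, add_zero] at this
      have e3 : chi S a (b + c) = 1 := one_of_ne fun h' => h3 (chi_zero.1 h')
      rw [chi_zero.2 h2, e1, e3, add_zero]
    · have e2 : chi S a c = 1 := one_of_ne fun h' => h2 (chi_zero.1 h')
      have h3 : ZS S a (b + c) := (S.qs3 _ _ _).1 (h _ _ _ _ h1 h2)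
      rw [chi_zero.2 h3, e1, e2]
      decide

theorem spr_loc (S : QStruct) (hf : Finite S.G) (hneg : S.neg = 1) (h : TwoVal S)
    (hn : ∀ a, (∀ b, S.q a b = S.zero) → a = 1) : SPr (ZS S) := by
  intro β hβ
  exfalso
  let B : Additive S.G →ₗ[ZMod 2] Additive S.G →ₗ[ZMod 2] ZMod 2 :=
    (AddMonoidHom.toZModLinearMap 2
      { toFun := fun a => (AddMonoidHom.toZModLinearMap 2
          { toFun := fun b => chi S a b
            map_zero' := chi_zero.2 ((lzs S hneg).zero a)
            map_add' := chi_add hneg h a } : Additive S.G →ₗ[ZMod 2] ZMod 2)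
        map_zero' := by
          ext b
          show chi S 0 b = 0
          exact chi_zero.2 ((lzs S hneg).symm _ _ ((lzs S hneg).zero b))
        map_add' := by
          intro a b
          ext c
          show chi S (a + b) c = chi S a c + chi S b c
          rw [chi_symm, chi_add hneg h, chi_symm S c a, chi_symm S c b] })
  have hB : ∀ a b, B a b = chi S a b := fun a b => rfl
  have hinj : Function.Injective B := by
    rw [← LinearMap.ker_eq_bot, LinearMap.ker_eq_bot']
    intro a ha
    apply hn (Additive.toMul a)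
    intro b
    have := LinearMap.congr_fun ha (Additive.ofMul b)
    rw [hB] at this
    exact chi_zero.1 this
  have hfA : Finite (Additive S.G) := hf
  have hsurj : Function.Surjective B := by
    have h1 : Module.finrank (ZMod 2) (Additive S.G) =
        Module.finrank (ZMod 2) (Additive S.G →ₗ[ZMod 2] ZMod 2) :=
      (Subspace.dual_finrank_eq (K := ZMod 2) (V := Additive S.G)).symm
    exact (LinearMap.injective_iff_surjective_of_finrank_eq_finrank h1).1 hinj
  obtain ⟨p, hp⟩ := hsurj β
  obtain ⟨v, e1, -, e3⟩ := hβ p 0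
  rw [← hp, hB, chi_zero.2 e1] at e3
  exact absurd e3 (by decide)

/-- the additive form of an isomorphism -/
def eI {S T : QStruct} (φ : S.G ≃* T.G) : Additive S.G ≃+ Additive T.G := MulEquiv.toAdditive φ

/-- the additive form of the group of a product -/
def eP (S T : QStruct) : Additive (QS.prod S T).G ≃+ Additive S.G × Additive T.G where
  toFun := fun g => (Additive.ofMul (Additive.toMul g).1, Additive.ofMul (Additive.toMul g).2)
  invFun := fun w => Additive.ofMul (Additive.toMul w.1, Additive.toMul w.2)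
  left_inv := fun _ => rfl
  right_inv := fun _ => rfl
  map_add' := fun _ _ => rfl

theorem zs_prod (S T : QStruct) (a b : Additive (QS.prod S T).G) :
    ZS (QS.prod S T) a b ↔ PZ (ZS S) (ZS T) (eP S T a) (eP S T b) :=
  prod_zero (Additive.toMul a) (Additive.toMul b)

theorem two_of_card {S : QStruct} (h : Nat.card S.Q = 2) : TwoVal S := by
  intro a b c d h1 h2
  by_contra h3
  have : Finite S.Q := Nat.finite_of_card_ne_zero (by omega)
  have h4 : ({S.zero, S.q a b, S.q c d} : Set S.Q).ncard = 3 :=
    Set.ncard_eq_three.2 ⟨_, _, _, h1.symm, h2.symm, h3, rfl⟩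
  have h5 : ({S.zero, S.q a b, S.q c d} : Set S.Q).ncard ≤ Nat.card S.Q := Set.ncard_le_card _
  omega

theorem kp_of_elem {S : QStruct} (h : ElemType S) : Finite S.G → S.neg = 1 →
    KP (ZS S) ∧ SPr (ZS S) := by
  induction h with
  | L0 S h =>
    intro hf _
    have h1 : ∀ a : S.G, a = 1 := by
      rw [Nat.card_eq_one_iff_unique] at h
      exact fun a => h.1.elim a 1
    refine ⟨kp_two S hf fun a b _ _ hab => ?_, fun β hβ => ?_⟩
    · exact absurd (by rw [h1 b, S.q_one]) hab
    · obtain ⟨v, -, -, hv⟩ := hβ 0 0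
      rw [show v = 0 from h1 _, map_zero] at hv
      exact absurd hv (by decide)
  | L10 S h h1 h2 =>
    intro hf _
    refine ⟨kp_two S hf fun a b _ _ hab => absurd (h2 a b) hab, fun β hβ => ?_⟩
    obtain ⟨v, -, -, hv⟩ := hβ 0 0
    exact ⟨v, fun w => h2 _ _, hv⟩
  | L11 S h h1 h2 => exact fun _ hn => absurd hn h1
  | L1 S h h1 h2 => exact fun _ hn => absurd hn h1
  | loc S hf h h1 h2 =>
    intro _ hneg
    exact ⟨kp_two S hf (two_of_card h2), spr_loc S hf hneg (two_of_card h2) h1⟩
  | prod S T h1 h2 ih1 ih2 =>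
    intro hf hn
    have hf' : Finite (S.G × T.G) := hf
    have fS : Finite S.G := Finite.of_surjective (Prod.fst : S.G × T.G → S.G) Prod.fst_surjective
    have fT : Finite T.G := Finite.of_surjective (Prod.snd : S.G × T.G → T.G) Prod.snd_surjective
    have nS : S.neg = 1 := congrArg Prod.fst hn
    have nT : T.neg = 1 := congrArg Prod.snd hn
    obtain ⟨k1, s1⟩ := ih1 fS nS
    obtain ⟨k2, s2⟩ := ih2 fT nT
    have hr : ∀ a b, PZ (ZS S) (ZS T) a b ↔
        ZS (QS.prod S T) ((eP S T).symm a) ((eP S T).symm b) := fun a b => (zs_prod S T _ _).symm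
    have fA : Finite (Additive S.G) := fS
    have fB : Finite (Additive T.G) := fT
    exact ⟨kp_congr (eP S T).symm hr (kp_prod (lzs S nS) (lzs T nT) (etz_of_elem h1 nS)
      (etz_of_elem h2 nT) k1 k2 s1 s2), spr_congr (eP S T).symm hr
      (spr_prod s1 s2 (lzs S nS) (lzs T nT))⟩
  | ext S h ih =>
    intro hf hn
    have hf' : Finite (S.G × Multiplicative (ZMod 2)) := hf
    have fS : Finite S.G := Finite.of_surjective (Prod.fst : S.G × Multiplicative (ZMod 2) → S.G)
      Prod.fst_surjective
    have nS : S.neg = 1 := congrArg Prod.fst hn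
    obtain ⟨k1, s1⟩ := ih fS nS
    have hr : ∀ a b, XZ (ZS S) a b ↔
        ZS (QS.ext S) ((eX S).symm a) ((eX S).symm b) := fun a b => (zs_ext S nS _ _).symm
    exact ⟨kp_congr (eX S).symm hr (kp_ext (lzs S nS) (etz_of_elem h nS) k1),
      spr_congr (eX S).symm hr (spr_ext (lzs S nS))⟩
  | iso S T h1 h2 ih =>
    intro hf hn
    obtain ⟨φ, h3, h4⟩ := h1
    have fS : Finite S.G := Finite.of_equiv _ φ.symm.toEquiv
    have nS : S.neg = 1 := φ.injective (by rw [h3, hn, map_one])
    have hr : ∀ a b, ZS S a b ↔ ZS T (eI φ a) (eI φ b) := by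
      intro a b
      show S.q (Additive.toMul a) (Additive.toMul b) = S.zero ↔
        T.q (φ (Additive.toMul a)) (φ (Additive.toMul b)) = T.zero
      rw [← S.q_one 1, ← T.q_one 1, h4, map_one]
    obtain ⟨k1, s1⟩ := ih fS nS
    exact ⟨kp_congr (eI φ) hr k1, spr_congr (eI φ) hr s1⟩

/-- **kernels of prime functionals of structures of elementary type** -/
theorem pres_primeKer : Stmt_P2 := by
  rintro S P hE hf hneg ⟨hP, φ, ι, ⟨h0, hφ⟩, hι, hk, hz⟩
  let ψ0 : Additive S.G →+ ZMod 2 :=
    { toFun := fun g => Multiplicative.toAdd (φ (Additive.toMul g))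
      map_zero' := congrArg Multiplicative.toAdd (map_one φ)
      map_add' := fun a b => congrArg Multiplicative.toAdd (map_mul φ _ _) }
  let ψ : Additive S.G →ₗ[ZMod 2] ZMod 2 := ψ0.toZModLinearMap 2
  have hψ : ∀ g : S.G, φ g ≠ 1 ↔ ψ (Additive.ofMul g) = 1 := by
    intro g
    show φ g ≠ 1 ↔ Multiplicative.toAdd (φ g) = 1
    rcases two_cases (φ g) with h | h
    · rw [h]
      exact ⟨fun h' => absurd rfl h', fun h' => absurd h' (by decide)⟩
    · rw [h]
      exact ⟨fun _ => rfl, fun _ => by decide⟩
  have hψ0 : ∀ g : S.G, φ g = 1 ↔ ψ (Additive.ofMul g) = 0 := by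
    intro g
    constructor
    · intro h
      rcases zz (ψ (Additive.ofMul g)) with h' | h'
      · exact h'
      · exact absurd h ((hψ g).2 h')
    · intro h
      by_contra h'
      rw [(hψ g).1 h'] at h
      exact absurd h (by decide)
  have hPZ : PrimeZ (ZS S) ψ := by
    refine ⟨?_, ?_⟩
    · rintro hc
      obtain ⟨v, hv⟩ := h0
      have := (hψ v).1 hv
      rw [hc, LinearMap.zero_apply] at this
      exact absurd this (by decide)
    · rintro x y ⟨v1, a1, b1⟩ ⟨v2, a2, b2⟩ ⟨v3, a3, b3⟩
      obtain ⟨v, c1, c2, c3⟩ := hφ (Additive.toMul x) (Additive.toMul y)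
        ⟨Additive.toMul v1, a1, (hψ _).2 b1⟩ ⟨Additive.toMul v2, a2, (hψ _).2 b2⟩
        ⟨Additive.toMul v3, a3, (hψ _).2 b3⟩
      exact ⟨Additive.ofMul v, c1, c2, (hψ _).1 c3⟩
  -- the isomorphism of `P` with the kernel
  have hmem : ∀ a : P.G, ψ (Additive.ofMul (ι a)) = 0 := fun a => (hψ0 _).1 ((hk _).2 ⟨a, rfl⟩)
  let f : Additive P.G →+ LinearMap.ker ψ :=
    { toFun := fun a => ⟨Additive.ofMul (ι (Additive.toMul a)), LinearMap.mem_ker.2 (hmem _)⟩
      map_zero' := Subtype.ext (map_one ι)
      map_add' := fun a b => Subtype.ext (map_mul ι _ _) }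
  have hf1 : Function.Bijective f := by
    constructor
    · intro a b hab
      exact hι (congrArg Subtype.val hab)
    · rintro ⟨g, hg⟩
      obtain ⟨a, ha⟩ := (hk (Additive.toMul g)).1 ((hψ0 _).2 hg)
      exact ⟨Additive.ofMul a, Subtype.ext ha⟩
  let e : Additive P.G ≃+ LinearMap.ker ψ := AddEquiv.ofBijective f hf1
  have he : ∀ a b, ZS P a b ↔ Rs (ZS S) (LinearMap.ker ψ) (e a) (e b) := fun a b => hz _ _
  have hL : LZ (Rs (ZS S) (LinearMap.ker ψ)) :=
    lz_retr (lzs P hP) e.symm.toAddMonoidHom e.toAddMonoidHom (fun v => e.apply_symm_apply v)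
      (fun a b hab => (he _ _).2 (by
        show Rs (ZS S) (LinearMap.ker ψ) (e (e.symm a)) (e (e.symm b))
        rw [e.apply_symm_apply, e.apply_symm_apply]; exact hab))
      (fun a b hab => (he a b).1 hab)
  have hET := (kp_of_elem hE hf hneg).1 ψ hPZ hL
  refine etz_congr e.symm (fun a b => ?_) hET P (qof P hP)
  rw [he, e.apply_symm_apply, e.apply_symm_apply]

end Pool.Agent.ETCD2
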