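import Pool.Agent.ETCT.K4
import Pool.Agent.REG10.SAll
import Pool.Agent.REG10.ER
import Pool.Agent.REG10.FN.RTC

/-!
Retracts of relations, and the reduction steps for structures all of whose proper retracts are of
elementary type (helper24; after AST/RED, AST/SPL, REG10/FN/RTA).
-/

set_option autoImplicit false
set_option linter.unusedSectionVars false

namespace Pool.Agent.ETCD2

open QS Pool.Agent.RFT Pool.Agent.ETG Pool.Agent.RFN Pool.Agent.REG10 Pool.Agent.AST
open Pool.Agent.ETCLH Pool.Agent.ETCP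
open Pool.Agent.ETCR (ext_of_rigid)

/-- `F` is a retract of `(V, Z)` -/
def RetZ {V : Type} [AddCommGroup V] [Module (ZMod 2) V] (Z : V → V → Prop)
    (F : Submodule (ZMod 2) V) : Prop :=
  ∃ ρ : V →ₗ[ZMod 2] V, (∀ v, ρ v ∈ F) ∧ (∀ f ∈ F, ρ f = f) ∧ ∀ a b, Z a b → Z (ρ a) (ρ b)

/-- the restriction of the relation to `F` -/
abbrev Rs {V : Type} [AddCommGroup V] [Module (ZMod 2) V] (Z : V → V → Prop)
    (F : Submodule (ZMod 2) V) : F → F → Prop := fun a b => Z (a : V) (b : V)

/-- all proper retracts are of elementary type -/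
def RetET {V : Type} [AddCommGroup V] [Module (ZMod 2) V] (Z : V → V → Prop) : Prop :=
  ∀ F : Submodule (ZMod 2) V, F ≠ ⊤ → RetZ Z F → ETZ (Rs Z F)

section
variable {V : Type} [AddCommGroup V] [Module (ZMod 2) V] {Z : V → V → Prop}

theorem RetZ.lz (hZ : LZ Z) {F : Submodule (ZMod 2) V} (h : RetZ Z F) : LZ (Rs Z F) := by
  obtain ⟨ρ, h1, h2, h3⟩ := h
  apply LZ_sub hZ
  rintro a b c d ⟨x, e1, e2, e3⟩
  refine ⟨⟨ρ x, h1 x⟩, ?_, ?_, ?_⟩
  · have := h3 _ _ e1
    rwa [map_add, h2 a a.2, h2 b b.2] at this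
  · have := h3 _ _ e2
    rwa [map_add, h2 c c.2, h2 d d.2] at this
  · have := h3 _ _ e3
    rwa [map_add, h2 a a.2, h2 c c.2] at this

/-- the submodule of `V` given by a subgroup of `S.G` -/
def pull (S : QStruct) (φ : Multiplicative V ≃* S.G) (U : Subgroup S.G) :
    Submodule (ZMod 2) V where
  carrier := {v | φ (Multiplicative.ofAdd v) ∈ U}
  add_mem' := by
    intro a b ha hb
    show φ (Multiplicative.ofAdd (a + b)) ∈ U
    rw [ofAdd_add, map_mul]
    exact U.mul_mem ha hb
  zero_mem' := by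
    show φ (Multiplicative.ofAdd (0 : V)) ∈ U
    rw [ofAdd_zero, map_one]
    exact U.one_mem
  smul_mem' := by
    intro a v hv
    rcases zz a with rfl | rfl
    · rw [zero_smul]
      show φ (Multiplicative.ofAdd (0 : V)) ∈ U
      rw [ofAdd_zero, map_one]
      exact U.one_mem
    · rw [one_smul]; exact hv

theorem mem_pull {S : QStruct} {φ : Multiplicative V ≃* S.G} {U : Subgroup S.G} {v : V} :
    v ∈ pull S φ U ↔ φ (Multiplicative.ofAdd v) ∈ U := Iff.rfl

theorem mem_pull' {S : QStruct} {φ : Multiplicative V ≃* S.G} {U : Subgroup S.G} {g : S.G} :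
    Multiplicative.toAdd (φ.symm g) ∈ pull S φ U ↔ g ∈ U := by
  rw [mem_pull]
  show φ (φ.symm g) ∈ U ↔ _
  rw [φ.apply_symm_apply]

/-- a subgroup of `S.G` and its submodule give the same structure -/
theorem qof_pull (S : QStruct) (hneg : S.neg = 1) (φ : Multiplicative V ≃* S.G)
    (hφ : ∀ a b : V, S.q (φ (Multiplicative.ofAdd a)) (φ (Multiplicative.ofAdd b)) = S.zero ↔
      Z a b) (U : Subgroup S.G) (h4 : Lsub S U) :
    QOf (Rs Z (pull S φ U)) (ESL.PRODRECX.sub S hneg U h4) := by
  let e : Multiplicative (pull S φ U) ≃* U :=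
    { toFun := fun m => ⟨φ (Multiplicative.ofAdd ((Multiplicative.toAdd m : pull S φ U) : V)),
        (Multiplicative.toAdd m).2⟩
      invFun := fun g => Multiplicative.ofAdd ⟨Multiplicative.toAdd (φ.symm g), mem_pull'.2 g.2⟩
      left_inv := by
        intro m
        apply Multiplicative.toAdd.injective
        apply Subtype.ext
        show Multiplicative.toAdd (φ.symm (φ _)) = _
        rw [φ.symm_apply_apply]
        rfl
      right_inv := by
        intro g
        apply Subtype.ext
        show φ (φ.symm g) = g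
        rw [φ.apply_symm_apply]
      map_mul' := by
        intro m n
        apply Subtype.ext
        show φ (Multiplicative.ofAdd _) = φ _ * φ _
        rw [← map_mul]
        rfl }
  refine ⟨rfl, e, fun a b => ?_⟩
  rw [ESL.PRODRECX.sub_zero_iff]
  exact hφ a b

/-- retracts of `S` are retracts of `Z` -/
theorem retZ_pull (S : QStruct) (φ : Multiplicative V ≃* S.G)
    (hφ : ∀ a b : V, S.q (φ (Multiplicative.ofAdd a)) (φ (Multiplicative.ofAdd b)) = S.zero ↔
      Z a b) (U : Subgroup S.G) (hU : Retr S U) : RetZ Z (pull S φ U) := by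
  obtain ⟨ρ, h1, h2, h3⟩ := hU
  let ρ' : V →+ V :=
    { toFun := fun v => Multiplicative.toAdd (φ.symm (ρ (φ (Multiplicative.ofAdd v))))
      map_zero' := by
        rw [ofAdd_zero, map_one, map_one, map_one]
        rfl
      map_add' := by
        intro a b
        rw [ofAdd_add, map_mul, map_mul, map_mul]
        rfl }
  have e1 : ∀ v : V, φ (Multiplicative.ofAdd (ρ' v)) = ρ (φ (Multiplicative.ofAdd v)) := by
    intro v
    show φ (φ.symm _) = _
    rw [φ.apply_symm_apply]
  refine ⟨ρ'.toZModLinearMap 2, ?_, ?_, ?_⟩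
  · intro v
    rw [mem_pull]
    show φ (Multiplicative.ofAdd (ρ' v)) ∈ U
    rw [e1]
    exact h1 _
  · intro f hf
    show Multiplicative.toAdd (φ.symm (ρ (φ (Multiplicative.ofAdd f)))) = f
    rw [h2 _ (mem_pull.1 hf), φ.symm_apply_apply]
    rfl
  · intro a b hab
    show Z (ρ' a) (ρ' b)
    rw [← hφ, e1, e1]
    exact h3 _ _ ((hφ a b).2 hab)

theorem pull_ne_top (S : QStruct) (φ : Multiplicative V ≃* S.G) {U : Subgroup S.G} (hU : U ≠ ⊤) :
    pull S φ U ≠ ⊤ := by
  intro h
  apply hU
  rw [eq_top_iff]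
  intro g _
  have : Multiplicative.toAdd (φ.symm g) ∈ pull S φ U := by rw [h]; trivial
  exact mem_pull'.1 this

/-- proper retracts are of elementary type -/
theorem ret_sub (hr : RetET Z) (S : QStruct) (hneg : S.neg = 1) (φ : Multiplicative V ≃* S.G)
    (hφ : ∀ a b : V, S.q (φ (Multiplicative.ofAdd a)) (φ (Multiplicative.ofAdd b)) = S.zero ↔
      Z a b) (U : Subgroup S.G) (h4 : Lsub S U) (hR : Retr S U) (hU : U ≠ ⊤) :
    ElemType (ESL.PRODRECX.sub S hneg U h4) :=
  hr _ (pull_ne_top S φ hU) (retZ_pull S φ hφ U hR) _ (qof_pull S hneg φ hφ U h4)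

/-- retracts of structures of elementary type are of elementary type -/
theorem ret_et [Finite V] (hZ : LZ Z) (hE : ETZ Z) {F : Submodule (ZMod 2) V} (hF : RetZ Z F) :
    ETZ (Rs Z F) := by
  obtain ⟨S, hneg, φ, hφ⟩ := qex_proof V Z hZ
  have hfin : Finite S.G := Finite.of_equiv _ φ.toEquiv
  have hET := hE S ⟨hneg, φ, hφ⟩
  obtain ⟨ρ, h1, h2, h3⟩ := hF
  -- the subgroup
  let U : Subgroup S.G :=
    { carrier := {g | Multiplicative.toAdd (φ.symm g) ∈ F}
      mul_mem' := by
        intro a b ha hb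
        show Multiplicative.toAdd (φ.symm (a * b)) ∈ F
        rw [map_mul]
        exact F.add_mem ha hb
      one_mem' := by
        show Multiplicative.toAdd (φ.symm 1) ∈ F
        rw [map_one]
        exact F.zero_mem
      inv_mem' := by
        intro a ha
        show Multiplicative.toAdd (φ.symm a⁻¹) ∈ F
        rw [map_inv]
        exact F.neg_mem ha }
  have mU : ∀ g, g ∈ U ↔ Multiplicative.toAdd (φ.symm g) ∈ F := fun g => Iff.rfl
  let ρ' : S.G →* S.G :=
    { toFun := fun g => φ (Multiplicative.ofAdd (ρ (Multiplicative.toAdd (φ.symm g))))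
      map_one' := by
        rw [map_one]
        show φ (Multiplicative.ofAdd (ρ 0)) = 1
        rw [map_zero]
        exact map_one φ
      map_mul' := by
        intro a b
        rw [map_mul]
        show φ (Multiplicative.ofAdd (ρ (Multiplicative.toAdd (φ.symm a) +
          Multiplicative.toAdd (φ.symm b)))) = _
        rw [map_add, ofAdd_add, map_mul] }
  have hz : ∀ a b : S.G, S.q a b = S.zero ↔
      Z (Multiplicative.toAdd (φ.symm a)) (Multiplicative.toAdd (φ.symm b)) := by
    intro a b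
    rw [← hφ]
    show _ ↔ S.q (φ (φ.symm a)) (φ (φ.symm b)) = S.zero
    rw [φ.apply_symm_apply, φ.apply_symm_apply]
  have hR : Retr S U := by
    refine ⟨ρ', ?_, ?_, ?_⟩
    · intro a
      rw [mU]
      show Multiplicative.toAdd (φ.symm (φ _)) ∈ F
      rw [φ.symm_apply_apply]
      exact h1 _
    · intro u hu
      show φ (Multiplicative.ofAdd (ρ (Multiplicative.toAdd (φ.symm u)))) = u
      rw [h2 _ ((mU u).1 hu)]
      exact φ.apply_symm_apply u
    · intro a b hab
      show S.q (φ (Multiplicative.ofAdd (ρ (Multiplicative.toAdd (φ.symm a)))))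
        (φ (Multiplicative.ofAdd (ρ (Multiplicative.toAdd (φ.symm b))))) = S.zero
      rw [hφ]
      exact h3 _ _ ((hz a b).1 hab)
  have h4 : Lsub S U := hR.lsub
  have h5 : HRegR S := (elem_iff_hregR S hfin hneg).1 hET
  have h6 : ElemType (ESL.PRODRECX.sub S hneg U h4) := by
    have hfU : Finite (ESL.PRODRECX.sub S hneg U h4).G := (inferInstance : Finite U)
    exact elem_of_hregR srgx _ _ hfU rfl rfl (h5.sub hneg h4 hR)
  have h7 : pull S φ U = F := by
    ext v
    rw [mem_pull, mU, φ.symm_apply_apply]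
    rfl
  intro T hT
  have h8 := qof_pull S hneg φ hφ U h4
  rw [h7] at h8
  exact ElemType.iso _ _ (qis_proof _ _ _ _ (AddEquiv.refl F) (fun _ _ => Iff.rfl) _ _ h8 hT) h6

end

end Pool.Agent.ETCD2
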