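import Pool.Agent.ETCD2.Rel

/-!
The standing facts for a relation all of whose proper retracts and kernels of prime functionals
are of elementary type (helper24; after AST/RED, AST/SPL, AST/SASZ, ETCLH/Main).
-/

set_option autoImplicit false
set_option linter.unusedSectionVars false

namespace Pool.Agent.ETCD2

open QS Pool.Agent.RFT Pool.Agent.ETG Pool.Agent.RFN Pool.Agent.REG10 Pool.Agent.AST
open Pool.Agent.ETCLH Pool.Agent.ETCP
open Pool.Agent.ETCR (ext_of_rigid)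

/-- kernels of prime functionals are of elementary type -/
def KerET {V : Type} [AddCommGroup V] [Module (ZMod 2) V] (Z : V → V → Prop) : Prop :=
  ∀ φ : V →ₗ[ZMod 2] ZMod 2, PrimeZ Z φ → ETZ (Rs Z (LinearMap.ker φ))

/-- RED with retracts -/
theorem red' {V : Type} [AddCommGroup V] [Module (ZMod 2) V] [Finite V] {Z : V → V → Prop}
    (hr : RetET Z) (hET : ¬ ETZ Z) :
    (∀ x, (∀ v w, Z x v ∨ Z x w ∨ Z x (v + w)) → x = 0) ∧
    ∀ t, t ≠ 0 → ∃ v, Z t v ∧ v ≠ 0 ∧ v ≠ t := by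
  unfold ETZ at hET
  push Not at hET
  obtain ⟨S, ⟨hneg, φ, hφ⟩, hS⟩ := hET
  have hfin : Finite S.G := Finite.of_equiv _ φ.toEquiv
  have hU := ret_sub hr S hneg φ hφ
  have hφ1 : ∀ x : V, x ≠ 0 → φ (Multiplicative.ofAdd x) ≠ 1 := by
    intro x hx h
    have h1 : Multiplicative.ofAdd x = 1 := φ.injective (by rw [h, map_one])
    exact hx h1
  have hsurj : ∀ g : S.G, ∃ v : V, φ (Multiplicative.ofAdd v) = g := by
    intro g
    obtain ⟨m, hm⟩ := φ.surjective g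
    exact ⟨Multiplicative.toAdd m, hm⟩
  constructor
  · intro x hx
    by_contra hx0
    have hs1 := hφ1 x hx0
    apply hS
    by_cases hrad : ∀ v, Z x v
    · -- radical element
      have hr : ∀ g, S.q (φ (Multiplicative.ofAdd x)) g = S.zero := by
        intro g
        obtain ⟨v, rfl⟩ := hsurj g
        exact (hφ x v).2 (hrad v)
      by_cases hg : ∃ g : S.G, g ≠ 1 ∧ g ≠ φ (Multiplicative.ofAdd x)
      · obtain ⟨g, hg1, hg2⟩ := hg
        exact elem_of_ed' S hneg hU (Or.inr (decomp_of_degenerate S hneg hs1 hr hg1 hg2))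
      · push Not at hg
        refine elem_of_ed' S hneg hU (red_card (V := V) S hneg hs1 fun g => ?_)
        by_cases h : g = 1
        · exact Or.inl h
        · exact Or.inr (hg g h)
    · push Not at hrad
      obtain ⟨y, hy⟩ := hrad
      have hc : S.q (φ (Multiplicative.ofAdd x)) (φ (Multiplicative.ofAdd y)) ≠ S.zero :=
        fun h => hy ((hφ x y).1 h)
      have hx' : ∀ g, S.q (φ (Multiplicative.ofAdd x)) g = S.zero ∨
          S.q (φ (Multiplicative.ofAdd x)) g =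
            S.q (φ (Multiplicative.ofAdd x)) (φ (Multiplicative.ofAdd y)) := by
        intro g
        obtain ⟨v, rfl⟩ := hsurj g
        rcases hx y v with h | h | h
        · exact absurd h hy
        · exact Or.inl ((hφ x v).2 h)
        · right
          refine ((S.qs3 _ _ _).2 ?_).symm
          have h1 := (hφ x (y + v)).2 h
          rw [ofAdd_add, map_mul] at h1
          exact h1
      rcases rk1s S hneg hc hx' ⟨_, rfl⟩ with h | h | ⟨hnd, h2⟩ | ⟨U, h4, hRU, hUt, h5⟩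
      · exact elem_of_ed' S hneg hU (Or.inl h)
      · exact elem_of_ed' S hneg hU (Or.inr h)
      · by_cases h8 : 8 ≤ Nat.card S.G
        · exact ElemType.loc S inferInstance h8 hnd h2
        · exact elem_of_ed' S hneg hU (card_four S hneg h8 hs1)
      · exact elem_of_ed' S hneg hU (h5 (hU U h4 hRU hUt))
  · intro t ht
    by_contra hno
    push Not at hno
    apply hS
    refine elem_of_ed' S hneg hU (Or.inl (ext_of_rigid S hneg (hφ1 t ht) ?_))
    intro g hg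
    obtain ⟨v, rfl⟩ := hsurj g
    by_cases hv : v = 0
    · left
      rw [hv]
      exact map_one φ
    · right
      rw [hno v ((hφ t v).1 hg) hv]

theorem exists_proj {V : Type} [AddCommGroup V] [Module (ZMod 2) V]
    {A A' : Submodule (ZMod 2) V} (hc : IsCompl A A') :
    ∃ ρ : V →ₗ[ZMod 2] V, (∀ v, ρ v ∈ A) ∧ ∀ a ∈ A, ∀ a' ∈ A', ρ (a + a') = a := by
  refine ⟨A.subtype.comp (A.projectionOnto A' hc), fun v => Subtype.coe_prop _, ?_⟩
  intro a ha a' ha'
  have h1 := Submodule.projectionOnto_apply_left hc ⟨a, ha⟩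
  have h2 := Submodule.projectionOnto_apply_right hc ⟨a', ha'⟩
  show ((A.projectionOnto A' hc (a + a') : A) : V) = a
  rw [map_add]
  have h3 : A.projectionOnto A' hc a = ⟨a, ha⟩ := h1
  have h4 : A.projectionOnto A' hc a' = 0 := h2
  rw [h3, h4, add_zero]

/-- SPL with retracts -/
theorem spl' {V B : Type} [AddCommGroup V] [Module (ZMod 2) V] [AddCommGroup B]
    [Module (ZMod 2) B] {q : V →ₗ[ZMod 2] V →ₗ[ZMod 2] B} (hq : LinkedAlt q)
    (hr : RetET (Zq q)) (hsp : Splits q) : ETZ (Zq q) := by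
  obtain ⟨A, A', hc, hA, hA', h0, hd⟩ := hsp
  have h0' : ∀ a ∈ A', ∀ a' ∈ A, q a a' = 0 := by
    intro a ha a' ha'
    rw [hq.symm]
    exact h0 a' ha' a ha
  have l1 := linked_summand hq hc h0
  have l2 := linked_summand hq hc.symm h0'
  have z1 := (LZQ A B _ l1).1
  have z2 := (LZQ A' B _ l2).1
  have hex : ∀ a1 ∈ A, ∀ a2 ∈ A', ∀ b1 ∈ A, ∀ b2 ∈ A',
      q (a1 + a2) (b1 + b2) = q a1 b1 + q a2 b2 := by
    intro a1 h1 a2 h2 b1 h3 b2 h4
    rw [map_add (q (a1 + a2)), map_add q, LinearMap.add_apply, LinearMap.add_apply,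
      h0 a1 h1 b2 h4, h0' a2 h2 b1 h3, add_zero, zero_add]
  have hsplit : ∀ a1 ∈ A, ∀ a2 ∈ A', ∀ b1 ∈ A, ∀ b2 ∈ A', q (a1 + a2) (b1 + b2) = 0 →
      q a1 b1 = 0 ∧ q a2 b2 = 0 := by
    intro a1 h1 a2 h2 b1 h3 b2 h4 h
    rw [hex a1 h1 a2 h2 b1 h3 b2 h4] at h
    have h5 := eq_of_add_zero h
    have h6 := hd a1 h1 b1 h3 a2 h2 b2 h4 h5
    exact ⟨h6, by rw [← h5, h6]⟩
  have hdec : ∀ v : V, ∃ a ∈ A, ∃ a' ∈ A', v = a + a' := by
    intro v
    have hv : v ∈ A ⊔ A' := by rw [hc.sup_eq_top]; trivial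
    obtain ⟨y, hy, z, hz, rfl⟩ := Submodule.mem_sup.1 hv
    exact ⟨y, hy, z, hz, rfl⟩
  have mkr : ∀ {A A' : Submodule (ZMod 2) V} (hc : IsCompl A A'),
      (∀ v : V, ∃ a ∈ A, ∃ a' ∈ A', v = a + a') →
      (∀ a1 ∈ A, ∀ a2 ∈ A', ∀ b1 ∈ A, ∀ b2 ∈ A', q (a1 + a2) (b1 + b2) = 0 → q a1 b1 = 0) →
      RetZ (Zq q) A := by
    intro A A' hc hdec hs
    obtain ⟨ρ, h1, h2⟩ := exists_proj hc
    refine ⟨ρ, h1, ?_, ?_⟩
    · intro f hf
      have := h2 f hf 0 A'.zero_mem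
      rwa [add_zero] at this
    · intro a b hab
      obtain ⟨a1, g1, a2, g2, rfl⟩ := hdec a
      obtain ⟨b1, g3, b2, g4, rfl⟩ := hdec b
      show q (ρ (a1 + a2)) (ρ (b1 + b2)) = 0
      rw [h2 a1 g1 a2 g2, h2 b1 g3 b2 g4]
      exact hs a1 g1 a2 g2 b1 g3 b2 g4 hab
  have r1 : RetZ (Zq q) A := mkr hc hdec fun a1 h1 a2 h2 b1 h3 b2 h4 h =>
    (hsplit a1 h1 a2 h2 b1 h3 b2 h4 h).1
  have r2 : RetZ (Zq q) A' := mkr hc.symm (fun v => by
      obtain ⟨a, h1, a', h2, h3⟩ := hdec v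
      exact ⟨a', h2, a, h1, by rw [h3, add_comm]⟩) fun a2 h2 a1 h1 b2 h4 b1 h3 h => by
    rw [add_comm a2, add_comm b2] at h
    exact (hsplit a1 h1 a2 h2 b1 h3 b2 h4 h).2
  have n1 : A ≠ ⊤ := fun h => hA' (by
    have := hc.disjoint
    rw [h, top_disjoint] at this
    exact this)
  have n2 : A' ≠ ⊤ := fun h => hA (by
    have := hc.disjoint
    rw [h, disjoint_top] at this
    exact this)
  have e1 := hr A n1 r1
  have e2 := hr A' n2 r2
  refine qpr_proof qex_proof qis_proof V A A' (Zq q) _ _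
    (Submodule.prodEquivOfIsCompl A A' hc).symm.toAddEquiv z1 z2 ?_ e1 e2
  intro a b
  obtain ⟨⟨a1, a2⟩, rfl⟩ := (Submodule.prodEquivOfIsCompl A A' hc).surjective a
  obtain ⟨⟨b1, b2⟩, rfl⟩ := (Submodule.prodEquivOfIsCompl A A' hc).surjective b
  have hs : ∀ p : A × A', (Submodule.prodEquivOfIsCompl A A' hc).symm.toAddEquiv
      ((Submodule.prodEquivOfIsCompl A A' hc) p) = p := fun p =>
    (Submodule.prodEquivOfIsCompl A A' hc).symm_apply_apply p
  rw [hs, hs]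
  have hv : ∀ p : A × A', (Submodule.prodEquivOfIsCompl A A' hc) p = (p.1 : V) + (p.2 : V) :=
    fun p => by simp
  rw [hv, hv]
  show q _ _ = 0 ↔ q (a1 : V) (b1 : V) = 0 ∧ q (a2 : V) (b2 : V) = 0
  constructor
  · exact hsplit a1 a1.2 a2 a2.2 b1 b1.2 b2 b2.2
  · rintro ⟨h1, h2⟩
    show q ((a1 : V) + (a2 : V)) ((b1 : V) + (b2 : V)) = 0
    rw [hex a1 a1.2 a2 a2.2 b1 b1.2 b2 b2.2, h1, h2, add_zero]

end Pool.Agent.ETCD2
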