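import Pool.Agent.ETCD2.Rel2

/-!
Theorem A* and the standing facts for a relation all of whose proper retracts and kernels of prime
functionals are of elementary type (helper24; after AST/SASZ, ETCLH/Main).
-/

set_option autoImplicit false
set_option linter.unusedSectionVars false

namespace Pool.Agent.ETCD2

open QS Pool.Agent.RFT Pool.Agent.ETG Pool.Agent.RFN Pool.Agent.REG10 Pool.Agent.AST
open Pool.Agent.ETCLH Pool.Agent.ETCP

/-- Theorem A* with retracts: a prime functional with kernel of elementary type -/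
theorem asz' {V : Type} [AddCommGroup V] [Module (ZMod 2) V] [Finite V] {Z : V → V → Prop}
    (hZ : LZ Z) (hr : RetET Z) {φ : V →ₗ[ZMod 2] ZMod 2} (hφ' : PrimeZ Z φ)
    (hker : ETZ (Rs Z (LinearMap.ker φ))) : ETZ Z := by
  by_contra hET
  obtain ⟨hφ0, hφ⟩ := hφ'
  obtain ⟨hr1, hrg⟩ := red' hr hET
  set D := dat hZ with hD
  have hz : ∀ a b, D.q a b = D.z ↔ Z a b := dat_zero hZ
  have heq : ∀ a b c d, D.q a b = D.q c d ↔ EqQ Z a b c d := dat_eq hZ
  have hS : SitD D φ := by
    refine ⟨fun x => (hz x x).2 (hZ.alt x), fun x hx => hr1 x ?_, fun t ht => ?_, hφ0, ?_⟩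
    · intro v w
      rw [← hz, ← hz, ← hz]
      exact hx v w
    · obtain ⟨v, h, h'⟩ := hrg t ht
      exact ⟨v, (hz t v).2 h, h'⟩
    · intro x y
      simp only [hz]
      exact hφ x y
  obtain ⟨w, hw⟩ := hS.out
  -- the relation on `H`
  let ZH : LinearMap.ker φ → LinearMap.ker φ → Prop := fun a b => Z a b
  have mH : ∀ a : LinearMap.ker φ, φ (a : V) = 0 := fun a => LinearMap.mem_ker.1 a.2
  have heqH : ∀ a b c d : LinearMap.ker φ, EqQ ZH a b c d ↔
      EqQ Z (a : V) (b : V) (c : V) (d : V) := by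
    intro a b c d
    constructor
    · rintro ⟨x, e1, e2, e3⟩
      exact ⟨x, e1, e2, e3⟩
    · intro h
      rw [← heq] at h
      obtain ⟨s, hs, e1, e2⟩ := hS.slot2 (c := D.q (a : V) (b : V)) (mH a) (mH c)
        ⟨b, mH b, rfl⟩ ⟨d, mH d, h.symm⟩
      refine ⟨⟨s, LinearMap.mem_ker.2 hs⟩, ?_, ?_, ?_⟩
      · exact (hz _ _).1 ((dq D).1 e1.symm)
      · exact (hz _ _).1 ((dq D).1 (h.symm.trans e2.symm))
      · exact (hz _ _).1 ((dq' D).1 (e1.trans e2.symm))
  have hZH : LZ ZH := by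
    refine ⟨fun a b => hZ.symm _ _, fun a => hZ.zero _, fun a b c => hZ.add _ _ _,
      fun a => hZ.alt _, ?_⟩
    intro a b c d a' b' e1 e2
    rw [heqH] at e1 e2 ⊢
    exact hZ.trans _ _ _ _ _ _ e1 e2
  have hHET : ETZ ZH := hker
  have hsep := (slz_proof qlz_proof _ _ hZH hHET).1
  obtain ⟨B, _, _, _, qH, hqH, hqZ, -⟩ := lzq_proof _ _ hZH hsep
  have hqeq : ∀ a b c d, qH a b = qH c d ↔ EqQ ZH a b c d := by
    intro a b c d
    rw [← LKZ_.eqQ_iff hqH]
    have : (fun v w => qH v w = 0) = ZH := by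
      funext v w
      exact propext (hqZ v w).symm
    rw [this]
  let q : V →ₗ[ZMod 2] V →ₗ[ZMod 2] B := qH.compl₁₂ (prK φ hw) (prK φ hw)
  have hqa : ∀ (a b : V) (ha : φ a = 0) (hb : φ b = 0), q a b = qH ⟨a, ha⟩ ⟨b, hb⟩ := by
    intro a b ha hb
    show qH (prK φ hw a) (prK φ hw b) = _
    rw [prK_H hw ha, prK_H hw hb]
  have hSS : SitS D q φ := by
    refine ⟨hS, ?_, ?_⟩
    · intro x
      show qH (prK φ hw x) (prK φ hw x) = 0
      rw [hqH.diag, map_zero]
    · intro a b c d ha hb hc hd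
      rw [hqa a b ha hb, hqa c d hc hd, hqeq, heqH, heq]
  have hOS : OSZ (Zq (q.domRestrict₁₂ (LinearMap.ker φ) (LinearMap.ker φ))) := by
    have h3 : Zq (q.domRestrict₁₂ (LinearMap.ker φ) (LinearMap.ker φ)) = ZH := by
      funext a b
      refine propext ?_
      show q (a : V) (b : V) = 0 ↔ Z a b
      rw [hqa a b (mH a) (mH b), ← hqZ]
    rw [h3]
    exact OSS _ _ hZH hHET
  obtain ⟨k, C, hC⟩ := CMPH V B q φ hφ0 hSS.toSitH hOS
  have hP1 := p1s_all LEM0 hSS C hC
  have hP2 := p2s_of hS hP1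
  -- the group valued map
  obtain ⟨B', _, _, q', hl, hq'⟩ := SBIL V B _ D q φ hSS hP2
  have hz' : ∀ a b, q' a b = 0 ↔ Z a b := by
    intro a b
    have h3 := hq' a b 0 0
    rw [map_zero, dz] at h3
    rw [h3, hz]
  have hSit : Sit q' φ := by
    refine ⟨hl, ?_, ?_, hφ0, ?_⟩
    · intro x hx
      apply hr1
      intro v w
      rw [← hz', ← hz', ← hz']
      exact hx v w
    · intro t ht
      obtain ⟨v, h, h'⟩ := hrg t ht
      exact ⟨v, (hz' t v).2 h, h'⟩
    · intro x y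
      simp only [hz']
      exact hφ x y
  have hNN : ∀ x, AST.NN q' φ x ↔ NS D φ x := by
    intro x
    unfold AST.NN NS
    simp only [hz', hz]
  have hP1' : P1 q' φ := by
    rintro z c hzz hzN ⟨a, ha, b, hb, rfl⟩ ⟨y, hy⟩
    obtain ⟨y', h3, h4⟩ := hP1 z a b hzz (fun h => hzN ((hNN z).2 h)) ha hb ⟨y, (hq' _ _ _ _).1 hy⟩
    exact ⟨y', h3, (hq' _ _ _ _).2 h4⟩
  obtain ⟨g2, g3⟩ := P23 V B' q' φ hSit hP1'
  have g4 := CNT V B' q' φ hSit g2 g3
  have g5 := INN V B' q' φ hSit g2 g4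
  have g6 := DCP V B' q' φ hSit g2 g3 g4 g5
  have g8 : Zq q' = Z := by
    funext a b
    exact propext (hz' a b)
  have g7 := spl' hl (by rw [g8]; exact hr) g6
  rw [g8] at g7
  exact hET g7

/-- the standing facts -/
theorem mn' {V : Type} [AddCommGroup V] [Module (ZMod 2) V] [Finite V] {Z : V → V → Prop}
    (hZ : LZ Z) (hr : RetET Z) (hk : KerET Z) (hET : ¬ ETZ Z) : Mn (dat hZ) := by
  obtain ⟨hr1, hrg⟩ := red' hr hET
  have hz : ∀ a b, ETCP.C (dat hZ) a b ↔ Z a b := dat_zero hZ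
  refine ⟨rfl, ?_, ?_, ?_, ?_⟩
  · intro x hx
    apply hr1 x
    intro v w
    rw [← hz, ← hz, ← hz]
    exact hx v w
  · intro ψ h0 hp
    have hP : PrimeZ Z ψ := by
      refine ⟨h0, fun x y => ?_⟩
      simp only [← hz]
      exact hp x y
    exact hET (asz' hZ hr hP (hk ψ hP))
  · -- small value groups
    intro t ht a
    by_contra hcon
    push Not at hcon
    apply hET
    intro S hS
    obtain ⟨hneg, e, he⟩ := hS
    have hfin : Finite S.G := Finite.of_equiv _ e.toEquiv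
    have hU := ret_sub hr S hneg e he
    have hs1 : e (Multiplicative.ofAdd t) ≠ 1 := by
      intro h
      have h1 : Multiplicative.ofAdd t = 1 := e.injective (by rw [h, map_one])
      exact ht h1
    refine elem_of_ed' S hneg hU (ETCP.small S hneg hs1 ?_)
    let f : Bool × Bool → S.G := fun b =>
      e (Multiplicative.ofAdd ((if b.1 then t else 0) + (if b.2 then a else 0)))
    have h2 : ({x | S.q (e (Multiplicative.ofAdd t)) x = S.zero} : Set S.G) ⊆ Set.range f := by
      intro g hg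
      obtain ⟨m, rfl⟩ := e.surjective g
      have h3 : Z t (Multiplicative.toAdd m) := (he t (Multiplicative.toAdd m)).1 hg
      by_cases c1 : Multiplicative.toAdd m = 0
      · refine ⟨(false, false), ?_⟩
        show e (Multiplicative.ofAdd ((0 : V) + 0)) = e m
        rw [add_zero, ← c1]
        rfl
      · by_cases c2 : Multiplicative.toAdd m = t
        · refine ⟨(true, false), ?_⟩
          show e (Multiplicative.ofAdd (t + 0)) = e m
          rw [add_zero, ← c2]
          rfl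
        · by_cases c3 : Multiplicative.toAdd m = a
          · refine ⟨(false, true), ?_⟩
            show e (Multiplicative.ofAdd (0 + a)) = e m
            rw [zero_add, ← c3]
            rfl
          · refine ⟨(true, true), ?_⟩
            show e (Multiplicative.ofAdd (t + a)) = e m
            rw [← hcon _ ((hz _ _).2 h3) c1 c2 c3]
            rfl
    have h4 : Nat.card {x // S.q (e (Multiplicative.ofAdd t)) x = S.zero} ≤
        Nat.card (Set.range f) :=
      Nat.card_mono (Set.toFinite _) h2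
    have h5 : Nat.card (Set.range f) ≤ Nat.card (Bool × Bool) :=
      Nat.card_le_card_of_surjective _ Set.rangeFactorization_surjective
    have h6 : Nat.card (Bool × Bool) = 4 := by simp
    omega
  · -- decompositions
    rintro A A' hdis hsum ⟨a0, ha0, ha00⟩ ⟨b0, hb0, hb00⟩ horth hind
    apply hET
    have hcompl : IsCompl A A' := by
      constructor
      · rw [Submodule.disjoint_def]
        exact hdis
      · rw [codisjoint_iff, eq_top_iff]
        intro v _
        obtain ⟨a, ha, a', ha', rfl⟩ := hsum v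
        exact Submodule.add_mem_sup ha ha'
    have hsplit : ∀ a1 ∈ A, ∀ a2 ∈ A', ∀ b1 ∈ A, ∀ b2 ∈ A', Z (a1 + a2) (b1 + b2) →
        Z a1 b1 ∧ Z a2 b2 := by
      intro a1 ha1 a2 ha2 b1 hb1 b2 hb2 h
      rw [← hz] at h
      have k1 := ETCP.q_eq h
      rw [qadd' (horth _ hb1 _ ha2).symm, qaddl' (horth _ ha1 _ hb2)] at k1
      have k2 := hind _ ha1 _ hb1 _ ha2 _ hb2 k1
      exact ⟨(hz _ _).1 k2, (hz _ _).1 (k1.symm.trans k2)⟩
    have mkr : ∀ {A A' : Submodule (ZMod 2) V} (hc : IsCompl A A'),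
        (∀ v : V, ∃ a ∈ A, ∃ a' ∈ A', v = a + a') →
        (∀ a1 ∈ A, ∀ a2 ∈ A', ∀ b1 ∈ A, ∀ b2 ∈ A', Z (a1 + a2) (b1 + b2) → Z a1 b1) →
        RetZ Z A := by
      intro A A' hc hdec hs
      obtain ⟨ρ, h1, h2⟩ := exists_proj hc
      refine ⟨ρ, h1, ?_, ?_⟩
      · intro f hf
        have := h2 f hf 0 A'.zero_mem
        rwa [add_zero] at this
      · intro a b hab
        obtain ⟨a1, g1, a2, g2, rfl⟩ := hdec a
        obtain ⟨b1, g3, b2, g4, rfl⟩ := hdec b
        rw [h2 a1 g1 a2 g2, h2 b1 g3 b2 g4]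
        exact hs a1 g1 a2 g2 b1 g3 b2 g4 hab
    have r1 : RetZ Z A := mkr hcompl hsum fun a1 h1 a2 h2 b1 h3 b2 h4 h =>
      (hsplit a1 h1 a2 h2 b1 h3 b2 h4 h).1
    have r2 : RetZ Z A' := mkr hcompl.symm (fun v => by
        obtain ⟨a, h1, a', h2, h3⟩ := hsum v
        exact ⟨a', h2, a, h1, by rw [h3, add_comm]⟩) fun a2 h2 a1 h1 b2 h4 b1 h3 h => by
      rw [add_comm a2, add_comm b2] at h
      exact (hsplit a1 h1 a2 h2 b1 h3 b2 h4 h).2
    have n1 : A ≠ ⊤ := fun h => hb00 (hdis b0 (by rw [h]; trivial) hb0)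
    have n2 : A' ≠ ⊤ := fun h => ha00 (hdis a0 ha0 (by rw [h]; trivial))
    have e1 := hr A n1 r1
    have e2 := hr A' n2 r2
    refine qpr_proof qex_proof qis_proof V A A' Z _ _
      (Submodule.prodEquivOfIsCompl A A' hcompl).symm.toAddEquiv (r1.lz hZ) (r2.lz hZ) ?_ e1 e2
    intro a b
    obtain ⟨⟨a1, a2⟩, rfl⟩ := (Submodule.prodEquivOfIsCompl A A' hcompl).surjective a
    obtain ⟨⟨b1, b2⟩, rfl⟩ := (Submodule.prodEquivOfIsCompl A A' hcompl).surjective b
    have hs : ∀ p : A × A', (Submodule.prodEquivOfIsCompl A A' hcompl).symm.toAddEquiv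
        ((Submodule.prodEquivOfIsCompl A A' hcompl) p) = p := fun p =>
      (Submodule.prodEquivOfIsCompl A A' hcompl).symm_apply_apply p
    rw [hs, hs]
    have hv : ∀ p : A × A', (Submodule.prodEquivOfIsCompl A A' hcompl) p = (p.1 : V) + (p.2 : V) :=
      fun p => by simp
    rw [hv, hv]
    show Z ((a1 : V) + a2) ((b1 : V) + b2) ↔ Z (a1 : V) b1 ∧ Z (a2 : V) b2
    constructor
    · exact hsplit a1 a1.2 a2 a2.2 b1 b1.2 b2 b2.2
    · rintro ⟨h1, h2⟩
      rw [← hz] at h1 h2 ⊢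
      exact (h1.add (horth _ a1.2 _ b2.2)).add' ((horth _ b1.2 _ a2.2).symm.add h2)

end Pool.Agent.ETCD2
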