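import Pool.Agent.ETCD2.Rel3
import Pool.Agent.ETCD2.Core2

/-!
(K4) and note 2502 for a relation all of whose proper retracts, kernels of prime functionals and
Pfister quotients are of elementary type (helper24; after ETCT/K4, helper29).
-/

set_option autoImplicit false
set_option linter.unusedSectionVars false
set_option linter.unusedSimpArgs false

namespace Pool.Agent.ETCD2

open QS Pool.Agent.RFT Pool.Agent.ETG Pool.Agent.RFN Pool.Agent.REG10 Pool.Agent.AST
open Pool.Agent.ETCLH Pool.Agent.ETCT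
open Pool.Agent.Helper58.PLine (QData)
open Pool.Agent.ETCP (C)

/-- `(W, ZW)` is the Pfister quotient of `(V, Z)` at `x` -/
structure IsPf {V W : Type} [AddCommGroup V] [Module (ZMod 2) V] [AddCommGroup W]
    [Module (ZMod 2) W] (Z : V → V → Prop) (x : V) (π : V →ₗ[ZMod 2] W) (ZW : W → W → Prop) :
    Prop where
  surj : Function.Surjective π
  ker : ∀ v, π v = 0 ↔ Z x v
  rel : ∀ a b, ZW (π a) (π b) ↔ ∃ a' b', Z x (a + a') ∧ Z x (b + b') ∧ Z a' b'

/-- the Pfister quotients are of elementary type -/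
def PfET {V : Type} [AddCommGroup V] [Module (ZMod 2) V] (Z : V → V → Prop) : Prop :=
  ∀ x, x ≠ 0 → ∀ (W : Type) [AddCommGroup W] [Module (ZMod 2) W] [Finite W] (ZW : W → W → Prop)
    (π : V →ₗ[ZMod 2] W), LZ ZW → IsPf Z x π ZW → ETZ ZW

/-- `F` of `PF` is a retract -/
theorem PF.ret {V : Type} [AddCommGroup V] [Module (ZMod 2) V] {Z : V → V → Prop} (hZ : LZ Z)
    {F : Submodule (ZMod 2) V} (hF : PF Z F) : RetZ Z F := by
  obtain ⟨G, hG⟩ := F.exists_isCompl
  obtain ⟨ρ, h1, h2⟩ := exists_proj hG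
  have prF : ∀ f ∈ F, ρ f = f := by
    intro f hf
    have := h2 f hf 0 G.zero_mem
    rwa [add_zero] at this
  refine ⟨ρ, h1, prF, ?_⟩
  intro a b hab
  by_cases ha : a ∈ F
  · by_cases ha0 : a = 0
    · rw [ha0, map_zero]
      exact hZ.symm _ _ (hZ.zero _)
    · rw [prF a ha, prF b (hF.inn a ha ha0 b hab)]
      exact hab
  · rcases hF.out a ha b hab with h | h
    · rw [h, map_zero]
      exact hZ.zero _
    · rw [h]
      exact hZ.alt _

/-- a minimal `F` contains no rigid elements -/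
theorem pf_min' {V : Type} [AddCommGroup V] [Module (ZMod 2) V] [Finite V] {Z : V → V → Prop}
    (hZ : LZ Z) (hE : ETZ Z) (h : ∃ F, PF Z F) :
    ∃ F, PF Z F ∧ ∀ f ∈ F, f ≠ 0 → ∃ d, Z f d ∧ d ≠ 0 ∧ d ≠ f := by
  classical
  obtain ⟨F, hF, hmin⟩ : ∃ F, PF Z F ∧ ∀ F' : Submodule (ZMod 2) V, PF Z F' →
      Module.finrank (ZMod 2) (F : Submodule (ZMod 2) V) ≤ Module.finrank (ZMod 2) F' := by
    have hfin : {F : Submodule (ZMod 2) V | PF Z F}.Finite := Set.toFinite _
    obtain ⟨F, h1, h2⟩ := hfin.exists_minimalFor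
      (fun F : Submodule (ZMod 2) V => Module.finrank (ZMod 2) F) _ h
    refine ⟨F, h1, fun F' hF' => ?_⟩
    by_contra hc
    push Not at hc
    exact absurd (h2 hF' hc.le) (not_le.2 hc)
  refine ⟨F, hF, fun f hf hf0 => ?_⟩
  by_contra hcon
  push Not at hcon
  have hR := PF.ret hZ hF
  obtain ⟨F1, hF1⟩ := pf_of_rig (hR.lz hZ) (ret_et hZ hE hR) (g := ⟨f, hf⟩)
    (fun h => hf0 (congrArg Subtype.val h))
    (fun y hy => by
      by_cases hy0 : (y : V) = 0
      · exact Or.inl (Subtype.ext hy0)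
      · exact Or.inr (Subtype.ext (hcon y hy hy0)))
  -- the image in `V`
  have hP : PF Z (F1.map F.subtype) := by
    have mem : ∀ y : F, (y : V) ∈ F1.map F.subtype ↔ y ∈ F1 := by
      intro y
      constructor
      · rintro ⟨z, hz, hzy⟩
        have : z = y := Subtype.ext hzy
        rwa [← this]
      · intro hy
        exact ⟨y, hy, rfl⟩
    refine ⟨?_, ?_, ?_⟩
    · obtain ⟨v, hv⟩ := hF1.ne
      exact ⟨v, fun h => hv ((mem v).1 h)⟩
    · intro e he y hy
      by_cases heF : e ∈ F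
      · by_cases he0 : e = 0
        · exact absurd (by rw [he0]; exact Submodule.zero_mem _) he
        have hyF : y ∈ F := hF.inn e heF he0 y hy
        rcases hF1.out ⟨e, heF⟩ (fun h => he ((mem ⟨e, heF⟩).2 h)) ⟨y, hyF⟩ hy with h | h
        · exact Or.inl (congrArg Subtype.val h)
        · exact Or.inr (congrArg Subtype.val h)
      · exact hF.out e heF y hy
    · rintro f' ⟨f, hf, rfl⟩ hf0 y hy
      have hyF : y ∈ F := hF.inn f f.2 hf0 y hy
      exact (mem ⟨y, hyF⟩).2 (hF1.inn f hf (fun h => hf0 (congrArg Subtype.val h)) ⟨y, hyF⟩ hy)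
  have h1 := hmin _ hP
  have h2 : Module.finrank (ZMod 2) (F1.map F.subtype) = Module.finrank (ZMod 2) F1 :=
    Submodule.finrank_map_subtype_eq _ _
  obtain ⟨v, hv⟩ := hF1.ne
  have h3 : Module.finrank (ZMod 2) F1 < Module.finrank (ZMod 2) F :=
    Submodule.finrank_lt (fun h => hv (by rw [h]; trivial))
  omega

/-- a structure whose Pfister quotient at `x` is of elementary type and has a rigid class has a
prime functional -/
theorem prime_of_rigid_class' {V Q : Type} [AddCommGroup V] [Module (ZMod 2) V] [Finite V]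
    {S : QData V Q} (he : S.e = 0) {x : V}
    (hr : ∃ a b, ¬ C S x a ∧ ¬ C S x b ∧ ¬ C S x (a + b))
    (hpf : ∀ (W : Type) [AddCommGroup W] [Module (ZMod 2) W] [Finite W] (ZW : W → W → Prop)
      (π : V →ₗ[ZMod 2] W), LZ ZW → IsPf (fun a b => C S a b) x π ZW → ETZ ZW)
    {w : V} (hw : ¬ C S x w)
    (hrig : ∀ s, Pc S x w s → C S x s ∨ C S x (s + w)) :
    ∃ φ : V →ₗ[ZMod 2] ZMod 2, φ ≠ 0 ∧
      ∀ p p', (∃ v, C S p v ∧ φ v = 1) → (∃ v, C S p' v ∧ φ v = 1) →
        (∃ v, C S (p + p') v ∧ φ v = 1) → ∃ v, C S p v ∧ C S p' v ∧ φ v = 1 := by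
  classical
  set Z' : (V ⧸ S.ann x) → (V ⧸ S.ann x) → Prop :=
    fun a b => (ETC.pq S x).q a b = (ETC.pq S x).z with hZ'
  have hfin : Finite (V ⧸ S.ann x) :=
    Finite.of_surjective (S.ann x).mkQ (Submodule.mkQ_surjective _)
  have he' : (ETC.pq S x).e = 0 := by
    show (Submodule.Quotient.mk S.e : V ⧸ S.ann x) = 0
    rw [he]
    rfl
  have hLZ : LZ Z' := lz_of_data _ he'
  have mk0 : ∀ v : V, (Submodule.Quotient.mk v : V ⧸ S.ann x) = 0 ↔ C S x v := fun v => by
    rw [Submodule.Quotient.mk_eq_zero]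
    exact Iff.rfl
  have hE : ETZ Z' := by
    refine hpf _ Z' (S.ann x).mkQ hLZ ⟨Submodule.mkQ_surjective _, fun v => mk0 v, ?_⟩
    intro a b
    exact pc_iff
  have mkeq : ∀ v v' : V, (Submodule.Quotient.mk v : V ⧸ S.ann x) = Submodule.Quotient.mk v' ↔
      C S x (v + v') := fun v v' => by
    rw [← mk0, Submodule.Quotient.mk_add]
    constructor
    · intro h
      rw [h, ZModModule.add_self]
    · intro h
      exact ETCP.eo h
  have hP : ∃ F, PF Z' F := by
    apply pf_of_rig hLZ hE (g := Submodule.Quotient.mk w)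
    · rw [Ne, mk0]; exact hw
    · intro y hy
      obtain ⟨s, rfl⟩ := (S.ann x).mkQ_surjective y
      rw [Submodule.mkQ_apply] at hy ⊢
      rw [mk0, mkeq]
      exact hrig s (pc_iff.1 hy)
  obtain ⟨F, hF, hFn⟩ := pf_min' hLZ hE hP
  have hpc : ∀ a b, C S a b → Z' (Submodule.Quotient.mk a) (Submodule.Quotient.mk b) := by
    intro a b h
    refine pc_iff.2 ⟨a, b, ?_, ?_, h⟩
    · rw [ZModModule.add_self]; exact ETCP.C.zero x
    · rw [ZModModule.add_self]; exact ETCP.C.zero x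
  have R : RF S x (F.comap (S.ann x).mkQ) := by
    refine ⟨?_, ?_, ?_, ?_, ?_⟩
    · intro y hy
      rw [Submodule.mem_comap, Submodule.mkQ_apply, (mk0 y).2 hy]
      exact F.zero_mem
    · intro u hu y hy
      rcases hF.out _ hu _ (hpc u y hy) with h | h
      · exact Or.inl ((mk0 y).1 h)
      · exact Or.inr ((mkeq y u).1 h)
    · intro f hf hfx y hy
      exact hF.inn _ hf (fun h => hfx ((mk0 f).1 h)) _ (hpc f y hy)
    · intro f hf hfx
      obtain ⟨d, h1, h2, h3⟩ := hFn _ hf (fun h => hfx ((mk0 f).1 h))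
      obtain ⟨d, rfl⟩ := (S.ann x).mkQ_surjective d
      obtain ⟨f', d', g1, g2, g3⟩ := pc_iff.1 h1
      refine ⟨f', d', g1, g3, ?_, ?_⟩
      · intro h
        apply h2
        exact (mk0 d).2 ((g2.add h).of_eq rfl (ETCP.eo (by
          abel_nf; simp [ETCP.ch2, ETCP.ch3, ETCP.ch4])))
      · intro h
        apply h3
        exact (mkeq d f).2 ((g2.add h).of_eq rfl (ETCP.eo (by
          abel_nf; simp [ETCP.ch2, ETCP.ch3, ETCP.ch4])))
    · intro h
      obtain ⟨v, hv⟩ := hF.ne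
      obtain ⟨v, rfl⟩ := (S.ann x).mkQ_surjective v
      apply hv
      have : v ∈ F.comap (S.ann x).mkQ := by rw [h]; trivial
      exact this
  exact R.prime he hr

/-- **(K4)** -/
theorem k4' {V : Type} [AddCommGroup V] [Module (ZMod 2) V] [Finite V] {Z : V → V → Prop}
    (hZ : LZ Z) (M : Mn (dat hZ)) (hp : PfET Z) {x w : V} (hx : x ≠ 0)
    (hw : ¬ C (dat hZ) x w) :
    ∃ w' s, C (dat hZ) x (w + w') ∧ C (dat hZ) w' s ∧ ¬ C (dat hZ) x s ∧
      ¬ C (dat hZ) x (s + w) := by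
  by_contra hcon
  push Not at hcon
  have hr : ∃ a b, ¬ C (dat hZ) x a ∧ ¬ C (dat hZ) x b ∧ ¬ C (dat hZ) x (a + b) := by
    by_contra hc
    push Not at hc
    apply hx
    apply M.r1 x
    intro v w
    by_cases h1 : C (dat hZ) x v
    · exact Or.inl h1
    · by_cases h2 : C (dat hZ) x w
      · exact Or.inr (Or.inl h2)
      · exact Or.inr (Or.inr (hc v w h1 h2))
  have hz : ∀ a b, C (dat hZ) a b ↔ Z a b := dat_zero hZ
  have hZe : (fun a b => C (dat hZ) a b) = Z := by
    funext a b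
    exact propext (hz a b)
  obtain ⟨φ, h0, hp⟩ := prime_of_rigid_class' M.he hr
    (fun W _ _ _ ZW π h1 h2 => hp x hx W ZW π h1 (by rw [hZe] at h2; exact h2)) hw (by
    rintro s ⟨w', s', h1, h2, h3⟩
    by_cases h4 : C (dat hZ) x s'
    · left
      exact (h2.add h4).of_eq rfl (ETCP.eo (by
        abel_nf; simp [ETCP.ch2, ETCP.ch3, ETCP.ch4]))
    · right
      exact (h2.add (hcon w' s' h1 h3 h4)).of_eq rfl (ETCP.eo (by
        abel_nf; simp [ETCP.ch2, ETCP.ch3, ETCP.ch4])))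
  exact M.np φ h0 hp

/-- **Note 2502 for relations**: all proper retracts, the kernels of prime functionals and the
Pfister quotients are of elementary type, (D2) holds at one `x` of minimal rank and at the radical
of `V_x` -/
theorem topZ {V : Type} [AddCommGroup V] [Module (ZMod 2) V] [Finite V] {Z : V → V → Prop}
    (hZ : LZ Z) (hr : RetET Z) (hk : KerET Z) (hp : PfET Z) {x : V} (x0 : x ≠ 0)
    (mr : ∀ v, v ≠ 0 → Nat.card {w // Z v w} ≤ Nat.card {w // Z x w})
    (d2 : ∀ z : V, z ≠ 0 → (∀ k, Z x k → Z z k) → ∀ k a b, Z z k → Z k a → Z (k + z) b →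
      ¬ Z z a → ¬ Z z b → Z z (a + b)) : ETZ Z := by
  by_contra hET
  have M := mn' hZ hr hk hET
  have hz : ∀ a b, C (dat hZ) a b ↔ Z a b := dat_zero hZ
  have hcard : ∀ v : V, Nat.card ((dat hZ).ann v) = Nat.card {w // Z v w} := fun v =>
    Nat.card_congr ((Equiv.refl V).subtypeEquiv fun w => hz v w)
  refine core2 M.he x0 ?_ ?_ ?_ ?_
  · intro v hv
    rw [hcard, hcard]
    exact mr v hv
  · by_contra h
    push Not at h
    exact x0 (M.r1 x fun v w => Or.inl (h v))
  · intro z hz0 u hu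
    exact k4' hZ M hp hz0 hu
  · intro z hz0 hzk k a b h1 h2 h3 h4 h5
    simp only [hz] at hzk h1 h2 h3 h4 h5 ⊢
    exact d2 z hz0 hzk k a b h1 h2 h3 h4 h5

end Pool.Agent.ETCD2
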