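import Mathlib

/-!
Note 2567 (helper76), THEOREM T: thin symbols.  Part (1) (helper24).
-/

set_option autoImplicit false
set_option linter.unusedSectionVars false
set_option linter.unusedVariables false

namespace Pool.Agent.ETCD2.TT

variable {V B : Type} [AddCommGroup V] [Module (ZMod 2) V] [AddCommGroup B] [Module (ZMod 2) B]

theorem two (b : B) : b + b = 0 := ZModModule.add_self b

theorem eo {a b : B} (h : a + b = 0) : a = b := by
  have h1 : a + b + b = b := by rw [h, zero_add]
  rwa [add_assoc, two, add_zero] at h1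

theorem oe {a b : B} (h : a = b) : a + b = 0 := by rw [h, two]

theorem aax (a b : B) : a + b + b = a := by rw [add_assoc, two, add_zero]

theorem xaa (a b : B) : a + (a + b) = b := by rw [← add_assoc, two, zero_add]

theorem addl (q : V →ₗ[ZMod 2] V →ₗ[ZMod 2] B) (a b c : V) : q (a + b) c = q a c + q b c := by
  rw [map_add, LinearMap.add_apply]

/-- a linked alternating map -/
structure Lk (q : V →ₗ[ZMod 2] V →ₗ[ZMod 2] B) : Prop where
  alt : ∀ v, q v v = 0
  link : ∀ a b c d, q a b = q c d → ∃ y, q a y = q a b ∧ q c y = q a b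

variable {q : V →ₗ[ZMod 2] V →ₗ[ZMod 2] B}

theorem Lk.symm (L : Lk q) (a b : V) : q a b = q b a := by
  have h := L.alt (a + b)
  rw [addl, map_add, map_add, L.alt a, L.alt b, zero_add, add_zero] at h
  exact eo h

/-- `b` is a value of `q a` -/
def Sl (q : V →ₗ[ZMod 2] V →ₗ[ZMod 2] B) (b : B) (a : V) : Prop := ∃ v, q a v = b

/-- (L3) -/
theorem Lk.l3 (L : Lk q) {c e : B} {s t : V} (h1 : Sl q c s) (h2 : Sl q e t)
    (h3 : Sl q (c + e) (s + t)) : ∃ r, q s r = c ∧ q t r = e := by
  obtain ⟨v, hv⟩ := h1
  obtain ⟨w, hw⟩ := h2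
  obtain ⟨u, hu⟩ := h3
  -- `s v = c`, `t w = e`, `(s+t) u = c + e`
  have e1 : q s (u + v) = q t (u + w) := by
    rw [map_add, map_add, hv, hw]
    rw [addl] at hu
    apply eo
    have : q s u + c + (q t u + e) = q s u + q t u + (c + e) := by abel
    rw [this, hu, two]
  obtain ⟨y, h4, h5⟩ := L.link s (u + v) t (u + w) e1
  refine ⟨u + y, ?_, ?_⟩
  · rw [map_add, h4, map_add, hv, xaa]
  · rw [map_add, h5, e1, map_add, hw, xaa]

theorem Lk.common (L : Lk q) {c : B} {s t : V} (h1 : Sl q c s) (h2 : Sl q c t) :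
    ∃ r, q s r = c ∧ q t r = c := by
  obtain ⟨v, hv⟩ := h1
  obtain ⟨w, hw⟩ := h2
  obtain ⟨y, h4, h5⟩ := L.link s v t w (hv.trans hw.symm)
  exact ⟨y, h4.trans hv, h5.trans hv⟩

/-- the number of `r` with `q s r = c`, `q t r = e` -/
noncomputable def cnt (q : V →ₗ[ZMod 2] V →ₗ[ZMod 2] B) (s t : V) (c e : B) : ℕ :=
  Nat.card {r : V // q s r = c ∧ q t r = e}

theorem cnt_eq [Finite V] {s t r0 : V} {c e : B} (h1 : q s r0 = c) (h2 : q t r0 = e) :
    cnt q s t c e = cnt q s t 0 0 := by
  refine Nat.card_congr
    { toFun := fun r => ⟨r.1 + r0, by rw [map_add, r.2.1, h1, two], by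
        rw [map_add, r.2.2, h2, two]⟩
      invFun := fun r => ⟨r.1 + r0, by rw [map_add, r.2.1, h1, zero_add], by
        rw [map_add, r.2.2, h2, zero_add]⟩
      left_inv := fun r => Subtype.ext (aax _ _)
      right_inv := fun r => Subtype.ext (aax _ _) }

/-- symmetry of the counts -/
theorem Lk.cnt_swap [Finite V] (L : Lk q) {g : B} {s t : V} (hs : Sl q g s) (ht : Sl q g t) :
    cnt q s t 0 g = cnt q s t g 0 := by
  by_cases h : Sl q g (s + t)
  · obtain ⟨r, h1, h2⟩ := L.l3 (c := 0) (e := g) ⟨0, map_zero _⟩ ht (by rwa [zero_add])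
    obtain ⟨r', h1', h2'⟩ := L.l3 (c := g) (e := 0) hs ⟨0, map_zero _⟩ (by rwa [add_zero])
    rw [cnt_eq h1 h2, cnt_eq h1' h2']
  · have e1 : IsEmpty {r : V // q s r = 0 ∧ q t r = g} :=
      ⟨fun r => h ⟨r.1, by rw [addl, r.2.1, r.2.2, zero_add]⟩⟩
    have e2 : IsEmpty {r : V // q s r = g ∧ q t r = 0} :=
      ⟨fun r => h ⟨r.1, by rw [addl, r.2.1, r.2.2, add_zero]⟩⟩
    unfold cnt
    rw [Nat.card_of_isEmpty, Nat.card_of_isEmpty]

theorem Lk.cnt_comm (L : Lk q) (s t : V) (c e : B) : cnt q s t c e = cnt q t s e c :=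
  Nat.card_congr (Equiv.subtypeEquivRight fun _ => and_comm)

/-- **(1)** thin is global -/
theorem Lk.thin1 [Finite V] (L : Lk q) {g : B} (g0 : g ≠ 0) {x : V} (hx : Sl q g x)
    (thin : ∀ v, Sl q g v → q x v = 0 → v = x) {t s : V} (ht : Sl q g t) (hs : Sl q g s)
    (hts : q t s = 0) : s = t := by
  classical
  have := Fintype.ofFinite V
  -- double counting
  have key1 : ∑ s : V, (if q t s = 0 then cnt q s x g g else 0) =
      ∑ r : V, (if q x r = g then cnt q t r 0 g else 0) := by
    have e1 : ∀ s : V, (if q t s = 0 then cnt q s x g g else 0) =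
        ∑ r : V, (if q t s = 0 ∧ q s r = g ∧ q x r = g then 1 else 0) := by
      intro s
      by_cases h : q t s = 0
      · simp only [h, if_true, true_and]
        rw [cnt, Nat.card_eq_fintype_card, Fintype.card_subtype, Finset.card_filter]
      · simp only [h, if_false, false_and, Finset.sum_const_zero]
    have e2 : ∀ r : V, (if q x r = g then cnt q t r 0 g else 0) =
        ∑ s : V, (if q t s = 0 ∧ q s r = g ∧ q x r = g then 1 else 0) := by
      intro r
      by_cases h : q x r = g
      · simp only [h, if_true, and_true]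
        rw [cnt, Nat.card_eq_fintype_card, Fintype.card_subtype, Finset.card_filter]
        refine Finset.sum_congr rfl fun s _ => ?_
        rw [L.symm r s]
      · simp only [h, if_false, and_false, Finset.sum_const_zero]
    simp only [e1, e2]
    exact Finset.sum_comm
  have key2 : ∑ r : V, (if q x r = g then cnt q t r g 0 else 0) =
      ∑ s : V, (if q t s = g then cnt q s x 0 g else 0) := by
    have e1 : ∀ s : V, (if q t s = g then cnt q s x 0 g else 0) =
        ∑ r : V, (if q t s = g ∧ q s r = 0 ∧ q x r = g then 1 else 0) := by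
      intro s
      by_cases h : q t s = g
      · simp only [h, if_true, true_and]
        rw [cnt, Nat.card_eq_fintype_card, Fintype.card_subtype, Finset.card_filter]
      · simp only [h, if_false, false_and, Finset.sum_const_zero]
    have e2 : ∀ r : V, (if q x r = g then cnt q t r g 0 else 0) =
        ∑ s : V, (if q t s = g ∧ q s r = 0 ∧ q x r = g then 1 else 0) := by
      intro r
      by_cases h : q x r = g
      · simp only [h, if_true, and_true]
        rw [cnt, Nat.card_eq_fintype_card, Fintype.card_subtype, Finset.card_filter]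
        refine Finset.sum_congr rfl fun s _ => ?_
        rw [L.symm r s]
      · simp only [h, if_false, and_false, Finset.sum_const_zero]
    simp only [e1, e2]
    exact Finset.sum_comm
  have key3 : ∑ r : V, (if q x r = g then cnt q t r 0 g else 0) =
      ∑ r : V, (if q x r = g then cnt q t r g 0 else 0) := by
    refine Finset.sum_congr rfl fun r _ => ?_
    by_cases h : q x r = g
    · simp only [h, if_true]
      exact L.cnt_swap ht ⟨x, by rw [L.symm, h]⟩
    · simp only [h, if_false]
  have key4 : ∑ s : V, (if q t s = g then cnt q s x 0 g else 0) =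
      ∑ s : V, (if q t s = g then cnt q s x g 0 else 0) := by
    refine Finset.sum_congr rfl fun s _ => ?_
    by_cases h : q t s = g
    · simp only [h, if_true]
      exact L.cnt_swap ⟨t, by rw [L.symm, h]⟩ hx
    · simp only [h, if_false]
  have key5 : ∑ s : V, (if q t s = g then cnt q s x g 0 else 0) = cnt q t x g g := by
    rw [cnt, Nat.card_eq_fintype_card, Fintype.card_subtype, Finset.card_filter]
    refine Finset.sum_congr rfl fun s _ => ?_
    by_cases h : q t s = g
    · simp only [h, if_true, true_and]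
      by_cases h' : q x s = g
      · simp only [h', if_true]
        rw [cnt, Nat.card_eq_one_iff_unique]
        refine ⟨⟨fun a b => ?_⟩, ⟨⟨x, by rw [L.symm]; exact h', L.alt x⟩⟩⟩
        have ha := thin a.1 ⟨s, by rw [L.symm]; exact a.2.1⟩ a.2.2
        have hb := thin b.1 ⟨s, by rw [L.symm]; exact b.2.1⟩ b.2.2
        exact Subtype.ext (ha.trans hb.symm)
      · simp only [h', if_false]
        have : IsEmpty {r : V // q s r = g ∧ q x r = 0} := by
          refine ⟨fun a => h' ?_⟩
          have ha := thin a.1 ⟨s, by rw [L.symm]; exact a.2.1⟩ a.2.2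
          rw [L.symm, ← ha]; exact a.2.1
        rw [cnt, Nat.card_of_isEmpty]
    · simp only [h, if_false, false_and]
  have main : ∑ s : V, (if q t s = 0 then cnt q s x g g else 0) = cnt q t x g g :=
    key1.trans (key3.trans (key2.trans (key4.trans key5)))
  by_contra hne
  have pos : 0 < cnt q s x g g := by
    obtain ⟨r, h1, h2⟩ := L.common hs hx
    have : Nonempty {r : V // q s r = g ∧ q x r = g} := ⟨⟨r, h1, h2⟩⟩
    exact Nat.card_pos
  have h1 : cnt q s x g g + cnt q t x g g ≤
      ∑ s : V, (if q t s = 0 then cnt q s x g g else 0) := by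
    have h2 : ∑ v ∈ ({s, t} : Finset V), (if q t v = 0 then cnt q v x g g else 0) ≤
        ∑ v : V, (if q t v = 0 then cnt q v x g g else 0) :=
      Finset.sum_le_sum_of_subset (Finset.subset_univ _)
    rw [Finset.sum_pair hne, if_pos hts, if_pos (L.alt t)] at h2
    exact h2
  omega

end Pool.Agent.ETCD2.TT
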