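import Pool.Agent.ETCD2.T1

/-!
Note 2567 (helper76), THEOREM T: thin symbols.  Parts (1)-(3) (helper24).
-/

set_option autoImplicit false
set_option linter.unusedSectionVars false
set_option linter.unusedVariables false

namespace Pool.Agent.ETCD2.TT

variable {V B : Type} [AddCommGroup V] [Module (ZMod 2) V] [AddCommGroup B] [Module (ZMod 2) B]
variable {q : V →ₗ[ZMod 2] V →ₗ[ZMod 2] B}

/-- `g` is a thin symbol -/
structure Th (q : V →ₗ[ZMod 2] V →ₗ[ZMod 2] B) (g : B) : Prop where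
  lk : Lk q
  g0 : g ≠ 0
  thin : ∀ t s, Sl q g t → Sl q g s → q t s = 0 → s = t

/-- thinness at one slot is enough -/
theorem Th.of [Finite V] (L : Lk q) {g : B} (g0 : g ≠ 0) {x : V} (hx : Sl q g x)
    (thin : ∀ v, Sl q g v → q x v = 0 → v = x) : Th q g :=
  ⟨L, g0, fun _ _ ht hs h => L.thin1 g0 hx thin ht hs h⟩

/-- thinness in terms of `K = V_x`: no element of `K - 0` kills an element of `X_g` -/
theorem Th.of' [Finite V] (L : Lk q) {g : B} (g0 : g ≠ 0) {x : V} (hx : Sl q g x)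
    (h : ∀ l w, q x l = 0 → q x w = g → q l w = 0 → l = 0) : Th q g := by
  refine Th.of L g0 hx fun v hv hxv => ?_
  obtain ⟨w, h1, h2⟩ := L.common hx hv
  have h3 : q (x + v) w = 0 := by rw [addl, h1, h2, two]
  have h4 := h (x + v) w (by rw [map_add, L.alt, hxv, add_zero]) h1 h3
  exact (eo h4).symm

variable {g : B}

namespace Th

theorem sl_of (T : Th q g) {s t : V} {b : B} (h : q s t = b) : Sl q b s := ⟨t, h⟩

theorem sl_of' (T : Th q g) {s t : V} {b : B} (h : q s t = b) : Sl q b t :=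
  ⟨s, by rw [T.lk.symm]; exact h⟩

theorem sl_add {s : V} {b b' : B} (h : Sl q b s) (h' : Sl q b' s) : Sl q (b + b') s := by
  obtain ⟨v, hv⟩ := h
  obtain ⟨w, hw⟩ := h'
  exact ⟨v + w, by rw [map_add, hv, hw]⟩

/-- slots `s, t, s + t` of `g` give `q s t = g` -/
theorem adj (T : Th q g) {s t : V} (hs : Sl q g s) (ht : Sl q g t) (hst : Sl q g (s + t)) :
    q s t = g := by
  obtain ⟨r, h1, h2⟩ := T.lk.l3 (c := 0) (e := g) ⟨0, map_zero _⟩ ht (by rwa [zero_add])
  have h3 := T.thin s r hs (T.sl_of' h2) h1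
  subst h3
  rw [T.lk.symm]; exact h2

/-- `q s t = g` implies `V_s ∩ V_t = 0` -/
theorem disj (T : Th q g) {s t v : V} (h : q s t = g) (h1 : q s v = 0) (h2 : q t v = 0) :
    v = 0 := by
  have h3 : Sl q g (s + v) := T.sl_of' (s := t) (by rw [map_add, h2, add_zero, T.lk.symm, h])
  have h4 := T.thin s (s + v) (T.sl_of h) h3 (by rw [map_add, T.lk.alt, h1, add_zero])
  exact add_eq_left.1 h4

/-- the set `V_c(s)` of the note -/
def Vc (q : V →ₗ[ZMod 2] V →ₗ[ZMod 2] B) (g c : B) (s v : V) : Prop := q s v = c ∧ Sl q g (s + v)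

/-- `V_c(s)` and `V_e(s)` commute -/
theorem comm (T : Th q g) {c e : B} (hg : c + e = g) {s v v' : V} (h : Vc q g c s v)
    (h' : Vc q g e s v') : q v v' = 0 := by
  have h1 : Sl q g (s + v + (s + v')) := by
    have e1 : s + v + (s + v') = (v + v') + (s + s) := by abel
    rw [e1, two, add_zero]
    exact T.sl_of' (s := s) (by rw [map_add, h.1, h'.1, hg])
  have h2 := T.adj h.2 h'.2 h1
  rw [addl, map_add, map_add, T.lk.alt, zero_add, h'.1, T.lk.symm v s, h.1] at h2
  have h3 : q v v' + (c + e) = g := by rw [← h2]; abel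
  rw [hg] at h3
  exact add_eq_right.1 h3

/-- the converse: `V_c(s)` is a coset of `V_s ∩ V_{v'}` -/
theorem conv (T : Th q g) {c e : B} (hg : c + e = g) {s v v' : V} (h' : q s v' = e)
    (h : q s v = c) (hvv : q v v' = 0) : Vc q g c s v ∧ Vc q g e s v' := by
  have h1 : q (s + v) (s + v') = g := by
    rw [addl, map_add, map_add, T.lk.alt, zero_add, h', T.lk.symm v s, h, hvv, add_zero, ← hg]
    abel
  exact ⟨⟨h, T.sl_of h1⟩, ⟨h', T.sl_of' h1⟩⟩

theorem Vc_add (T : Th q g) {c e : B} (hg : c + e = g) {s v v' m : V} (h : Vc q g c s v)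
    (h' : Vc q g e s v') (hm : q s m = 0) (hm' : q v' m = 0) : Vc q g c s (v + m) := by
  refine (T.conv hg h'.1 (by rw [map_add, h.1, hm, add_zero]) ?_).1
  rw [addl, T.comm hg h h', T.lk.symm m v', hm', add_zero]

theorem Vc_sub (T : Th q g) {c e : B} (hg : c + e = g) {s v w v' : V} (h : Vc q g c s v)
    (hw : Vc q g c s w) (h' : Vc q g e s v') : q s (v + w) = 0 ∧ q v' (v + w) = 0 := by
  refine ⟨by rw [map_add, h.1, hw.1, two], ?_⟩
  rw [map_add, T.lk.symm v' v, T.lk.symm v' w, T.comm hg h h', T.comm hg hw h', add_zero]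

/-- two slots of `g` in `Ω` with `q s z = g`: the decomposition of `z` -/
theorem decomp (T : Th q g) {c e : B} (hg : c + e = g) {s u : V} (hsu : q s u = g)
    (hs : Sl q c s) (hz : Sl q c (s + u)) :
    ∃ v v', Vc q g c s v ∧ Vc q g e s v' ∧ u = v + v' := by
  have L := T.lk
  have sg : Sl q g s := T.sl_of hsu
  have hg' : c + g = e := by rw [← hg, xaa]
  have se : Sl q e s := by rw [← hg']; exact sl_add hs sg
  have zg : Sl q g (s + u) := T.sl_of' (s := s) (by rw [map_add, L.alt, zero_add, hsu])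
  have ze : Sl q e (s + u) := by rw [← hg']; exact sl_add hz zg
  have ug : Sl q g (s + (s + u)) := by rw [xaa]; exact T.sl_of' hsu
  obtain ⟨y, y1, y2⟩ := L.l3 (c := c) (e := e) hs ze (by rw [hg]; exact ug)
  obtain ⟨y', y1', y2'⟩ := L.l3 (c := e) (e := c) se hz (by rw [add_comm e, hg]; exact ug)
  have yg : Sl q g y := by rw [← hg]; exact sl_add (T.sl_of' y1) (T.sl_of' y2)
  have yg' : Sl q g y' := by rw [← hg]; exact sl_add (T.sl_of' y2') (T.sl_of' y1')
  have v1 : Vc q g c s (s + y) := ⟨by rw [map_add, L.alt, zero_add, y1], by rwa [xaa]⟩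
  have v2 : Vc q g e s (s + y') := ⟨by rw [map_add, L.alt, zero_add, y1'], by rwa [xaa]⟩
  refine ⟨s + y, s + y', v1, v2, ?_⟩
  have yy : q y y' = g := by
    refine T.adj yg yg' (T.sl_of' (s := s) ?_)
    rw [map_add, y1, y1', hg]
  have e1 : s + y + (s + y') = y + y' + (s + s) := by abel
  rw [e1, two, add_zero]
  -- `(s + u) + (s + y + y')` is killed by `y`, `y'`
  have h1 : q y (u + (y + y')) = 0 := by
    have e2 : q y u = q y s + e := by
      have h2 : q (s + u) y = e := y2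
      rw [addl, L.symm s y, L.symm u y] at h2
      rw [← h2, xaa]
    rw [map_add, map_add, e2, L.alt, zero_add, yy, L.symm y s, y1, hg, two]
  have h2 : q y' (u + (y + y')) = 0 := by
    have e2 : q y' u = q y' s + c := by
      have h2 : q (s + u) y' = c := y2'
      rw [addl, L.symm s y', L.symm u y'] at h2
      rw [← h2, xaa]
    rw [map_add, map_add, e2, L.alt, add_zero, L.symm y' y, yy, L.symm y' s, y1', add_comm e, hg,
      two]
  exact eo (T.disj yy h1 h2)

/-- the converse of `decomp` -/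
theorem comp (T : Th q g) {c e : B} (hg : c + e = g) {s v v' : V} (h : Vc q g c s v)
    (h' : Vc q g e s v') : q s (v + v') = g ∧ Sl q c (s + (v + v')) ∧ Sl q e (s + (v + v')) := by
  have L := T.lk
  refine ⟨by rw [map_add, h.1, h'.1, hg], T.sl_of (t := s + v') ?_, T.sl_of (t := s + v) ?_⟩
  · rw [addl, addl, map_add, map_add, map_add, L.alt, L.alt v', T.comm hg h h', h'.1,
      L.symm v s, L.symm v' s, h.1, h'.1]
    have : 0 + e + (c + 0 + (e + 0)) = c + (e + e) := by abel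
    rw [this, two, add_zero]
  · rw [addl, addl, map_add, map_add, map_add, L.alt, L.alt v, L.symm v' v, T.comm hg h h', h.1,
      L.symm v s, L.symm v' s, h.1, h'.1]
    have : 0 + c + (c + 0 + (e + 0)) = e + (c + c) := by abel
    rw [this, two, add_zero]

/-- a failure of (D2) at `(x; c, e)` -/
structure Fail (q : V →ₗ[ZMod 2] V →ₗ[ZMod 2] B) (c e : B) (x k v v' : V) : Prop where
  xk : q x k = 0
  kv : q k v = 0
  xv : q x v = c
  kv' : q (x + k) v' = 0
  xv' : q x v' = e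

/-- **(3)** the decomposition of `x` -/
theorem fail_dec (T : Th q g) {c e : B} (hg : c + e = g) {x k v v' : V} (F : Fail q c e x k v v') :
    ∃ a b, q x a = 0 ∧ q x b = 0 ∧ x = a + b ∧ k = b ∧
      (∀ w, Vc q g c x w → q b w = 0) ∧ (∀ w, Vc q g e x w → q a w = 0) ∧
      (∃ w, Vc q g c x w) ∧ ∃ w, Vc q g e x w := by
  have L := T.lk
  have hku : q k (v + v') = e := by
    rw [map_add, F.kv, zero_add]
    have := F.kv'
    rw [addl, F.xv'] at this
    exact (eo this).symm
  have hxu : q x (v + v') = g := by rw [map_add, F.xv, F.xv', hg]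
  have hg' : g + e = c := by rw [← hg, aax]
  have gx : Sl q g x := T.sl_of hxu
  have gu : Sl q g (v + v') := T.sl_of' hxu
  have gz : Sl q g (x + (v + v')) := T.sl_of' (s := x) (by rw [map_add, L.alt, zero_add, hxu])
  have ex : Sl q e x := T.sl_of F.xv'
  have eu : Sl q e (v + v') := T.sl_of' hku
  have ez : Sl q e (x + (v + v')) := T.sl_of' (s := k) (by
    rw [map_add, L.symm k x, F.xk, zero_add, hku])
  have cx : Sl q c x := T.sl_of F.xv
  have cu : Sl q c (v + v') := by rw [← hg']; exact sl_add gu eu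
  have cz : Sl q c (x + (v + v')) := by rw [← hg']; exact sl_add gz ez
  obtain ⟨w1, w1', h1, h1', e1⟩ := T.decomp hg hxu cx cz
  obtain ⟨w2, w2', h2, h2', e2⟩ := T.decomp hg (s := x) (u := x + (v + v'))
    (by rw [map_add, L.alt, zero_add, hxu]) cx (by rw [xaa]; exact cu)
  -- `a = w1 + w2` in `K^(c)`, `b = w1' + w2'` in `K^(e)`
  have ha := fun w' (hw' : Vc q g e x w') => T.Vc_sub hg h1 h2 hw'
  have hb := fun w (hw : Vc q g c x w) => T.Vc_sub (by rw [add_comm, hg]) h1' h2' hw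
  have hx : x = (w1 + w2) + (w1' + w2') := by
    have : w1 + w2 + (w1' + w2') = (w1 + w1') + (w2 + w2') := by abel
    rw [this, ← e1, ← e2]
    have : v + v' + (x + (v + v')) = x + ((v + v') + (v + v')) := by abel
    rw [this, two, add_zero]
  have b0 := (hb _ h1).1
  have a0 := (ha _ h1').1
  refine ⟨w1 + w2, w1' + w2', a0, b0, hx, ?_, fun w hw => ?_, fun w hw => ?_, ⟨w1, h1⟩,
    ⟨w1', h1'⟩⟩
  · -- `k = b`
    refine eo (T.disj hxu (v := k + (w1' + w2')) ?_ ?_)
    · rw [map_add, F.xk, b0, add_zero]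
    · have hbu : q (w1' + w2') (v + v') = e := by
        have h3 : q (w1' + w2') w1 = 0 := by rw [L.symm]; exact (hb _ h1).2
        have h4 : q (w1 + w2) w1' = 0 := by rw [L.symm]; exact (ha _ h1').2
        have h5 : q x w1' = q (w1 + w2) w1' + q (w1' + w2') w1' := by rw [← addl, ← hx]
        rw [h1'.1, h4, zero_add] at h5
        rw [e1, map_add, h3, zero_add, ← h5]
      rw [map_add, L.symm _ k, hku, L.symm _ (w1' + w2'), hbu, two]
  · rw [L.symm]; exact (hb w hw).2
  · rw [L.symm]; exact (ha w hw).2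

end Th

/-- a (D2) failure at `(x; c, e)`, `g = c + e` thin: `x = a + b` with `a = x_c`, `b = x_e` -/
structure TF (q : V →ₗ[ZMod 2] V →ₗ[ZMod 2] B) (g c e : B) (x a b v v' : V) : Prop where
  th : Th q g
  hg : c + e = g
  xa : q x a = 0
  xb : q x b = 0
  x_eq : x = a + b
  ha : ∀ w, Th.Vc q g e x w → q a w = 0
  hb : ∀ w, Th.Vc q g c x w → q b w = 0
  hv : Th.Vc q g c x v
  hv' : Th.Vc q g e x v'

/-- every failure gives the structure -/
theorem TF.of {c e : B} {x k v v' : V} (T : Th q g) (hg : c + e = g)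
    (F : Th.Fail q c e x k v v') : ∃ a w w', TF q g c e x a k w w' := by
  obtain ⟨a, b, h1, h2, h3, rfl, h4, h5, ⟨w, hw⟩, w', hw'⟩ := T.fail_dec hg F
  exact ⟨a, w, w', T, hg, h1, h2, h3, h5, h4, hw, hw'⟩

namespace TF

variable {c e : B} {x a b v v' : V}

theorem hg' (F : TF q g c e x a b v v') : e + c = g := by rw [add_comm, F.hg]

theorem swap (F : TF q g c e x a b v v') : TF q g e c x b a v' v :=
  ⟨F.th, F.hg', F.xb, F.xa, by rw [F.x_eq, add_comm], F.hb, F.ha, F.hv', F.hv⟩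

theorem ab (F : TF q g c e x a b v v') : q a b = 0 := by
  have h := F.xb
  rw [F.x_eq, addl, F.th.lk.alt, add_zero] at h
  exact h

/-- `a w = c` for `w` in `V_c(x)` -/
theorem aw (F : TF q g c e x a b v v') {w : V} (hw : Th.Vc q g c x w) : q a w = c := by
  have h := hw.1
  rw [F.x_eq, addl, F.hb w hw, add_zero] at h
  exact h

theorem bw (F : TF q g c e x a b v v') {w : V} (hw : Th.Vc q g e x w) : q b w = e :=
  F.swap.aw hw

/-- the elements of `U_c(x)` -/
theorem u_dec (F : TF q g c e x a b v v') {u : V} (hu : q x u = g) (hc : Sl q c (x + u)) :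
    ∃ w w', Th.Vc q g c x w ∧ Th.Vc q g e x w' ∧ u = w + w' :=
  F.th.decomp F.hg hu (F.th.sl_of F.hv.1) hc

/-- `b u = e` for `u` in `U_c(x)` -/
theorem bu (F : TF q g c e x a b v v') {u : V} (hu : q x u = g) (hc : Sl q c (x + u)) :
    q b u = e := by
  obtain ⟨w, w', h1, h2, rfl⟩ := F.u_dec hu hc
  rw [map_add, F.hb w h1, F.bw h2, zero_add]

theorem au (F : TF q g c e x a b v v') {u : V} (hu : q x u = g) (hc : Sl q c (x + u)) :
    q a u = c := by
  obtain ⟨w, w', h1, h2, rfl⟩ := F.u_dec hu hc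
  rw [map_add, F.ha w' h2, F.aw h1, add_zero]

/-- an element `u` with `x u = g`, `b u = e` is in `U_c(x)` -/
theorem mem_u (F : TF q g c e x a b v v') {u : V} (hu : q x u = g) (hb : q b u = e) :
    Sl q c (x + u) := by
  have L := F.th.lk
  have h1 : Sl q e (x + u) := F.th.sl_of' (s := b) (by
    rw [map_add, L.symm b x, F.xb, zero_add, hb])
  have h2 : Sl q g (x + u) := F.th.sl_of' (s := x) (by rw [map_add, L.alt, zero_add, hu])
  have h3 : g + e = c := by rw [← F.hg, aax]
  rw [← h3]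
  exact Th.sl_add h2 h1

/-- **`V_x ∩ V_{x_e} = K^(c) ⊕ K^(e)`**, one inclusion -/
theorem k_dec (F : TF q g c e x a b v v') {κ : V} (h1 : q x κ = 0) (h2 : q b κ = 0) :
    ∃ m m', κ = m + m' ∧ q x m = 0 ∧ q x m' = 0 ∧
      (∀ w, Th.Vc q g e x w → q w m = 0) ∧ ∀ w, Th.Vc q g c x w → q w m' = 0 := by
  have L := F.th.lk
  have u1 : q x (v + v' + κ) = g := by rw [map_add, map_add, F.hv.1, F.hv'.1, h1, add_zero, F.hg]
  have u2 : q b (v + v' + κ) = e := by
    rw [map_add, map_add, F.hb v F.hv, F.bw F.hv', h2, zero_add, add_zero]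
  obtain ⟨w, w', h3, h4, h5⟩ := F.u_dec u1 (F.mem_u u1 u2)
  refine ⟨v + w, v' + w', ?_, (F.th.Vc_sub F.hg F.hv h3 F.hv').1,
    (F.th.Vc_sub F.hg' F.hv' h4 F.hv).1, fun y hy => (F.th.Vc_sub F.hg F.hv h3 hy).2,
    fun y hy => (F.th.Vc_sub F.hg' F.hv' h4 hy).2⟩
  have : v + w + (v' + w') = (v + v') + (w + w') := by abel
  rw [this, ← h5, xaa]

/-- the other inclusion: elements of `K^(c)` commute with `b = x_e` -/
theorem kc_b (F : TF q g c e x a b v v') {m : V} (h1 : q x m = 0)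
    (h2 : ∀ w, Th.Vc q g e x w → q w m = 0) : q b m = 0 := by
  have L := F.th.lk
  -- `v + m` is in `V_c(x)`
  have h3 : Th.Vc q g c x (v + m) := F.th.Vc_add F.hg F.hv F.hv' h1 (h2 _ F.hv')
  have h4 := F.hb _ h3
  rw [map_add, F.hb v F.hv, zero_add] at h4
  exact h4

/-- elements of `K^(c)` and `K^(e)` commute -/
theorem kc_ke (F : TF q g c e x a b v v') {m m' : V} (h1 : q x m = 0)
    (h2 : ∀ w, Th.Vc q g e x w → q w m = 0) (h1' : q x m' = 0)
    (h2' : ∀ w, Th.Vc q g c x w → q w m' = 0) : q m m' = 0 := by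
  have L := F.th.lk
  have h3 : Th.Vc q g c x (v + m) := F.th.Vc_add F.hg F.hv F.hv' h1 (h2 _ F.hv')
  have h4 : Th.Vc q g e x (v' + m') := F.th.Vc_add F.hg' F.hv' F.hv h1' (h2' _ F.hv)
  have h5 := F.th.comm F.hg h3 h4
  have h6 := F.th.comm F.hg F.hv F.hv'
  rw [addl, map_add, map_add, h6, h2' _ F.hv, L.symm m v', h2 _ F.hv', zero_add, zero_add,
    zero_add] at h5
  exact h5

/-- `V_x ∩ V_{x_e} = V_x ∩ V_{x_c}` -/
theorem ka_iff (F : TF q g c e x a b v v') {m : V} (h1 : q x m = 0) :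
    q a m = 0 ↔ q b m = 0 := by
  have h := h1
  rw [F.x_eq, addl] at h
  have h2 := eo h
  rw [h2]

end TF

end Pool.Agent.ETCD2.TT
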