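import Pool.Agent.ETCD2.TopG
import Pool.Agent.ETE8.Main
import Pool.Agent.ETPR.N

/-!
The elementary type conjecture for `-1 = 1` from a condition on ONE quaternion `c ≠ 0`: property
(3N) or property (HP) of the set of slots of `c` (Theorem 88 and Theorem HP: helpers 88, 14, 38,
24).
-/

set_option autoImplicit false
set_option linter.unusedSectionVars false

namespace Pool.Agent.ETCD2

open QS Pool.Agent.RFT Pool.Agent.ETG Pool.Agent.RFN Pool.Agent.REG10 Pool.Agent.AST
open Pool.Agent.ETCLH Pool.Agent.ETCT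
open Pool.Agent.Helper58.PLine (QData)
open Pool.Agent.ETCP (C q_eq_iff q_eq'_iff)
open Pool.Agent.ETPF (Sg)

/-- `a` is a slot of `c` -/
def IsSlot (S : QStruct) (c : S.Q) (a : S.G) : Prop := ∃ b, S.q a b = c

/-- (3N) at `c`: if `a`, `b`, `d` are slots of `c` and `ab`, `ad`, `bd` are not, then `abd` is -/
def ThreeN (S : QStruct) (c : S.Q) : Prop := ∀ a b d, IsSlot S c a → IsSlot S c b →
  IsSlot S c d → ¬ IsSlot S c (a * b) → ¬ IsSlot S c (a * d) → ¬ IsSlot S c (b * d) →
    IsSlot S c (a * b * d)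

/-- (HP) at `c`: some homomorphism to a group of order two is nontrivial on the slots of `c`, and
all `v` in the group generated by the slots at which it is nontrivial are slots -/
def HypP (S : QStruct) (c : S.Q) : Prop := ∃ φ : S.G →* Multiplicative (ZMod 2),
  (∃ s, IsSlot S c s ∧ φ s ≠ 1) ∧ ∀ v ∈ Subgroup.closure {s | IsSlot S c s}, φ v ≠ 1 →
    IsSlot S c v

/-- (N) at `c`: the slots of `c` generate the group and for some slot `u`, every `v` has `v` or
`u v` a slot -/
def HypN (S : QStruct) (c : S.Q) : Prop := (∀ v, v ∈ Subgroup.closure {s | IsSlot S c s}) ∧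
  ∃ u, IsSlot S c u ∧ ∀ v, IsSlot S c v ∨ IsSlot S c (u * v)

/-- a good quaternion -/
def GoodC (S : QStruct) (c : S.Q) : Prop := c ≠ S.zero ∧ (ThreeN S c ∨ HypP S c ∨ HypN S c)

/-! ### relations -/

section
variable {V : Type} [AddCommGroup V] [Module (ZMod 2) V]

/-- slots of `q (x, u)` -/
def SlZ (Z : V → V → Prop) (x u a : V) : Prop := ∃ w, Z x (u + w) ∧ Z (a + x) w

theorem sg_iff {Q : Type} {D : QData V Q} {x u a : V} :
    Sg D (D.q x u) a ↔ SlZ (C D) x u a := by
  constructor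
  · rintro ⟨r, hr⟩
    obtain ⟨w, h1, h2⟩ := D.link a r x u hr
    exact ⟨w, q_eq_iff.1 h2, q_eq'_iff.1 (by rw [← h1, hr, h2])⟩
  · rintro ⟨w, h1, h2⟩
    exact ⟨w, by rw [q_eq'_iff.2 h2, q_eq_iff.2 h1]⟩

/-- relation form -/
theorem topN [Finite V] {Z : V → V → Prop}
    (hZ : LZ Z) (hr : RetET Z) (hk : KerET Z) (hp : PfET Z) {x u : V} (hxu : ¬ Z x u)
    (h : (∀ a b d, SlZ Z x u a → SlZ Z x u b → SlZ Z x u d → ¬ SlZ Z x u (a + b) →
        ¬ SlZ Z x u (a + d) → ¬ SlZ Z x u (b + d) → SlZ Z x u (a + b + d)) ∨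
      (∃ l : V →ₗ[ZMod 2] ZMod 2, (∃ s, SlZ Z x u s ∧ l s = 1) ∧
        ∀ v ∈ Submodule.span (ZMod 2) {s | SlZ Z x u s}, l v = 1 → SlZ Z x u v) ∨
      ((∀ v, v ∈ Submodule.span (ZMod 2) {s | SlZ Z x u s}) ∧
        ∃ s, SlZ Z x u s ∧ ∀ v, SlZ Z x u v ∨ SlZ Z x u (s + v))) : ETZ Z := by
  by_contra hET
  have M := mn' hZ hr hk hET
  have hz : ∀ a b, C (dat hZ) a b ↔ Z a b := dat_zero hZ
  have hzz : C (dat hZ) = Z := by
    funext a b
    exact propext (hz a b)
  have cne : (dat hZ).q x u ≠ (dat hZ).z := fun h => hxu ((hz _ _).1 h)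
  have k4 : ∀ z, z ≠ 0 → K4At (dat hZ) z := fun z z0 u hu => k4' hZ M hp z0 hu
  have hs : ∀ a, Sg (dat hZ) ((dat hZ).q x u) a ↔ SlZ Z x u a := by
    intro a
    rw [sg_iff, hzz]
  rcases h with h | ⟨l, ⟨s, hs1, hs2⟩, h2⟩ | ⟨h1, s, h2, h3⟩
  · refine ETE8.false_of_N3 M.he cne k4 ⟨x, u, rfl⟩ ?_
    intro a b d
    simp only [hs]
    exact h a b d
  · refine ETPN.false_of_HP M.he cne k4 (E := Submodule.span (ZMod 2) {s | SlZ Z x u s})
      (l := l) (fun s hs' => Submodule.subset_span ((hs s).1 hs')) (fun v hv hl => ?_)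
      ⟨s, Submodule.subset_span hs1, hs2⟩
    exact (hs v).2 (h2 v hv hl)
  · refine ETPR.false_of_N M.he cne k4 (u := s) ((hs s).2 h2) ?_ ?_
    · intro v
      simp only [hs]
      exact h1 v
    · intro v
      simp only [hs]
      exact fun h4 => (h3 v).resolve_left h4

end

theorem isSlot_iff {S : QStruct} {x u a : S.G} :
    IsSlot S (S.q x u) a ↔
      SlZ (ZS S) (Additive.ofMul x) (Additive.ofMul u) (Additive.ofMul a) := by
  constructor
  · rintro ⟨r, hr⟩
    obtain ⟨w, h1, h2⟩ := S.qs4 a r x u hr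
    refine ⟨Additive.ofMul w, (S.qs3 _ _ _).1 h2, ?_⟩
    show S.q (a * x) w = S.zero
    rw [S.qs2, ← S.qs3, S.qs2 w a, S.qs2 w x, ← h1, hr, h2]
  · rintro ⟨w, h1, h2⟩
    refine ⟨Additive.toMul w, ?_⟩
    have h3 : S.q x u = S.q x (Additive.toMul w) := (S.qs3 _ _ _).2 h1
    have h4 : S.q (a * x) (Additive.toMul w) = S.zero := h2
    rw [S.qs2, ← S.qs3] at h4
    rw [S.qs2, h4, S.qs2, h3]

theorem mem_closure_of_span {S : QStruct} {A : Set S.G} {B : Set (Additive S.G)}
    (hB : ∀ y ∈ B, Additive.toMul y ∈ A) {v : Additive S.G}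
    (hv : v ∈ Submodule.span (ZMod 2) B) : Additive.toMul v ∈ Subgroup.closure A := by
  induction hv using Submodule.span_induction with
  | mem y hy => exact Subgroup.subset_closure (hB y hy)
  | zero => exact Subgroup.one_mem _
  | add y z _ _ hy hz => exact Subgroup.mul_mem _ hy hz
  | smul r y _ hy =>
    rcases ETC.zm r with rfl | rfl
    · rw [zero_smul]; exact Subgroup.one_mem _
    · rwa [one_smul]

theorem mem_span_of_closure {S : QStruct} {A : Set S.G} {B : Set (Additive S.G)}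
    (hB : ∀ y ∈ A, Additive.ofMul y ∈ B) {v : S.G}
    (hv : v ∈ Subgroup.closure A) : Additive.ofMul v ∈ Submodule.span (ZMod 2) B := by
  induction hv using Subgroup.closure_induction with
  | mem y hy => exact Submodule.subset_span (hB y hy)
  | one => exact Submodule.zero_mem _
  | mul y z _ _ hy hz => exact Submodule.add_mem _ hy hz
  | inv y _ hy => exact Submodule.neg_mem _ hy

/-- from `QStruct` to relations -/
theorem goodC_zs {S : QStruct} {x u : S.G}
    (h : ThreeN S (S.q x u) ∨ HypP S (S.q x u) ∨ HypN S (S.q x u)) :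
    (∀ a b d, SlZ (ZS S) (Additive.ofMul x) (Additive.ofMul u) a →
        SlZ (ZS S) (Additive.ofMul x) (Additive.ofMul u) b →
        SlZ (ZS S) (Additive.ofMul x) (Additive.ofMul u) d →
        ¬ SlZ (ZS S) (Additive.ofMul x) (Additive.ofMul u) (a + b) →
        ¬ SlZ (ZS S) (Additive.ofMul x) (Additive.ofMul u) (a + d) →
        ¬ SlZ (ZS S) (Additive.ofMul x) (Additive.ofMul u) (b + d) →
        SlZ (ZS S) (Additive.ofMul x) (Additive.ofMul u) (a + b + d)) ∨
      (∃ l : Additive S.G →ₗ[ZMod 2] ZMod 2,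
        (∃ s, SlZ (ZS S) (Additive.ofMul x) (Additive.ofMul u) s ∧ l s = 1) ∧
        ∀ v ∈ Submodule.span (ZMod 2) {s | SlZ (ZS S) (Additive.ofMul x) (Additive.ofMul u) s},
          l v = 1 → SlZ (ZS S) (Additive.ofMul x) (Additive.ofMul u) v) ∨
      ((∀ v, v ∈ Submodule.span (ZMod 2)
          {s | SlZ (ZS S) (Additive.ofMul x) (Additive.ofMul u) s}) ∧
        ∃ s, SlZ (ZS S) (Additive.ofMul x) (Additive.ofMul u) s ∧
          ∀ v, SlZ (ZS S) (Additive.ofMul x) (Additive.ofMul u) v ∨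
            SlZ (ZS S) (Additive.ofMul x) (Additive.ofMul u) (s + v)) := by
  have hs : ∀ a : Additive S.G, SlZ (ZS S) (Additive.ofMul x) (Additive.ofMul u) a ↔
      IsSlot S (S.q x u) (Additive.toMul a) := fun a => (isSlot_iff (a := Additive.toMul a)).symm
  rcases h with h | ⟨φ, ⟨s, hs1, hs2⟩, h2⟩ | ⟨h1, s, h2, h3⟩
  · left
    intro a b d
    simp only [hs]
    exact h (Additive.toMul a) (Additive.toMul b) (Additive.toMul d)
  · right; left
    let l : Additive S.G →+ ZMod 2 := MonoidHom.toAdditiveLeft φ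
    refine ⟨l.toZModLinearMap 2, ⟨Additive.ofMul s, (hs _).2 hs1, ?_⟩, ?_⟩
    · rcases ETC.zm (l.toZModLinearMap 2 (Additive.ofMul s)) with h3 | h3
      · exact absurd h3 hs2
      · exact h3
    · intro v hv hl
      refine (hs v).2 (h2 _ (mem_closure_of_span (fun y hy => (hs y).1 hy) hv) ?_)
      intro h3
      have h4 : l.toZModLinearMap 2 v = 0 := h3
      rw [h4] at hl
      exact absurd hl (by decide)
  · right; right
    refine ⟨fun v => mem_span_of_closure (fun y hy => (hs _).2 hy) (h1 (Additive.toMul v)),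
      Additive.ofMul s, (hs _).2 h2, fun v => ?_⟩
    rw [hs, hs]
    exact h3 (Additive.toMul v)

/-- some `x` of minimal rank is good or some quaternion is good -/
def HasN (S : QStruct) : Prop := HasG S ∨ ∃ c, GoodC S c

/-- **one step** -/
theorem stepn (S : QStruct) (hf : Finite S.G) (hneg : S.neg = 1)
    (hD : (∃ g : S.G, g ≠ 1) → HasN S)
    (hR : ∀ P, IsRetract S P → Nat.card P.G < Nat.card S.G → ElemType P)
    (hK : ∀ P, IsPrimeKer S P → ElemType P) (hP : ∀ P, IsPfister S P → ElemType P) :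
    ElemType S := by
  by_cases hG : (∃ g : S.G, g ≠ 1) → HasG S
  · exact stepg S hf hneg hG hR hK hP
  push Not at hG
  obtain ⟨hne, hG⟩ := hG
  obtain ⟨c, hc, hg⟩ := (hD hne).resolve_left hG
  obtain ⟨x, u, rfl⟩ := S.surj c
  have hfA : Finite (Additive S.G) := hf
  have cardF : ∀ (F : Submodule (ZMod 2) (Additive S.G)) (T : QStruct), F ≠ ⊤ →
      QOf (Rs (ZS S) F) T → Nat.card T.G < Nat.card S.G := by
    rintro F T hF ⟨-, e, -⟩
    obtain ⟨w, hw⟩ : ∃ w, w ∉ F := by
      by_contra hcon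
      push Not at hcon
      exact hF (eq_top_iff.2 fun v _ => hcon v)
    calc Nat.card T.G = Nat.card F := (Nat.card_congr e.toEquiv).symm
      _ < Nat.card (Additive S.G) := card_lt_of F hw
      _ = Nat.card S.G := rfl
  refine topN (lzs S hneg) (x := Additive.ofMul x) (u := Additive.ofMul u) ?_ ?_ ?_
    (fun h => hc h) (goodC_zs hg) S (qof S hneg)
  · intro F hF hR' T hT
    exact hR T (isRetract_of hR' hT) (cardF F T hF hT)
  · intro φ hφ T hT
    exact hK T (isPrimeKer_of hφ hT)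
  · intro y hy W _ _ _ ZW π hL hP' T hT
    exact hP T (isPfister_of hy hP' hT)

/-! ### structures of elementary type have good quaternions -/

/-- both properties -/
def Good2 (S : QStruct) (c : S.Q) : Prop := c ≠ S.zero ∧ ThreeN S c ∧ HypP S c

theorem good2_iso {S T : QStruct} (h : Iso S T) {c : S.Q} (hc : Good2 S c) :
    ∃ c', Good2 T c' := by
  obtain ⟨φ, -, hφ⟩ := h
  obtain ⟨x, u, rfl⟩ := S.surj c
  obtain ⟨h1, h2, ψ, ⟨s, h3, h4⟩, h5⟩ := hc
  have hs : ∀ a, IsSlot T (T.q (φ x) (φ u)) (φ a) ↔ IsSlot S (S.q x u) a := by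
    intro a
    constructor
    · rintro ⟨b, hb⟩
      obtain ⟨b, rfl⟩ := φ.surjective b
      exact ⟨b, (hφ _ _ _ _).2 hb⟩
    · rintro ⟨b, hb⟩
      exact ⟨φ b, (hφ _ _ _ _).1 hb⟩
  have hz : ∀ a b, S.q a b = S.zero ↔ T.q (φ a) (φ b) = T.zero := by
    intro a b
    rw [← S.q_one 1, ← T.q_one 1, hφ, map_one]
  refine ⟨T.q (φ x) (φ u), fun h => h1 ((hz _ _).2 h), ?_, ψ.comp φ.symm.toMonoidHom, ?_, ?_⟩
  · intro a b d
    obtain ⟨a, rfl⟩ := φ.surjective a
    obtain ⟨b, rfl⟩ := φ.surjective b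
    obtain ⟨d, rfl⟩ := φ.surjective d
    rw [← map_mul, ← map_mul, ← map_mul, ← map_mul]
    simp only [hs]
    exact h2 a b d
  · exact ⟨φ s, (hs s).2 h3, by simpa using h4⟩
  · intro v hv h6
    obtain ⟨v, rfl⟩ := φ.surjective v
    refine (hs v).2 (h5 v ?_ (by simpa using h6))
    have h7 : Subgroup.closure {s | IsSlot T (T.q (φ x) (φ u)) s} ≤
        (Subgroup.closure {s | IsSlot S (S.q x u) s}).map φ.toMonoidHom := by
      rw [Subgroup.closure_le]
      intro y hy
      obtain ⟨y, rfl⟩ := φ.surjective y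
      exact ⟨y, Subgroup.subset_closure ((hs y).1 hy), rfl⟩
    obtain ⟨w, hw, hw'⟩ := h7 hv
    have : w = v := φ.injective hw'
    rwa [← this]

theorem good2_prod_left {S T : QStruct} {c : S.Q} (hc : Good2 S c) :
    Good2 (QS.prod S T) (c, T.zero) := by
  obtain ⟨h1, h2, ψ, ⟨s, h3, h4⟩, h5⟩ := hc
  have hs : ∀ a : S.G × T.G, IsSlot (QS.prod S T) (c, T.zero) a ↔ IsSlot S c a.1 := by
    rintro ⟨a1, a2⟩
    constructor
    · rintro ⟨⟨b1, b2⟩, hb⟩
      exact ⟨b1, congrArg Prod.fst hb⟩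
    · rintro ⟨b1, hb⟩
      exact ⟨(b1, 1), Prod.ext hb (T.q_one a2)⟩
  refine ⟨fun h => h1 (congrArg Prod.fst h), ?_, ψ.comp (MonoidHom.fst S.G T.G), ?_, ?_⟩
  · intro a b d
    rw [hs, hs, hs, hs, hs, hs, hs]
    exact h2 a.1 b.1 d.1
  · exact ⟨(s, 1), (hs _).2 h3, h4⟩
  · intro v hv h6
    refine (hs v).2 (h5 v.1 ?_ h6)
    have h7 : Subgroup.closure {s : S.G × T.G | IsSlot (QS.prod S T) (c, T.zero) s} ≤
        (Subgroup.closure {s | IsSlot S c s}).comap (MonoidHom.fst S.G T.G) := by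
      rw [Subgroup.closure_le]
      intro y hy
      exact Subgroup.subset_closure ((hs y).1 hy)
    exact h7 hv

theorem good2_prod_right {S T : QStruct} {c : T.Q} (hc : Good2 T c) :
    Good2 (QS.prod S T) (S.zero, c) := by
  obtain ⟨h1, h2, ψ, ⟨s, h3, h4⟩, h5⟩ := hc
  have hs : ∀ a : S.G × T.G, IsSlot (QS.prod S T) (S.zero, c) a ↔ IsSlot T c a.2 := by
    rintro ⟨a1, a2⟩
    constructor
    · rintro ⟨⟨b1, b2⟩, hb⟩
      exact ⟨b2, congrArg Prod.snd hb⟩
    · rintro ⟨b2, hb⟩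
      exact ⟨(1, b2), Prod.ext (S.q_one a1) hb⟩
  refine ⟨fun h => h1 (congrArg Prod.snd h), ?_, ψ.comp (MonoidHom.snd S.G T.G), ?_, ?_⟩
  · intro a b d
    rw [hs, hs, hs, hs, hs, hs, hs]
    exact h2 a.2 b.2 d.2
  · exact ⟨(1, s), (hs _).2 h3, h4⟩
  · intro v hv h6
    refine (hs v).2 (h5 v.2 ?_ h6)
    have h7 : Subgroup.closure {s : S.G × T.G | IsSlot (QS.prod S T) (S.zero, c) s} ≤
        (Subgroup.closure {s | IsSlot T c s}).comap (MonoidHom.snd S.G T.G) := by
      rw [Subgroup.closure_le]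
      intro y hy
      exact Subgroup.subset_closure ((hs y).1 hy)
    exact h7 hv

/-- the extension of a structure with a good quaternion -/
theorem good2_ext {S : QStruct} {x u : S.G} (hc : Good2 S (S.q x u)) :
    Good2 (QS.ext S) ((QS.ext S).q (x, 1) (u, 1)) := by
  obtain ⟨h1, h2, ψ, ⟨s, h3, h4⟩, h5⟩ := hc
  have hs1 : ∀ a : S.G, IsSlot (QS.ext S) ((QS.ext S).q (x, 1) (u, 1)) (a, 1) ↔
      IsSlot S (S.q x u) a := by
    intro a
    constructor
    · rintro ⟨⟨b, β⟩, hb⟩
      have hb' : extMap S (a, 1) (b, β) = extMap S (x, 1) (u, 1) := congrArg Subtype.val hb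
      rcases two_cases β with rfl | rfl
      · rw [extMap_one_one, extMap_one_one, Prod.mk.injEq] at hb'
        exact ⟨b, hb'.1⟩
      · rw [extMap_one_x, extMap_one_one, Prod.mk.injEq] at hb'
        refine absurd ?_ h1
        rw [← hb'.1, hb'.2]
        exact q_one1 S b
    · rintro ⟨b, hb⟩
      refine ⟨(b, 1), Subtype.ext ?_⟩
      show extMap S (a, 1) (b, 1) = extMap S (x, 1) (u, 1)
      rw [extMap_one_one, extMap_one_one, hb]
  have hs2 : ∀ a : S.G, ¬ IsSlot (QS.ext S) ((QS.ext S).q (x, 1) (u, 1))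
      (a, Multiplicative.ofAdd 1) := by
    rintro a ⟨⟨b, β⟩, hb⟩
    have hb' : extMap S (a, Multiplicative.ofAdd 1) (b, β) = extMap S (x, 1) (u, 1) :=
      congrArg Subtype.val hb
    rcases two_cases β with rfl | rfl
    · rw [extMap_x_one, extMap_one_one, Prod.mk.injEq] at hb'
      apply h1
      rw [← hb'.1, hb'.2, S.q_one]
    · rw [extMap_x_x, extMap_one_one, Prod.mk.injEq] at hb'
      apply h1
      have h6 : b = S.neg * a := by
        rw [mul_assoc] at hb'
        rw [eq_iff_mul S]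
        calc b * (S.neg * a) = S.neg * (a * b) := by ac_rfl
          _ = 1 := hb'.2
      rw [← hb'.1, h6, S.qs1]
  have hs : ∀ a : S.G × Multiplicative (ZMod 2),
      IsSlot (QS.ext S) ((QS.ext S).q (x, 1) (u, 1)) a ↔ a.2 = 1 ∧ IsSlot S (S.q x u) a.1 := by
    rintro ⟨a, α⟩
    rcases two_cases α with rfl | rfl
    · rw [hs1]
      exact ⟨fun h => ⟨rfl, h⟩, fun h => h.2⟩
    · exact ⟨fun h => absurd h (hs2 a), fun h => absurd h.1 (by
        show ¬ (Multiplicative.ofAdd (1 : ZMod 2)) = 1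
        decide)⟩
  refine ⟨fun h => h1 ((ext_zero11 _ _).1 h), ?_, ψ.comp (MonoidHom.fst S.G _), ?_, ?_⟩
  · rintro ⟨a, α⟩ ⟨b, β⟩ ⟨d, δ⟩ ha hb hd n1 n2 n3
    obtain ⟨a0, ha⟩ := (hs _).1 ha
    obtain ⟨b0, hb⟩ := (hs _).1 hb
    obtain ⟨d0, hd⟩ := (hs _).1 hd
    change α = 1 at a0
    change β = 1 at b0
    change δ = 1 at d0
    subst a0 b0 d0
    refine (hs1 _).2 (h2 a b d ha hb hd (fun h => n1 ((hs1 _).2 h)) (fun h => n2 ((hs1 _).2 h))
      fun h => n3 ((hs1 _).2 h))
  · exact ⟨(s, 1), (hs1 _).2 h3, h4⟩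
  · intro v hv h6
    have h7 : Subgroup.closure {s : S.G × Multiplicative (ZMod 2) |
        IsSlot (QS.ext S) ((QS.ext S).q (x, 1) (u, 1)) s} ≤
        (Subgroup.closure {s | IsSlot S (S.q x u) s}).comap (MonoidHom.fst S.G _) ⊓
          (MonoidHom.snd S.G (Multiplicative (ZMod 2))).ker := by
      rw [Subgroup.closure_le]
      intro y hy
      have := (hs y).1 hy
      exact ⟨Subgroup.subset_closure this.2, this.1⟩
    have h8 := h7 hv
    exact (hs v).2 ⟨h8.2, h5 v.1 h8.1 h6⟩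

/-- the extension of a totally degenerate structure -/
theorem good2_ext0 {S : QStruct} (h0 : ∀ a b, S.q a b = S.zero) {g : S.G} (hg : g ≠ 1) :
    Good2 (QS.ext S) ((QS.ext S).q (g, 1) (1, Multiplicative.ofAdd 1)) := by
  have hx : ∀ a : S.G, IsSlot (QS.ext S) ((QS.ext S).q (g, 1) (1, Multiplicative.ofAdd 1))
      (a, Multiplicative.ofAdd 1) := by
    intro a
    refine ⟨(g, 1), Subtype.ext ?_⟩
    show extMap S (a, Multiplicative.ofAdd 1) (g, 1) = extMap S (g, 1) (1, Multiplicative.ofAdd 1)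
    rw [extMap_x_one, extMap_one_x, h0, h0]
  have h1 : ∀ a : S.G, IsSlot (QS.ext S) ((QS.ext S).q (g, 1) (1, Multiplicative.ofAdd 1))
      (a, 1) ↔ a = g := by
    intro a
    constructor
    · rintro ⟨⟨b, β⟩, hb⟩
      have hb' : extMap S (a, 1) (b, β) = extMap S (g, 1) (1, Multiplicative.ofAdd 1) :=
        congrArg Subtype.val hb
      rcases two_cases β with rfl | rfl
      · rw [extMap_one_one, extMap_one_x, Prod.mk.injEq] at hb'
        exact absurd hb'.2.symm hg
      · rw [extMap_one_x, extMap_one_x, Prod.mk.injEq] at hb'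
        exact hb'.2
    · rintro rfl
      exact ⟨(1, Multiplicative.ofAdd 1), rfl⟩
  have key : ∀ a : S.G × Multiplicative (ZMod 2),
      IsSlot (QS.ext S) ((QS.ext S).q (g, 1) (1, Multiplicative.ofAdd 1)) a ↔
        a.2 ≠ 1 ∨ a = (g, 1) := by
    rintro ⟨a, α⟩
    rcases two_cases α with rfl | rfl
    · rw [h1]
      constructor
      · rintro rfl
        exact Or.inr rfl
      · rintro (h | h)
        · exact absurd rfl h
        · exact congrArg Prod.fst h
    · exact ⟨fun _ => Or.inl (by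
        show ¬ (Multiplicative.ofAdd (1 : ZMod 2)) = 1
        decide), fun _ => hx a⟩
  have hx1 : (Multiplicative.ofAdd (1 : ZMod 2)) ≠ 1 := by decide
  refine ⟨?_, ?_, MonoidHom.snd S.G _, ⟨(1, Multiplicative.ofAdd 1), hx 1, hx1⟩,
    fun v _ hv => (key v).2 (Or.inl hv)⟩
  · intro h
    exact hg (ext_zero1x _ _ h)
  · intro a b d ha hb hd n1 n2 n3
    rw [key] at ha hb hd n1 n2 n3 ⊢
    push Not at n1 n2 n3
    obtain ⟨a1, a2⟩ := a
    obtain ⟨b1, b2⟩ := b
    obtain ⟨d1, d2⟩ := d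
    have e1 : a2 * b2 = 1 := n1.1
    have e2 : a2 * d2 = 1 := n2.1
    have e3 : b2 * d2 = 1 := n3.1
    rcases two_cases a2 with rfl | rfl
    · rw [one_mul] at e1 e2
      subst e1 e2
      right
      have f1 := ha.resolve_left (fun h => h rfl)
      have f2 := hb.resolve_left (fun h => h rfl)
      have f3 := hd.resolve_left (fun h => h rfl)
      rw [f1, f2, f3]
      exact Prod.ext (by
        show g * g * g = g
        rw [S.exp_two, one_mul]) (by
        show (1 : Multiplicative (ZMod 2)) * 1 * 1 = 1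
        decide)
    · left
      show Multiplicative.ofAdd 1 * b2 * d2 ≠ 1
      rw [mul_assoc, e3, mul_one]
      exact hx1

theorem good2_loc {S : QStruct}
    (h1 : ∀ a, (∀ b, S.q a b = S.zero) → a = 1) (h2 : Nat.card S.Q = 2) {c : S.Q}
    (hc : c ≠ S.zero) : Good2 S c := by
  have : Finite S.Q := Nat.finite_of_card_ne_zero (by omega)
  have hQ : ∀ b : S.Q, b ≠ S.zero → b = c := by
    intro b hb
    by_contra hbc
    have h3 : ({S.zero, b, c} : Set S.Q).ncard = 3 :=
      Set.ncard_eq_three.2 ⟨_, _, _, hb.symm, hc.symm, hbc, rfl⟩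
    have h4 : ({S.zero, b, c} : Set S.Q).ncard ≤ Nat.card S.Q := Set.ncard_le_card _
    omega
  have hs : ∀ a, IsSlot S c a ↔ a ≠ 1 := by
    intro a
    constructor
    · rintro ⟨b, hb⟩ rfl
      exact hc (hb.symm.trans (q_one1 S b))
    · intro ha
      have h3 : ¬ ∀ b, S.q a b = S.zero := fun h => ha (h1 a h)
      push Not at h3
      obtain ⟨b, hb⟩ := h3
      exact ⟨b, hQ _ hb⟩
  refine ⟨hc, ?_, ?_⟩
  · intro a b d ha hb hd n1 n2 n3
    rw [hs] at ha hb hd n1 n2 n3 ⊢
    push Not at n1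
    rwa [n1, one_mul]
  · obtain ⟨x, u, rfl⟩ := S.surj c
    have hx : x ≠ 1 := (hs x).1 ⟨u, rfl⟩
    obtain ⟨l, hl⟩ := ETC.exists_dual_ne (V := Additive S.G) (v := Additive.ofMul x)
      (fun h => hx h)
    refine ⟨AddMonoidHom.toMultiplicativeRight l.toAddMonoidHom, ⟨x, ⟨u, rfl⟩, ?_⟩, ?_⟩
    · intro h
      have h3 : l (Additive.ofMul x) = 0 := h
      rw [hl] at h3
      exact one_ne_zero h3
    · intro v _ hv
      refine (hs v).2 ?_
      rintro rfl
      exact hv (map_one _)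

/-- **every structure of elementary type with `-1 = 1` and `q ≢ 0` has a quaternion with (3N) and
(HP)** -/
theorem good2_of_elem {S : QStruct} (h : ElemType S) : S.neg = 1 →
    (∃ a b, S.q a b ≠ S.zero) → ∃ c, Good2 S c := by
  induction h with
  | L0 S h =>
    rintro - ⟨a, b, hab⟩
    rw [Nat.card_eq_one_iff_unique] at h
    exact absurd (by rw [h.1.elim a 1]; exact q_one1 S b) hab
  | L10 S h h1 h2 => exact fun _ ⟨a, b, hab⟩ => absurd (h2 a b) hab
  | L11 S h h1 h2 => exact fun hn => absurd hn h1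
  | L1 S h h1 h2 => exact fun hn => absurd hn h1
  | loc S hf h h1 h2 => exact fun _ ⟨a, b, hab⟩ => ⟨_, good2_loc h1 h2 hab⟩
  | prod S T h1 h2 ih1 ih2 =>
    rintro hn ⟨⟨a1, a2⟩, ⟨b1, b2⟩, hab⟩
    by_cases hS : ∃ a b, S.q a b ≠ S.zero
    · obtain ⟨c, hc⟩ := ih1 (congrArg Prod.fst hn) hS
      exact ⟨_, good2_prod_left hc⟩
    · by_cases hT : ∃ a b, T.q a b ≠ T.zero
      · obtain ⟨c, hc⟩ := ih2 (congrArg Prod.snd hn) hT
        exact ⟨_, good2_prod_right hc⟩
      · push Not at hS hT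
        exact absurd (Prod.ext (hS a1 b1) (hT a2 b2)) hab
  | ext S h ih =>
    intro hn hab
    by_cases hS : ∃ a b, S.q a b ≠ S.zero
    · obtain ⟨c, hc⟩ := ih (congrArg Prod.fst hn) hS
      obtain ⟨x, u, rfl⟩ := S.surj c
      exact ⟨_, good2_ext hc⟩
    · push Not at hS
      by_cases hg : ∃ g : S.G, g ≠ 1
      · obtain ⟨g, hg⟩ := hg
        exact ⟨_, good2_ext0 hS hg⟩
      · push Not at hg
        obtain ⟨⟨a, α⟩, ⟨b, β⟩, hab⟩ := hab
        refine absurd ?_ hab
        rw [ext_zero]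
        rw [hg a, hg b]
        rcases two_cases α with rfl | rfl <;> rcases two_cases β with rfl | rfl
        · rw [extMap_one_one, S.q_one]
        · rw [extMap_one_x, S.q_one]
        · rw [extMap_x_one, S.q_one]
        · rw [extMap_x_x, S.q_one, hg (S.neg * 1 * 1)]
  | iso S T h1 h2 ih =>
    intro hn hab
    obtain ⟨φ, h3, h4⟩ := h1
    have hz : ∀ a b, S.q a b = S.zero ↔ T.q (φ a) (φ b) = T.zero := by
      intro a b
      rw [← S.q_one 1, ← T.q_one 1, h4, map_one]
    obtain ⟨a, b, hab⟩ := hab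
    obtain ⟨a, rfl⟩ := φ.surjective a
    obtain ⟨b, rfl⟩ := φ.surjective b
    obtain ⟨c, hc⟩ := ih (φ.injective (by rw [h3, hn, map_one]))
      ⟨a, b, fun h => hab ((hz a b).1 h)⟩
    exact good2_iso ⟨φ, h3, h4⟩ hc

theorem hasN_of_elem {S : QStruct} (hE : ElemType S) (hf : Finite S.G) (hneg : S.neg = 1)
    (hne : ∃ g : S.G, g ≠ 1) : HasN S := Or.inl (hasG_of_elem hE hf hneg hne)

/-- **one step, equivalence** -/
theorem stepn_iff (S : QStruct) (hf : Finite S.G) (hneg : S.neg = 1) :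
    ElemType S ↔ ((∃ g : S.G, g ≠ 1) → HasN S) ∧
      (∀ P, IsRetract S P → Nat.card P.G < Nat.card S.G → ElemType P) ∧
      (∀ P, IsPrimeKer S P → ElemType P) ∧ ∀ P, IsPfister S P → ElemType P :=
  ⟨fun h => ⟨hasN_of_elem h hf hneg, fun _ hP _ => pres_retract h hf hneg hP,
    fun P hP => p2_proof S P h hf hneg hP, fun P hP => p1_proof S P h hf hneg hP⟩,
    fun h => stepn S hf hneg h.1 h.2.1 h.2.2.1 h.2.2.2⟩

/-- **closed classes** -/
theorem classn_iff {𝒞 : QStruct → Prop} (hC : Closed 𝒞) :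
    (∀ S, 𝒞 S → ElemType S) ↔ ∀ S, 𝒞 S → (∃ g : S.G, g ≠ 1) → HasN S := by
  constructor
  · intro h S hS hne
    obtain ⟨hf, hneg⟩ := hC.fin S hS
    exact hasN_of_elem (h S hS) hf hneg hne
  · intro h
    have key : ∀ n : ℕ, ∀ S, 𝒞 S → Nat.card S.G = n → ElemType S := by
      intro n
      induction n using Nat.strong_induction_on with
      | _ n ih =>
        intro S hS hn
        obtain ⟨hf, hneg⟩ := hC.fin S hS
        have hlt : ∀ T, 𝒞 T → Nat.card T.G < Nat.card S.G → ElemType T := by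
          intro T hT hc
          exact ih _ (by rw [← hn]; exact hc) T hT rfl
        refine stepn S hf hneg (h S hS) (fun P hP hc => hlt P (hC.ret S P hS hP) hc)
          (fun P hP => hlt P (hC.ker S P hS hP) ?_) (fun P hP => hlt P (hC.pf S P hS hP) ?_)
        · obtain ⟨-, φ, ι, ⟨⟨v, hv⟩, -⟩, hι, hφ, -⟩ := hP
          have h1 : ∀ a, ι a ≠ v := fun a ha => hv ((hφ v).2 ⟨a, ha⟩)
          have := Fintype.ofFinite S.G
          have hfP : Finite P.G := Finite.of_injective ι hι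
          have := Fintype.ofFinite P.G
          rw [Nat.card_eq_fintype_card, Nat.card_eq_fintype_card]
          exact Fintype.card_lt_of_injective_not_surjective ι hι fun hs => by
            obtain ⟨a, ha⟩ := hs v
            exact h1 a ha
        · obtain ⟨hn', y, hy, π, hπ, hker, -⟩ := hP
          have hfP : Finite P.G := Finite.of_surjective π hπ
          have := Fintype.ofFinite S.G
          have := Fintype.ofFinite P.G
          rw [Nat.card_eq_fintype_card, Nat.card_eq_fintype_card]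
          refine Fintype.card_lt_of_surjective_not_injective π hπ fun hinj => hy ?_
          apply hinj
          rw [map_one, hker]
          have := S.qs1 y
          rwa [hneg, one_mul] at this
    exact fun S hS => key _ S hS rfl

/-- **derived structures** -/
theorem elem_iff_n {S : QStruct} (hf : Finite S.G) (hneg : S.neg = 1) :
    ElemType S ↔ ∀ T, Derived S T → (∃ g : T.G, g ≠ 1) → HasN T := by
  rw [← classn_iff (derived_closed hf hneg)]
  exact ⟨fun h T hT => derived_elem p1_proof p2_proof hf hneg h hT, fun h => h S Derived.self⟩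

/-- **the conjecture** -/
theorem etcn_iff : (∀ S : QStruct, Finite S.G → S.neg = 1 → ElemType S) ↔
    ∀ S : QStruct, Finite S.G → S.neg = 1 → (∃ g : S.G, g ≠ 1) → HasN S := by
  have h := classn_iff all_closed
  constructor
  · intro h1 S h2 h3
    exact h.1 (fun T hT => h1 T hT.1 hT.2) S ⟨h2, h3⟩
  · intro h1 S h2 h3
    exact h.2 (fun T hT => h1 T hT.1 hT.2) S ⟨h2, h3⟩

/-- if `q ≡ 0` on a nontrivial `S`, every element is in the radical -/
theorem hasN_of_zero {S : QStruct} (hf : Finite S.G) (h : ∀ a b, S.q a b = S.zero)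
    (hne : ∃ g : S.G, g ≠ 1) : HasN S := by
  obtain ⟨x, hx⟩ := exists_minRk hf hne
  exact Or.inl ⟨x, hx, Or.inl (h x)⟩

/-- **the conjecture, quaternions only** -/
theorem etcc_iff : (∀ S : QStruct, Finite S.G → S.neg = 1 → ElemType S) ↔
    ∀ S : QStruct, Finite S.G → S.neg = 1 → (∃ a b, S.q a b ≠ S.zero) → ∃ c, GoodC S c := by
  constructor
  · intro h S hf hneg hab
    obtain ⟨c, h1, h2, h3⟩ := good2_of_elem (h S hf hneg) hneg hab
    exact ⟨c, h1, Or.inl h2⟩
  · intro h
    rw [etcn_iff]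
    intro S hf hneg hne
    by_cases hab : ∃ a b, S.q a b ≠ S.zero
    · exact Or.inr (h S hf hneg hab)
    · push Not at hab
      exact hasN_of_zero hf hab hne

end Pool.Agent.ETCD2
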